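import Pool.Agent.Helper115.Minors

set_option autoImplicit false

namespace Pool.Agent.Helper115.Nd

open MvPolynomial

theorem homIndep_fin_one {R : Type*} [CommRing R] [IsDomain R] [Algebra ℂ R] (x : Fin 1 → R)
    (h : x 0 ≠ 0) : HomIndep x := by
  intro P δ hP h0
  have h1 : P = monomial (Finsupp.single 0 δ) (coeff (Finsupp.single 0 δ) P) := by
    ext m
    have hm : m = Finsupp.single 0 (m 0) := by
      refine Finsupp.ext fun i => ?_
      fin_cases i
      simp
    rw [coeff_monomial]
    by_cases h2 : m 0 = δ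
    · rw [hm, h2]; simp
    · rw [if_neg]
      · apply hP.coeff_eq_zero
        rw [hm]
        simpa using h2
      · intro h3
        apply h2
        rw [← h3]; simp
  rw [h1, aeval_monomial] at h0
  rw [h1]
  have h2 : (Finsupp.single (0 : Fin 1) δ).prod (fun i k => x i ^ k) = x 0 ^ δ := by
    simp
  rw [h2] at h0
  have h3 := (mul_eq_zero.mp h0).resolve_right (pow_ne_zero _ h)
  have h4 : coeff (Finsupp.single 0 δ) P = 0 := by
    apply (algebraMap ℂ R).injective
    rw [h3, map_zero]
  rw [h4, map_zero]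

theorem homIndep_pair (m : ℕ) (hm : 0 < m) (c : ℂ) (hc : c ≠ 0) :
    HomIndep (![Polynomial.C c * Polynomial.X ^ m, 1] : Fin 2 → Polynomial ℂ) := by
  have h1 : HomIndep (![1, Polynomial.X ^ m * Polynomial.C c] : Fin 2 → Polynomial ℂ) := by
    refine homIndep_step m hm _ (fun _ => Polynomial.C c) ?_ ?_ ?_
    · simp
    · intro j
      fin_cases j
      simp
    · apply homIndep_fin_one
      simpa using hc
  have h2 := h1.of_equiv (Equiv.swap (0 : Fin 2) 1)
  convert h2 using 1
  funext i
  fin_cases i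
  · change _ = (![1, Polynomial.X ^ m * Polynomial.C c] : Fin 2 → Polynomial ℂ) ((Equiv.swap 0 1) 0)
    rw [Equiv.swap_apply_left]
    exact mul_comm _ _
  · simp

/-- The variable `T`. -/
noncomputable def tv : Polynomial (Polynomial ℂ) := Polynomial.C Polynomial.X

/-- The starting sequence `0, 1, W, T`. -/
noncomputable def ybase : ℕ → Polynomial (Polynomial ℂ)
  | 0 => 0
  | 1 => 1
  | 2 => Polynomial.X
  | 3 => tv
  | _ => 0

/-- Auxiliary factor. -/
noncomputable def wz (E : ℕ) : Polynomial (Polynomial ℂ) :=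
  ((E : Polynomial (Polynomial ℂ)) + 1) * tv ^ (E + 2) +
    Polynomial.X * (tv ^ (E + 2) -
      ((E : Polynomial (Polynomial ℂ)) + 2) * tv ^ (E + 1))

theorem mino_base_zero (E : ℕ) : mino (E + 2) E 2 ybase 0 =
    Polynomial.X * (Polynomial.X ^ (E + 1) * wz E) := by
  have hc1 : (E + 2).choose (E + 1) = E + 2 := by
    rw [show E + 2 = (E + 1) + 1 from rfl, Nat.choose_succ_self_right]
  have hc2 : (E + 2).choose (E + 1 + 1 + 1) = 0 := Nat.choose_eq_zero_of_lt (by omega)
  have hc3 : (E + 2).choose (E + 1 + 1) = 1 := Nat.choose_self _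
  simp [mino, Matrix.det_fin_two, ent, ybase, hc1, hc2, hc3, Fin.succAbove, wz]
  ring

theorem mino_base_one (E : ℕ) : mino (E + 2) E 2 ybase 1 =
    Polynomial.X * (- tv ^ (E + 2)) := by
  have hc2 : (E + 2).choose (E + 1 + 1 + 1) = 0 := Nat.choose_eq_zero_of_lt (by omega)
  have hc3 : (E + 2).choose (E + 1 + 1) = 1 := Nat.choose_self _
  simp [mino, Matrix.det_fin_two, ent, ybase, hc2, hc3, Fin.succAbove]
  ring

theorem mino_base_two (E : ℕ) : mino (E + 2) E 2 ybase 2 =
    Polynomial.X * (Polynomial.X ^ (E + 1)) := by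
  have hc2 : (E + 2).choose (E + 1 + 1 + 1) = 0 := Nat.choose_eq_zero_of_lt (by omega)
  have hc3 : (E + 2).choose (E + 1 + 1) = 1 := Nat.choose_self _
  simp [mino, Matrix.det_fin_two, ent, ybase, hc2, hc3, Fin.succAbove]
  ring

theorem tv_coeff_zero : tv.coeff 0 = Polynomial.X := by simp [tv]

theorem coeff_zero_tv_pow (m : ℕ) : (tv ^ m).coeff 0 = Polynomial.X ^ m := by
  have : ∀ r : Polynomial (Polynomial ℂ), r.coeff 0 = Polynomial.constantCoeff r := fun r => rfl
  rw [this, map_pow, ← this, tv_coeff_zero]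

theorem homIndep_base (E : ℕ) : HomIndep (mino (E + 2) E 2 ybase) := by
  have hcc : ∀ r : Polynomial (Polynomial ℂ), r.coeff 0 = Polynomial.constantCoeff r := fun r => rfl
  have h1 : HomIndep (![- tv ^ (E + 2), Polynomial.X ^ (E + 1) * wz E,
      Polynomial.X ^ (E + 1) * 1] : Fin 3 → Polynomial (Polynomial ℂ)) := by
    refine homIndep_step (E + 1) (by omega) _ ![wz E, 1] ?_ ?_ ?_
    · simp only [Matrix.cons_val_zero, Polynomial.coeff_neg, coeff_zero_tv_pow]
      exact neg_ne_zero.mpr (pow_ne_zero _ Polynomial.X_ne_zero)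
    · intro j
      fin_cases j <;> simp
    · have h2 := homIndep_pair (E + 2) (by omega) ((E : ℂ) + 1)
        (by exact_mod_cast Nat.succ_ne_zero E)
      convert h2 using 1
      funext j
      fin_cases j
      · have h5 : Polynomial.constantCoeff tv = Polynomial.X := tv_coeff_zero
        have h6 : Polynomial.constantCoeff (wz E) = ((E : Polynomial ℂ) + 1) * Polynomial.X ^ (E + 2) := by
          simp only [wz, map_add, map_mul, map_pow, h5, map_natCast, map_one, map_sub, map_ofNat]
          rw [show Polynomial.constantCoeff (Polynomial.X : Polynomial (Polynomial ℂ)) = 0 by simp]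
          ring
        change (wz E).coeff 0 = _
        rw [hcc, h6]
        simp
      · simp
  have h3 := (h1.of_equiv (Equiv.swap (0 : Fin 3) 1)).mul
    (c := (Polynomial.X : Polynomial (Polynomial ℂ))) Polynomial.X_ne_zero
  convert h3 using 1
  funext j
  fin_cases j
  · change mino (E + 2) E 2 ybase 0 = _
    rw [mino_base_zero]; simp
  · change mino (E + 2) E 2 ybase 1 = _
    rw [mino_base_one]; simp
  · change mino (E + 2) E 2 ybase 2 = _
    rw [mino_base_two]
    change _ = Polynomial.X * (![- tv ^ (E + 2), Polynomial.X ^ (E + 1) * wz E,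
      Polynomial.X ^ (E + 1) * 1] : Fin 3 → Polynomial (Polynomial ℂ)) ((Equiv.swap 0 1) 2)
    rw [Equiv.swap_apply_of_ne_of_ne (by decide) (by decide)]
    simp

theorem tdet_base (E : ℕ) : tdet (E + 2) E 2 ybase ≠ 0 := by
  intro h
  have hc1 : (E + 2).choose (E + 1) = E + 2 := by
    rw [show E + 2 = (E + 1) + 1 from rfl, Nat.choose_succ_self_right]
  have h1 : Polynomial.eval 1 (Polynomial.eval 2 (tdet (E + 2) E 2 ybase)) = 0 := by
    rw [h]; simp
  rw [← sum_ent_mul_mino_eq_tdet, Fin.sum_univ_three, mino_base_zero, mino_base_one,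
    mino_base_two] at h1
  simp [ent, ybase, hc1, wz, tv] at h1
  have h2 : (((E + 2).choose E : ℕ) : ℂ) ≠ 0 := by
    exact_mod_cast (Nat.choose_pos (by omega)).ne'
  have h3 : (((E + 2).choose E : ℕ) : ℂ) = ((E : ℂ) + 2) * ((E : ℂ) + 1) / 2 := by
    rw [Nat.choose_symm_add, Nat.cast_choose_two]
    push_cast
    ring
  have h4 : (2 : ℂ) ^ E ≠ 0 := pow_ne_zero _ two_ne_zero
  have h5 : -2 * (((E + 2).choose E : ℕ) : ℂ) * 2 ^ E = 0 := by
    rw [← h1, pow_succ, h3]
    ring
  have h6 : (((E + 2).choose E : ℕ) : ℂ) * 2 ^ E = 0 := by linear_combination (-1 / 2) * h5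
  exact mul_ne_zero h2 h4 h6

/-- Existence of a good sequence for the system of size `M + 2`. -/
theorem exists_good (D : ℕ) : ∀ M ρ : ℕ, M + 2 + ρ = D →
    ∃ (R : Type) (_ : CommRing R) (_ : IsDomain R) (_ : Algebra ℂ R) (y : ℕ → R),
      y 0 = 0 ∧ HomIndep (mino D ρ (M + 2) y) ∧ tdet D ρ (M + 2) y ≠ 0 := by
  intro M
  induction M with
  | zero =>
    intro ρ hρ
    obtain rfl : D = ρ + 2 := by omega
    exact ⟨Polynomial (Polynomial ℂ), inferInstance, inferInstance, inferInstance, ybase, rfl,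
      homIndep_base ρ, tdet_base ρ⟩
  | succ M ih =>
    intro ρ hρ
    obtain ⟨R, _, _, _, y, hy, h1, h2⟩ := ih (ρ + 1) (by omega)
    obtain ⟨h3, h4⟩ := step R D ρ (M + 1) (by omega) y hy h1 h2
    exact ⟨Polynomial R, inferInstance, inferInstance, inferInstance, ynew y, rfl, h3, h4⟩

end Pool.Agent.Helper115.Nd
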