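import Pool.Agent.Helper115.Generic

set_option autoImplicit false

namespace Pool.Agent.Helper115.Nd

open MvPolynomial

/-- The chain form `x_0 ^ (D+1) + x_0 x_1 ^ D + ... + x_D x_{D+1} ^ D`. -/
noncomputable def chainF (D : ℕ) : MvPolynomial (Fin (D + 2)) ℂ :=
  X 0 ^ (D + 1) + ∑ j : Fin (D + 1), X j.castSucc * X j.succ ^ D

/-- The constant term of the chain form seen as a polynomial in `x_0`. -/
noncomputable def chainC (D : ℕ) : MvPolynomial (Fin (D + 1)) ℂ :=
  ∑ j : Fin D, X j.castSucc * X j.succ ^ D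

theorem finSuccEquiv_chainF (D : ℕ) : finSuccEquiv ℂ (D + 1) (chainF D) =
    Polynomial.X ^ (D + 1) + (Polynomial.C (X 0 ^ D) * Polynomial.X + Polynomial.C (chainC D)) := by
  rw [chainF, Fin.sum_univ_succ, chainC]
  simp only [map_add, map_pow, map_mul, map_sum, finSuccEquiv_X_zero, Fin.castSucc_zero,
    finSuccEquiv_X_succ, Fin.castSucc_succ]
  ring

theorem chain_deg (D : ℕ) (hD : 1 ≤ D) :
    (Polynomial.C (X 0 ^ D : MvPolynomial (Fin (D + 1)) ℂ) * Polynomial.X +
      Polynomial.C (chainC D)).degree < ((D + 1 : ℕ) : WithBot ℕ) := by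
  refine lt_of_le_of_lt Polynomial.degree_linear_le ?_
  exact_mod_cast (by omega : 1 < D + 1)

theorem chain_monic (D : ℕ) (hD : 1 ≤ D) : (finSuccEquiv ℂ (D + 1) (chainF D)).Monic := by
  rw [finSuccEquiv_chainF]
  exact Polynomial.monic_X_pow_add (chain_deg D hD)

theorem chain_natDegree (D : ℕ) (hD : 1 ≤ D) :
    (finSuccEquiv ℂ (D + 1) (chainF D)).degree = (D + 1 : ℕ) := by
  rw [finSuccEquiv_chainF]
  rw [Polynomial.degree_add_eq_left_of_degree_lt]
  · exact Polynomial.degree_X_pow _
  · rw [Polynomial.degree_X_pow]; exact chain_deg D hD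

/-- Restriction to the last coordinate axis. -/
noncomputable def psi1 (D : ℕ) : MvPolynomial (Fin (D + 1)) ℂ →ₐ[ℂ] Polynomial ℂ :=
  aeval fun i => if i = Fin.last D then Polynomial.X else 0

/-- Restriction to a line through a point of the last coordinate axis. -/
noncomputable def psi2 (E : ℕ) : MvPolynomial (Fin (E + 2)) ℂ →ₐ[ℂ] Polynomial ℂ :=
  aeval fun i => if i = Fin.last (E + 1) then 1 else
    if i = (Fin.last E).castSucc then Polynomial.X else 0

theorem psi2_mem (E : ℕ) (p : MvPolynomial (Fin (E + 2)) ℂ) (hp : psi1 (E + 1) p = 0) :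
    Polynomial.X ∣ psi2 E p := by
  rw [Polynomial.X_dvd_iff, Polynomial.coeff_zero_eq_eval_zero]
  have h1 : ((Polynomial.aeval (0 : ℂ)).comp (psi2 E)) =
      ((Polynomial.aeval (1 : ℂ)).comp (psi1 (E + 1))) := by
    apply MvPolynomial.algHom_ext
    intro i
    simp only [psi1, psi2, AlgHom.comp_apply, aeval_X]
    split_ifs <;> simp
  have h2 := DFunLike.congr_fun h1 p
  simp only [AlgHom.comp_apply, hp, map_zero] at h2
  simpa [Polynomial.aeval_def, Polynomial.eval₂_eq_eval_map] using h2

theorem chain_irreducible (D : ℕ) (hD : 1 ≤ D) :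
    Irreducible (finSuccEquiv ℂ (D + 1) (chainF D)) := by
  obtain ⟨E, rfl⟩ : ∃ E, D = E + 1 := ⟨D - 1, by omega⟩
  have hmon := chain_monic (E + 1) (by omega)
  have hprime : (RingHom.ker (psi1 (E + 1))).IsPrime := RingHom.ker_isPrime _
  have hc : chainC (E + 1) ∈ RingHom.ker (psi1 (E + 1)) := by
    rw [RingHom.mem_ker, chainC, map_sum]
    refine Finset.sum_eq_zero fun j _ => ?_
    rw [map_mul]
    have : psi1 (E + 1) (X j.castSucc) = 0 := by
      rw [psi1, aeval_X, if_neg (Fin.castSucc_lt_last j).ne]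
    rw [this, zero_mul]
  have h0 : (X 0 ^ (E + 1) : MvPolynomial (Fin (E + 2)) ℂ) ∈ RingHom.ker (psi1 (E + 1)) := by
    rw [RingHom.mem_ker, map_pow]
    have : psi1 (E + 1) (X 0) = 0 := by
      rw [psi1, aeval_X, if_neg]
      exact (Fin.last_pos).ne
    rw [this, zero_pow (by omega)]
  refine Polynomial.irreducible_of_eisenstein_criterion hprime ?_ ?_ ?_ ?_ hmon.isPrimitive
  · rw [hmon.leadingCoeff]
    intro h
    exact hprime.ne_top ((Ideal.eq_top_iff_one _).mpr h)
  · intro n hn
    rw [chain_natDegree (E + 1) (by omega)] at hn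
    have hn' : n < E + 1 + 1 := by exact_mod_cast hn
    rw [finSuccEquiv_chainF, Polynomial.coeff_add, Polynomial.coeff_X_pow, if_neg hn'.ne, zero_add,
      Polynomial.coeff_add, Polynomial.coeff_C_mul, Polynomial.coeff_X, Polynomial.coeff_C]
    refine Ideal.add_mem _ ?_ ?_
    · exact Ideal.mul_mem_right _ _ h0
    · split_ifs
      · exact hc
      · exact Ideal.zero_mem _
  · rw [chain_natDegree (E + 1) (by omega)]
    exact_mod_cast (by omega : 0 < E + 1 + 1)
  · rw [finSuccEquiv_chainF]
    simp only [Polynomial.coeff_add, Polynomial.coeff_X_pow, Polynomial.mul_coeff_zero,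
      Polynomial.coeff_X_zero, mul_zero, Polynomial.coeff_C_zero, zero_add]
    rw [if_neg (by omega), zero_add]
    intro h
    have h1 : RingHom.ker (psi1 (E + 1)) ≤
        Ideal.comap (psi2 E) (Ideal.span {(Polynomial.X : Polynomial ℂ)}) := by
      intro p hp
      rw [Ideal.mem_comap, Ideal.mem_span_singleton]
      exact psi2_mem E p hp
    have h2 : psi2 E (chainC (E + 1)) ∈ Ideal.span {(Polynomial.X : Polynomial ℂ) ^ 2} := by
      rw [← Ideal.span_singleton_pow]
      have h3 := Ideal.pow_right_mono h1 2 h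
      have h4 := Ideal.le_comap_pow (psi2 E) (K := Ideal.span {(Polynomial.X : Polynomial ℂ)}) 2
      exact h4 h3
    have h3 : psi2 E (chainC (E + 1)) = Polynomial.X := by
      rw [chainC, map_sum, Finset.sum_eq_single (Fin.last E)]
      · rw [map_mul, map_pow]
        have h5 : psi2 E (X (Fin.last E).castSucc) = Polynomial.X := by
          rw [psi2, aeval_X, if_neg (Fin.castSucc_lt_last _).ne, if_pos rfl]
        have h6 : psi2 E (X (Fin.last E).succ) = 1 := by
          rw [psi2, aeval_X, Fin.succ_last, if_pos rfl]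
        rw [h5, h6, one_pow, mul_one]
      · intro j _ hj
        have h5 : psi2 E (X j.castSucc) = 0 := by
          rw [psi2, aeval_X, if_neg (Fin.castSucc_lt_last _).ne, if_neg]
          intro h6
          exact hj (Fin.castSucc_injective _ h6)
        rw [map_mul, h5, zero_mul]
      · intro h; exact absurd (Finset.mem_univ _) h
    rw [h3, Ideal.mem_span_singleton] at h2
    have h4 := Polynomial.natDegree_le_of_dvd h2 Polynomial.X_ne_zero
    rw [Polynomial.natDegree_X_pow, Polynomial.natDegree_X] at h4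
    omega

/-- A point of the chain hypersurface whose monomials are independent is generic: step 1. -/
theorem tail_algebraicIndependent {Ω : Type} [Field Ω] [Algebra ℂ Ω] (D : ℕ) (hD : 1 ≤ D)
    (q : Fin (D + 2) → Ω) (hF : aeval q (chainF D) = 0)
    (hm : AlgebraicIndependent ℂ (fun j : Fin (D + 1) => q j.castSucc * q j.succ ^ D)) :
    AlgebraicIndependent ℂ (fun j : Fin (D + 1) => q j.succ) := by
  let B := Algebra.adjoin ℂ (Set.range q)
  have hqB : ∀ i, q i ∈ B := fun i => Algebra.subset_adjoin ⟨i, rfl⟩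
  let qB : Fin (D + 2) → B := fun i => ⟨q i, hqB i⟩
  let x : Fin (D + 1) → B := fun j => qB j.succ
  have hx : (fun j : Fin (D + 1) => q j.succ) = B.val ∘ x := rfl
  rw [hx, AlgHom.algebraicIndependent_iff _ Subtype.val_injective]
  have hm' : AlgebraicIndependent ℂ (fun j : Fin (D + 1) => qB j.castSucc * qB j.succ ^ D) := by
    rw [← AlgHom.algebraicIndependent_iff B.val Subtype.val_injective]
    exact hm
  let R0 := Algebra.adjoin ℂ (Set.range x)
  have hint0 : IsIntegral R0 (qB 0) := by
    let ψ : MvPolynomial (Fin (D + 1)) ℂ →ₐ[ℂ] R0 :=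
      aeval fun j => ⟨x j, Algebra.subset_adjoin ⟨j, rfl⟩⟩
    refine ⟨(finSuccEquiv ℂ (D + 1) (chainF D)).map (ψ : _ →+* R0), ?_, ?_⟩
    · exact (chain_monic D hD).map _
    · rw [Polynomial.eval₂_map]
      have h1 : aeval qB (chainF D) = 0 := by
        apply Subtype.val_injective
        change B.val (aeval qB (chainF D)) = _
        rw [comp_aeval_apply]
        exact hF
      rw [aeval_eq_eval₂_finSuccEquiv] at h1
      rw [← h1]
      congr 1
      apply MvPolynomial.ringHom_ext
      · intro r
        simp only [RingHom.comp_apply, RingHom.coe_coe, ψ]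
        rw [← algebraMap_eq, AlgHom.commutes, AlgHom.commutes]
        rfl
      · intro i
        simp only [RingHom.comp_apply, RingHom.coe_coe, ψ, aeval_X]
        rfl
  have hint : ∀ i, IsIntegral R0 (qB i) := by
    intro i
    refine Fin.cases hint0 (fun j => ?_) i
    have : qB j.succ = algebraMap R0 B ⟨x j, Algebra.subset_adjoin ⟨j, rfl⟩⟩ := rfl
    rw [this]
    exact isIntegral_algebraMap
  have hall : ∀ b : B, IsIntegral R0 b := by
    rintro ⟨b, hb⟩
    induction hb using Algebra.adjoin_induction with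
    | mem b hb =>
      obtain ⟨i, rfl⟩ := hb
      exact hint i
    | algebraMap r =>
      exact isIntegral_algebraMap (x := algebraMap ℂ R0 r)
    | add a b ha hb h1 h2 => exact h1.add h2
    | mul a b ha hb h1 h2 => exact h1.mul h2
  have : Algebra.IsIntegral R0 B := ⟨hall⟩
  have : Algebra.IsAlgebraic R0 B := ⟨fun b => (hall b).isAlgebraic⟩
  have hle : Cardinal.mk (Fin (D + 1)) ≤ Algebra.trdeg ℂ B := hm'.cardinalMk_le_trdeg
  exact (Algebra.IsAlgebraic.isTranscendenceBasis_of_le_trdeg_of_finite ℂ x hle).1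

/-- A point of the chain hypersurface whose monomials are independent is generic. -/
theorem dvd_of_generic {Ω : Type} [Field Ω] [Algebra ℂ Ω] (D : ℕ) (hD : 1 ≤ D)
    (q : Fin (D + 2) → Ω) (hF : aeval q (chainF D) = 0)
    (hm : AlgebraicIndependent ℂ (fun j : Fin (D + 1) => q j.castSucc * q j.succ ^ D))
    (h : MvPolynomial (Fin (D + 2)) ℂ) (hh : aeval q h = 0) : chainF D ∣ h := by
  have hind := tail_algebraicIndependent D hD q hF hm
  set p := finSuccEquiv ℂ (D + 1) (chainF D) with hp
  set r := finSuccEquiv ℂ (D + 1) h with hr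
  suffices hpr : p ∣ r by
    have h1 := map_dvd (finSuccEquiv ℂ (D + 1)).symm hpr
    rw [hp, hr, AlgEquiv.symm_apply_apply, AlgEquiv.symm_apply_apply] at h1
    exact h1
  let A := MvPolynomial (Fin (D + 1)) ℂ
  let K := FractionRing A
  let ψ : A →ₐ[ℂ] Ω := aeval fun j => q j.succ
  have hψ : Function.Injective ψ := hind
  let φ : K →+* Ω := IsFractionRing.lift (g := (ψ : A →+* Ω)) hψ
  have hφ : φ.comp (algebraMap A K) = (ψ : A →+* Ω) := by
    refine RingHom.ext fun a => ?_
    rw [RingHom.comp_apply]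
    exact IsFractionRing.lift_algebraMap _ a
  letI : Algebra K Ω := φ.toAlgebra
  have hpmon : p.Monic := chain_monic D hD
  have hpirr : Irreducible p := chain_irreducible D hD
  have hpK : Irreducible (p.map (algebraMap A K)) :=
    (hpmon.irreducible_iff_irreducible_map_fraction_map).mp hpirr
  have hroot : ∀ s : Polynomial A, s.eval₂ (ψ : A →+* Ω) (q 0) = 0 →
      Polynomial.aeval (q 0) (s.map (algebraMap A K)) = 0 := by
    intro s hs
    rw [Polynomial.aeval_def, Polynomial.eval₂_map]
    have : (algebraMap K Ω).comp (algebraMap A K) = (ψ : A →+* Ω) := hφ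
    rw [this]
    exact hs
  have hp0 : Polynomial.aeval (q 0) (p.map (algebraMap A K)) = 0 := by
    apply hroot
    rw [aeval_eq_eval₂_finSuccEquiv] at hF
    exact hF
  have hr0 : Polynomial.aeval (q 0) (r.map (algebraMap A K)) = 0 := by
    apply hroot
    rw [aeval_eq_eval₂_finSuccEquiv] at hh
    exact hh
  have hmin : p.map (algebraMap A K) = minpoly K (q 0) :=
    minpoly.eq_of_irreducible_of_monic hpK hp0 (hpmon.map _)
  have hdvd : p.map (algebraMap A K) ∣ r.map (algebraMap A K) := by
    rw [hmin]; exact minpoly.dvd K (q 0) hr0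
  exact (Polynomial.map_dvd_map (algebraMap A K) (IsFractionRing.injective A K) hpmon).mp hdvd

end Pool.Agent.Helper115.Nd
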