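import Mathlib

set_option autoImplicit false

namespace Pool.Agent.Helper115.GF

open Filter Topology Finset

section
variable {X : Type*} [NormedAddCommGroup X] [NormedSpace ℝ X]

theorem exists_near (f : X →L[ℝ] ℝ) (ε : ℝ) (hε : 0 < ε) : ∃ z : X, ‖z‖ ≤ 1 ∧ ‖f‖ - ε ≤ f z := by
  obtain ⟨z, hz, h⟩ := f.exists_lt_apply_of_lt_opNorm (show ‖f‖ - ε < ‖f‖ by linarith)
  rw [Real.norm_eq_abs] at h
  rcases le_total 0 (f z) with h0 | h0
  · exact ⟨z, hz.le, by rw [abs_of_nonneg h0] at h; exact h.le⟩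
  · refine ⟨-z, by rw [norm_neg]; exact hz.le, ?_⟩
    rw [abs_of_nonpos h0] at h
    rw [map_neg]; exact h.le

theorem exists_norming (F : Submodule ℝ (X →L[ℝ] ℝ)) [FiniteDimensional ℝ F] (η : ℝ)
    (hη : 0 < η) : ∃ E : Submodule ℝ X, FiniteDimensional ℝ E ∧
      ∀ f ∈ F, ‖f‖ ≤ 1 → ∃ z ∈ E, ‖z‖ ≤ 1 ∧ ‖f‖ - η ≤ f z := by
  have hc : IsCompact (Metric.closedBall (0 : F) 1) := isCompact_closedBall 0 1
  obtain ⟨t, -, ht, hcov⟩ := hc.finite_cover_balls (show 0 < η / 4 by linarith)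
  have hz : ∀ f : F, ∃ z : X, ‖z‖ ≤ 1 ∧ ‖(f : X →L[ℝ] ℝ)‖ - η / 4 ≤ (f : X →L[ℝ] ℝ) z := fun f =>
    exists_near _ _ (by linarith)
  choose z hz1 hz2 using hz
  refine ⟨Submodule.span ℝ (z '' t), FiniteDimensional.span_of_finite ℝ (ht.image z), ?_⟩
  intro f hf hf1
  have h1 : (⟨f, hf⟩ : F) ∈ Metric.closedBall (0 : F) 1 := by
    rw [Metric.mem_closedBall, Subtype.dist_eq]
    change dist f 0 ≤ 1
    rw [dist_zero_right]; exact hf1
  have h2 := hcov h1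
  simp only [Set.mem_iUnion, Metric.mem_ball] at h2
  obtain ⟨g, hg, hd⟩ := h2
  refine ⟨z g, Submodule.subset_span ⟨g, hg, rfl⟩, hz1 g, ?_⟩
  have h3 : ‖f - (g : X →L[ℝ] ℝ)‖ < η / 4 := by
    rw [Subtype.dist_eq, dist_eq_norm] at hd; exact hd
  have h4 : |(f - (g : X →L[ℝ] ℝ)) (z g)| ≤ ‖f - (g : X →L[ℝ] ℝ)‖ * 1 := by
    refine ((f - (g : X →L[ℝ] ℝ)).le_opNorm (z g)).trans ?_
    exact mul_le_mul_of_nonneg_left (hz1 g) (norm_nonneg _)
  have h5 := hz2 g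
  have h6 : ‖f‖ ≤ ‖f - (g : X →L[ℝ] ℝ)‖ + ‖(g : X →L[ℝ] ℝ)‖ := by
    have := norm_add_le (f - (g : X →L[ℝ] ℝ)) (g : X →L[ℝ] ℝ)
    rwa [sub_add_cancel] at this
  rw [sub_apply] at h4
  have h7 := (abs_le.mp h4).1
  linarith

theorem exists_annihilator (hX : ¬ FiniteDimensional ℝ X) (E : Submodule ℝ X)
    [FiniteDimensional ℝ E] : ∃ f : X →L[ℝ] ℝ, ‖f‖ = 1 ∧ ∀ z ∈ E, f z = 0 := by
  have hcl : IsClosed (E : Set X) := E.closed_of_finiteDimensional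
  have hE : ∃ x : X, x ∉ E := by
    by_contra h
    push Not at h
    apply hX
    have : E = ⊤ := by
      rw [eq_top_iff]; intro x _; exact h x
    subst this
    exact Module.Finite.equiv (Submodule.topEquiv (R := ℝ) (M := X))
  obtain ⟨x, hx⟩ := hE
  obtain ⟨f, s, hf1, hf2⟩ := geometric_hahn_banach_closed_point (E.convex) hcl hx
  have h0 : ∀ z ∈ E, f z = 0 := by
    intro z hz
    by_contra hne
    have h1 := hf1 ((s / f z) • z) (E.smul_mem _ hz)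
    rw [map_smul, smul_eq_mul, div_mul_cancel₀ _ hne] at h1
    exact lt_irrefl _ h1
  have hs : 0 < s := by
    have := hf1 0 E.zero_mem
    rwa [map_zero] at this
  have hfne : f ≠ 0 := by
    rintro rfl
    rw [zero_apply] at hf2
    linarith
  refine ⟨‖f‖⁻¹ • f, ?_, ?_⟩
  · rw [norm_smul, norm_inv, norm_norm, inv_mul_cancel₀ (norm_ne_zero_iff.mpr hfne)]
  · intro z hz
    rw [smul_apply, h0 z hz, smul_zero]

theorem exists_seq (hX : ¬ FiniteDimensional ℝ X) (η : ℝ) (hη : 0 < η) :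
    ∃ u : ℕ → X →L[ℝ] ℝ, (∀ n, ‖u n‖ = 1) ∧ ∀ k, ∃ E : Submodule ℝ X,
      (∀ m, k ≤ m → ∀ z ∈ E, u m z = 0) ∧
      ∀ f ∈ Submodule.span ℝ (u '' {j | j < k}), ‖f‖ ≤ 1 →
        ∃ z ∈ E, ‖z‖ ≤ 1 ∧ ‖f‖ - η ≤ f z := by
  classical
  have hE : ∀ t : Finset (X →L[ℝ] ℝ), ∃ E : Submodule ℝ X, FiniteDimensional ℝ E ∧
      ∀ f ∈ Submodule.span ℝ (t : Set (X →L[ℝ] ℝ)), ‖f‖ ≤ 1 →
        ∃ z ∈ E, ‖z‖ ≤ 1 ∧ ‖f‖ - η ≤ f z := fun t => by
    have : FiniteDimensional ℝ (Submodule.span ℝ (t : Set (X →L[ℝ] ℝ))) :=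
      FiniteDimensional.span_finset ℝ t
    exact exists_norming _ η hη
  choose E hEfin hE using hE
  have hnext : ∀ s : Finset (X →L[ℝ] ℝ), ∃ f : X →L[ℝ] ℝ, ‖f‖ = 1 ∧
      ∀ z ∈ s.powerset.sup E, f z = 0 := fun s => by
    have : FiniteDimensional ℝ (s.powerset.sup E : Submodule ℝ X) :=
      Submodule.finiteDimensional_finset_sup s.powerset E
    exact exists_annihilator hX _
  choose next hn1 hn2 using hnext
  let st : ℕ → Finset (X →L[ℝ] ℝ) := fun n => Nat.rec ∅ (fun _ s => insert (next s) s) n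
  have hst : ∀ n, st (n + 1) = insert (next (st n)) (st n) := fun n => rfl
  have hmono : Monotone st := monotone_nat_of_le_succ fun n => by
    rw [hst]; exact Finset.subset_insert _ _
  refine ⟨fun n => next (st n), fun n => hn1 _, fun k => ⟨E (st k), ?_, ?_⟩⟩
  · intro m hm z hz
    refine hn2 (st m) z ?_
    have h1 : E (st k) ≤ (st m).powerset.sup E :=
      Finset.le_sup (f := E) (Finset.mem_powerset.mpr (hmono hm))
    exact h1 hz
  · intro f hf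
    refine hE (st k) f ?_
    refine Submodule.span_mono ?_ hf
    rintro _ ⟨j, hj, rfl⟩
    have h1 : next (st j) ∈ st (j + 1) := by
      rw [hst]; exact Finset.mem_insert_self _ _
    exact hmono (Nat.succ_le_of_lt hj) h1

/-- uniform convexity of the norm -/
def UC (X : Type*) [NormedAddCommGroup X] [NormedSpace ℝ X] : Prop :=
  ∀ ε : ℝ, 0 < ε → ∃ δ : ℝ, 0 < δ ∧ ∀ x y : X, ‖x‖ ≤ 1 → ‖y‖ ≤ 1 → ε ≤ ‖x - y‖ →
    ‖x + y‖ ≤ 2 - δ

/-- the key inequality for two consecutive blocks -/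
theorem exists_blocks (hX : ¬ FiniteDimensional ℝ X) (hU : UC X) :
    ∃ (θ : ℝ) (u : ℕ → X →L[ℝ] ℝ), 0 < θ ∧ θ < 2 ∧ (∀ n, ‖u n‖ = 1) ∧
      ∀ (k : ℕ) (f g : X →L[ℝ] ℝ), f ∈ Submodule.span ℝ (u '' {j | j < k}) →
        g ∈ Submodule.span ℝ (u '' {j | k ≤ j}) → ‖f‖ ≤ 1 → ‖g‖ ≤ 1 → ‖f + g‖ ≤ θ := by
  obtain ⟨δ, hδ, hδ2⟩ := hU (1 / 2) (by norm_num)
  set η : ℝ := min (δ / 4) (1 / 4) with hη
  have hη0 : 0 < η := lt_min (by linarith) (by norm_num)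
  have hη1 : η ≤ δ / 4 := min_le_left _ _
  have hη2 : η ≤ 1 / 4 := min_le_right _ _
  obtain ⟨u, hu1, hu2⟩ := exists_seq hX η hη0
  refine ⟨2 - η, u, by linarith, by linarith, hu1, ?_⟩
  intro k f g hf hg hf1 hg1
  obtain ⟨E, hE1, hE2⟩ := hu2 k
  by_contra hcon
  push Not at hcon
  obtain ⟨z, hz1, hz2⟩ := exists_near (f + g) ((‖f + g‖ - (2 - η)) / 2) (by linarith)
  have hz3 : 2 - η < (f + g) z := by linarith
  rw [add_apply] at hz3
  have hle : ∀ (p : X →L[ℝ] ℝ) (w : X), ‖p‖ ≤ 1 → ‖w‖ ≤ 1 → p w ≤ 1 := by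
    intro p w hp hw
    have h1 := (le_abs_self (p w)).trans (p.le_opNorm w)
    have h2 : ‖p‖ * ‖w‖ ≤ 1 := mul_le_one₀ hp (norm_nonneg _) hw
    linarith
  have hfz := hle f z hf1 hz1
  have hgz := hle g z hg1 hz1
  obtain ⟨z', hz'E, hz'1, hz'2⟩ := hE2 f hf hf1
  have hfn : 1 - η < ‖f‖ := by
    have h1 := (le_abs_self (f z)).trans (f.le_opNorm z)
    have h2 : ‖f‖ * ‖z‖ ≤ ‖f‖ * 1 := mul_le_mul_of_nonneg_left hz1 (norm_nonneg _)
    linarith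
  have hsum : 2 - δ < ‖z + z'‖ := by
    have h1 := (le_abs_self (f (z + z'))).trans (f.le_opNorm (z + z'))
    have h2 : ‖f‖ * ‖z + z'‖ ≤ 1 * ‖z + z'‖ := mul_le_mul_of_nonneg_right hf1 (norm_nonneg _)
    rw [map_add] at h1
    linarith
  have hdiff : ‖z - z'‖ < 1 / 2 := by
    by_contra h
    push Not at h
    have := hδ2 z z' hz1 hz'1 h
    linarith
  have hgz' : g z' = 0 := by
    have h1 : ∀ p ∈ Submodule.span ℝ (u '' {j | k ≤ j}), p z' = 0 := by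
      intro p hp
      induction hp using Submodule.span_induction with
      | mem p hp =>
        obtain ⟨j, hj, rfl⟩ := hp
        exact hE1 j hj z' hz'E
      | zero => rfl
      | add a b _ _ ha hb => rw [add_apply, ha, hb, add_zero]
      | smul c a _ ha => rw [smul_apply, ha, smul_zero]
    exact h1 g hg
  have hgd : g z ≤ ‖z - z'‖ := by
    have h1 := (le_abs_self (g (z - z'))).trans (g.le_opNorm (z - z'))
    have h2 : ‖g‖ * ‖z - z'‖ ≤ 1 * ‖z - z'‖ := mul_le_mul_of_nonneg_right hg1 (norm_nonneg _)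
    rw [map_sub, hgz', sub_zero] at h1
    linarith
  linarith

end

end Pool.Agent.Helper115.GF
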