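import Pool.Agent.Helper115.GFa

set_option autoImplicit false

namespace Pool.Agent.Helper115.GF

open Filter Topology Finset

section
variable {V : Type*} [NormedAddCommGroup V] [NormedSpace ℝ V]

/-- the block inequality, abstractly -/
def Blocks (θ : ℝ) (u : ℕ → V) : Prop :=
  ∀ (k : ℕ) (f g : V), f ∈ Submodule.span ℝ (u '' {j | j < k}) →
    g ∈ Submodule.span ℝ (u '' {j | k ≤ j}) → ‖f‖ ≤ 1 → ‖g‖ ≤ 1 → ‖f + g‖ ≤ θ

theorem Blocks.scaled {θ : ℝ} {u : ℕ → V} (h : Blocks θ u) (k : ℕ) (f g : V)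
    (hf : f ∈ Submodule.span ℝ (u '' {j | j < k})) (hg : g ∈ Submodule.span ℝ (u '' {j | k ≤ j}))
    (μ : ℝ) (hμ : 0 ≤ μ) (hf1 : ‖f‖ ≤ μ) (hg1 : ‖g‖ ≤ μ) : ‖f + g‖ ≤ θ * μ := by
  rcases hμ.eq_or_lt with h0 | h0
  · subst h0
    have hf0 : f = 0 := norm_le_zero_iff.mp hf1
    have hg0 : g = 0 := norm_le_zero_iff.mp hg1
    rw [hf0, hg0]; simp
  · have h1 : ∀ w : V, ‖w‖ ≤ μ → ‖μ⁻¹ • w‖ ≤ 1 := by
      intro w hw
      rw [norm_smul, norm_inv, Real.norm_eq_abs, abs_of_pos h0]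
      rw [inv_mul_le_iff₀ h0, mul_one]
      exact hw
    have h2 := h k (μ⁻¹ • f) (μ⁻¹ • g) (Submodule.smul_mem _ _ hf) (Submodule.smul_mem _ _ hg)
      (h1 f hf1) (h1 g hg1)
    rw [← smul_add, norm_smul, norm_inv, Real.norm_eq_abs, abs_of_pos h0,
      inv_mul_le_iff₀ h0] at h2
    linarith

theorem upper_est {θ : ℝ} {u : ℕ → V} (h : Blocks θ u) (hu : ∀ n, ‖u n‖ ≤ 1)
    (q : ℕ) (hq : Even q) (hq0 : q ≠ 0) (lam : ℝ) (hl0 : 0 < lam) (hl : lam ^ q = 1 / 2)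
    (C : ℝ) (hC0 : 0 ≤ C) (hC : θ * lam ^ (q - 1) * C + 1 ≤ C) :
    ∀ (n j : ℕ) (b : ℕ → ℝ) (τ : ℝ), 0 ≤ τ → ∑ i ∈ Ico j (j + n), b i ^ q ≤ τ ^ q →
      ‖∑ i ∈ Ico j (j + n), b i ^ (q - 1) • u i‖ ≤ C * τ ^ (q - 1) := by
  intro n
  induction n using Nat.strong_induction_on with
  | _ n ih =>
  intro j b τ hτ hsum
  classical
  rcases Nat.eq_zero_or_pos n with rfl | hn
  · simp only [add_zero, Ico_self, sum_empty, norm_zero]
    positivity
  have hpos : ∀ i, 0 ≤ b i ^ q := fun i => hq.pow_nonneg _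
  have hex : ∃ m, τ ^ q / 2 < ∑ i ∈ Ico j (j + (m + 1)), b i ^ q ∨ m + 1 = n :=
    ⟨n - 1, Or.inr (Nat.succ_pred_eq_of_pos hn)⟩
  obtain ⟨m, hm, hmin⟩ : ∃ m, (τ ^ q / 2 < ∑ i ∈ Ico j (j + (m + 1)), b i ^ q ∨ m + 1 = n) ∧
      ∀ m' < m, ¬ (τ ^ q / 2 < ∑ i ∈ Ico j (j + (m' + 1)), b i ^ q ∨ m' + 1 = n) :=
    ⟨Nat.find hex, Nat.find_spec hex, fun m' hm' => Nat.find_min hex hm'⟩
  have hmn : m < n := by
    by_contra hcon
    push Not at hcon
    exact hmin (n - 1) (by omega) (Or.inr (Nat.succ_pred_eq_of_pos hn))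
  have hτq : 0 ≤ τ ^ q := by positivity
  have hleft : ∑ i ∈ Ico j (j + m), b i ^ q ≤ τ ^ q / 2 := by
    rcases Nat.eq_zero_or_pos m with h0 | h0
    · rw [h0]; simp; positivity
    · have := hmin (m - 1) (by omega)
      push Not at this
      have h1 := this.1
      rw [show m - 1 + 1 = m by omega] at h1
      exact h1
  have hsplit : ∑ i ∈ Ico j (j + (m + 1)), b i ^ q +
      ∑ i ∈ Ico (j + (m + 1)) (j + n), b i ^ q = ∑ i ∈ Ico j (j + n), b i ^ q :=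
    Finset.sum_Ico_consecutive _ (by omega) (by omega)
  have hright : ∑ i ∈ Ico (j + (m + 1)) (j + n), b i ^ q ≤ τ ^ q / 2 := by
    rcases hm with hm | hm
    · linarith
    · rw [hm]; simp; positivity
  have hl2 : (lam * τ) ^ q = τ ^ q / 2 := by rw [mul_pow, hl]; ring
  have hlt : 0 ≤ lam * τ := by positivity
  have h1 := ih m hmn j b (lam * τ) hlt (by rw [hl2]; exact hleft)
  have hn' : j + n = (j + (m + 1)) + (n - (m + 1)) := by omega
  have h2 := ih (n - (m + 1)) (by omega) (j + (m + 1)) b (lam * τ) hlt (by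
    rw [hl2, ← hn']; exact hright)
  rw [← hn'] at h2
  have hμ : 0 ≤ C * (lam * τ) ^ (q - 1) := by positivity
  have h3 := h.scaled (j + m) _ _
    (show ∑ i ∈ Ico j (j + m), b i ^ (q - 1) • u i ∈ Submodule.span ℝ (u '' {i | i < j + m}) from
      Submodule.sum_mem _ fun i hi => Submodule.smul_mem _ _
        (Submodule.subset_span ⟨i, (Finset.mem_Ico.mp hi).2, rfl⟩))
    (show ∑ i ∈ Ico (j + (m + 1)) (j + n), b i ^ (q - 1) • u i ∈
        Submodule.span ℝ (u '' {i | j + m ≤ i}) from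
      Submodule.sum_mem _ fun i hi => Submodule.smul_mem _ _
        (Submodule.subset_span ⟨i, by
          have := (Finset.mem_Ico.mp hi).1
          simp only [Set.mem_ofPred_eq]; omega, rfl⟩)) _ hμ h1 h2
  have hmid : |b (j + m)| ≤ τ := by
    have h4 : b (j + m) ^ q ≤ τ ^ q :=
      (Finset.single_le_sum (f := fun i => b i ^ q) (fun i _ => hpos i)
        (Finset.mem_Ico.mpr ⟨by omega, by omega⟩)).trans hsum
    rw [← hq.pow_abs] at h4
    exact le_of_pow_le_pow_left₀ hq0 hτ h4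
  have hmid2 : ‖b (j + m) ^ (q - 1) • u (j + m)‖ ≤ τ ^ (q - 1) := by
    rw [norm_smul, norm_pow, Real.norm_eq_abs]
    calc |b (j + m)| ^ (q - 1) * ‖u (j + m)‖ ≤ |b (j + m)| ^ (q - 1) * 1 :=
          mul_le_mul_of_nonneg_left (hu _) (by positivity)
      _ ≤ τ ^ (q - 1) := by
          rw [mul_one]; exact pow_le_pow_left₀ (abs_nonneg _) hmid _
  have hsum3 : ∑ i ∈ Ico j (j + n), b i ^ (q - 1) • u i =
      (∑ i ∈ Ico j (j + m), b i ^ (q - 1) • u i +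
        ∑ i ∈ Ico (j + (m + 1)) (j + n), b i ^ (q - 1) • u i) +
      b (j + m) ^ (q - 1) • u (j + m) := by
    rw [← Finset.sum_Ico_consecutive (fun i => b i ^ (q - 1) • u i)
      (show j ≤ j + (m + 1) by omega) (show j + (m + 1) ≤ j + n by omega),
      ← add_assoc j m 1, Finset.sum_Ico_succ_top (show j ≤ j + m by omega)]
    abel
  rw [hsum3]
  have h5 := norm_add_le (∑ i ∈ Ico j (j + m), b i ^ (q - 1) • u i +
        ∑ i ∈ Ico (j + (m + 1)) (j + n), b i ^ (q - 1) • u i) (b (j + m) ^ (q - 1) • u (j + m))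
  have h6 : θ * (C * (lam * τ) ^ (q - 1)) + τ ^ (q - 1) =
      (θ * lam ^ (q - 1) * C + 1) * τ ^ (q - 1) := by
    rw [mul_pow]; ring
  have h7 : (θ * lam ^ (q - 1) * C + 1) * τ ^ (q - 1) ≤ C * τ ^ (q - 1) :=
    mul_le_mul_of_nonneg_right hC (by positivity)
  linarith

end

/-- In an infinite dimensional uniformly convex space there are functionals of norm one which are
`q`-summable on every vector. -/
theorem exists_functionals {X : Type*} [NormedAddCommGroup X] [NormedSpace ℝ X]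
    (hX : ¬ FiniteDimensional ℝ X) (hU : UC X) :
    ∃ (q : ℕ) (u : ℕ → X →L[ℝ] ℝ), q ≠ 0 ∧ (∀ n, ‖u n‖ = 1) ∧
      ∀ x, Summable fun n => |u n x| ^ q := by
  obtain ⟨θ, u, hθ0, hθ, hu, hbl⟩ := exists_blocks hX hU
  -- choice of the exponent
  obtain ⟨r, hr⟩ := exists_pow_lt_of_lt_one (show (0 : ℝ) < 1 / 2 by norm_num)
    (show θ / 2 < 1 by linarith)
  obtain ⟨q, hq, hq0, hq2⟩ : ∃ q : ℕ, Even q ∧ q ≠ 0 ∧ (θ / 2) ^ q < 1 / 2 := by
    refine ⟨2 * (r + 1), even_two_mul _, by omega, lt_of_le_of_lt ?_ hr⟩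
    exact pow_le_pow_of_le_one (by positivity) (by linarith) (by omega)
  obtain ⟨lam, hl0, hl⟩ : ∃ lam : ℝ, 0 < lam ∧ lam ^ q = 1 / 2 := by
    refine ⟨(1 / 2 : ℝ) ^ ((q : ℝ)⁻¹), by positivity, ?_⟩
    exact Real.rpow_inv_natCast_pow (by norm_num) hq0
  have hθl : θ / 2 < lam := by
    by_contra hcon
    push Not at hcon
    have := pow_le_pow_left₀ hl0.le hcon q
    linarith
  have hlq : lam ^ (q - 1) = 1 / (2 * lam) := by
    have h1 : lam ^ (q - 1) * lam = 1 / 2 := by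
      rw [← pow_succ, Nat.sub_add_cancel (Nat.one_le_iff_ne_zero.mpr hq0), hl]
    field_simp
    linarith
  have hlt1 : θ * lam ^ (q - 1) < 1 := by
    rw [hlq, mul_one_div, div_lt_one (by positivity)]
    linarith
  set κ : ℝ := θ * lam ^ (q - 1) with hκ
  have hκ0 : 0 < 1 - κ := by linarith
  set C : ℝ := 1 / (1 - κ) with hCdef
  have hC0 : 0 < C := by positivity
  have hC : θ * lam ^ (q - 1) * C + 1 ≤ C := by
    rw [← hκ]
    have : (1 - κ) * C = 1 := by rw [hCdef]; field_simp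
    linarith
  refine ⟨q, u, hq0, hu, fun x => ?_⟩
  have habs : ∀ n, |u n x| ^ q = u n x ^ q := fun n => hq.pow_abs _
  simp_rw [habs]
  refine summable_of_sum_range_le (c := (C * ‖x‖) ^ q) (fun n => hq.pow_nonneg _) ?_
  intro n
  have hnn : 0 ≤ ∑ i ∈ range n, u i x ^ q := Finset.sum_nonneg fun i _ => hq.pow_nonneg _
  obtain ⟨τ, hτ0, hτ⟩ : ∃ τ : ℝ, 0 ≤ τ ∧ τ ^ q = ∑ i ∈ range n, u i x ^ q :=
    ⟨(∑ i ∈ range n, u i x ^ q) ^ ((q : ℝ)⁻¹), by positivity,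
      Real.rpow_inv_natCast_pow hnn hq0⟩
  rw [← hτ]
  have h1 := upper_est (V := X →L[ℝ] ℝ) hbl (fun n => (hu n).le) q hq hq0 lam hl0 hl C hC0.le hC n 0
    (fun i => u i x) τ hτ0 (by rw [zero_add, ← Finset.range_eq_Ico, hτ])
  rw [zero_add, ← Finset.range_eq_Ico] at h1
  have h2 : (∑ i ∈ range n, (u i x) ^ (q - 1) • u i) x = τ ^ q := by
    rw [hτ, ContinuousLinearMap.sum_apply]
    refine Finset.sum_congr rfl fun i _ => ?_
    rw [smul_apply, smul_eq_mul, ← pow_succ,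
      Nat.sub_add_cancel (Nat.one_le_iff_ne_zero.mpr hq0)]
  have h3 := (le_abs_self _).trans ((∑ i ∈ range n, (u i x) ^ (q - 1) • u i).le_opNorm x)
  rw [h2] at h3
  have h4 := h3.trans (mul_le_mul_of_nonneg_right h1 (norm_nonneg x))
  have h5 : τ ≤ C * ‖x‖ := by
    rcases hτ0.eq_or_lt with h0 | h0
    · rw [← h0]; positivity
    · have h6 : τ ^ q = τ * τ ^ (q - 1) := by
        rw [← pow_succ', Nat.sub_add_cancel (Nat.one_le_iff_ne_zero.mpr hq0)]
      rw [h6, mul_right_comm] at h4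
      exact le_of_mul_le_mul_right h4 (by positivity)
  exact pow_le_pow_left₀ hτ0 h5 q

end Pool.Agent.Helper115.GF
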