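import Mathlib

set_option autoImplicit false

namespace Pool.Agent.Helper115.GF

open Filter Topology

section
variable {X : Type*} [NormedAddCommGroup X] [NormedSpace ℝ X]

/-- `S` is a seminorm bounded by `K` times the norm -/
structure SN (S : X → ℝ) (K : ℝ) : Prop where
  add_le : ∀ x y, S (x + y) ≤ S x + S y
  smul : ∀ (c : ℝ) x, S (c • x) = |c| * S x
  le : ∀ x, S x ≤ K * ‖x‖

namespace SN
variable {S : X → ℝ} {K : ℝ} (h : SN S K)
include h

theorem neg (x : X) : S (-x) = S x := by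
  have := h.smul (-1) x
  rwa [neg_one_smul, abs_neg, abs_one, one_mul] at this

theorem nonneg (x : X) : 0 ≤ S x := by
  have h1 := h.add_le x (-x)
  have h2 := h.smul 0 x
  rw [zero_smul, abs_zero, zero_mul] at h2
  rw [add_neg_cancel, h.neg, h2] at h1
  linarith

theorem second (x v : X) : 0 ≤ S (x + v) + S (x - v) - 2 * S x := by
  have h1 := h.add_le (x + v) (x - v)
  have h2 := h.smul 2 x
  rw [abs_of_pos (by norm_num : (0 : ℝ) < 2)] at h2
  have h3 : x + v + (x - v) = (2 : ℝ) • x := by rw [two_smul]; abel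
  rw [h3, h2] at h1
  linarith

theorem sub_le (x y : X) : S x - S y ≤ K * ‖x - y‖ := by
  have h1 := h.add_le (x - y) y
  rw [sub_add_cancel] at h1
  linarith [h.le (x - y)]

theorem second_le (x v : X) : S (x + v) + S (x - v) - 2 * S x ≤ 2 * K * ‖v‖ := by
  have h1 := h.sub_le (x + v) x
  have h2 := h.sub_le (x - v) x
  rw [add_sub_cancel_left] at h1
  rw [sub_sub_cancel_left, norm_neg] at h2
  linarith

end SN

/-- symmetric second differences are small in every direction -/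
def GD (N : X → ℝ) (x : X) : Prop :=
  ∀ v, ∀ ε : ℝ, 0 < ε → ∃ t0 : ℝ, 0 < t0 ∧ ∀ t, 0 < t → t < t0 →
    N (x + t • v) + N (x - t • v) - 2 * N x ≤ ε * t

theorem exists_support {N : X → ℝ} {K : ℝ} (h : SN N K) (x : X) :
    ∃ f : X →L[ℝ] ℝ, (∀ y, f y ≤ N y) ∧ f x = N x := by
  rcases eq_or_ne x 0 with rfl | hx
  · refine ⟨0, fun y => by simpa using h.nonneg y, ?_⟩
    have h2 := h.smul 0 (0 : X)
    rw [zero_smul, abs_zero, zero_mul] at h2
    simp [h2]
  · obtain ⟨g, hg1, hg2⟩ := exists_extension_of_le_sublinear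
      (LinearPMap.mkSpanSingleton (K := ℝ) (L := ℝ) (σ := RingHom.id ℝ) x (N x) hx) N
      (fun c hc y => by rw [h.smul, abs_of_pos hc]) h.add_le (by
        rintro ⟨y, hy⟩
        obtain ⟨c, rfl⟩ := Submodule.mem_span_singleton.mp hy
        rw [LinearPMap.mkSpanSingleton'_apply]
        simp only [smul_eq_mul]
        rw [h.smul]
        exact mul_le_mul_of_nonneg_right (le_abs_self c) (h.nonneg x))
    have hb : ∀ y, ‖g y‖ ≤ K * ‖y‖ := by
      intro y
      rw [Real.norm_eq_abs, abs_le]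
      have h1 := (hg2 y).trans (h.le y)
      have h2 := (hg2 (-y)).trans (h.le (-y))
      rw [map_neg, norm_neg] at h2
      exact ⟨by linarith, h1⟩
    refine ⟨g.mkContinuous K hb, fun y => hg2 y, ?_⟩
    have h3 := hg1 ⟨x, Submodule.mem_span_singleton_self x⟩
    have h4 : (LinearPMap.mkSpanSingleton (K := ℝ) (L := ℝ) (σ := RingHom.id ℝ) x (N x) hx)
        ⟨x, Submodule.mem_span_singleton_self x⟩ = N x :=
      LinearPMap.mkSpanSingleton_apply ℝ ℝ hx (N x)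
    rw [h4] at h3
    exact h3

theorem GD.hasDerivAt {N : X → ℝ} {K : ℝ} (h : SN N K) (x : X) (hg : GD N x) :
    ∃ f : X →L[ℝ] ℝ, ∀ v : X, HasDerivAt (fun t : ℝ => N (x + t • v)) (f v) 0 := by
  obtain ⟨f, hf1, hf2⟩ := exists_support h x
  refine ⟨f, fun v => ?_⟩
  rw [hasDerivAt_iff_isLittleO, Asymptotics.isLittleO_iff]
  intro ε hε
  obtain ⟨t0, ht0, ht⟩ := hg v ε hε
  have hlow : ∀ t : ℝ, t * f v ≤ N (x + t • v) - N x := by
    intro t
    have h1 := hf1 (x + t • v)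
    rw [map_add, map_smul, smul_eq_mul, hf2] at h1
    linarith
  have key : ∀ t : ℝ, 0 < t → t < t0 → N (x + t • v) - N x ≤ t * f v + ε * t ∧
      N (x - t • v) - N x ≤ - t * f v + ε * t := by
    intro t h0 h1
    have h2 := ht t h0 h1
    have h3 := hlow t
    have h4 := hlow (-t)
    rw [neg_smul, ← sub_eq_add_neg] at h4
    constructor <;> linarith
  have hnhds : ∀ᶠ t : ℝ in 𝓝 0, |t| < t0 := by
    have := Metric.ball_mem_nhds (0 : ℝ) ht0
    filter_upwards [this] with t ht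
    rwa [Metric.mem_ball, dist_zero_right] at ht
  filter_upwards [hnhds] with t htt
  simp only [zero_smul, add_zero, sub_zero, smul_eq_mul]
  rw [Real.norm_eq_abs, Real.norm_eq_abs]
  rcases lt_trichotomy t 0 with h0 | h0 | h0
  · have h1 := (key (-t) (by linarith) (by rwa [abs_of_neg h0] at htt)).2
    have h2 := hlow t
    rw [neg_smul, sub_neg_eq_add] at h1
    rw [abs_of_neg h0, abs_of_nonneg (by linarith)]
    linarith
  · subst h0; simp
  · have h1 := (key t h0 (by rwa [abs_of_pos h0] at htt)).1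
    have h2 := hlow t
    rw [abs_of_pos h0, abs_of_nonneg (by linarith)]
    linarith

end

section
variable {X : Type*} [NormedAddCommGroup X] [NormedSpace ℝ X]
  {H : Type*} [NormedAddCommGroup H] [InnerProductSpace ℝ H] (T : H →L[ℝ] X)

/-- the smoothing of the seminorm `S` -/
noncomputable def sm (S : X → ℝ) (x : X) : ℝ := √(⨅ u : H, (S (x - T u) ^ 2 + ‖u‖ ^ 2))

variable (S : X → ℝ)

theorem sm_bdd (x : X) : BddBelow (Set.range fun u : H => S (x - T u) ^ 2 + ‖u‖ ^ 2) :=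
  ⟨0, by rintro _ ⟨u, rfl⟩; positivity⟩

theorem sm_nonneg (x : X) : 0 ≤ sm T S x := Real.sqrt_nonneg _

theorem sm_sq (x : X) : sm T S x ^ 2 = ⨅ u : H, (S (x - T u) ^ 2 + ‖u‖ ^ 2) := by
  unfold sm
  exact Real.sq_sqrt (Real.iInf_nonneg fun u => by positivity)

theorem sm_sq_le (x : X) (u : H) : sm T S x ^ 2 ≤ S (x - T u) ^ 2 + ‖u‖ ^ 2 := by
  rw [sm_sq]
  exact ciInf_le (sm_bdd T S x) u

theorem le_sm_sq (x : X) (a : ℝ) (h : ∀ u : H, a ≤ S (x - T u) ^ 2 + ‖u‖ ^ 2) :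
    a ≤ sm T S x ^ 2 := by
  rw [sm_sq]
  exact le_ciInf h

theorem sm_exists (x : X) (ε : ℝ) (hε : 0 < ε) :
    ∃ u : H, S (x - T u) ^ 2 + ‖u‖ ^ 2 < sm T S x ^ 2 + ε := by
  have h1 : (⨅ u : H, (S (x - T u) ^ 2 + ‖u‖ ^ 2)) < sm T S x ^ 2 + ε := by
    rw [← sm_sq]; linarith
  exact exists_lt_of_ciInf_lt h1

variable {S} {K : ℝ}

theorem sm_SN (h : SN S K) : SN (sm T S) K := by
  have hsmul : ∀ (c : ℝ) x, sm T S (c • x) ≤ |c| * sm T S x := by
    intro c x
    refine le_of_forall_pos_le_add fun δ hδ => ?_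
    obtain ⟨ε, hε, hε2⟩ : ∃ ε : ℝ, 0 < ε ∧ c ^ 2 * ε ≤ δ ^ 2 := by
      refine ⟨δ ^ 2 / (c ^ 2 + 1), by positivity, ?_⟩
      rw [mul_div_assoc', div_le_iff₀ (by positivity)]
      nlinarith [sq_nonneg c, sq_nonneg δ]
    obtain ⟨u, hu⟩ := sm_exists T S x ε hε
    have h1 := sm_sq_le T S (c • x) (c • u)
    rw [map_smul, ← smul_sub, h.smul, norm_smul, Real.norm_eq_abs, mul_pow, mul_pow, sq_abs,
      ← mul_add] at h1
    have h2 : c ^ 2 * (S (x - T u) ^ 2 + ‖u‖ ^ 2) ≤ c ^ 2 * (sm T S x ^ 2 + ε) :=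
      mul_le_mul_of_nonneg_left hu.le (sq_nonneg c)
    have h3 : sm T S (c • x) ^ 2 ≤ (|c| * sm T S x + δ) ^ 2 := by
      have h4 : 0 ≤ |c| * sm T S x * δ := by
        have := sm_nonneg T S x
        positivity
      have h5 : (|c| * sm T S x) ^ 2 = c ^ 2 * sm T S x ^ 2 := by rw [mul_pow, sq_abs]
      nlinarith
    have h6 : 0 ≤ |c| * sm T S x + δ := by
      have := sm_nonneg T S x
      positivity
    exact le_of_sq_le_sq h3 h6
  refine ⟨?_, ?_, ?_⟩
  · intro x y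
    refine le_of_forall_pos_le_add fun δ hδ => ?_
    obtain ⟨u, hu⟩ := sm_exists T S x ((δ / 2) ^ 2) (by positivity)
    obtain ⟨v, hv⟩ := sm_exists T S y ((δ / 2) ^ 2) (by positivity)
    set p := S (x - T u) with hp
    set p' := S (y - T v) with hp'
    have hp0 : 0 ≤ p := h.nonneg _
    have hp0' : 0 ≤ p' := h.nonneg _
    have hx := sm_nonneg T S x
    have hy := sm_nonneg T S y
    have h1 := sm_sq_le T S (x + y) (u + v)
    have h2 : S (x + y - T (u + v)) ≤ p + p' := by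
      rw [map_add, add_sub_add_comm]; exact h.add_le _ _
    have h3 : ‖u + v‖ ≤ ‖u‖ + ‖v‖ := norm_add_le _ _
    have h4 : S (x + y - T (u + v)) ^ 2 ≤ (p + p') ^ 2 := pow_le_pow_left₀ (h.nonneg _) h2 2
    have h5 : ‖u + v‖ ^ 2 ≤ (‖u‖ + ‖v‖) ^ 2 := pow_le_pow_left₀ (norm_nonneg _) h3 2
    have ha : p ^ 2 + ‖u‖ ^ 2 ≤ (sm T S x + δ / 2) ^ 2 := by nlinarith
    have hb : p' ^ 2 + ‖v‖ ^ 2 ≤ (sm T S y + δ / 2) ^ 2 := by nlinarith
    have hcs : p * p' + ‖u‖ * ‖v‖ ≤ (sm T S x + δ / 2) * (sm T S y + δ / 2) := by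
      have h6 : (p * p' + ‖u‖ * ‖v‖) ^ 2 ≤ ((sm T S x + δ / 2) * (sm T S y + δ / 2)) ^ 2 := by
        have h7 : (p * p' + ‖u‖ * ‖v‖) ^ 2 ≤ (p ^ 2 + ‖u‖ ^ 2) * (p' ^ 2 + ‖v‖ ^ 2) := by
          nlinarith [sq_nonneg (p * ‖v‖ - p' * ‖u‖)]
        have h8 : (p ^ 2 + ‖u‖ ^ 2) * (p' ^ 2 + ‖v‖ ^ 2) ≤
            (sm T S x + δ / 2) ^ 2 * (sm T S y + δ / 2) ^ 2 :=
          mul_le_mul ha hb (by positivity) (by positivity)
        rw [mul_pow]
        linarith
      exact le_of_sq_le_sq h6 (by positivity)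
    have h9 : sm T S (x + y) ^ 2 ≤ (sm T S x + sm T S y + δ) ^ 2 := by nlinarith
    exact le_of_sq_le_sq h9 (by positivity)
  · intro c x
    refine le_antisymm (hsmul c x) ?_
    rcases eq_or_ne c 0 with rfl | hc
    · rw [abs_zero, zero_mul]; exact sm_nonneg _ _ _
    · have h1 := hsmul c⁻¹ (c • x)
      rw [smul_smul, inv_mul_cancel₀ hc, one_smul, abs_inv] at h1
      have h2 : 0 < |c| := abs_pos.mpr hc
      rwa [le_inv_mul_iff₀ h2] at h1
  · intro x
    have h1 := sm_sq_le T S x 0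
    rw [map_zero, sub_zero, norm_zero, zero_pow two_ne_zero, add_zero] at h1
    exact (le_of_sq_le_sq h1 (h.nonneg x)).trans (h.le x)

/-- the smoothing has small second differences -/
theorem sm_second (h : SN S K) (hK : 0 ≤ K) (hT : DenseRange T) (x v : X) (ε : ℝ) (hε : 0 < ε) :
    ∃ t0 : ℝ, 0 < t0 ∧ ∀ t, 0 < t → t < t0 →
      sm T S (x + t • v) ^ 2 + sm T S (x - t • v) ^ 2 - 2 * sm T S x ^ 2 ≤ ε * t := by
  have hn := sm_nonneg T S x
  obtain ⟨w, hw⟩ : ∃ w : H, ‖v - T w‖ < ε / (8 * (K + 1) * (sm T S x + 1)) := by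
    have := Metric.denseRange_iff.mp hT v (ε / (8 * (K + 1) * (sm T S x + 1))) (by positivity)
    simpa [dist_eq_norm] using this
  set r := ‖v - T w‖ with hr
  have hr0 : 0 ≤ r := norm_nonneg _
  have hr1 : 4 * K * r * (sm T S x + 1) ≤ ε / 2 := by
    have h1 : r * (8 * (K + 1) * (sm T S x + 1)) < ε := by
      rwa [lt_div_iff₀ (by positivity)] at hw
    have h2 : 0 ≤ r * (sm T S x + 1) := by positivity
    nlinarith
  set D := 2 + 2 * K ^ 2 * r ^ 2 + 2 * ‖w‖ ^ 2 with hD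
  have hD0 : 0 < D := by positivity
  refine ⟨min 1 (ε / (2 * D)), lt_min one_pos (by positivity), ?_⟩
  intro t ht0 ht
  have ht1 : t < 1 := ht.trans_le (min_le_left _ _)
  have ht2 : t < ε / (2 * D) := ht.trans_le (min_le_right _ _)
  have ht3 : t * D ≤ ε / 2 := by
    have : t * (2 * D) < ε := by rwa [lt_div_iff₀ (by positivity)] at ht2
    linarith
  obtain ⟨u, hu⟩ := sm_exists T S x (t ^ 2) (by positivity)
  set a := S (x - T u) with ha
  have ha0 : 0 ≤ a := h.nonneg _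
  have ha1 : a ≤ sm T S x + 1 := by
    have : a ^ 2 ≤ (sm T S x + 1) ^ 2 := by nlinarith [sq_nonneg ‖u‖]
    exact le_of_sq_le_sq this (by positivity)
  have h1 := sm_sq_le T S (x + t • v) (u + t • w)
  have h2 := sm_sq_le T S (x - t • v) (u - t • w)
  have hb : ∀ z : X, ‖z‖ = t * r → S (x - T u + z) ^ 2 ≤ (a + K * (t * r)) ^ 2 := by
    intro z hz
    refine pow_le_pow_left₀ (h.nonneg _) ?_ 2
    have h3 := h.add_le (x - T u) z
    have h4 := h.le z
    rw [hz] at h4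
    linarith
  have hz1 : x + t • v - T (u + t • w) = x - T u + t • (v - T w) := by
    rw [map_add, map_smul, smul_sub]; abel
  have hz2 : x - t • v - T (u - t • w) = x - T u + (-(t • (v - T w))) := by
    rw [map_sub, map_smul, smul_sub]; abel
  have hzn : ‖t • (v - T w)‖ = t * r := by
    rw [norm_smul, Real.norm_eq_abs, abs_of_pos ht0]
  rw [hz1] at h1
  rw [hz2] at h2
  have h3 := hb (t • (v - T w)) hzn
  have h4 := hb (-(t • (v - T w))) (by rw [norm_neg, hzn])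
  have h5 : ‖u + t • w‖ ^ 2 + ‖u - t • w‖ ^ 2 = 2 * ‖u‖ ^ 2 + 2 * t ^ 2 * ‖w‖ ^ 2 := by
    have h6 := parallelogram_law_with_norm ℝ u (t • w)
    rw [norm_smul, Real.norm_eq_abs, abs_of_pos ht0] at h6
    linear_combination h6
  have h7 : 4 * K * r * a ≤ ε / 2 := by
    have : 0 ≤ 4 * K * r := by positivity
    nlinarith
  have h8 : t * (4 * K * r * a) ≤ t * (ε / 2) := mul_le_mul_of_nonneg_left h7 ht0.le
  have h9 : t * (t * D) ≤ t * (ε / 2) := mul_le_mul_of_nonneg_left ht3 ht0.le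
  have h10 : 2 * (a + K * (t * r)) ^ 2 = 2 * a ^ 2 + t * (4 * K * r * a) +
      t * (t * (2 * K ^ 2 * r ^ 2)) := by ring
  have h11 : t * (t * D) = 2 * t ^ 2 + t * (t * (2 * K ^ 2 * r ^ 2)) + 2 * t ^ 2 * ‖w‖ ^ 2 := by
    rw [hD]; ring
  linarith

end

end Pool.Agent.Helper115.GF
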