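import Pool.Agent.Helper115.GFc

set_option autoImplicit false

namespace Pool.Agent.Helper115.GF

open Filter Topology

section
variable {X : Type*} [NormedAddCommGroup X] [NormedSpace ℝ X]
  {H : Type*} [NormedAddCommGroup H] [InnerProductSpace ℝ H] (T : H →L[ℝ] X)
  {S : X → ℝ} {K : ℝ}

theorem sm_GD (h : SN S K) (hK : 0 ≤ K) (hT : DenseRange T) (x : X) (hx : 0 < sm T S x) :
    GD (sm T S) x := by
  intro v ε hε
  obtain ⟨t0, ht0, ht⟩ := sm_second T h hK hT x v (2 * sm T S x * ε) (by positivity)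
  refine ⟨t0, ht0, fun t h0 h1 => ?_⟩
  have h2 := ht t h0 h1
  have h3 : 2 * sm T S x * (sm T S (x + t • v) + sm T S (x - t • v) - 2 * sm T S x) ≤
      2 * sm T S x * (ε * t) := by
    nlinarith [sq_nonneg (sm T S (x + t • v) - sm T S x), sq_nonneg (sm T S (x - t • v) - sm T S x)]
  exact le_of_mul_le_mul_left h3 (by positivity)

end

section
variable {X : Type*} [NormedAddCommGroup X] [NormedSpace ℝ X] {K : ℝ} {P : ℕ → X → ℝ}

/-- the weighted sum of the seminorms `P i` -/
noncomputable def ws (P : ℕ → X → ℝ) (x : X) : ℝ := ∑' i, (1 / 2 : ℝ) ^ i * P i x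

theorem ws_summable (h : ∀ i, SN (P i) K) (x : X) : Summable fun i => (1 / 2 : ℝ) ^ i * P i x := by
  refine Summable.of_nonneg_of_le (fun i => ?_) (fun i => ?_)
    (summable_geometric_two.mul_right (K * ‖x‖))
  · have := (h i).nonneg x
    positivity
  · exact mul_le_mul_of_nonneg_left ((h i).le x) (by positivity)

theorem ws_SN (h : ∀ i, SN (P i) K) : SN (ws P) (2 * K) := by
  refine ⟨?_, ?_, ?_⟩
  · intro x y
    unfold ws
    rw [← (ws_summable h x).tsum_add (ws_summable h y)]
    refine (ws_summable h (x + y)).tsum_le_tsum (fun i => ?_)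
      ((ws_summable h x).add (ws_summable h y))
    rw [← mul_add]
    exact mul_le_mul_of_nonneg_left ((h i).add_le x y) (by positivity)
  · intro c x
    unfold ws
    rw [← tsum_mul_left]
    refine tsum_congr fun i => ?_
    rw [(h i).smul]; ring
  · intro x
    unfold ws
    have h1 := (ws_summable h x).tsum_le_tsum (fun i =>
      mul_le_mul_of_nonneg_left ((h i).le x) (by positivity))
      (summable_geometric_two.mul_right (K * ‖x‖))
    rw [tsum_mul_right, tsum_geometric_two] at h1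
    linarith

theorem ws_second (h : ∀ i, SN (P i) K) (x v : X) :
    ws P (x + v) + ws P (x - v) - 2 * ws P x =
      ∑' i, (1 / 2 : ℝ) ^ i * (P i (x + v) + P i (x - v) - 2 * P i x) := by
  unfold ws
  rw [← (ws_summable h (x + v)).tsum_add (ws_summable h (x - v)), ← tsum_mul_left,
    ← ((ws_summable h (x + v)).add (ws_summable h (x - v))).tsum_sub
      ((ws_summable h x).mul_left 2)]
  refine tsum_congr fun i => ?_
  ring

theorem ws_second_summable (h : ∀ i, SN (P i) K) (x v : X) :
    Summable fun i => (1 / 2 : ℝ) ^ i * (P i (x + v) + P i (x - v) - 2 * P i x) := by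
  refine Summable.of_nonneg_of_le (fun i => ?_) (fun i => ?_)
    (summable_geometric_two.mul_right (2 * K * ‖v‖))
  · have := (h i).second x v
    positivity
  · exact mul_le_mul_of_nonneg_left ((h i).second_le x v) (by positivity)

theorem ws_ge (h : ∀ i, SN (P i) K) (x v : X) (i : ℕ) :
    (1 / 2 : ℝ) ^ i * (P i (x + v) + P i (x - v) - 2 * P i x) ≤
      ws P (x + v) + ws P (x - v) - 2 * ws P x := by
  rw [ws_second h]
  exact (ws_second_summable h x v).le_tsum i (fun j _ => by
    have := (h j).second x v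
    positivity)

theorem GD.tendsto {N : X → ℝ} (hN : SN N K) {x : X} (h : GD N x) (v : X) :
    Tendsto (fun t : ℝ => (N (x + t • v) + N (x - t • v) - 2 * N x) / t) (𝓝[>] 0) (𝓝 0) := by
  rw [Metric.tendsto_nhdsWithin_nhds]
  intro ε hε
  obtain ⟨t0, ht0, ht⟩ := h v (ε / 2) (by positivity)
  refine ⟨t0, ht0, fun {t} h0 h1 => ?_⟩
  have h0' : 0 < t := h0
  rw [dist_zero_right, Real.norm_eq_abs, abs_of_pos h0'] at h1
  have h2 := ht t h0' h1
  have h3 := hN.second x (t • v)
  rw [dist_zero_right, Real.norm_eq_abs, abs_of_nonneg (div_nonneg h3 h0'.le), div_lt_iff₀ h0']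
  nlinarith

theorem GD.of_tendsto {N : X → ℝ} {x : X}
    (h : ∀ v, Tendsto (fun t : ℝ => (N (x + t • v) + N (x - t • v) - 2 * N x) / t)
      (𝓝[>] 0) (𝓝 0)) : GD N x := by
  intro v ε hε
  have h1 := h v
  rw [Metric.tendsto_nhdsWithin_nhds] at h1
  obtain ⟨t0, ht0, ht⟩ := h1 ε hε
  refine ⟨t0, ht0, fun t h0 h1 => ?_⟩
  have h2 := ht (x := t) h0 (by rwa [dist_zero_right, Real.norm_eq_abs, abs_of_pos h0])
  rw [dist_zero_right, Real.norm_eq_abs] at h2
  have h3 := (le_abs_self _).trans h2.le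
  rwa [div_le_iff₀ h0] at h3

theorem ws_GD (h : ∀ i, SN (P i) K) (x : X) (hg : ∀ i, GD (P i) x) : GD (ws P) x := by
  refine GD.of_tendsto fun v => ?_
  have h1 : ∀ t : ℝ, (ws P (x + t • v) + ws P (x - t • v) - 2 * ws P x) / t =
      ∑' i, (1 / 2 : ℝ) ^ i * ((P i (x + t • v) + P i (x - t • v) - 2 * P i x) / t) := by
    intro t
    rw [ws_second h, ← tsum_div_const]
    refine tsum_congr fun i => ?_
    rw [mul_div_assoc]
  simp_rw [h1]
  have h2 := tendsto_tsum_of_dominated_convergence (𝓕 := 𝓝[>] (0 : ℝ))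
    (f := fun t i => (1 / 2 : ℝ) ^ i * ((P i (x + t • v) + P i (x - t • v) - 2 * P i x) / t))
    (g := fun _ : ℕ => (0 : ℝ)) (bound := fun i => (1 / 2 : ℝ) ^ i * (2 * K * ‖v‖))
    (summable_geometric_two.mul_right (2 * K * ‖v‖)) (fun i => by
      have := (GD.tendsto (h i) (hg i) v).const_mul ((1 / 2 : ℝ) ^ i)
      simpa using this) (by
      filter_upwards [self_mem_nhdsWithin] with t ht i
      have ht' : 0 < t := ht
      have h3 := (h i).second x (t • v)
      have h4 := (h i).second_le x (t • v)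
      rw [norm_smul, Real.norm_eq_abs, abs_of_pos ht'] at h4
      rw [Real.norm_eq_abs, abs_of_nonneg (by positivity)]
      refine mul_le_mul_of_nonneg_left ?_ (by positivity)
      rw [div_le_iff₀ ht']
      linarith)
  simpa using h2

theorem SN.add {P Q : X → ℝ} {K L : ℝ} (hP : SN P K) (hQ : SN Q L) :
    SN (fun x => P x + Q x) (K + L) := by
  refine ⟨fun x y => ?_, fun c x => ?_, fun x => ?_⟩
  · have := hP.add_le x y
    have := hQ.add_le x y
    linarith
  · rw [hP.smul, hQ.smul]; ring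
  · have := hP.le x
    have := hQ.le x
    linarith

theorem GD.add {P Q : X → ℝ} {x : X} (hP : GD P x) (hQ : GD Q x) :
    GD (fun x => P x + Q x) x := by
  intro v ε hε
  obtain ⟨a, ha, ha2⟩ := hP v (ε / 2) (by positivity)
  obtain ⟨b, hb, hb2⟩ := hQ v (ε / 2) (by positivity)
  refine ⟨min a b, lt_min ha hb, fun t h0 h1 => ?_⟩
  have h2 := ha2 t h0 (h1.trans_le (min_le_left _ _))
  have h3 := hb2 t h0 (h1.trans_le (min_le_right _ _))
  simp only
  linarith

/-- symmetric second differences are small, uniformly in the direction -/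
def FD (N : X → ℝ) (x : X) : Prop :=
  ∀ ε : ℝ, 0 < ε → ∃ s0 : ℝ, 0 < s0 ∧ ∀ s, 0 < s → s ≤ s0 → ∀ h : X, ‖h‖ ≤ s →
    N (x + h) + N (x - h) - 2 * N x ≤ ε * s

theorem FD.of_differentiableAt {N : X → ℝ} {x : X} (h : DifferentiableAt ℝ N x) : FD N x := by
  intro ε hε
  obtain ⟨f, hf⟩ := h
  rw [hasFDerivAt_iff_isLittleO_nhds_zero, Asymptotics.isLittleO_iff] at hf
  have h1 := hf (show 0 < ε / 2 by positivity)
  rw [Metric.eventually_nhds_iff] at h1
  obtain ⟨r, hr, h2⟩ := h1
  refine ⟨r / 2, by positivity, fun s hs hs2 v hv => ?_⟩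
  have h3 := h2 (y := v) (by rw [dist_zero_right]; linarith)
  have h4 := h2 (y := -v) (by rw [dist_zero_right, norm_neg]; linarith)
  rw [map_neg, ← sub_eq_add_neg, norm_neg] at h4
  have h5 := (le_abs_self _).trans h3
  have h6 := (le_abs_self _).trans h4
  have h7 : ε / 2 * ‖v‖ ≤ ε / 2 * s := mul_le_mul_of_nonneg_left hv (by positivity)
  linarith

end

end Pool.Agent.Helper115.GF
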