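import Pool.Agent.Helper115.GFd

set_option autoImplicit false

namespace Pool.Agent.Helper115.GF

open Filter Topology
open scoped InnerProductSpace

section
variable {X : Type*} [NormedAddCommGroup X] [NormedSpace ℝ X]
  {H : Type*} [NormedAddCommGroup H] [InnerProductSpace ℝ H] [CompleteSpace H]
  (J : X →L[ℝ] H) (T : H →L[ℝ] X)

/-- the vector `A* J w`, where `A = J T` -/
noncomputable def u0 (w : X) : H := (ContinuousLinearMap.adjoint (J.comp T)) (J w)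

theorem inner_u0 (w : X) (v : H) : ⟪u0 J T w, v⟫_ℝ = ⟪J w, J (T v)⟫_ℝ := by
  unfold u0
  rw [ContinuousLinearMap.adjoint_inner_left]
  rfl

theorem lower1 {S : X → ℝ} (hS : ∀ z, ‖J z‖ ≤ S z) (w h : X) :
    ‖J w‖ ^ 2 + ‖u0 J T w‖ ^ 2 + 2 * ⟪J w, J h⟫_ℝ ≤ sm T S (w + T (u0 J T w) + h) ^ 2 := by
  refine le_sm_sq T S _ _ fun u => ?_
  have h1 : ‖J (w + T (u0 J T w) + h - T u)‖ ^ 2 ≤ S (w + T (u0 J T w) + h - T u) ^ 2 :=
    pow_le_pow_left₀ (norm_nonneg _) (hS _) 2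
  refine le_trans ?_ (add_le_add_left h1 _)
  set a := J h - J (T (u - u0 J T w)) with ha
  have h2 : J (w + T (u0 J T w) + h - T u) = J w + a := by
    rw [ha, map_sub T, map_sub J, map_sub J, map_add, map_add]; abel
  have h3 : u = u0 J T w + (u - u0 J T w) := by abel
  have h4 : ‖u‖ ^ 2 = ‖u0 J T w‖ ^ 2 + 2 * ⟪u0 J T w, u - u0 J T w⟫_ℝ +
      ‖u - u0 J T w‖ ^ 2 := by
    conv_lhs => rw [h3]
    exact norm_add_sq_real _ _
  rw [h2, norm_add_sq_real, h4, inner_u0, ha, inner_sub_right]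
  have h5 : 0 ≤ ‖a‖ ^ 2 := by positivity
  have h6 : 0 ≤ ‖u - u0 J T w‖ ^ 2 := by positivity
  rw [ha] at h5
  linarith

theorem upper1 {S : X → ℝ} (w : X) (h0 : 0 ≤ S w) (hS : S w ≤ ‖J w‖) :
    sm T S (w + T (u0 J T w)) ^ 2 ≤ ‖J w‖ ^ 2 + ‖u0 J T w‖ ^ 2 := by
  have h1 := sm_sq_le T S (w + T (u0 J T w)) (u0 J T w)
  rw [add_sub_cancel_right] at h1
  have h2 := pow_le_pow_left₀ h0 hS 2
  linarith

theorem lower2 {S : X → ℝ} (f : X →L[ℝ] ℝ) (hS : ∀ z, |f z| ≤ S z) (ρ : ℝ) (hρ : 0 ≤ ρ) (x : X) :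
    2 * ρ * f x - ρ ^ 2 - ρ ^ 2 * ‖f.comp T‖ ^ 2 ≤ sm T S x ^ 2 := by
  refine le_sm_sq T S _ _ fun u => ?_
  have h1 : f (x - T u) ^ 2 ≤ S (x - T u) ^ 2 := by
    rw [← sq_abs]
    exact pow_le_pow_left₀ (abs_nonneg _) (hS _) 2
  have h2 : |(f.comp T) u| ≤ ‖f.comp T‖ * ‖u‖ := (f.comp T).le_opNorm u
  have h3 : (f.comp T) u = f (T u) := rfl
  rw [h3] at h2
  have h4 := (abs_le.mp h2).2
  rw [map_sub] at h1
  have h5 : ρ * f (T u) ≤ ρ * (‖f.comp T‖ * ‖u‖) := mul_le_mul_of_nonneg_left h4 hρ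
  nlinarith [sq_nonneg (f x - f (T u) - ρ), sq_nonneg (‖u‖ - ρ * ‖f.comp T‖)]

end

section
variable {X : Type*} [NormedAddCommGroup X] [NormedSpace ℝ X]
  {H : Type*} [NormedAddCommGroup H] [InnerProductSpace ℝ H] [CompleteSpace H]
  (J : X →L[ℝ] H) (T : H →L[ℝ] X) (u : ℕ → X →L[ℝ] ℝ) (y : ℕ → X)

/-- the functional `⟨J y_i, J ·⟩ + u_i` -/
noncomputable def fi (i : ℕ) : X →L[ℝ] ℝ := (innerSL ℝ (J (y i))).comp J + u i

theorem fi_apply (i : ℕ) (x : X) : fi J u y i x = ⟪J (y i), J x⟫_ℝ + u i x := by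
  unfold fi
  simp

/-- the seminorm `S_I = max (|J ·|, sup_{i ≥ I} |f_i|)` -/
noncomputable def SI (I : ℕ) (x : X) : ℝ := max ‖J x‖ (⨆ k : ℕ, |fi J u y (I + k) x|)

variable {J u y}

theorem fi_le (hu : ∀ i, ‖u i‖ ≤ 1) (hy : ∀ i, ‖J (y i)‖ = 1) (i : ℕ) (x : X) :
    |fi J u y i x| ≤ (‖J‖ + 1) * ‖x‖ := by
  rw [fi_apply]
  have h1 : |⟪J (y i), J x⟫_ℝ| ≤ ‖J (y i)‖ * ‖J x‖ := abs_real_inner_le_norm _ _
  have h2 : ‖J x‖ ≤ ‖J‖ * ‖x‖ := J.le_opNorm x
  have h3 : |u i x| ≤ ‖u i‖ * ‖x‖ := (u i).le_opNorm x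
  have h4 : ‖u i‖ * ‖x‖ ≤ 1 * ‖x‖ := mul_le_mul_of_nonneg_right (hu i) (norm_nonneg _)
  rw [hy, one_mul] at h1
  have h5 := abs_add_le ⟪J (y i), J x⟫_ℝ (u i x)
  linarith

theorem fi_bdd (hu : ∀ i, ‖u i‖ ≤ 1) (hy : ∀ i, ‖J (y i)‖ = 1) (I : ℕ) (x : X) :
    BddAbove (Set.range fun k : ℕ => |fi J u y (I + k) x|) :=
  ⟨(‖J‖ + 1) * ‖x‖, by rintro _ ⟨k, rfl⟩; exact fi_le hu hy _ x⟩

theorem le_SI (I : ℕ) (x : X) : ‖J x‖ ≤ SI J u y I x := le_max_left _ _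

theorem fi_le_SI (hu : ∀ i, ‖u i‖ ≤ 1) (hy : ∀ i, ‖J (y i)‖ = 1) (I i : ℕ) (hi : I ≤ i) (x : X) :
    |fi J u y i x| ≤ SI J u y I x := by
  refine le_trans ?_ (le_max_right _ _)
  have := le_ciSup (fi_bdd hu hy I x) (i - I)
  simpa [Nat.add_sub_cancel' hi] using this

theorem SI_SN (hu : ∀ i, ‖u i‖ ≤ 1) (hy : ∀ i, ‖J (y i)‖ = 1) (I : ℕ) :
    SN (SI J u y I) (‖J‖ + 1) := by
  refine ⟨?_, ?_, ?_⟩
  · intro a b
    refine max_le ?_ (ciSup_le fun k => ?_)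
    · rw [map_add]
      exact (norm_add_le _ _).trans (add_le_add (le_SI I a) (le_SI I b))
    · rw [map_add]
      exact (abs_add_le _ _).trans (add_le_add (fi_le_SI hu hy I _ (Nat.le_add_right _ _) a)
        (fi_le_SI hu hy I _ (Nat.le_add_right _ _) b))
  · intro c x
    unfold SI
    rw [map_smul, norm_smul, Real.norm_eq_abs, mul_max_of_nonneg _ _ (abs_nonneg c)]
    congr 1
    rw [Real.mul_iSup_of_nonneg (abs_nonneg c)]
    congr 1
    funext k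
    rw [map_smul, smul_eq_mul, abs_mul]
  · intro x
    refine max_le ?_ (ciSup_le fun k => fi_le hu hy _ x)
    have h2 : ‖J x‖ ≤ ‖J‖ * ‖x‖ := J.le_opNorm x
    have := norm_nonneg x
    linarith

/-- The smoothed seminorm is not Frechet differentiable at `w + T A* J w` if `w` is outside of all
the caps. -/
theorem not_FD (hu : ∀ i, ‖u i‖ ≤ 1) (hy : ∀ i, ‖J (y i)‖ = 1) (I : ℕ)
    (c0 : ℝ) (hc0 : 0 < c0) (hu2 : ∀ i, c0 ≤ ‖u i‖)
    (hux : ∀ x, Tendsto (fun i => u i x) atTop (𝓝 0))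
    (huT : Tendsto (fun i => ‖(u i).comp T‖) atTop (𝓝 0))
    (w : X) (hw : J w ≠ 0) (hy2 : ∀ ε : ℝ, 0 < ε → ∃ᶠ i in atTop, ‖J (y i) - ‖J w‖⁻¹ • J w‖ < ε)
    (hcap : SI J u y I w ≤ ‖J w‖) :
    ¬ FD (sm T (SI J u y I)) (w + T (u0 J T w)) := by
  intro hFD
  set S := SI J u y I with hSdef
  set x := w + T (u0 J T w) with hx
  set ρ := ‖J w‖ with hρ
  have hρ0 : 0 < ρ := norm_pos_iff.mpr hw
  set e : H := ρ⁻¹ • J w with he
  set N := sm T S with hN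
  have hSSN : SN S (‖J‖ + 1) := SI_SN hu hy I
  have hNSN : SN N (‖J‖ + 1) := sm_SN T hSSN
  set K := ‖J‖ + 1 with hK
  have hK0 : 0 < K := by positivity
  have hlow := lower1 J T (S := S) (fun z => le_SI I z) w
  have hup := upper1 J T (S := S) w (hSSN.nonneg w) hcap
  have hn2 : N x ^ 2 = ρ ^ 2 + ‖u0 J T w‖ ^ 2 := by
    refine le_antisymm hup ?_
    have := hlow 0
    rw [map_zero, inner_zero_right, mul_zero, add_zero, add_zero] at this
    exact this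
  have hn0 : 0 ≤ N x := sm_nonneg T S x
  have hnpos : 0 < N x := by
    rcases hn0.eq_or_lt with h | h
    · rw [← h] at hn2
      have : 0 < ρ ^ 2 := by positivity
      have := sq_nonneg ‖u0 J T w‖
      nlinarith
    · exact h
  -- choice of the parameters
  obtain ⟨s0, hs0, hFD⟩ := hFD (ρ * c0 / (16 * N x)) (by positivity)
  obtain ⟨s, hs, hss0, hsK⟩ : ∃ s : ℝ, 0 < s ∧ s ≤ s0 ∧ 2 * K ^ 2 * s ≤ ρ * c0 / 8 := by
    refine ⟨min s0 (ρ * c0 / (16 * K ^ 2)), lt_min hs0 (by positivity), min_le_left _ _, ?_⟩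
    have : min s0 (ρ * c0 / (16 * K ^ 2)) ≤ ρ * c0 / (16 * K ^ 2) := min_le_right _ _
    calc 2 * K ^ 2 * min s0 (ρ * c0 / (16 * K ^ 2)) ≤ 2 * K ^ 2 * (ρ * c0 / (16 * K ^ 2)) :=
          mul_le_mul_of_nonneg_left this (by positivity)
      _ = ρ * c0 / 8 := by field_simp; ring
  -- upper bound for the second difference of the squares
  have hupper : ∀ h : X, ‖h‖ ≤ s → N (x + h) ^ 2 + N (x - h) ^ 2 - 2 * N x ^ 2 ≤
      ρ * c0 / 4 * s := by
    intro h hh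
    have h1 := hFD s hs hss0 h hh
    have h2 := hNSN.sub_le (x + h) x
    have h3 := hNSN.sub_le (x - h) x
    have h2' := hNSN.sub_le x (x + h)
    have h3' := hNSN.sub_le x (x - h)
    rw [add_sub_cancel_left] at h2
    rw [sub_sub_cancel_left, norm_neg] at h3
    rw [sub_add_cancel_left, norm_neg] at h2'
    rw [sub_sub_cancel] at h3'
    have hKs : K * ‖h‖ ≤ K * s := mul_le_mul_of_nonneg_left hh hK0.le
    have h4 : (N (x + h) - N x) ^ 2 ≤ (K * s) ^ 2 := by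
      rw [← sq_abs]
      exact pow_le_pow_left₀ (abs_nonneg _) (abs_le.mpr ⟨by linarith, by linarith⟩) 2
    have h5 : (N (x - h) - N x) ^ 2 ≤ (K * s) ^ 2 := by
      rw [← sq_abs]
      exact pow_le_pow_left₀ (abs_nonneg _) (abs_le.mpr ⟨by linarith, by linarith⟩) 2
    have h6 : 2 * N x * (N (x + h) + N (x - h) - 2 * N x) ≤
        2 * N x * (ρ * c0 / (16 * N x) * s) := mul_le_mul_of_nonneg_left h1 (by positivity)
    have h7 : 2 * N x * (ρ * c0 / (16 * N x) * s) = ρ * c0 / 8 * s := by field_simp; ring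
    have h8 : 2 * (K * s) ^ 2 ≤ ρ * c0 / 8 * s := by
      have := mul_le_mul_of_nonneg_right hsK hs.le
      nlinarith
    nlinarith
  -- the lower bound
  let δ : ℕ → ℝ := fun i => ‖J (y i) - e‖
  let κ : ℕ → ℝ := fun i => ρ * (δ i * ‖J.comp T‖ + ‖(u i).comp T‖)
  let err : ℕ → ℝ := fun i => 2 * ρ * δ i * ‖J x‖ + 2 * ρ * |u i x| + 2 * κ i * ‖u0 J T w‖ +
    κ i ^ 2 + 2 * ρ * δ i * ‖J‖ * s
  have hlower : ∀ i, I ≤ i → ρ * c0 * s - err i ≤ ρ * c0 / 4 * s := by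
    intro i hi
    obtain ⟨z, hz1, hz2⟩ : ∃ z : X, ‖z‖ ≤ 1 ∧ c0 / 2 ≤ u i z := by
      obtain ⟨z, hz, h⟩ := (u i).exists_lt_apply_of_lt_opNorm
        (show c0 / 2 < ‖u i‖ by have := hu2 i; linarith)
      rw [Real.norm_eq_abs] at h
      rcases le_total 0 (u i z) with h0 | h0
      · exact ⟨z, hz.le, by rw [abs_of_nonneg h0] at h; exact h.le⟩
      · refine ⟨-z, by rw [norm_neg]; exact hz.le, ?_⟩
        rw [abs_of_nonpos h0] at h
        rw [map_neg]; exact h.le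
    have hh : ‖s • z‖ ≤ s := by
      rw [norm_smul, Real.norm_eq_abs, abs_of_pos hs]
      nlinarith
    have h1 := hupper (s • z) hh
    have h2 := hlow (-(s • z))
    rw [map_neg, inner_neg_right, ← sub_eq_add_neg] at h2
    have h3 := lower2 T (S := S) (fi J u y i) (fun z => fi_le_SI hu hy I i hi z) ρ hρ0.le
      (x + s • z)
    -- pieces
    have hJx : ⟪J w, J x⟫_ℝ = ρ ^ 2 + ‖u0 J T w‖ ^ 2 := by
      rw [hx, map_add, inner_add_right, ← inner_u0, real_inner_self_eq_norm_sq,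
        real_inner_self_eq_norm_sq]
    have hJy : ∀ v : H, ρ * ⟪J (y i), v⟫_ℝ = ⟪J w, v⟫_ℝ + ρ * ⟪J (y i) - e, v⟫_ℝ := by
      intro v
      rw [inner_sub_left, he, real_inner_smul_left]
      field_simp
      ring
    have hδ : ∀ v : H, -(δ i * ‖v‖) ≤ ⟪J (y i) - e, v⟫_ℝ := by
      intro v
      have := abs_real_inner_le_norm (J (y i) - e) v
      exact (abs_le.mp this).1
    have hδ' : ∀ v : H, ⟪J (y i) - e, v⟫_ℝ ≤ δ i * ‖v‖ := by
      intro v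
      have := abs_real_inner_le_norm (J (y i) - e) v
      exact (abs_le.mp this).2
    have hfx : ρ * fi J u y i x ≥ ρ ^ 2 + ‖u0 J T w‖ ^ 2 - ρ * δ i * ‖J x‖ - ρ * |u i x| := by
      rw [fi_apply, mul_add, hJy, hJx]
      have h4 := mul_le_mul_of_nonneg_left (hδ (J x)) hρ0.le
      have h5 := mul_le_mul_of_nonneg_left (neg_abs_le (u i x)) hρ0.le
      linarith
    have hfh : ρ * fi J u y i (s • z) ≥ ⟪J w, J (s • z)⟫_ℝ - ρ * δ i * ‖J‖ * s +
        ρ * c0 / 2 * s := by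
      rw [fi_apply, mul_add, hJy]
      have h4 := mul_le_mul_of_nonneg_left (hδ (J (s • z))) hρ0.le
      have h5 : ‖J (s • z)‖ ≤ ‖J‖ * s :=
        (J.le_opNorm _).trans (mul_le_mul_of_nonneg_left hh (norm_nonneg _))
      have h6 : ρ * (δ i * ‖J (s • z)‖) ≤ ρ * (δ i * (‖J‖ * s)) :=
        mul_le_mul_of_nonneg_left (mul_le_mul_of_nonneg_left h5 (norm_nonneg _)) hρ0.le
      have h7 : ρ * u i (s • z) ≥ ρ * c0 / 2 * s := by
        rw [map_smul, smul_eq_mul]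
        have := mul_le_mul_of_nonneg_left hz2 (mul_pos hρ0 hs).le
        linarith
      linarith
    have hκ0 : 0 ≤ κ i := by
      have : 0 ≤ δ i := norm_nonneg _
      positivity
    have hfT : ρ * ‖(fi J u y i).comp T‖ ≤ ‖u0 J T w‖ + κ i := by
      have h4 : ‖ρ • (fi J u y i).comp T‖ ≤ ‖u0 J T w‖ + κ i := by
        refine ContinuousLinearMap.opNorm_le_bound _ (by positivity) fun v => ?_
        rw [smul_apply, ContinuousLinearMap.comp_apply, fi_apply, smul_eq_mul, mul_add, hJy,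
          ← inner_u0]
        have h5 : |⟪u0 J T w, v⟫_ℝ| ≤ ‖u0 J T w‖ * ‖v‖ := abs_real_inner_le_norm _ _
        have h6 : ‖J (T v)‖ ≤ ‖J.comp T‖ * ‖v‖ := (J.comp T).le_opNorm v
        have h7 : |⟪J (y i) - e, J (T v)⟫_ℝ| ≤ δ i * (‖J.comp T‖ * ‖v‖) :=
          (abs_real_inner_le_norm _ _).trans (mul_le_mul_of_nonneg_left h6 (norm_nonneg _))
        have h8 : |u i (T v)| ≤ ‖(u i).comp T‖ * ‖v‖ := ((u i).comp T).le_opNorm v
        rw [Real.norm_eq_abs]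
        have h9 := abs_add_le (⟪u0 J T w, v⟫_ℝ + ρ * ⟪J (y i) - e, J (T v)⟫_ℝ) (ρ * u i (T v))
        have h10 := abs_add_le ⟪u0 J T w, v⟫_ℝ (ρ * ⟪J (y i) - e, J (T v)⟫_ℝ)
        rw [abs_mul, abs_of_pos hρ0] at h9 h10
        have h11 := mul_le_mul_of_nonneg_left h7 hρ0.le
        have h12 := mul_le_mul_of_nonneg_left h8 hρ0.le
        have h13 : (‖u0 J T w‖ + κ i) * ‖v‖ = ‖u0 J T w‖ * ‖v‖ +
            ρ * (δ i * (‖J.comp T‖ * ‖v‖)) + ρ * (‖(u i).comp T‖ * ‖v‖) := by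
          simp only [κ]; ring
        rw [h13]
        linarith
      rwa [norm_smul, Real.norm_eq_abs, abs_of_pos hρ0] at h4
    have hfT2 : ρ ^ 2 * ‖(fi J u y i).comp T‖ ^ 2 ≤ (‖u0 J T w‖ + κ i) ^ 2 := by
      rw [← mul_pow]
      exact pow_le_pow_left₀ (by positivity) hfT 2
    rw [map_add (fi J u y i)] at h3
    simp only [err]
    nlinarith
  -- passage to the limit
  let F : Filter ℕ := atTop ⊓ comap δ (𝓝 0)
  have hFne : F.NeBot := by
    rw [inf_neBot_iff_frequently_right]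
    intro p hp
    rw [eventually_comap, Metric.eventually_nhds_iff] at hp
    obtain ⟨r, hr, hp⟩ := hp
    refine (hy2 r hr).mono fun i hi => ?_
    refine hp (y := δ i) ?_ i rfl
    rw [dist_zero_right, Real.norm_eq_abs, abs_of_nonneg (norm_nonneg _)]
    exact hi
  have hδF : Tendsto δ F (𝓝 0) := tendsto_comap.mono_left inf_le_right
  have huxF : Tendsto (fun i => |u i x|) F (𝓝 0) := by
    have := ((hux x).mono_left (inf_le_left : F ≤ atTop)).abs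
    rwa [abs_zero] at this
  have huTF : Tendsto (fun i => ‖(u i).comp T‖) F (𝓝 0) :=
    huT.mono_left (inf_le_left : F ≤ atTop)
  have hκF : Tendsto κ F (𝓝 0) := by
    have := ((hδF.mul_const ‖J.comp T‖).add huTF).const_mul ρ
    simpa using this
  have herrF : Tendsto err F (𝓝 0) := by
    have := (((((hδF.const_mul (2 * ρ)).mul_const ‖J x‖).add (huxF.const_mul (2 * ρ))).add
      ((hκF.const_mul 2).mul_const ‖u0 J T w‖)).add (hκF.pow 2)).add
      (((hδF.const_mul (2 * ρ)).mul_const ‖J‖).mul_const s)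
    simpa using this
  have hfin : Tendsto (fun i => ρ * c0 * s - err i) F (𝓝 (ρ * c0 * s)) := by
    have := herrF.const_sub (ρ * c0 * s)
    simpa using this
  have hle : ρ * c0 * s ≤ ρ * c0 / 4 * s := by
    refine le_of_tendsto hfin ?_
    have h1 : ∀ᶠ i in F, I ≤ i := (inf_le_left : F ≤ atTop) (eventually_ge_atTop I)
    filter_upwards [h1] with i hi
    exact hlower i hi
  have : 0 < ρ * c0 * s := by positivity
  linarith

end

end Pool.Agent.Helper115.GF
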