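import Pool.Agent.Helper115.GFe

set_option autoImplicit false

namespace Pool.Agent.Helper115.GF

open Filter Topology MeasureTheory Set
open scoped InnerProductSpace ENNReal

section
variable {H : Type*} [NormedAddCommGroup H] [NormedSpace ℝ H] {m : ℕ}

theorem vol_piece (G : (Fin m → ℝ) →ₗ[ℝ] H) (κ : ℝ) (hκ : 0 < κ) (hG : ∀ s, κ * ‖s‖ ≤ ‖G s‖)
    (c : H) (δ : ℝ) (hδ : 0 ≤ δ) :
    volume {s : Fin m → ℝ | ‖G s - c‖ ≤ δ} ≤ ENNReal.ofReal ((4 * δ / κ) ^ m) := by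
  rcases Set.eq_empty_or_nonempty {s : Fin m → ℝ | ‖G s - c‖ ≤ δ} with h | ⟨s0, hs0⟩
  · rw [h]; simp
  · have hsub : {s : Fin m → ℝ | ‖G s - c‖ ≤ δ} ⊆ Metric.closedBall s0 (2 * δ / κ) := by
      intro s hs
      simp only [mem_ofPred_eq] at hs hs0
      rw [Metric.mem_closedBall, dist_eq_norm, le_div_iff₀ hκ]
      have h1 := hG (s - s0)
      rw [map_sub] at h1
      have h2 : ‖G s - G s0‖ ≤ ‖G s - c‖ + ‖G s0 - c‖ := by
        have := norm_sub_le (G s - c) (G s0 - c)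
        rwa [sub_sub_sub_cancel_right] at this
      linarith
    refine (measure_mono hsub).trans ?_
    rw [Real.volume_pi_closedBall _ (by positivity), Fintype.card_fin]
    apply le_of_eq
    congr 2
    ring

theorem vol_strip (G : (Fin m → ℝ) →ₗ[ℝ] H) (κ : ℝ) (hκ : 0 < κ) (hG : ∀ s, κ * ‖s‖ ≤ ‖G s‖)
    (b e : H) (he : ‖e‖ ≤ 1) (K : ℝ) (hK : 0 ≤ K) (δ : ℝ) (hδ : 0 < δ) :
    volume {s : Fin m → ℝ | ∃ l : ℝ, |l| ≤ K ∧ ‖b + G s - l • e‖ ≤ δ} ≤
      ENNReal.ofReal ((2 * K / δ + 1) * (8 * δ / κ) ^ m) := by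
  set n := ⌊2 * K / δ⌋₊ with hn
  have hsub : {s : Fin m → ℝ | ∃ l : ℝ, |l| ≤ K ∧ ‖b + G s - l • e‖ ≤ δ} ⊆
      ⋃ j ∈ Finset.range (n + 1), {s : Fin m → ℝ | ‖G s - ((-K + j * δ) • e - b)‖ ≤ 2 * δ} := by
    rintro s ⟨l, hl, hs⟩
    have hl1 := (abs_le.mp hl).1
    have hl2 := (abs_le.mp hl).2
    set j := ⌊(l + K) / δ⌋₊ with hj
    have hj0 : 0 ≤ (l + K) / δ := div_nonneg (by linarith) hδ.le
    have hj1 : (j : ℝ) ≤ (l + K) / δ := Nat.floor_le hj0
    have hj2 : (l + K) / δ < j + 1 := Nat.lt_floor_add_one _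
    rw [le_div_iff₀ hδ] at hj1
    rw [div_lt_iff₀ hδ] at hj2
    have hjn : j ≤ n := by
      apply Nat.floor_le_floor
      apply div_le_div_of_nonneg_right _ hδ.le
      linarith
    simp only [mem_iUnion, Finset.mem_range, mem_ofPred_eq]
    refine ⟨j, by omega, ?_⟩
    have h1 : G s - ((-K + j * δ) • e - b) = (b + G s - l • e) + (l - (-K + j * δ)) • e := by
      rw [sub_smul]; abel
    rw [h1]
    refine (norm_add_le _ _).trans ?_
    rw [norm_smul, Real.norm_eq_abs]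
    have h2 : |l - (-K + j * δ)| ≤ δ := by
      rw [abs_le]; constructor <;> linarith
    have h3 : |l - (-K + j * δ)| * ‖e‖ ≤ δ * 1 := mul_le_mul h2 he (norm_nonneg _) hδ.le
    linarith
  refine (measure_mono hsub).trans ((measure_biUnion_finset_le _ _).trans ?_)
  refine (Finset.sum_le_card_nsmul _ _ (ENNReal.ofReal ((4 * (2 * δ) / κ) ^ m)) fun j _ =>
    vol_piece G κ hκ hG _ _ (by positivity)).trans ?_
  rw [Finset.card_range, nsmul_eq_mul, ENNReal.ofReal_mul (by positivity)]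
  have h4 : ((n + 1 : ℕ) : ℝ≥0∞) ≤ ENNReal.ofReal (2 * K / δ + 1) := by
    rw [← ENNReal.ofReal_natCast]
    apply ENNReal.ofReal_le_ofReal
    push_cast
    have := Nat.floor_le (show 0 ≤ 2 * K / δ by positivity)
    linarith
  refine mul_le_mul' h4 (le_of_eq ?_)
  congr 2
  ring

end

/-- nonnegative sequences with summable `q`-th powers -/
structure QS (q : ℕ) (β : ℕ → ℝ) : Prop where
  nonneg : ∀ i, 0 ≤ β i
  summable : Summable fun i => β i ^ q

theorem QS.add {q : ℕ} {β γ : ℕ → ℝ} (h : QS q β) (h' : QS q γ) : QS q fun i => β i + γ i := by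
  refine ⟨fun i => add_nonneg (h.nonneg i) (h'.nonneg i), ?_⟩
  refine Summable.of_nonneg_of_le (fun i => pow_nonneg (add_nonneg (h.nonneg i) (h'.nonneg i)) q)
    (fun i => add_pow_le (h.nonneg i) (h'.nonneg i) q)
    ((h.summable.add h'.summable).mul_left _)

theorem QS.const_mul {q : ℕ} {β : ℕ → ℝ} (h : QS q β) (c : ℝ) (hc : 0 ≤ c) :
    QS q fun i => c * β i := by
  refine ⟨fun i => mul_nonneg hc (h.nonneg i), ?_⟩
  simp_rw [mul_pow]
  exact h.summable.mul_left _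

theorem QS.sum {q : ℕ} (hq : q ≠ 0) {ι : Type*} (s : Finset ι) (β : ι → ℕ → ℝ)
    (h : ∀ k, QS q (β k)) : QS q fun i => ∑ k ∈ s, β k i := by
  classical
  induction s using Finset.induction_on with
  | empty =>
    refine ⟨fun i => by simp, ?_⟩
    simp [hq]
  | insert a s ha ih =>
    simp_rw [Finset.sum_insert ha]
    exact (h a).add ih

section
variable {X : Type*} [NormedAddCommGroup X] [NormedSpace ℝ X]
  {H : Type*} [NormedAddCommGroup H] [InnerProductSpace ℝ H] [CompleteSpace H]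
  (J : X →L[ℝ] H) (u : ℕ → X →L[ℝ] ℝ) (y : ℕ → X)

/-- the caps: the open sets on which `|f_i|` is bigger than `|J ·|` -/
def cap (i : ℕ) : Set X := {w | ‖J w‖ < |fi J u y i w|}

variable {J u y}

theorem cap_sub (hy : ∀ i, ‖J (y i)‖ = 1) (i : ℕ) (w : X) (hw : w ∈ cap J u y i) (K β : ℝ)
    (hK : ‖J w‖ ≤ K) (hβ : |u i w| ≤ β) (hβ0 : 0 ≤ β) :
    ∃ l : ℝ, |l| ≤ K ∧ ‖J w - l • J (y i)‖ ≤ √(2 * K * β) := by
  have hK0 : 0 ≤ K := (norm_nonneg _).trans hK
  have key : ∀ σ : ℝ, |σ| = 1 → ‖J w‖ < σ * fi J u y i w →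
      ∃ l : ℝ, |l| ≤ K ∧ ‖J w - l • J (y i)‖ ≤ √(2 * K * β) := by
    intro σ hσ h
    refine ⟨σ * ‖J w‖, ?_, ?_⟩
    · rw [abs_mul, hσ, one_mul, abs_of_nonneg (norm_nonneg _)]; exact hK
    · apply Real.le_sqrt_of_sq_le
      have hσ2 : σ ^ 2 = 1 := by rw [← sq_abs, hσ, one_pow]
      rw [norm_sub_sq_real, norm_smul, hy, real_inner_smul_right, Real.norm_eq_abs, mul_one,
        sq_abs, mul_pow, hσ2, one_mul, real_inner_comm]
      rw [fi_apply] at h
      have h1 : |σ * u i w| ≤ β := by rw [abs_mul, hσ, one_mul]; exact hβ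
      have h2 := (abs_le.mp h1).2
      have h3 : ‖J w‖ - σ * ⟪J (y i), J w⟫_ℝ ≤ β := by linarith
      have h4 : ‖J w‖ * (‖J w‖ - σ * ⟪J (y i), J w⟫_ℝ) ≤ ‖J w‖ * β :=
        mul_le_mul_of_nonneg_left h3 (norm_nonneg _)
      have h5 : ‖J w‖ * β ≤ K * β := mul_le_mul_of_nonneg_right hK hβ0
      nlinarith
  have hw' : ‖J w‖ < |fi J u y i w| := hw
  rcases le_total 0 (fi J u y i w) with h0 | h0
  · refine key 1 (by simp) ?_
    rwa [abs_of_nonneg h0, ← one_mul (fi J u y i w)] at hw'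
  · refine key (-1) (by simp) ?_
    rwa [abs_of_nonpos h0, ← neg_one_mul] at hw'

theorem measure_limsup {q : ℕ} (hq : q ≠ 0) (hy : ∀ i, ‖J (y i)‖ = 1)
    (hu : ∀ x, Summable fun i => |u i x| ^ q)
    (R : X →L[ℝ] X) (hR : ∀ x, J (R x) = 0 → x = 0) (a : X) (v : Fin (2 * q + 1) → X)
    (hv : LinearIndependent ℝ v) :
    volume {s : Fin (2 * q + 1) → ℝ | ∃ᶠ i in atTop, R (a + ∑ k, s k • v k) ∈ cap J u y i} = 0 := by
  -- the linear map
  let V : (Fin (2 * q + 1) → ℝ) →ₗ[ℝ] X := Fintype.linearCombination ℝ v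
  have hV : ∀ s, V s = ∑ k, s k • v k := fun s => Fintype.linearCombination_apply ℝ v s
  let G : (Fin (2 * q + 1) → ℝ) →ₗ[ℝ] H := (J.comp R).toLinearMap.comp V
  have hGinj : LinearMap.ker G = ⊥ := by
    rw [LinearMap.ker_eq_bot']
    intro s hs
    have h1 : V s = 0 := hR _ hs
    rw [hV] at h1
    have := Fintype.linearIndependent_iff.mp hv s h1
    funext k
    exact this k
  obtain ⟨M, hM0, hM⟩ := G.exists_antilipschitzWith hGinj
  obtain ⟨κ, hκ, hG⟩ : ∃ κ : ℝ, 0 < κ ∧ ∀ s, κ * ‖s‖ ≤ ‖G s‖ := by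
    refine ⟨(M : ℝ)⁻¹, by positivity, fun s => ?_⟩
    have h1 := hM.le_mul_dist s 0
    rw [map_zero, dist_zero_right, dist_zero_right] at h1
    rwa [inv_mul_le_iff₀ (by positivity)]
  have hGJ : ∀ s, J (R (a + ∑ k, s k • v k)) = J (R a) + G s := by
    intro s
    rw [map_add, map_add, ← hV]
    rfl
  -- bounded parts
  suffices h : ∀ r : ℕ, ∀ᵐ s : Fin (2 * q + 1) → ℝ, ∀ᶠ i in atTop,
      s ∉ {s : Fin (2 * q + 1) → ℝ | ‖s‖ ≤ r ∧ R (a + ∑ k, s k • v k) ∈ cap J u y i} by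
    have h2 := ae_all_iff.mpr h
    rw [measure_eq_zero_iff_ae_notMem]
    filter_upwards [h2] with s hs
    rw [not_frequently]
    obtain ⟨r, hr⟩ := exists_nat_ge ‖s‖
    filter_upwards [hs r] with i hi hcap
    exact hi ⟨hr, hcap⟩
  intro r
  apply ae_eventually_notMem
  -- constants
  set K : ℝ := ‖J (R a)‖ + r * ∑ k, ‖J (R (v k))‖ with hKdef
  have hK0 : 0 ≤ K := by positivity
  have hsum : ∀ (p : X →L[ℝ] ℝ) (s : Fin (2 * q + 1) → ℝ), ‖s‖ ≤ r →
      |p (a + ∑ k, s k • v k)| ≤ |p a| + r * ∑ k, |p (v k)| := by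
    intro p s hs
    rw [map_add, map_sum, Finset.mul_sum]
    refine (abs_add_le _ _).trans (add_le_add le_rfl ((Finset.abs_sum_le_sum_abs _ _).trans ?_))
    refine Finset.sum_le_sum fun k _ => ?_
    rw [map_smul, smul_eq_mul, abs_mul]
    exact mul_le_mul_of_nonneg_right ((norm_le_pi_norm s k).trans hs) (abs_nonneg _)
  have hJK : ∀ s : Fin (2 * q + 1) → ℝ, ‖s‖ ≤ r → ‖J (R (a + ∑ k, s k • v k))‖ ≤ K := by
    intro s hs
    rw [map_add, map_add, map_sum, map_sum, hKdef, Finset.mul_sum]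
    refine (norm_add_le _ _).trans (add_le_add le_rfl ((norm_sum_le _ _).trans ?_))
    refine Finset.sum_le_sum fun k _ => ?_
    rw [map_smul, map_smul, norm_smul]
    exact mul_le_mul_of_nonneg_right ((norm_le_pi_norm s k).trans hs) (norm_nonneg _)
  have hQ : ∀ x, QS q fun i => |u i x| := fun x => ⟨fun i => abs_nonneg _, hu x⟩
  let β : ℕ → ℝ := fun i => |u i (R a)| + r * ∑ k, |u i (R (v k))|
  have hβ : QS q β := by
    refine (hQ (R a)).add (QS.const_mul ?_ r (Nat.cast_nonneg r))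
    exact QS.sum hq Finset.univ (fun k i => |u i (R (v k))|) fun k => hQ (R (v k))
  have hgeo : QS q fun i => (1 / 2 : ℝ) ^ i := by
    refine ⟨fun i => by positivity, ?_⟩
    refine Summable.of_nonneg_of_le (fun i => by positivity) (fun i => ?_) summable_geometric_two
    rw [← pow_mul]
    exact pow_le_pow_of_le_one (by norm_num) (by norm_num)
      (Nat.le_mul_of_pos_right i (Nat.pos_of_ne_zero hq))
  let γ : ℕ → ℝ := fun i => 2 * K * β i + (1 / 2 : ℝ) ^ i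
  have hγ : QS q γ := (hβ.const_mul (2 * K) (by positivity)).add hgeo
  have hγ0 : ∀ i, 0 < γ i := fun i => by
    have h1 := hβ.nonneg i
    have h2 : (0 : ℝ) < (1 / 2 : ℝ) ^ i := by positivity
    have h3 : 0 ≤ 2 * K * β i := by positivity
    change 0 < 2 * K * β i + (1 / 2 : ℝ) ^ i
    linarith
  -- bound of the parameters
  obtain ⟨D, hD0, hD⟩ : ∃ D : ℝ, 0 ≤ D ∧ ∀ i, √(γ i) ≤ D := by
    obtain ⟨B, hB⟩ := hγ.summable.tendsto_atTop_zero.bddAbove_range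
    refine ⟨max B 1, by positivity, fun i => ?_⟩
    have h1 : γ i ^ q ≤ B := hB ⟨i, rfl⟩
    rcases le_total (γ i) 1 with h | h
    · exact (Real.sqrt_le_one.mpr h).trans (le_max_right _ _)
    · have h2 : √(γ i) ≤ γ i := by
        rw [Real.sqrt_le_iff]
        exact ⟨by linarith, by nlinarith⟩
      have h3 : γ i ≤ γ i ^ q := le_self_pow₀ h hq
      exact (h2.trans (h3.trans h1)).trans (le_max_left _ _)
  have hvol : ∀ i, volume {s : Fin (2 * q + 1) → ℝ | ‖s‖ ≤ r ∧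
      R (a + ∑ k, s k • v k) ∈ cap J u y i} ≤
      ENNReal.ofReal ((2 * K + D) * (8 / κ) ^ (2 * q + 1) * γ i ^ q) := by
    intro i
    have hsub : {s : Fin (2 * q + 1) → ℝ | ‖s‖ ≤ r ∧ R (a + ∑ k, s k • v k) ∈ cap J u y i} ⊆
        {s | ∃ l : ℝ, |l| ≤ K ∧ ‖J (R a) + G s - l • J (y i)‖ ≤ √(γ i)} := by
      rintro s ⟨hs1, hs2⟩
      have h1 : |u i (R (a + ∑ k, s k • v k))| ≤ β i := hsum ((u i).comp R) s hs1
      obtain ⟨l, hl1, hl2⟩ := cap_sub hy i _ hs2 K (β i) (hJK s hs1) h1 (hβ.nonneg i)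
      refine ⟨l, hl1, ?_⟩
      rw [← hGJ]
      refine hl2.trans (Real.sqrt_le_sqrt ?_)
      change 2 * K * β i ≤ 2 * K * β i + (1 / 2 : ℝ) ^ i
      have : (0 : ℝ) < (1 / 2 : ℝ) ^ i := by positivity
      linarith
    have hsq : 0 < √(γ i) := Real.sqrt_pos.mpr (hγ0 i)
    refine (measure_mono hsub).trans ((vol_strip G κ hκ hG (J (R a)) (J (y i)) (hy i).le K hK0
      (√(γ i)) hsq).trans (ENNReal.ofReal_le_ofReal ?_))
    have h1 : (2 * K / √(γ i) + 1) * (8 * √(γ i) / κ) ^ (2 * q + 1) =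
        (2 * K + √(γ i)) * (8 / κ) ^ (2 * q + 1) * γ i ^ q := by
      have h2 : (8 * √(γ i) / κ) ^ (2 * q + 1) =
          (8 / κ) ^ (2 * q + 1) * (γ i ^ q * √(γ i)) := by
        rw [show 8 * √(γ i) / κ = 8 / κ * √(γ i) by ring, mul_pow, pow_succ (√(γ i)), pow_mul,
          Real.sq_sqrt (hγ0 i).le]
      rw [h2]
      field_simp
    rw [h1]
    have h3 : 0 ≤ (8 / κ) ^ (2 * q + 1) := by positivity
    have h4 : 0 ≤ γ i ^ q := pow_nonneg (hγ0 i).le _
    gcongr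
    exact hD i
  refine ne_top_of_le_ne_top ?_ (ENNReal.tsum_le_tsum hvol)
  have hs : Summable fun i => (2 * K + D) * (8 / κ) ^ (2 * q + 1) * γ i ^ q :=
    hγ.summable.mul_left _
  exact hs.tsum_ofReal_ne_top

end

end Pool.Agent.Helper115.GF
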