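import Mathlib

set_option autoImplicit false

namespace Pool.Agent.Helper115.GF

open Filter Topology MeasureTheory Set

section
variable {X : Type*} [NormedAddCommGroup X] [NormedSpace ℝ X] [MeasurableSpace X] [BorelSpace X]
  [SecondCountableTopology X]

/-- A Borel set which is null on all translates of the span of `v` is a union of Borel sets null in
the directions `v k`. -/
theorem decomp : ∀ (m : ℕ) (v : Fin m → X) (A : Set X), MeasurableSet A →
    (∀ a, volume {s : Fin m → ℝ | a + ∑ k, s k • v k ∈ A} = 0) →
    ∃ B : Fin m → Set X, (∀ k, MeasurableSet (B k)) ∧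
      (∀ k y, volume {t : ℝ | y + t • v k ∈ B k} = 0) ∧ A ⊆ ⋃ k, B k := by
  intro m
  induction m with
  | zero =>
    intro v A _ hA
    refine ⟨fun k => k.elim0, fun k => k.elim0, fun k => k.elim0, ?_⟩
    intro a ha
    exfalso
    have h1 := hA a
    have h2 : {s : Fin 0 → ℝ | a + ∑ k, s k • v k ∈ A} = Set.univ := by
      ext s; simp [ha]
    rw [h2] at h1
    simp [volume_pi] at h1
  | succ m ih =>
    intro v A hAm hA
    set w := v 0 with hw
    let A' : Set X := {x | volume {t : ℝ | x + t • w ∈ A} ≠ 0}
    have hP1 : MeasurableSet {z : X × ℝ | z.1 + z.2 • w ∈ A} := by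
      have hc : Continuous fun z : X × ℝ => z.1 + z.2 • w := by fun_prop
      exact hc.measurable hAm
    have hA'm : MeasurableSet A' := by
      have h1 := measurable_measure_prodMk_left (ν := (volume : Measure ℝ)) hP1
      exact (h1 (measurableSet_singleton 0)).compl
    have hA' : ∀ a, volume {s : Fin m → ℝ | a + ∑ k, s k • v k.succ ∈ A'} = 0 := by
      intro a
      let P : Set ((Fin m → ℝ) × ℝ) := {z | a + ∑ k, z.1 k • v k.succ + z.2 • w ∈ A}
      have hPm : MeasurableSet P := by
        have hc : Continuous fun z : (Fin m → ℝ) × ℝ => a + ∑ k, z.1 k • v k.succ + z.2 • w := by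
          fun_prop
        exact hc.measurable hAm
      have hP0 : ((volume : Measure (Fin m → ℝ)).prod (volume : Measure ℝ)) P = 0 := by
        have h1 := volume_preserving_piFinSuccAbove (fun _ : Fin (m + 1) => ℝ) 0
        have h2 : MeasurePreserving (Prod.swap : ℝ × (Fin m → ℝ) → (Fin m → ℝ) × ℝ)
            ((volume : Measure ℝ).prod (volume : Measure (Fin m → ℝ)))
            ((volume : Measure (Fin m → ℝ)).prod (volume : Measure ℝ)) :=
          Measure.measurePreserving_swap
        have h3 := (h2.comp h1).measure_preimage hPm.nullMeasurableSet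
        rw [← h3, ← hA a]
        congr 1
        ext s
        simp only [mem_preimage, Function.comp, mem_ofPred_eq, P]
        rw [Fin.sum_univ_succ, ← add_assoc, add_right_comm]
        rfl
      have h4 := Measure.measure_ae_null_of_prod_null hP0
      have h5 : volume {s : Fin m → ℝ | ¬ volume (Prod.mk s ⁻¹' P) = 0} = 0 := h4
      exact h5
    obtain ⟨B, hB1, hB2, hB3⟩ := ih (fun k => v k.succ) A' hA'm hA'
    refine ⟨Fin.cons (A \ A') B, ?_, ?_, ?_⟩
    · intro k
      refine Fin.cases ?_ (fun j => ?_) k
      · exact hAm.diff hA'm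
      · exact hB1 j
    · intro k
      refine Fin.cases ?_ (fun j => ?_) k
      · intro y
        change volume {t : ℝ | y + t • w ∈ A \ A'} = 0
        rcases Set.eq_empty_or_nonempty {t : ℝ | y + t • w ∈ A \ A'} with h | ⟨t0, ht0⟩
        · rw [h]; simp
        · have h1 : volume {t : ℝ | (y + t0 • w) + t • w ∈ A} = 0 := by
            by_contra hne
            exact ht0.2 hne
          have h2 : {t : ℝ | y + t • w ∈ A \ A'} ⊆
              (fun t => t + -t0) ⁻¹' {t : ℝ | (y + t0 • w) + t • w ∈ A} := by
            intro t ht
            simp only [mem_preimage, mem_ofPred_eq]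
            have h3 : y + t0 • w + (t + -t0) • w = y + t • w := by
              rw [add_smul, neg_smul]; abel
            rw [h3]
            exact ht.1
          refine measure_mono_null h2 ?_
          rw [measure_preimage_add_right]
          exact h1
      · intro y
        exact hB2 j y
    · intro x hx
      by_cases hx' : x ∈ A'
      · obtain ⟨k, hk⟩ := mem_iUnion.mp (hB3 hx')
        exact mem_iUnion.mpr ⟨k.succ, hk⟩
      · exact mem_iUnion.mpr ⟨0, hx, hx'⟩

end

end Pool.Agent.Helper115.GF
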