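import Pool.Agent.Helper115.GFe

set_option autoImplicit false

namespace Pool.Agent.Helper115.GF

open Filter Topology
open scoped InnerProductSpace

section
variable {X : Type*} [NormedAddCommGroup X] [NormedSpace ℝ X]
  {H : Type*} [NormedAddCommGroup H] [InnerProductSpace ℝ H] [CompleteSpace H]

theorem exists_R (J : X →L[ℝ] H) (T : H →L[ℝ] X) : ∃ R : X →L[ℝ] X,
    (∀ x, R x + T (u0 J T (R x)) = x) ∧ ∀ x, J (R x) = 0 → J x = 0 := by
  let A : H →L[ℝ] H := J.comp T
  let A' : H →L[ℝ] H := ContinuousLinearMap.adjoint A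
  let f : H →ₗ[ℝ] H →ₗ[ℝ] ℝ := LinearMap.mk₂ ℝ (fun z w => ⟪z, w⟫_ℝ + ⟪A' z, A' w⟫_ℝ)
    (fun a b c => by rw [map_add, inner_add_left, inner_add_left]; ring)
    (fun r a b => by rw [map_smul, real_inner_smul_left, real_inner_smul_left, smul_eq_mul]; ring)
    (fun a b c => by rw [map_add, inner_add_right, inner_add_right]; ring)
    (fun r a b => by rw [map_smul, real_inner_smul_right, real_inner_smul_right, smul_eq_mul]; ring)
  have hf : ∀ z w, f z w = ⟪z, w⟫_ℝ + ⟪A' z, A' w⟫_ℝ := fun z w => rfl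
  let B : H →L[ℝ] H →L[ℝ] ℝ := f.mkContinuous₂ (1 + ‖A'‖ * ‖A'‖) (fun z w => by
    rw [hf, Real.norm_eq_abs]
    have h1 := abs_add_le ⟪z, w⟫_ℝ ⟪A' z, A' w⟫_ℝ
    have h2 := abs_real_inner_le_norm z w
    have h3 := abs_real_inner_le_norm (A' z) (A' w)
    have h4 : ‖A' z‖ * ‖A' w‖ ≤ (‖A'‖ * ‖z‖) * (‖A'‖ * ‖w‖) :=
      mul_le_mul (A'.le_opNorm z) (A'.le_opNorm w) (norm_nonneg _) (by positivity)
    nlinarith)
  have hB : ∀ z w, B z w = ⟪z, w⟫_ℝ + ⟪A' z, A' w⟫_ℝ := fun z w => rfl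
  have hco : IsCoercive B := by
    refine ⟨1, one_pos, fun z => ?_⟩
    rw [hB, real_inner_self_eq_norm_mul_norm, real_inner_self_eq_norm_mul_norm, one_mul]
    have := mul_self_nonneg ‖A' z‖
    linarith
  let L := hco.continuousLinearEquivOfBilin
  have hL : ∀ z, L z = z + A (A' z) := by
    intro z
    refine ext_inner_right ℝ fun w => ?_
    rw [IsCoercive.continuousLinearEquivOfBilin_apply, hB, inner_add_left]
    congr 1
    exact ContinuousLinearMap.adjoint_inner_right A (A' z) w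
  let R : X →L[ℝ] X := ContinuousLinearMap.id ℝ X -
    T.comp (A'.comp ((L.symm : H →L[ℝ] H).comp J))
  have hR : ∀ x, R x = x - T (A' (L.symm (J x))) := fun x => rfl
  have hJR : ∀ x, J (R x) = L.symm (J x) := by
    intro x
    have h1 := hL (L.symm (J x))
    rw [ContinuousLinearEquiv.apply_symm_apply] at h1
    rw [hR, map_sub]
    change J x - A (A' (L.symm (J x))) = _
    rw [sub_eq_iff_eq_add]
    exact h1
  refine ⟨R, fun x => ?_, fun x hx => ?_⟩
  · have h1 : u0 J T (R x) = A' (L.symm (J x)) := by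
      unfold u0
      rw [hJR]
    rw [h1, hR]
    abel
  · rw [hJR] at hx
    have := congrArg L hx
    rwa [ContinuousLinearEquiv.apply_symm_apply, map_zero] at this

end

/-- the Hilbert space `ℓ²` -/
abbrev Hil : Type := lp (fun _ : ℕ => ℝ) 2

/-- the standard basis of `ℓ²` -/
noncomputable def eb (k : ℕ) : Hil := lp.single 2 k (1 : ℝ)

theorem norm_eb (k : ℕ) : ‖eb k‖ = 1 := by
  unfold eb
  rw [lp.norm_single (by norm_num)]
  simp

theorem inner_eb (j k : ℕ) : ⟪eb j, eb k⟫_ℝ = if j = k then 1 else 0 := by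
  unfold eb
  rw [lp.inner_single_left, lp.single_apply]
  by_cases h : j = k
  · subst h; simp
  · rw [if_neg h]
    simp [h]

section
variable (X : Type*) [NormedAddCommGroup X] [NormedSpace ℝ X] [TopologicalSpace.SeparableSpace X]

theorem exists_J : ∃ J : X →L[ℝ] Hil, ∀ x, J x = 0 → x = 0 := by
  obtain ⟨d, hd⟩ := TopologicalSpace.exists_dense_seq X
  choose w hw1 hw2 using fun k => exists_dual_vector'' ℝ (d k)
  let g : ℕ → X →L[ℝ] Hil := fun k => (1 / 2 : ℝ) ^ k • (w k).smulRight (eb k)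
  have hg : ∀ k, ‖g k‖ ≤ (1 / 2 : ℝ) ^ k := by
    intro k
    change ‖(1 / 2 : ℝ) ^ k • (w k).smulRight (eb k)‖ ≤ _
    rw [norm_smul, ContinuousLinearMap.norm_smulRight_apply, norm_eb, mul_one, norm_pow,
      Real.norm_eq_abs, abs_of_pos (by norm_num : (0 : ℝ) < 1 / 2)]
    exact mul_le_of_le_one_right (by positivity) (hw1 k)
  have hgs : Summable g := Summable.of_norm_bounded summable_geometric_two hg
  refine ⟨∑' k, g k, fun x hx => ?_⟩
  have h1 : ∀ j, w j x = 0 := by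
    intro j
    have h2 : (∑' k, g k) x = ∑' k, g k x := (ContinuousLinearMap.apply ℝ Hil x).map_tsum hgs
    have hgx : Summable fun k => g k x := hgs.mapL (ContinuousLinearMap.apply ℝ Hil x)
    have h3 : ⟪eb j, (∑' k, g k) x⟫_ℝ = ∑' k, ⟪eb j, g k x⟫_ℝ := by
      rw [h2]
      exact (innerSL ℝ (eb j)).map_tsum hgx
    have h4 : ∀ k, ⟪eb j, g k x⟫_ℝ = (1 / 2 : ℝ) ^ k * (w k x * if j = k then 1 else 0) := by
      intro k
      change ⟪eb j, (1 / 2 : ℝ) ^ k • (w k x • eb k)⟫_ℝ = _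
      rw [real_inner_smul_right, real_inner_smul_right, inner_eb]
    simp_rw [h4] at h3
    have h6 : ∑' k, (1 / 2 : ℝ) ^ k * (w k x * if j = k then 1 else 0) =
        (1 / 2 : ℝ) ^ j * w j x := by
      rw [tsum_eq_single j (fun k hk => by rw [if_neg (Ne.symm hk)]; ring), if_pos rfl, mul_one]
    rw [h6, hx, inner_zero_right] at h3
    have h5 : (1 / 2 : ℝ) ^ j ≠ 0 := by positivity
    rcases mul_eq_zero.mp h3.symm with h | h
    · exact absurd h h5
    · exact h
  rw [← norm_eq_zero]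
  refine le_antisymm (le_of_forall_pos_le_add fun ε hε => ?_) (norm_nonneg _)
  obtain ⟨k, hk⟩ := Metric.denseRange_iff.mp hd x (ε / 2) (by positivity)
  rw [dist_eq_norm] at hk
  have h2 : ‖d k‖ ≤ ‖x - d k‖ := by
    have h3 : w k (d k - x) = ‖d k‖ := by rw [map_sub, h1, sub_zero, hw2]; rfl
    have h4 := (le_abs_self _).trans ((w k).le_opNorm (d k - x))
    rw [h3, norm_sub_rev] at h4
    exact h4.trans (mul_le_of_le_one_left (norm_nonneg _) (hw1 k))
  have h3 : ‖x‖ ≤ ‖x - d k‖ + ‖d k‖ := by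
    have := norm_add_le (x - d k) (d k)
    rwa [sub_add_cancel] at this
  linarith

theorem exists_T [CompleteSpace X] : ∃ T : Hil →L[ℝ] X, DenseRange T ∧
    ∀ u : ℕ → X →L[ℝ] ℝ, (∀ i, ‖u i‖ ≤ 1) → (∀ x, Tendsto (fun i => u i x) atTop (𝓝 0)) →
      Tendsto (fun i => ‖(u i).comp T‖) atTop (𝓝 0) := by
  obtain ⟨d, hd⟩ := TopologicalSpace.exists_dense_seq X
  let x : ℕ → X := fun k => (1 + ‖d k‖)⁻¹ • d k
  have hx : ∀ k, ‖x k‖ ≤ 1 := by
    intro k
    change ‖(1 + ‖d k‖)⁻¹ • d k‖ ≤ 1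
    have h0 := norm_nonneg (d k)
    rw [norm_smul, norm_inv, Real.norm_eq_abs, abs_of_pos (by positivity),
      inv_mul_le_iff₀ (by positivity)]
    linarith
  let g : ℕ → Hil →L[ℝ] X := fun k => (1 / 2 : ℝ) ^ k • (innerSL ℝ (eb k)).smulRight (x k)
  have hg : ∀ k, ‖g k‖ ≤ (1 / 2 : ℝ) ^ k := by
    intro k
    change ‖(1 / 2 : ℝ) ^ k • (innerSL ℝ (eb k)).smulRight (x k)‖ ≤ _
    rw [norm_smul, ContinuousLinearMap.norm_smulRight_apply, innerSL_apply_norm, norm_eb, one_mul,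
      norm_pow, Real.norm_eq_abs, abs_of_pos (by norm_num : (0 : ℝ) < 1 / 2)]
    exact mul_le_of_le_one_right (by positivity) (hx k)
  have hgs : Summable g := Summable.of_norm_bounded summable_geometric_two hg
  refine ⟨∑' k, g k, ?_, ?_⟩
  · have h1 : ∀ j, (∑' k, g k) (eb j) = (1 / 2 : ℝ) ^ j • x j := by
      intro j
      have h2 : (∑' k, g k) (eb j) = ∑' k, g k (eb j) :=
        (ContinuousLinearMap.apply ℝ X (eb j)).map_tsum hgs
      have h4 : ∀ k, g k (eb j) = (1 / 2 : ℝ) ^ k • ((if k = j then (1 : ℝ) else 0) • x k) := by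
        intro k
        change (1 / 2 : ℝ) ^ k • (⟪eb k, eb j⟫_ℝ • x k) = _
        rw [inner_eb]
      rw [h2]
      simp_rw [h4]
      rw [tsum_eq_single j (fun k hk => by rw [if_neg hk]; simp), if_pos rfl, one_smul]
    have h2 : ∀ j, d j ∈ LinearMap.range (∑' k, g k : Hil →L[ℝ] X).toLinearMap := by
      intro j
      have h0 := norm_nonneg (d j)
      refine ⟨((1 + ‖d j‖) * ((1 / 2 : ℝ) ^ j)⁻¹) • eb j, ?_⟩
      rw [map_smul]
      change _ • (∑' k, g k) (eb j) = d j
      rw [h1, smul_smul]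
      change _ • ((1 + ‖d j‖)⁻¹ • d j) = d j
      rw [smul_smul]
      have h3 : (1 + ‖d j‖) * ((1 / 2 : ℝ) ^ j)⁻¹ * (1 / 2 : ℝ) ^ j * (1 + ‖d j‖)⁻¹ = 1 := by
        have : (1 + ‖d j‖) ≠ 0 := by positivity
        field_simp
      rw [h3, one_smul]
    refine hd.mono ?_
    rintro _ ⟨j, rfl⟩
    obtain ⟨v, hv⟩ := h2 j
    exact ⟨v, hv⟩
  · intro u hu hu0
    have h1 : ∀ i, ‖(u i).comp (∑' k, g k)‖ ≤ ∑' k, (1 / 2 : ℝ) ^ k * |u i (x k)| := by
      intro i
      have hcomp : ∀ k, ‖(u i).comp (g k)‖ ≤ (1 / 2 : ℝ) ^ k * |u i (x k)| := by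
        intro k
        refine ContinuousLinearMap.opNorm_le_bound _ (by positivity) fun v => ?_
        change ‖u i ((1 / 2 : ℝ) ^ k • (⟪eb k, v⟫_ℝ • x k))‖ ≤ _
        rw [map_smul, map_smul, smul_eq_mul, smul_eq_mul, Real.norm_eq_abs, abs_mul, abs_mul,
          abs_of_pos (by positivity : (0 : ℝ) < (1 / 2 : ℝ) ^ k)]
        have h2 := abs_real_inner_le_norm (eb k) v
        rw [norm_eb, one_mul] at h2
        have h3 : |⟪eb k, v⟫_ℝ| * |u i (x k)| ≤ ‖v‖ * |u i (x k)| :=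
          mul_le_mul_of_nonneg_right h2 (abs_nonneg _)
        have h4 := mul_le_mul_of_nonneg_left h3 (by positivity : (0 : ℝ) ≤ (1 / 2 : ℝ) ^ k)
        linarith
      have hsum : Summable fun k => (1 / 2 : ℝ) ^ k * |u i (x k)| := by
        refine Summable.of_nonneg_of_le (fun k => by positivity) (fun k => ?_)
          summable_geometric_two
        have h2 : |u i (x k)| ≤ 1 :=
          ((u i).le_opNorm (x k)).trans (mul_le_one₀ (hu i) (norm_nonneg _) (hx k))
        exact mul_le_of_le_one_right (by positivity) h2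
      have hs2 : Summable fun k => ‖(u i).comp (g k)‖ :=
        Summable.of_nonneg_of_le (fun k => norm_nonneg _) hcomp hsum
      have h5 : (u i).comp (∑' k, g k) = ∑' k, (u i).comp (g k) :=
        (ContinuousLinearMap.compL ℝ Hil X ℝ (u i)).map_tsum hgs
      rw [h5]
      exact (norm_tsum_le_tsum_norm hs2).trans (hs2.tsum_le_tsum hcomp hsum)
    have h2 : Tendsto (fun i => ∑' k, (1 / 2 : ℝ) ^ k * |u i (x k)|) atTop (𝓝 0) := by
      have h3 := tendsto_tsum_of_dominated_convergence (𝓕 := atTop)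
        (f := fun i k => (1 / 2 : ℝ) ^ k * |u i (x k)|) (g := fun _ : ℕ => (0 : ℝ))
        (bound := fun k => (1 / 2 : ℝ) ^ k) summable_geometric_two (fun k => by
          have := (hu0 (x k)).abs.const_mul ((1 / 2 : ℝ) ^ k)
          simpa using this) (Eventually.of_forall fun i k => by
          have h2 : |u i (x k)| ≤ 1 :=
            ((u i).le_opNorm (x k)).trans (mul_le_one₀ (hu i) (norm_nonneg _) (hx k))
          rw [Real.norm_eq_abs, abs_of_nonneg (by positivity)]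
          exact mul_le_of_le_one_right (by positivity) h2)
      simpa using h3
    exact squeeze_zero (fun i => norm_nonneg _) h1 h2

end

end Pool.Agent.Helper115.GF
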