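import Pool.Agent.Helper115.GFb
import Pool.Agent.Helper115.GFf
import Pool.Agent.Helper115.GFg
import Pool.Agent.Helper115.GFh

set_option autoImplicit false

namespace Pool.Agent.Helper115.GF

open Filter Topology MeasureTheory Set
open scoped InnerProductSpace

section
variable {X : Type} [NormedAddCommGroup X] [NormedSpace ℝ X]
  {H : Type} [NormedAddCommGroup H] [InnerProductSpace ℝ H] [CompleteSpace H]

theorem norm_SN : SN (fun x : X => ‖x‖) 1 :=
  ⟨norm_add_le, fun c x => norm_smul c x, fun x => by rw [one_mul]⟩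

theorem sm_norm_ge (T : H →L[ℝ] X) (x : X) :
    (1 + ‖T‖)⁻¹ * ‖x‖ ≤ sm T (fun x : X => ‖x‖) x := by
  have hT := norm_nonneg T
  refine le_of_sq_le_sq (le_sm_sq T _ x _ fun u => ?_) (sm_nonneg T _ x)
  rw [mul_pow, inv_pow, inv_mul_le_iff₀ (by positivity)]
  have h1 : ‖x‖ ≤ ‖x - T u‖ + ‖T‖ * ‖u‖ := by
    have h2 := norm_add_le (x - T u) (T u)
    rw [sub_add_cancel] at h2
    exact h2.trans (add_le_add le_rfl (T.le_opNorm u))
  have h3 := pow_le_pow_left₀ (norm_nonneg x) h1 2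
  refine h3.trans ?_
  have hp := norm_nonneg (x - T u)
  have hr := norm_nonneg u
  nlinarith [sq_nonneg (‖x - T u‖ - ‖u‖), mul_nonneg hT (sq_nonneg (‖x - T u‖ - ‖u‖)),
    mul_nonneg hT (sq_nonneg ‖u‖), mul_nonneg hT (sq_nonneg ‖x - T u‖),
    mul_nonneg (sq_nonneg ‖T‖) (sq_nonneg ‖x - T u‖), sq_nonneg ‖u‖]

theorem sm_pos (J : X →L[ℝ] H) (T : H →L[ℝ] X) (hJ : ∀ x, J x = 0 → x = 0) {S : X → ℝ}
    (hS : ∀ z, ‖J z‖ ≤ S z) (x : X) (hx : x ≠ 0) : 0 < sm T S x := by
  obtain ⟨R, hR1, hR2⟩ := exists_R J T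
  have h1 := lower1 J T hS (R x) 0
  rw [map_zero, inner_zero_right, mul_zero, add_zero, add_zero, hR1] at h1
  have h2 : J (R x) ≠ 0 := fun h => hx (hJ x (hR2 x h))
  have h3 : 0 < ‖J (R x)‖ := norm_pos_iff.mpr h2
  rcases (sm_nonneg T S x).eq_or_lt with h | h
  · rw [← h] at h1
    have := sq_nonneg ‖u0 J T (R x)‖
    have : 0 < ‖J (R x)‖ ^ 2 := by positivity
    nlinarith
  · exact h

end

section
variable {X : Type} [NormedAddCommGroup X] [NormedSpace ℝ X]

/-- the dense sequence of the unit sphere of `‖J ·‖`, with repetitions -/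
theorem exists_y [TopologicalSpace.SeparableSpace X] (hX : ¬ FiniteDimensional ℝ X)
    {H : Type} [NormedAddCommGroup H] [InnerProductSpace ℝ H]
    (J : X →L[ℝ] H) (hJ : ∀ x, J x = 0 → x = 0) :
    ∃ y : ℕ → X, (∀ i, ‖J (y i)‖ = 1) ∧ ∀ w, J w ≠ 0 → ∀ ε : ℝ, 0 < ε →
      ∃ᶠ i in atTop, ‖J (y i) - ‖J w‖⁻¹ • J w‖ < ε := by
  have : SecondCountableTopology X := UniformSpace.secondCountable_of_separable X
  let U : Set X := {x | ‖J x‖ = 1}
  have hmem : ∀ w, J w ≠ 0 → ‖J w‖⁻¹ • w ∈ U := by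
    intro w hw
    change ‖J (‖J w‖⁻¹ • w)‖ = 1
    rw [map_smul, norm_smul, norm_inv, norm_norm, inv_mul_cancel₀ (norm_ne_zero_iff.mpr hw)]
  have hne : Nonempty U := by
    have hnt : Nontrivial X := by
      by_contra h
      rw [not_nontrivial_iff_subsingleton] at h
      exact hX inferInstance
    obtain ⟨x, hx⟩ := exists_ne (0 : X)
    exact ⟨⟨_, hmem x fun h => hx (hJ x h)⟩⟩
  obtain ⟨d, hd⟩ := TopologicalSpace.exists_dense_seq U
  refine ⟨fun i => d (Nat.unpair i).1, fun i => (d (Nat.unpair i).1).2, fun w hw ε hε => ?_⟩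
  obtain ⟨n, hn⟩ := Metric.denseRange_iff.mp hd ⟨_, hmem w hw⟩ (ε / (‖J‖ + 1)) (by positivity)
  rw [Subtype.dist_eq, dist_eq_norm] at hn
  rw [frequently_atTop]
  intro k
  refine ⟨Nat.pair n k, Nat.right_le_pair n k, ?_⟩
  change ‖J (d (Nat.unpair (Nat.pair n k)).1 : X) - ‖J w‖⁻¹ • J w‖ < ε
  rw [Nat.unpair_pair, ← map_smul, ← map_sub]
  refine lt_of_le_of_lt (J.le_opNorm _) ?_
  rw [norm_sub_rev]
  have h1 : ‖‖J w‖⁻¹ • w - (d n : X)‖ * (‖J‖ + 1) < ε := by
    rwa [lt_div_iff₀ (by positivity)] at hn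
  have h2 := norm_nonneg (‖J w‖⁻¹ • w - (d n : X))
  nlinarith

/-- finitely many independent vectors in a sequence with dense span -/
theorem exists_indep (hX : ¬ FiniteDimensional ℝ X) (e : ℕ → X)
    (he : Dense ((Submodule.span ℝ (Set.range e) : Submodule ℝ X) : Set X)) (m : ℕ) :
    ∃ k : Fin m → ℕ, LinearIndependent ℝ fun j => e (k j) := by
  obtain ⟨b, hb1, hb2, hb3⟩ := exists_linearIndependent ℝ (Set.range e)
  have hinf : b.Infinite := by
    intro hfin
    apply hX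
    have h1 : FiniteDimensional ℝ (Submodule.span ℝ (Set.range e)) := by
      rw [← hb2]
      exact FiniteDimensional.span_of_finite ℝ hfin
    have h2 : IsClosed ((Submodule.span ℝ (Set.range e) : Submodule ℝ X) : Set X) :=
      Submodule.closed_of_finiteDimensional _
    have h3 : (Submodule.span ℝ (Set.range e) : Submodule ℝ X) = ⊤ := by
      rw [eq_top_iff]
      intro x _
      have := he x
      rwa [h2.closure_eq] at this
    rw [h3] at h1
    exact Module.Finite.equiv (Submodule.topEquiv (R := ℝ) (M := X))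
  have : Infinite b := hinf.to_subtype
  let ι : Fin m → b := fun j => Infinite.natEmbedding b j
  have hι : Function.Injective ι := fun i j h =>
    Fin.ext ((Infinite.natEmbedding b).injective h)
  choose k hk using fun j : Fin m => hb1 (ι j).2
  refine ⟨k, ?_⟩
  have h4 : (fun j => e (k j)) = (fun x : b => (x : X)) ∘ ι := funext fun j => hk j
  rw [h4]
  exact hb3.comp ι hι

theorem not_FD_zero {N : X → ℝ} {K a : ℝ} (h : SN N K) (ha : 0 < a)
    (hN : ∀ x, a * ‖x‖ ≤ N x) (hX : ¬ FiniteDimensional ℝ X) : ¬ FD N 0 := by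
  intro hF
  obtain ⟨s0, hs0, hF⟩ := hF a ha
  have hnt : Nontrivial X := by
    by_contra h
    rw [not_nontrivial_iff_subsingleton] at h
    exact hX inferInstance
  obtain ⟨x, hx⟩ := exists_ne (0 : X)
  have hx' : 0 < ‖x‖ := norm_pos_iff.mpr hx
  have hn : ‖(s0 / ‖x‖) • x‖ = s0 := by
    rw [norm_smul, Real.norm_eq_abs, abs_of_pos (by positivity)]
    field_simp
  have h1 := hF s0 hs0 le_rfl ((s0 / ‖x‖) • x) hn.le
  have h2 := hN ((s0 / ‖x‖) • x)
  have h3 : N 0 = 0 := by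
    have := h.smul 0 0
    rwa [zero_smul, abs_zero, zero_mul] at this
  rw [zero_add, zero_sub, h.neg, h3] at h1
  rw [hn] at h2
  have : 0 < a * s0 := by positivity
  linarith

end

theorem main (X : Type) [NormedAddCommGroup X] [NormedSpace ℝ X] [CompleteSpace X]
    [TopologicalSpace.SeparableSpace X] (hX : ¬ FiniteDimensional ℝ X)
    (q : ℕ) (hq : q ≠ 0) (u : ℕ → X →L[ℝ] ℝ) (hu : ∀ i, ‖u i‖ ≤ 1) (c0 : ℝ) (hc0 : 0 < c0)
    (hu2 : ∀ i, c0 ≤ ‖u i‖) (hus : ∀ x, Summable fun i => |u i x| ^ q) :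
    ∃ N : X → ℝ, (∀ x y : X, N (x + y) ≤ N x + N y) ∧
        (∀ (c : ℝ) (x : X), N ((c : ℝ) • x) = |c| * N x) ∧
        (∃ a b : ℝ, 0 < a ∧ 0 < b ∧ ∀ x : X, a * ‖x‖ ≤ N x ∧ N x ≤ b * ‖x‖) ∧
        (∀ x : X, x ≠ 0 → ∃ f : X →L[ℝ] ℝ, ∀ v : X,
            HasDerivAt (fun t : ℝ => N (x + (t : ℝ) • v)) (f v) (0 : ℝ)) ∧
        ∀ e : ℕ → X,
          Dense ((Submodule.span ℝ (Set.range e) : Submodule ℝ X) : Set X) →
          ∃ B : ℕ → Set X, (∀ n : ℕ, @MeasurableSet X (borel X) (B n)) ∧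
            (∀ (n : ℕ) (y : X),
              (MeasureTheory.volume : MeasureTheory.Measure ℝ)
                {t : ℝ | y + (t : ℝ) • e n ∈ B n} = 0) ∧
            {x : X | DifferentiableAt ℝ N x} ⊆ ⋃ n : ℕ, B n := by
  obtain ⟨J, hJ⟩ := exists_J X
  obtain ⟨T, hTd, hT⟩ := exists_T X
  obtain ⟨y, hy, hy2⟩ := exists_y hX J hJ
  obtain ⟨R, hR1, hR2⟩ := exists_R J T
  have hux : ∀ x, Tendsto (fun i => u i x) atTop (𝓝 0) := by
    intro x
    have h1 := (hus x).tendsto_atTop_zero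
    rw [Metric.tendsto_atTop] at h1 ⊢
    intro ε hε
    obtain ⟨n, hn⟩ := h1 (ε ^ q) (by positivity)
    refine ⟨n, fun i hi => ?_⟩
    have h2 := hn i hi
    rw [dist_zero_right, Real.norm_eq_abs, abs_of_nonneg (by positivity)] at h2
    rw [dist_zero_right, Real.norm_eq_abs]
    exact lt_of_pow_lt_pow_left₀ q hε.le h2
  have huT := hT u hu hux
  -- the norm
  let P : ℕ → X → ℝ := fun I => sm T (SI J u y I)
  have hP : ∀ I, SN (P I) (‖J‖ + 1) := fun I => sm_SN T (SI_SN hu hy I)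
  let N : X → ℝ := fun x => sm T (fun x : X => ‖x‖) x + ws P x
  have hN0 : SN (sm T (fun x : X => ‖x‖)) 1 := sm_SN T norm_SN
  have hN : SN N (1 + 2 * (‖J‖ + 1)) := hN0.add (ws_SN hP)
  have hNlow : ∀ x, (1 + ‖T‖)⁻¹ * ‖x‖ ≤ N x := by
    intro x
    have h1 := sm_norm_ge T x
    have h2 := (ws_SN hP).nonneg x
    change _ ≤ sm T (fun x : X => ‖x‖) x + ws P x
    linarith
  have hinv : 0 < (1 + ‖T‖)⁻¹ := by positivity
  refine ⟨N, hN.add_le, hN.smul, ⟨(1 + ‖T‖)⁻¹, 1 + 2 * (‖J‖ + 1), hinv, by positivity,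
    fun x => ⟨hNlow x, hN.le x⟩⟩, ?_, ?_⟩
  · intro x hx
    refine GD.hasDerivAt hN x ?_
    refine GD.add ?_ ?_
    · refine sm_GD T norm_SN zero_le_one hTd x ?_
      have h1 := sm_norm_ge T x
      have h2 : 0 < ‖x‖ := norm_pos_iff.mpr hx
      have h3 : 0 < (1 + ‖T‖)⁻¹ * ‖x‖ := by positivity
      linarith
    · refine ws_GD hP x fun I => ?_
      exact sm_GD T (SI_SN hu hy I) (by positivity) hTd x
        (sm_pos J T hJ (fun z => le_SI I z) x hx)
  · intro e he
    let _ : MeasurableSpace X := borel X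
    have _ : BorelSpace X := ⟨rfl⟩
    have _ : SecondCountableTopology X := UniformSpace.secondCountable_of_separable X
    let A : Set X := {x | ∃ᶠ i in atTop, R x ∈ cap J u y i}
    have hcapo : ∀ i, IsOpen {x | R x ∈ cap J u y i} := by
      intro i
      have h1 : Continuous fun x => ‖J (R x)‖ := by fun_prop
      have h2 : Continuous fun x => |fi J u y i (R x)| := by fun_prop
      exact isOpen_lt h1 h2
    have hAm : MeasurableSet A := by
      have h1 : A = ⋂ n : ℕ, ⋃ i : ℕ, ⋃ _ : n ≤ i, {x | R x ∈ cap J u y i} := by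
        ext x
        simp only [A, mem_ofPred_eq, frequently_atTop, mem_iInter, mem_iUnion, exists_prop]
      rw [h1]
      exact MeasurableSet.iInter fun n => MeasurableSet.iUnion fun i =>
        MeasurableSet.iUnion fun _ => (hcapo i).measurableSet
    obtain ⟨k, hk⟩ := exists_indep hX e he (2 * q + 1)
    have hA0 : ∀ a, volume {s : Fin (2 * q + 1) → ℝ | a + ∑ j, s j • e (k j) ∈ A} = 0 := fun a =>
      measure_limsup hq hy hus R (fun x hx => hJ x (hR2 x hx)) a (fun j => e (k j)) hk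
    obtain ⟨B, hB1, hB2, hB3⟩ := decomp (2 * q + 1) (fun j => e (k j)) A hAm hA0
    refine ⟨fun n => ⋃ j : Fin (2 * q + 1), ⋃ _ : k j = n, B j, ?_, ?_, ?_⟩
    · intro n
      exact MeasurableSet.iUnion fun j => MeasurableSet.iUnion fun _ => hB1 j
    · intro n z
      have h1 : {t : ℝ | z + t • e n ∈ ⋃ j : Fin (2 * q + 1), ⋃ _ : k j = n, B j} ⊆
          ⋃ j : Fin (2 * q + 1), {t : ℝ | z + t • e (k j) ∈ B j} := by
        intro t ht
        simp only [mem_ofPred_eq, mem_iUnion, exists_prop] at ht ⊢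
        obtain ⟨j, rfl, hj⟩ := ht
        exact ⟨j, hj⟩
      refine measure_mono_null h1 ?_
      rw [measure_iUnion_null_iff]
      exact fun j => hB2 j z
    · intro x hx
      have hFD : FD N x := FD.of_differentiableAt hx
      have hxA : x ∈ A := by
        by_contra hxA
        have hx0 : x ≠ 0 := by
          rintro rfl
          exact not_FD_zero hN hinv hNlow hX hFD
        have h1 : ∀ᶠ i in atTop, R x ∉ cap J u y i := not_frequently.mp hxA
        obtain ⟨I, hI⟩ := eventually_atTop.mp h1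
        have hcap : SI J u y I (R x) ≤ ‖J (R x)‖ :=
          max_le le_rfl (ciSup_le fun j => not_lt.mp (hI (I + j) (Nat.le_add_right _ _)))
        have hw : J (R x) ≠ 0 := fun h => hx0 (hJ x (hR2 x h))
        have h2 := not_FD T hu hy I c0 hc0 hu2 hux huT (R x) hw (hy2 _ hw) hcap
        rw [hR1] at h2
        apply h2
        intro ε hε
        obtain ⟨s0, hs0, h3⟩ := hFD ((1 / 2) ^ I * ε) (by positivity)
        refine ⟨s0, hs0, fun s hs hs2 h hh => ?_⟩
        have h4 := h3 s hs hs2 h hh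
        have h5 := hN0.second x h
        have h6 := ws_ge hP x h I
        have h7 : (1 / 2 : ℝ) ^ I * (P I (x + h) + P I (x - h) - 2 * P I x) ≤
            (1 / 2 : ℝ) ^ I * (ε * s) := by
          have h8 : N (x + h) + N (x - h) - 2 * N x =
              (sm T (fun x : X => ‖x‖) (x + h) + sm T (fun x : X => ‖x‖) (x - h) -
                2 * sm T (fun x : X => ‖x‖) x) + (ws P (x + h) + ws P (x - h) - 2 * ws P x) := by
            simp only [N]; ring
          rw [h8] at h4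
          linarith
        exact le_of_mul_le_mul_left h7 (by positivity)
      obtain ⟨j, hj⟩ := mem_iUnion.mp (hB3 hxA)
      refine mem_iUnion.mpr ⟨k j, ?_⟩
      simp only [mem_iUnion, exists_prop]
      exact ⟨j, rfl, hj⟩

end Pool.Agent.Helper115.GF
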