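import Pool.Agent.Helper115.GFb

set_option autoImplicit false

namespace Pool.Agent.Helper115.GF

open Filter Topology

/-- a copy of the vector space `X`, without its norm -/
def Syn (X : Type) : Type := X

instance (X : Type) [h : AddCommGroup X] : AddCommGroup (Syn X) := h

instance (X : Type) [AddCommGroup X] [h : Module ℝ X] : Module ℝ (Syn X) := h

theorem exists_functionals' (X : Type) [NormedAddCommGroup X] [NormedSpace ℝ X]
    (hX : ¬ FiniteDimensional ℝ X) (M : X → ℝ) (hadd : ∀ x y : X, M (x + y) ≤ M x + M y)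
    (hsmul : ∀ (c : ℝ) (x : X), M ((c : ℝ) • x) = |c| * M x)
    (a b : ℝ) (ha : 0 < a) (hb : 0 < b) (hab : ∀ x : X, a * ‖x‖ ≤ M x ∧ M x ≤ b * ‖x‖)
    (hU : ∀ ε : ℝ, 0 < ε → ∃ δ : ℝ, 0 < δ ∧ ∀ x y : X,
            M x ≤ 1 → M y ≤ 1 → ε ≤ M (x - y) → M (x + y) ≤ 2 - δ) :
    ∃ (q : ℕ) (u : ℕ → X →L[ℝ] ℝ) (c0 : ℝ), q ≠ 0 ∧ (∀ i, ‖u i‖ ≤ 1) ∧ 0 < c0 ∧
      (∀ i, c0 ≤ ‖u i‖) ∧ ∀ x, Summable fun i => |u i x| ^ q := by
  have hnn : ∀ x : X, 0 ≤ M x := fun x => (mul_nonneg ha.le (norm_nonneg x)).trans (hab x).1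
  have hz1 : ∀ x : X, M x = 0 → x = 0 := by
    intro x h2
    have h1 := (hab x).1
    rw [h2] at h1
    have h3 : ‖x‖ ≤ 0 := by
      by_contra hcon
      push Not at hcon
      have : 0 < a * ‖x‖ := by positivity
      linarith
    exact norm_le_zero_iff.mp h3
  have hz2 : M 0 = 0 := by
    have h1 := (hab 0).2
    rw [norm_zero, mul_zero] at h1
    exact le_antisymm h1 (hnn 0)
  let _ : Norm (Syn X) := ⟨M⟩
  have core : NormedSpace.Core ℝ (Syn X) :=
    { norm_nonneg := hnn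
      norm_smul := fun c x => hsmul c x
      norm_triangle := hadd
      norm_eq_zero_iff := fun x => ⟨hz1 x, fun h => by subst h; exact hz2⟩ }
  let _ : NormedAddCommGroup (Syn X) := NormedAddCommGroup.ofCore core
  let _ : NormedSpace ℝ (Syn X) := NormedSpace.ofCore core
  have hUC : UC (Syn X) := fun ε hε => by
    obtain ⟨δ, hδ, h⟩ := hU ε hε
    exact ⟨δ, hδ, fun x y hx hy hxy => h x y hx hy hxy⟩
  have hX' : ¬ FiniteDimensional ℝ (Syn X) := hX
  obtain ⟨q, u, hq, hu, hs⟩ := exists_functionals hX' hUC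
  have hbound : ∀ i, ∀ x : X, ‖(show ℝ from u i x)‖ ≤ b * ‖x‖ := by
    intro i x
    have h1 := (u i).le_opNorm x
    rw [hu, one_mul] at h1
    exact h1.trans (hab x).2
  let L : ℕ → X →ₗ[ℝ] ℝ := fun i =>
    { toFun := fun x => u i x
      map_add' := fun x y => map_add (u i) (show Syn X from x) (show Syn X from y)
      map_smul' := fun c x => map_smul (u i) c (show Syn X from x) }
  let v : ℕ → X →L[ℝ] ℝ := fun i => (L i).mkContinuous b (hbound i)
  have hv : ∀ i x, v i x = u i x := fun i x => rfl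
  have hvb : ∀ i, ‖v i‖ ≤ b := fun i => (L i).mkContinuous_norm_le hb.le (hbound i)
  refine ⟨q, fun i => (b + 1)⁻¹ • v i, (b + 1)⁻¹ * (a / 2), hq, fun i => ?_, by positivity,
    fun i => ?_, fun x => ?_⟩
  · rw [norm_smul, norm_inv, Real.norm_eq_abs, abs_of_pos (by positivity),
      inv_mul_le_iff₀ (by positivity)]
    linarith [hvb i]
  · rw [norm_smul, norm_inv, Real.norm_eq_abs, abs_of_pos (by positivity)]
    refine mul_le_mul_of_nonneg_left ?_ (by positivity)
    obtain ⟨z, hz1, hz2⟩ := exists_near (u i) (1 / 2) (by norm_num)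
    rw [hu] at hz2
    have h1 : ‖(show X from z)‖ ≤ 1 / a := by
      have h2 : M z ≤ 1 := hz1
      rw [le_div_iff₀ ha]
      linarith [(hab z).1]
    have h3 := (le_abs_self _).trans ((v i).le_opNorm (show X from z))
    have h4 : ‖v i‖ * ‖(show X from z)‖ ≤ ‖v i‖ * (1 / a) :=
      mul_le_mul_of_nonneg_left h1 (norm_nonneg _)
    have h5 : (1 / 2 : ℝ) ≤ v i (show X from z) := by
      rw [hv]; linarith
    have h6 : 1 / 2 ≤ ‖v i‖ * (1 / a) := h5.trans (h3.trans h4)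
    rw [mul_one_div, le_div_iff₀ ha] at h6
    linarith
  · have h1 : ∀ i, |((b + 1)⁻¹ • v i) x| ^ q = ((b + 1)⁻¹) ^ q * |v i x| ^ q := by
      intro i
      rw [smul_apply, smul_eq_mul, abs_mul, mul_pow, abs_of_pos (by positivity : 0 < (b + 1)⁻¹)]
    simp_rw [h1]
    exact (hs x).mul_left _

end Pool.Agent.Helper115.GF
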