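import Pool.Agent.Helper115.Base

set_option autoImplicit false

namespace Pool.Agent.Helper115.Nd

open MvPolynomial

theorem exists_generic (D : ℕ) (hD : 2 ≤ D) :
    ∃ (Ω : Type) (_ : Field Ω) (_ : Algebra ℂ Ω) (_ : IsAlgClosed Ω) (y : ℕ → Ω) (κ : Ω),
      y 0 = 0 ∧ AlgebraicIndependent ℂ (fun j : Fin (D + 1) => κ * mino D 0 D y j) ∧
      tdet D 0 D y ≠ 0 := by
  obtain ⟨M, rfl⟩ : ∃ M, D = M + 2 := ⟨D - 2, by omega⟩
  obtain ⟨R, _, _, _, y, hy, h1, h2⟩ := exists_good (M + 2) M 0 rfl
  let S := Polynomial R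
  let K := FractionRing S
  let Ω := AlgebraicClosure K
  let f : S →ₐ[ℂ] Ω := (Algebra.ofId K Ω).restrictScalars ℂ |>.comp
    ((Algebra.ofId S K).restrictScalars ℂ)
  have hf : Function.Injective f := by
    intro a b hab
    exact IsFractionRing.injective S K ((algebraMap K Ω).injective hab)
  refine ⟨Ω, inferInstance, inferInstance, inferInstance, fun n => f (Polynomial.C (y n)),
    f Polynomial.X, ?_, ?_, ?_⟩
  · simp [hy]
  · have h3 := h1.algebraicIndependent.map' hf
    have h5 : (fun j : Fin (M + 2 + 1) => f Polynomial.X *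
        mino (M + 2) 0 (M + 2) (fun n => f (Polynomial.C (y n))) j) =
        (⇑f ∘ fun i => Polynomial.X * Polynomial.C (mino (M + 2) 0 (M + 2) y i)) := by
      funext j
      simp only [Function.comp, map_mul]
      congr 1
      exact (map_mino ((f : S →+* Ω).comp (Polynomial.C : R →+* S)) (M + 2) 0 (M + 2) y j).symm
    exact h5 ▸ h3
  · have h4 := map_tdet ((f : S →+* Ω).comp (Polynomial.C : R →+* S)) (M + 2) 0 (M + 2) y
    have h5 : tdet (M + 2) 0 (M + 2) (fun n => f (Polynomial.C (y n))) =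
        f (Polynomial.C (tdet (M + 2) 0 (M + 2) y)) := h4.symm
    rw [h5]
    intro h6
    apply h2
    have h7 := hf (h6.trans (map_zero f).symm)
    exact Polynomial.C_eq_zero.mp h7

end Pool.Agent.Helper115.Nd
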