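import Mathlib

set_option autoImplicit false

namespace Pool.Agent.Helper115.Nd

open MvPolynomial

/-- A family has no nonzero homogeneous polynomial relation over the complex numbers. -/
def HomIndep {ι R : Type*} [CommRing R] [Algebra ℂ R] (x : ι → R) : Prop :=
  ∀ (P : MvPolynomial ι ℂ) (δ : ℕ), P.IsHomogeneous δ → aeval x P = 0 → P = 0

theorem aeval_mul_of_isHomogeneous {ι R : Type*} [CommRing R] [Algebra ℂ R]
    (P : MvPolynomial ι ℂ) (δ : ℕ) (hP : P.IsHomogeneous δ) (c : R) (x : ι → R) :
    aeval (fun i => c * x i) P = c ^ δ * aeval x P := by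
  rw [aeval_def, aeval_def, eval₂_eq, eval₂_eq, Finset.mul_sum]
  refine Finset.sum_congr rfl ?_
  intro d hd
  have h1 : d.degree = δ := by
    by_contra h
    exact (mem_support_iff.mp hd) (hP.coeff_eq_zero h)
  have h2 : ∏ i ∈ d.support, (c * x i) ^ d i = c ^ δ * ∏ i ∈ d.support, x i ^ d i := by
    simp_rw [mul_pow]
    rw [Finset.prod_mul_distrib, Finset.prod_pow_eq_pow_sum, ← h1]
    rfl
  rw [h2]; ring

theorem HomIndep.mul {ι R : Type*} [CommRing R] [IsDomain R] [Algebra ℂ R] {x : ι → R}
    (hx : HomIndep x) {c : R} (hc : c ≠ 0) : HomIndep (fun i => c * x i) := by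
  intro P δ hP h
  rw [aeval_mul_of_isHomogeneous P δ hP] at h
  exact hx P δ hP ((mul_eq_zero.mp h).resolve_left (pow_ne_zero _ hc))

theorem HomIndep.of_equiv {ι κ R : Type*} [CommRing R] [Algebra ℂ R] {x : ι → R}
    (hx : HomIndep x) (e : κ ≃ ι) : HomIndep (fun i => x (e i)) := by
  intro P δ hP h
  have h1 : aeval x (rename e P) = 0 := by
    rw [aeval_rename]; exact h
  have h2 := hx (rename e P) δ hP.rename_isHomogeneous h1
  exact (rename_injective e e.injective) (by rw [h2, map_zero])

theorem aeval_eq_eval₂_finSuccEquiv {N : ℕ} {S : Type*} [CommRing S] [Algebra ℂ S]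
    (x : Fin (N + 1) → S) (P : MvPolynomial (Fin (N + 1)) ℂ) :
    aeval x P = (finSuccEquiv ℂ N P).eval₂
      ((aeval fun j => x (Fin.succ j) : MvPolynomial (Fin N) ℂ →ₐ[ℂ] S) : _ →+* S) (x 0) := by
  induction P using MvPolynomial.induction_on with
  | C a => simp [finSuccEquiv_apply, Polynomial.eval₂_C]
  | add p q hp hq => rw [map_add, map_add, Polynomial.eval₂_add, hp, hq]
  | mul_X p i hp =>
    rw [map_mul, map_mul, Polynomial.eval₂_mul, hp]
    congr 1
    refine Fin.cases ?_ (fun j => ?_) i
    · rw [finSuccEquiv_X_zero, Polynomial.eval₂_X, aeval_X]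
    · rw [finSuccEquiv_X_succ, Polynomial.eval₂_C, aeval_X]
      simp

theorem homIndep_step {R : Type*} [CommRing R] [IsDomain R] [Algebra ℂ R] {N : ℕ}
    (e : ℕ) (he : 0 < e) (x' : Fin (N + 1) → Polynomial R) (w : Fin N → Polynomial R)
    (h0 : (x' 0).coeff 0 ≠ 0) (hs : ∀ j : Fin N, x' j.succ = Polynomial.X ^ e * w j)
    (hw : HomIndep (fun j => (w j).coeff 0)) : HomIndep x' := by
  intro P δ hP hP0
  by_contra hne
  set p := finSuccEquiv ℂ N P with hp
  have hpne : p ≠ 0 := by
    rw [hp]; simpa using hne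
  set I := p.natDegree with hI
  have hIδ : I ≤ δ := by
    rw [hI, hp, natDegree_finSuccEquiv]
    exact (degreeOf_le_totalDegree P 0).trans hP.totalDegree_le
  have hcoeff : ∀ i, i ≤ δ → (p.coeff i).IsHomogeneous (δ - i) := fun i hi =>
    hP.finSuccEquiv_coeff_isHomogeneous i (δ - i) (by omega)
  rw [aeval_eq_eval₂_finSuccEquiv, ← hp, Polynomial.eval₂_eq_sum_range, ← hI] at hP0
  have hterm : ∀ i ∈ Finset.range (I + 1),
      ((aeval fun j => x' (Fin.succ j) : MvPolynomial (Fin N) ℂ →ₐ[ℂ] Polynomial R) :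
          _ →+* Polynomial R) (p.coeff i) * x' 0 ^ i =
        Polynomial.X ^ (e * (δ - I)) *
          (Polynomial.X ^ (e * (I - i)) * (aeval w (p.coeff i) * x' 0 ^ i)) := by
    intro i hi
    have hi' : i ≤ I := by simpa [Nat.lt_succ_iff] using hi
    have h1 : (aeval fun j => x' (Fin.succ j)) (p.coeff i) =
        (Polynomial.X ^ e) ^ (δ - i) * aeval w (p.coeff i) := by
      have : (fun j => x' (Fin.succ j)) = fun j => Polynomial.X ^ e * w j := funext hs
      rw [this]
      exact aeval_mul_of_isHomogeneous _ _ (hcoeff i (hi'.trans hIδ)) _ _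
    have h2 : e * (δ - i) = e * (δ - I) + e * (I - i) := by
      rw [← Nat.mul_add]; congr 1; omega
    simp only [RingHom.coe_coe]
    rw [h1, ← pow_mul, h2, pow_add]
    ring
  rw [Finset.sum_congr rfl hterm, ← Finset.mul_sum] at hP0
  have hX : (Polynomial.X : Polynomial R) ^ (e * (δ - I)) ≠ 0 := pow_ne_zero _ Polynomial.X_ne_zero
  have hS := (mul_eq_zero.mp hP0).resolve_left hX
  have hc : (∑ i ∈ Finset.range (I + 1),
      Polynomial.X ^ (e * (I - i)) * (aeval w (p.coeff i) * x' 0 ^ i)).coeff 0 = 0 := by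
    rw [hS, Polynomial.coeff_zero]
  rw [Polynomial.finsetSum_coeff, Finset.sum_range_succ] at hc
  have hz : ∑ i ∈ Finset.range I,
      (Polynomial.X ^ (e * (I - i)) * (aeval w (p.coeff i) * x' 0 ^ i)).coeff 0 = 0 := by
    refine Finset.sum_eq_zero ?_
    intro i hi
    have hi' : i < I := by simpa using hi
    have : 0 < e * (I - i) := Nat.mul_pos he (by omega)
    rw [Polynomial.mul_coeff_zero, Polynomial.coeff_X_pow, if_neg (by omega), zero_mul]
  rw [hz, zero_add, Nat.sub_self, Nat.mul_zero, pow_zero, one_mul, Polynomial.mul_coeff_zero] at hc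
  have h3 : (x' 0 ^ I).coeff 0 ≠ 0 := by
    rw [Polynomial.coeff_zero_eq_eval_zero, Polynomial.eval_pow]
    rw [← Polynomial.coeff_zero_eq_eval_zero]
    exact pow_ne_zero _ h0
  have h4 := (mul_eq_zero.mp hc).resolve_right h3
  have h5 : aeval (fun j => (w j).coeff 0) (p.coeff I) = 0 := by
    rw [← h4]
    let φ : Polynomial R →ₐ[ℂ] R :=
      { Polynomial.constantCoeff with
        commutes' := fun r => by
          simp [Polynomial.algebraMap_apply] }
    have h6 : ∀ j, (w j).coeff 0 = φ (w j) := fun j => rfl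
    have h7 : ((aeval w) (p.coeff I)).coeff 0 = φ ((aeval w) (p.coeff I)) := rfl
    rw [h7]
    simp_rw [h6]
    rw [← comp_aeval_apply]
  have h8 := hw (p.coeff I) (δ - I) (hcoeff I hIδ) h5
  exact hpne (Polynomial.leadingCoeff_eq_zero.mp h8)

/-- Homogeneous independence upgrades to algebraic independence after scaling by a variable. -/
theorem HomIndep.algebraicIndependent {ι R : Type*} [CommRing R] [IsDomain R] [Algebra ℂ R]
    {x : ι → R} (hx : HomIndep x) :
    AlgebraicIndependent ℂ (fun i => (Polynomial.X : Polynomial R) * Polynomial.C (x i)) := by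
  rw [algebraicIndependent_iff]
  intro P hP
  have h1 : ∀ k : ℕ, aeval (fun i => (Polynomial.X : Polynomial R) * Polynomial.C (x i))
      (homogeneousComponent k P) =
      Polynomial.X ^ k * Polynomial.C (aeval x (homogeneousComponent k P)) := by
    intro k
    rw [aeval_mul_of_isHomogeneous _ k (homogeneousComponent_isHomogeneous k P)]
    congr 1
    have : (fun i => Polynomial.C (x i)) =
        fun i => (Algebra.ofId R (Polynomial R)).restrictScalars ℂ (x i) := by
      funext i; rfl
    rw [this, ← comp_aeval_apply]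
    rfl
  have h2 : ∀ k, homogeneousComponent k P = 0 := by
    intro k
    by_cases hk : k ∈ Finset.range (P.totalDegree + 1)
    · refine hx _ k (homogeneousComponent_isHomogeneous k P) ?_
      rw [← sum_homogeneousComponent P, map_sum, Finset.sum_congr rfl (fun k _ => h1 k)] at hP
      have h3 := congrArg (fun q => Polynomial.coeff q k) hP
      simp only [Polynomial.finsetSum_coeff, Polynomial.coeff_zero, Polynomial.coeff_X_pow_mul',
        Polynomial.coeff_C] at h3
      rw [Finset.sum_eq_single k] at h3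
      · simpa using h3
      · intro b _ hb
        split_ifs with h4 h5
        · exfalso; omega
        · rfl
        · rfl
      · intro h; exact absurd hk h
    · apply homogeneousComponent_eq_zero
      simpa [Nat.lt_succ_iff] using hk
  rw [← sum_homogeneousComponent P]
  exact Finset.sum_eq_zero (fun k _ => h2 k)

end Pool.Agent.Helper115.Nd
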