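import Pool.Agent.Helper115.Unirat

set_option autoImplicit false

namespace Pool.Agent.Helper115.Nd

open MvPolynomial

/-- Setting the first variable to one. -/
noncomputable def dehom (N : ℕ) : MvPolynomial (Fin (N + 1)) ℂ →ₐ[ℂ] MvPolynomial (Fin N) ℂ :=
  aeval (Fin.cons 1 (fun j => X j) : Fin (N + 1) → MvPolynomial (Fin N) ℂ)

theorem eq_zero_of_dehom {N : ℕ} (P : MvPolynomial (Fin (N + 1)) ℂ) (δ : ℕ)
    (hP : P.IsHomogeneous δ) (h : dehom N P = 0) : P = 0 := by
  set p := finSuccEquiv ℂ N P with hp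
  have hdeg : p.natDegree ≤ δ := by
    rw [hp, natDegree_finSuccEquiv]
    exact (degreeOf_le_totalDegree P 0).trans hP.totalDegree_le
  have hcoeff : ∀ i, i ≤ δ → (p.coeff i).IsHomogeneous (δ - i) := fun i hi =>
    hP.finSuccEquiv_coeff_isHomogeneous i (δ - i) (by omega)
  rw [dehom, aeval_eq_eval₂_finSuccEquiv, ← hp] at h
  have h1 : (aeval fun j : Fin N => (Fin.cons 1 (fun j => X j) : Fin (N + 1) →
      MvPolynomial (Fin N) ℂ) (Fin.succ j)) = AlgHom.id ℂ (MvPolynomial (Fin N) ℂ) := by
    apply MvPolynomial.algHom_ext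
    intro i
    simp
  rw [h1, Polynomial.eval₂_eq_sum_range' _ (Nat.lt_succ_of_le hdeg)] at h
  simp only [Fin.cons_zero, one_pow, mul_one] at h
  have h2 : ∑ i ∈ Finset.range (δ + 1), p.coeff i = 0 := h
  have h3 : ∀ i, p.coeff i = 0 := by
    intro i
    by_cases hi : i ≤ δ
    · have h4 := congrArg (homogeneousComponent (δ - i)) h2
      rw [map_sum, map_zero, Finset.sum_eq_single i] at h4
      · rw [homogeneousComponent_of_mem (hcoeff i hi), if_pos rfl] at h4
        exact h4
      · intro j hj hji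
        have hj' : j ≤ δ := by
          have := Finset.mem_range.mp hj
          omega
        rw [homogeneousComponent_of_mem (hcoeff j hj'), if_neg]
        omega
      · intro hi'
        exact absurd (Finset.mem_range.mpr (by omega)) hi'
    · exact Polynomial.coeff_eq_zero_of_natDegree_lt (by omega)
  have h5 : p = 0 := Polynomial.ext (fun i => by rw [h3 i, Polynomial.coeff_zero])
  have h6 : finSuccEquiv ℂ N P = finSuccEquiv ℂ N 0 := by rw [← hp, h5, map_zero]
  exact (finSuccEquiv ℂ N).injective h6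

theorem exists_homogenize {n N : ℕ} (G : Fin n → MvPolynomial (Fin N) ℂ) :
    ∃ (e : ℕ) (g : Fin n → MvPolynomial (Fin (N + 1)) ℂ), (∀ i, (g i).IsHomogeneous e) ∧
      ∀ i, dehom N (g i) = G i := by
  let e := Finset.univ.sup fun i => (G i).totalDegree
  have he : ∀ i, (G i).totalDegree ≤ e := fun i =>
    Finset.le_sup (f := fun i => (G i).totalDegree) (Finset.mem_univ i)
  refine ⟨e, fun i => ∑ k ∈ Finset.range (e + 1),
    X 0 ^ (e - k) * rename Fin.succ (homogeneousComponent k (G i)), ?_, ?_⟩
  · intro i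
    refine IsHomogeneous.sum _ _ _ fun k hk => ?_
    have hk' : k ≤ e := by
      have := Finset.mem_range.mp hk
      omega
    have h1 : (X 0 ^ (e - k) : MvPolynomial (Fin (N + 1)) ℂ).IsHomogeneous (e - k) := by
      simpa using (isHomogeneous_X ℂ (0 : Fin (N + 1))).pow (e - k)
    have h2 : (rename Fin.succ (homogeneousComponent k (G i)) :
        MvPolynomial (Fin (N + 1)) ℂ).IsHomogeneous k :=
      (homogeneousComponent_isHomogeneous k (G i)).rename_isHomogeneous
    have h3 := h1.mul h2
    rwa [Nat.sub_add_cancel hk'] at h3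
  · intro i
    rw [map_sum]
    have h1 : ∀ k, dehom N (X 0 ^ (e - k) * rename Fin.succ (homogeneousComponent k (G i))) =
        homogeneousComponent k (G i) := by
      intro k
      rw [map_mul, map_pow, dehom, aeval_X, Fin.cons_zero, one_pow, one_mul, aeval_rename]
      have h2 : ((Fin.cons 1 (fun j => X j) : Fin (N + 1) → MvPolynomial (Fin N) ℂ) ∘ Fin.succ) =
          X := by
        funext j; simp
      rw [h2, aeval_X_left_apply]
    rw [Finset.sum_congr rfl fun k _ => h1 k]
    conv_rhs => rw [← sum_homogeneousComponent (G i)]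
    symm
    refine Finset.sum_subset ?_ ?_
    · intro k hk
      have := Finset.mem_range.mp hk
      have := he i
      exact Finset.mem_range.mpr (by omega)
    · intro k _ hk
      apply homogeneousComponent_eq_zero
      by_contra h
      exact hk (Finset.mem_range.mpr (by omega))

theorem chainF_isHomogeneous (D : ℕ) : (chainF D).IsHomogeneous (D + 1) := by
  rw [chainF]
  refine IsHomogeneous.add ?_ ?_
  · simpa using (isHomogeneous_X ℂ (0 : Fin (D + 2))).pow (D + 1)
  · refine IsHomogeneous.sum _ _ _ fun j _ => ?_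
    have h1 := ((isHomogeneous_X ℂ (j.succ : Fin (D + 2))).pow D).mul
      (isHomogeneous_X ℂ (j.castSucc : Fin (D + 2)))
    rw [one_mul] at h1
    rw [mul_comm]
    exact h1

/-- The chain hypersurface is parametrised by forms with dense image. -/
theorem param_forms (D : ℕ) (hD : 2 ≤ D) :
    ∃ (m e : ℕ) (g : Fin (D + 2) → MvPolynomial (Fin (m + 1)) ℂ),
      (∀ i, (g i).IsHomogeneous e) ∧ (∃ i, g i ≠ 0) ∧ aeval g (chainF D) = 0 ∧
      ∀ (k : ℕ) (h : MvPolynomial (Fin (D + 2)) ℂ), h.IsHomogeneous k → aeval g h = 0 →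
        chainF D ∣ h := by
  obtain ⟨N, G, hG0, ⟨i, hi⟩, hG⟩ := param D hD
  obtain ⟨e, g, hg, hgG⟩ := exists_homogenize G
  have hde : ∀ h : MvPolynomial (Fin (D + 2)) ℂ, dehom N (aeval g h) = aeval G h := by
    intro h
    rw [comp_aeval_apply]
    congr 2
    funext i
    exact hgG i
  refine ⟨N, e, g, hg, ⟨i, ?_⟩, ?_, ?_⟩
  · intro h0
    apply hi
    rw [← hgG i, h0, map_zero]
  · apply eq_zero_of_dehom _ (e * (D + 1)) ((chainF_isHomogeneous D).aeval g hg)
    rw [hde, hG0]
  · intro k h hk h0
    apply hG k h hk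
    rw [← hde, h0, map_zero]

end Pool.Agent.Helper115.Nd
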