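import Mathlib

set_option autoImplicit false

namespace Pool.Agent.Helper115.Nd

open MvPolynomial

/-- A matrix with linearly independent rows has a nonzero maximal minor. -/
theorem exists_columns {L : Type*} [Field L] {n : ℕ} {ι : Type} [Finite ι]
    (W : Fin n → ι → L) (hW : ∀ c : Fin n → L, (∀ v, ∑ j, c j * W j v = 0) → c = 0) :
    ∃ v : Fin n → ι, Function.Injective v ∧ (Matrix.of fun j l => W j (v l)).det ≠ 0 := by
  let col : ι → (Fin n → L) := fun v j => W j v
  have hspan : Submodule.span L (Set.range col) = ⊤ := by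
    by_contra hne
    obtain ⟨f, hf0, hf⟩ := Submodule.exists_le_ker_of_lt_top _ (lt_top_iff_ne_top.mpr hne)
    apply hf0
    have h1 : ∀ w : Fin n → L, f w = ∑ j, f (Pi.single j 1) * w j := by
      intro w
      conv_lhs => rw [← Finset.univ_sum_single w]
      rw [map_sum]
      refine Finset.sum_congr rfl fun j _ => ?_
      have : (Pi.single j (w j) : Fin n → L) = w j • Pi.single j 1 := by
        rw [← Pi.single_smul, smul_eq_mul, mul_one]
      rw [this, map_smul, smul_eq_mul, mul_comm]
    have h2 : (fun j => f (Pi.single j 1)) = 0 := by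
      apply hW
      intro v
      have h3 : f (col v) = 0 := hf (Submodule.subset_span ⟨v, rfl⟩)
      rw [h1] at h3
      exact h3
    ext w
    simp only [LinearMap.comp_apply, LinearMap.zero_apply]
    exact congrFun h2 _
  obtain ⟨κ, a, ha, hsp, hli⟩ := exists_linearIndependent' L col
  have hfin : Finite κ := Finite.of_injective a ha
  let _ := Fintype.ofFinite κ
  let b := Module.Basis.mk hli (by rw [hsp, hspan])
  have hcard : Fintype.card κ = n := by
    rw [← Module.finrank_eq_card_basis b, Module.finrank_fin_fun]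
  let e : Fin n ≃ κ := (Fintype.equivFinOfCardEq hcard).symm
  refine ⟨fun l => a (e l), ha.comp e.injective, ?_⟩
  have hli2 : LinearIndependent L (fun l => col (a (e l))) := hli.comp e e.injective
  have h3 : IsUnit (Matrix.of fun j l => W j (a (e l))) := by
    rw [← Matrix.linearIndependent_cols_iff_isUnit]
    exact hli2
  exact ((Matrix.isUnit_iff_isUnit_det _).mp h3).ne_zero

/-- The left kernel of a matrix with one more row than columns is spanned by the signed minors. -/
theorem minor_relation {A : Type*} [CommRing A] {n : ℕ} (W : Matrix (Fin (n + 1)) (Fin n) A)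
    (f : Fin (n + 1) → A) (hf : ∀ l, ∑ i, f i * W i l = 0) (i j : Fin (n + 1)) :
    f j * ((-1) ^ (i : ℕ) * (W.submatrix i.succAbove id).det) =
      f i * ((-1) ^ (j : ℕ) * (W.submatrix j.succAbove id).det) := by
  let B : Matrix (Fin (n + 1)) (Fin (n + 1)) A :=
    Matrix.of fun r => Fin.cons (if r = i then 1 else 0) (W r)
  have hdet : B.det = (-1) ^ (i : ℕ) * (W.submatrix i.succAbove id).det := by
    rw [Matrix.det_succ_column_zero, Finset.sum_eq_single i]
    · simp only [B, Matrix.of_apply, Fin.cons_zero, if_true, mul_one]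
      congr 1
    · intro b _ hb
      simp [B, hb]
    · intro h; exact absurd (Finset.mem_univ _) h
  have hadj : B.adjugate 0 j = (-1) ^ (j : ℕ) * (W.submatrix j.succAbove id).det := by
    rw [Matrix.adjugate_fin_succ_eq_det_submatrix]
    simp only [Fin.val_zero, add_zero]
    congr 1
  have hfB : Matrix.vecMul f B = fun k => if k = 0 then f i else 0 := by
    funext k
    refine Fin.cases ?_ (fun k => ?_) k
    · simp [Matrix.vecMul, dotProduct, B]
    · simp only [Matrix.vecMul, dotProduct, B, Matrix.of_apply, Fin.cons_succ,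
        if_neg (Fin.succ_ne_zero k)]
      exact hf k
  have h1 : Matrix.vecMul (Matrix.vecMul f B) B.adjugate = Matrix.vecMul f (B.det • (1 : Matrix _ _ A)) := by
    rw [Matrix.vecMul_vecMul, Matrix.mul_adjugate]
  have h2 := congrFun h1 j
  rw [hfB] at h2
  simp only [Matrix.vecMul, dotProduct, ite_mul, zero_mul, Finset.sum_ite_eq',
    Finset.mem_univ, if_true, Matrix.smul_apply, Matrix.one_apply, smul_eq_mul, mul_ite, mul_one,
    mul_zero] at h2
  rw [hadj] at h2
  rw [← hdet, h2]

/-- In a UFD, `a ∣ b * c_j` for all `j` and the `c_j` without common prime factor gives `a ∣ b`. -/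
theorem dvd_of_forall_dvd_mul {A : Type*} [CommRing A] [IsDomain A] [UniqueFactorizationMonoid A]
    {ι : Type*} (c : ι → A) (hc : ∀ π : A, Prime π → ∃ j, ¬ π ∣ c j) (a : A) (ha : a ≠ 0) :
    ∀ b : A, (∀ j, a ∣ b * c j) → a ∣ b := by
  induction a using UniqueFactorizationMonoid.induction_on_prime with
  | h₁ => exact absurd rfl ha
  | h₂ x hx => intro b _; exact hx.dvd
  | h₃ a π ha0 hπ ih =>
    intro b hb
    obtain ⟨j, hj⟩ := hc π hπ
    have h1 : π ∣ b := by
      have h2 : π ∣ b * c j := (Dvd.intro _ rfl).trans (hb j)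
      exact (hπ.dvd_or_dvd h2).resolve_right hj
    obtain ⟨b', rfl⟩ := h1
    refine mul_dvd_mul_left π (ih ha0 b' fun k => ?_)
    have h3 := hb k
    rw [mul_assoc] at h3
    exact (mul_dvd_mul_iff_left hπ.ne_zero).mp h3

/-- Chain rule. -/
theorem pderiv_aeval {n N : ℕ} (g : Fin n → MvPolynomial (Fin N) ℂ) (k : Fin N)
    (F : MvPolynomial (Fin n) ℂ) :
    pderiv k (aeval g F) = ∑ j, aeval g (pderiv j F) * pderiv k (g j) := by
  induction F using MvPolynomial.induction_on with
  | C a => simp
  | add p q hp hq => simp only [map_add, hp, hq, add_mul, Finset.sum_add_distrib]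
  | mul_X p i hp =>
    rw [map_mul, aeval_X, pderiv_mul, hp]
    have h1 : ∀ j, aeval g (pderiv j (p * X i)) * pderiv k (g j) =
        (aeval g (pderiv j p) * pderiv k (g j)) * g i +
          (if j = i then aeval g p * pderiv k (g i) else 0) := by
      intro j
      rw [pderiv_mul, pderiv_X, map_add, map_mul, map_mul, aeval_X]
      by_cases h : j = i
      · subst h; simp; ring
      · rw [if_neg h, Pi.single_eq_of_ne (Ne.symm h)]; simp; ring
    rw [Finset.sum_congr rfl fun j _ => h1 j, Finset.sum_add_distrib, Finset.sum_ite_eq',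
      if_pos (Finset.mem_univ i), Finset.sum_mul]

end Pool.Agent.Helper115.Nd
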