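import Pool.Agent.Helper115.LowerA
import Pool.Agent.Helper115.Jac
import Pool.Agent.Helper115.HomIndep

set_option autoImplicit false

namespace Pool.Agent.Helper115.Nd

open MvPolynomial

theorem homogeneousComponent_mul_right {σ : Type*} (N D : ℕ) (hD : D ≤ N)
    (c q : MvPolynomial σ ℂ) (hq : q.IsHomogeneous D) :
    homogeneousComponent N (c * q) = homogeneousComponent (N - D) c * q := by
  conv_lhs => rw [← sum_homogeneousComponent c]
  rw [Finset.sum_mul, map_sum]
  have h1 : ∀ k, homogeneousComponent N (homogeneousComponent k c * q) =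
      if k = N - D then homogeneousComponent k c * q else 0 := by
    intro k
    have h2 : (homogeneousComponent k c * q).IsHomogeneous (k + D) :=
      (homogeneousComponent_isHomogeneous k c).mul hq
    rw [homogeneousComponent_of_mem h2]
    by_cases h3 : k = N - D
    · rw [if_pos (by omega), if_pos h3]
    · rw [if_neg (by omega), if_neg h3]
  rw [Finset.sum_congr rfl fun k _ => h1 k, Finset.sum_ite_eq']
  by_cases h4 : N - D ∈ Finset.range (c.totalDegree + 1)
  · rw [if_pos h4]
  · rw [if_neg h4, homogeneousComponent_eq_zero, zero_mul]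
    have h5 := Finset.mem_range.not.mp h4
    omega

theorem smooth_pderiv {n D : ℕ} (F : MvPolynomial (Fin (n + 1)) ℂ)
    (hF : F.IsHomogeneous (D + 1))
    (hsm : ∀ x : Fin (n + 1) → ℂ, x ≠ 0 → eval x F = 0 → ∃ i, eval x (pderiv i F) ≠ 0)
    (x : Fin (n + 1) → ℂ) (hx : ∀ j, eval x (pderiv j F) = 0) : x = 0 := by
  by_contra hx0
  have h1 := congrArg (eval x) hF.sum_X_mul_pderiv
  rw [map_sum] at h1
  have h2 : ∑ i, eval x (X i * pderiv i F) = 0 := by
    refine Finset.sum_eq_zero fun i _ => ?_
    rw [map_mul, hx i, mul_zero]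
  rw [h2, nsmul_eq_mul, map_mul, map_natCast] at h1
  have h3 : ((D + 1 : ℕ) : ℂ) ≠ 0 := by exact_mod_cast Nat.succ_ne_zero D
  have h4 : eval x F = 0 := (mul_eq_zero.mp h1.symm).resolve_left h3
  obtain ⟨i, hi⟩ := hsm x hx0 h4
  exact hi (hx i)

theorem nullst {n D : ℕ} (F : MvPolynomial (Fin (n + 1)) ℂ) (hF : F.IsHomogeneous (D + 1))
    (hsm : ∀ x : Fin (n + 1) → ℂ, x ≠ 0 → eval x F = 0 → ∃ i, eval x (pderiv i F) ≠ 0) :
    ∃ (N : ℕ) (A : Fin (n + 1) → Fin (n + 1) → MvPolynomial (Fin (n + 1)) ℂ), D ≤ N ∧ 0 < N ∧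
      (∀ i j, (A i j).IsHomogeneous (N - D)) ∧ ∀ i, X i ^ N = ∑ j, A i j * pderiv j F := by
  let I := Ideal.span (Set.range fun j => pderiv j F)
  have h1 : ∀ i, (X i : MvPolynomial (Fin (n + 1)) ℂ) ∈ I.radical := by
    intro i
    rw [← vanishingIdeal_zeroLocus_eq_radical (K := ℂ), mem_vanishingIdeal_iff]
    intro x hx
    have h2 : x = 0 := by
      apply smooth_pderiv F hF hsm
      intro j
      exact hx _ (Ideal.subset_span ⟨j, rfl⟩)
    rw [h2, aeval_X]; rfl
  choose M hM using h1
  let N := ∑ i, M i + D + 1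
  have h2 : ∀ i, (X i : MvPolynomial (Fin (n + 1)) ℂ) ^ N ∈ I := by
    intro i
    have h3 : M i ≤ ∑ i, M i := Finset.single_le_sum (fun _ _ => Nat.zero_le _) (Finset.mem_univ i)
    have h4 : N = (N - M i) + M i := by omega
    rw [h4, pow_add]
    exact Ideal.mul_mem_left _ _ (hM i)
  have h3 : ∀ i, ∃ c : Fin (n + 1) → MvPolynomial (Fin (n + 1)) ℂ,
      ∑ j, c j * pderiv j F = X i ^ N := fun i => (Ideal.mem_span_range_iff_exists_fun).mp (h2 i)
  choose c hc using h3
  have hDN : D ≤ N := by omega
  refine ⟨N, fun i j => homogeneousComponent (N - D) (c i j), hDN, by omega,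
    fun i j => homogeneousComponent_isHomogeneous _ _, ?_⟩
  intro i
  have h4 := congrArg (homogeneousComponent N) (hc i)
  rw [map_sum] at h4
  have h5 : homogeneousComponent N ((X i : MvPolynomial (Fin (n + 1)) ℂ) ^ N) = X i ^ N := by
    apply homogeneousComponent_eq_self
    simpa using (isHomogeneous_X ℂ i).pow N
  rw [h5] at h4
  rw [← h4]
  refine Finset.sum_congr rfl fun j _ => ?_
  rw [homogeneousComponent_mul_right N D hDN]
  exact hF.pderiv

theorem derivative_aeval {n : ℕ} (u : Fin n → Polynomial ℂ) (F : MvPolynomial (Fin n) ℂ) :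
    Polynomial.derivative (aeval u F) =
      ∑ j, aeval u (pderiv j F) * Polynomial.derivative (u j) := by
  induction F using MvPolynomial.induction_on with
  | C a => simp
  | add p q hp hq => simp only [map_add, hp, hq, add_mul, Finset.sum_add_distrib]
  | mul_X p i hp =>
    rw [map_mul, aeval_X, Polynomial.derivative_mul, hp]
    have h1 : ∀ j, aeval u (pderiv j (p * X i)) * Polynomial.derivative (u j) =
        (aeval u (pderiv j p) * Polynomial.derivative (u j)) * u i +
          (if j = i then aeval u p * Polynomial.derivative (u i) else 0) := by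
      intro j
      rw [pderiv_mul, pderiv_X, map_add, map_mul, map_mul, aeval_X]
      by_cases h : j = i
      · subst h; simp; ring
      · rw [if_neg h, Pi.single_eq_of_ne (Ne.symm h)]; simp; ring
    rw [Finset.sum_congr rfl fun j _ => h1 j, Finset.sum_add_distrib, Finset.sum_ite_eq',
      if_pos (Finset.mem_univ i), Finset.sum_mul]

theorem exists_root_update {n : ℕ} (F : MvPolynomial (Fin n) ℂ) (i0 : Fin n) (a : Fin n → ℂ)
    (ha : eval a (pderiv i0 F) ≠ 0) : ∃ T : ℂ, eval (Function.update a i0 T) F = 0 := by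
  let u : Fin n → Polynomial ℂ := fun i => if i = i0 then Polynomial.X else Polynomial.C (a i)
  have heval : ∀ (T : ℂ) (H : MvPolynomial (Fin n) ℂ), Polynomial.eval T (aeval u H) =
      eval (Function.update a i0 T) H := by
    intro T H
    have h1 : (Polynomial.aeval T : Polynomial ℂ →ₐ[ℂ] ℂ).comp (aeval u) =
        aeval (Function.update a i0 T) := by
      apply MvPolynomial.algHom_ext
      intro i
      simp only [AlgHom.comp_apply, aeval_X, u]
      by_cases h : i = i0
      · subst h; simp
      · simp [h]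
    have h2 := DFunLike.congr_fun h1 H
    simpa using h2
  have hder : Polynomial.derivative (aeval u F) = aeval u (pderiv i0 F) := by
    rw [derivative_aeval, Finset.sum_eq_single i0]
    · simp [u]
    · intro j _ hj
      simp [u, hj]
    · intro h; exact absurd (Finset.mem_univ _) h
  have hne : Polynomial.derivative (aeval u F) ≠ 0 := by
    intro h0
    apply ha
    rw [hder] at h0
    have h1 := heval (a i0) (pderiv i0 F)
    rw [h0, Function.update_eq_self] at h1
    rw [← h1]; simp
  have hdeg : (aeval u F).degree ≠ 0 := by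
    intro h0
    apply hne
    rw [Polynomial.eq_C_of_degree_eq_zero h0, Polynomial.derivative_C]
  obtain ⟨T, hT⟩ := IsAlgClosed.exists_root (aeval u F) hdeg
  refine ⟨T, ?_⟩
  rw [← heval]
  exact hT

/-- Density of the image gives algebraic independence of all but one coordinate. -/
theorem indep_of_dominant {n : ℕ} {B : Type*} [CommRing B] [Algebra ℂ B]
    (F : MvPolynomial (Fin (n + 1)) ℂ) (i0 : Fin (n + 1)) (hi0 : pderiv i0 F ≠ 0)
    (G : Fin (n + 1) → B)
    (hdom : ∀ h : MvPolynomial (Fin (n + 1)) ℂ, aeval G h = 0 → ∀ x, eval x F = 0 → eval x h = 0) :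
    AlgebraicIndependent ℂ (fun j : Fin n => G (i0.succAbove j)) := by
  rw [algebraicIndependent_iff]
  intro R hR
  have h1 : aeval G (rename i0.succAbove R) = 0 := by
    rw [aeval_rename]; exact hR
  have h2 : rename i0.succAbove R * pderiv i0 F = 0 := by
    apply MvPolynomial.funext
    intro a
    rw [map_mul, map_zero]
    by_cases ha : eval a (pderiv i0 F) = 0
    · rw [ha, mul_zero]
    · obtain ⟨T, hT⟩ := exists_root_update F i0 a ha
      have h3 := hdom _ h1 _ hT
      rw [eval_rename] at h3
      have h4 : (Function.update a i0 T) ∘ i0.succAbove = a ∘ i0.succAbove := by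
        funext j
        simp [Function.update_of_ne (Fin.succAbove_ne i0 j)]
      rw [h4, ← eval_rename] at h3
      rw [h3, zero_mul]
  have h3 := (mul_eq_zero.mp h2).resolve_right hi0
  exact rename_injective _ (Fin.succAbove_right_injective) (by rw [h3, map_zero])

/-- The cone over a family: multiply by a new variable. -/
noncomputable def coneG {n N : ℕ} (g : Fin n → MvPolynomial (Fin N) ℂ) :
    Fin n → MvPolynomial (Fin (N + 1)) ℂ := fun i => X 0 * rename Fin.succ (g i)

theorem finSuccEquiv_rename_succ {N : ℕ} (b : MvPolynomial (Fin N) ℂ) :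
    finSuccEquiv ℂ N (rename Fin.succ b) = Polynomial.C b := by
  induction b using MvPolynomial.induction_on with
  | C a => simp [finSuccEquiv_apply]
  | add p q hp hq => simp only [map_add, hp, hq]
  | mul_X p i hp => simp only [map_mul, rename_X, hp, finSuccEquiv_X_succ]

theorem dominant_cone {n N : ℕ} (F : MvPolynomial (Fin n) ℂ)
    (g : Fin n → MvPolynomial (Fin N) ℂ)
    (hdom : ∀ (k : ℕ) (h : MvPolynomial (Fin n) ℂ), h.IsHomogeneous k → aeval g h = 0 →
      ∀ x, eval x F = 0 → eval x h = 0)
    (h : MvPolynomial (Fin n) ℂ) (h0 : aeval (coneG g) h = 0) :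
    ∀ x, eval x F = 0 → eval x h = 0 := by
  have h1 : ∀ k : ℕ, finSuccEquiv ℂ N (aeval (coneG g) (homogeneousComponent k h)) =
      Polynomial.X ^ k * Polynomial.C (aeval g (homogeneousComponent k h)) := by
    intro k
    have h2 : aeval (coneG g) (homogeneousComponent k h) =
        X 0 ^ k * aeval (fun i => rename Fin.succ (g i)) (homogeneousComponent k h) :=
      aeval_mul_of_isHomogeneous _ k (homogeneousComponent_isHomogeneous k h) _ _
    rw [h2, ← comp_aeval_apply, map_mul, map_pow, finSuccEquiv_X_zero, finSuccEquiv_rename_succ]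
  have h3 : ∑ k ∈ Finset.range (h.totalDegree + 1),
      Polynomial.X ^ k * Polynomial.C (aeval g (homogeneousComponent k h)) = 0 := by
    rw [← Finset.sum_congr rfl fun k _ => h1 k, ← map_sum, ← map_sum, sum_homogeneousComponent,
      h0, map_zero]
  have h4 : ∀ k ∈ Finset.range (h.totalDegree + 1), aeval g (homogeneousComponent k h) = 0 := by
    intro k hk
    have h5 := congrArg (fun q => Polynomial.coeff q k) h3
    simp only [Polynomial.finsetSum_coeff, Polynomial.coeff_zero, Polynomial.coeff_X_pow_mul',
        Polynomial.coeff_C] at h5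
    rw [Finset.sum_eq_single k] at h5
    · simpa using h5
    · intro b _ hb
      split_ifs with h4 h5
      · exfalso; omega
      · rfl
      · rfl
    · intro h; exact absurd hk h
  intro x hx
  rw [← sum_homogeneousComponent h, map_sum]
  refine Finset.sum_eq_zero fun k hk => ?_
  exact hdom k _ (homogeneousComponent_isHomogeneous k h) (h4 k hk) x hx

/-- Degree bound for a form evaluated at polynomials of bounded degree. -/
theorem totalDegree_aeval_le {n N k E : ℕ} (P : MvPolynomial (Fin n) ℂ) (hP : P.IsHomogeneous k)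
    (g : Fin n → MvPolynomial (Fin N) ℂ) (hg : ∀ i, (g i).totalDegree ≤ E) :
    (aeval g P).totalDegree ≤ k * E := by
  rw [aeval_def, eval₂_eq]
  refine totalDegree_finsetSum_le fun d hd => ?_
  have h1 : d.degree = k := by
    by_contra h
    exact (mem_support_iff.mp hd) (hP.coeff_eq_zero h)
  refine (totalDegree_mul _ _).trans ?_
  have h2 : (algebraMap ℂ (MvPolynomial (Fin N) ℂ) (coeff d P)).totalDegree = 0 := by
    rw [algebraMap_eq, totalDegree_C]
  rw [h2, zero_add]
  refine (totalDegree_finsetProd _ _).trans ?_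
  calc ∑ i ∈ d.support, (g i ^ d i).totalDegree ≤ ∑ i ∈ d.support, d i * E := by
        refine Finset.sum_le_sum fun i _ => ?_
        exact (totalDegree_pow _ _).trans (Nat.mul_le_mul_left _ (hg i))
    _ = k * E := by rw [← Finset.sum_mul, ← h1]; rfl

end Pool.Agent.Helper115.Nd
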