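import Pool.Agent.Helper115.LowerB

set_option autoImplicit false

namespace Pool.Agent.Helper115.Nd

open MvPolynomial

theorem totalDegree_pderiv_le {N : ℕ} (k : Fin N) (p : MvPolynomial (Fin N) ℂ) :
    (pderiv k p).totalDegree ≤ p.totalDegree - 1 := by
  conv_lhs => rw [← sum_homogeneousComponent p]
  rw [map_sum]
  refine totalDegree_finsetSum_le fun m hm => ?_
  have h1 : (pderiv k (homogeneousComponent m p)).IsHomogeneous (m - 1) :=
    (homogeneousComponent_isHomogeneous m p).pderiv
  have h2 := Finset.mem_range.mp hm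
  exact h1.totalDegree_le.trans (by omega)

theorem totalDegree_pow_eq {N : ℕ} (p : MvPolynomial (Fin N) ℂ) (hp : p ≠ 0) (m : ℕ) :
    (p ^ m).totalDegree = m * p.totalDegree := by
  induction m with
  | zero => simp
  | succ m ih =>
    rw [pow_succ, totalDegree_mul_of_isDomain (pow_ne_zero _ hp) hp, ih]
    ring

theorem totalDegree_det_le {N n : ℕ} (M : Matrix (Fin n) (Fin n) (MvPolynomial (Fin N) ℂ))
    (β : Fin n → ℕ) (h : ∀ i l, (M i l).totalDegree ≤ β l) : M.det.totalDegree ≤ ∑ l, β l := by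
  rw [Matrix.det_apply']
  refine totalDegree_finsetSum_le fun σ _ => ?_
  refine (totalDegree_mul _ _).trans ?_
  have h1 : (((Equiv.Perm.sign σ : ℤˣ) : ℤ) : MvPolynomial (Fin N) ℂ).totalDegree = 0 := by
    rw [← map_intCast (C : ℂ →+* MvPolynomial (Fin N) ℂ), totalDegree_C]
  rw [h1, zero_add]
  refine (totalDegree_finsetProd _ _).trans ?_
  exact Finset.sum_le_sum fun l _ => h _ _

/-- The columns: the map itself and its partial derivatives. -/
noncomputable def wcol {n N : ℕ} (g : Fin n → MvPolynomial (Fin N) ℂ) (i : Fin n) :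
    Option (Fin N) → MvPolynomial (Fin N) ℂ
  | none => g i
  | some k => pderiv k (g i)

theorem pderiv_cone {n N : ℕ} (g : Fin n → MvPolynomial (Fin N) ℂ) (i : Fin n)
    (v : Fin (N + 1)) : pderiv v (coneG g i) =
      (if v = 0 then 1 else X 0) * rename Fin.succ (wcol g i (_root_.finSuccEquiv N v)) := by
  rw [coneG, pderiv_mul, pderiv_X]
  refine Fin.cases ?_ (fun k => ?_) v
  · have h1 : pderiv 0 (rename Fin.succ (g i) : MvPolynomial (Fin (N + 1)) ℂ) = 0 := by
      apply pderiv_eq_zero_of_notMem_vars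
      intro h
      have h2 := vars_rename Fin.succ (g i) h
      rw [Finset.mem_image] at h2
      obtain ⟨j, _, hj⟩ := h2
      exact Fin.succ_ne_zero j hj
    rw [h1]
    simp [wcol]
  · rw [pderiv_rename (Fin.succ_injective N)]
    rw [Pi.single_eq_of_ne (Fin.succ_ne_zero k).symm, if_neg (Fin.succ_ne_zero k)]
    simp [wcol]

/-- Nonvanishing of a maximal minor. -/
theorem exists_minor {n N : ℕ} (F : MvPolynomial (Fin (n + 1)) ℂ) (i0 : Fin (n + 1))
    (hi0 : pderiv i0 F ≠ 0) (g : Fin (n + 1) → MvPolynomial (Fin N) ℂ)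
    (hdom : ∀ (k : ℕ) (h : MvPolynomial (Fin (n + 1)) ℂ), h.IsHomogeneous k → aeval g h = 0 →
      ∀ x, eval x F = 0 → eval x h = 0) :
    ∃ col : Fin n → Option (Fin N), Function.Injective col ∧
      (Matrix.of fun j l => wcol g (i0.succAbove j) (col l)).det ≠ 0 := by
  have h1 := indep_of_dominant F i0 hi0 (coneG g) (dominant_cone F g hdom)
  let B := MvPolynomial (Fin (N + 1)) ℂ
  let L := FractionRing B
  obtain ⟨v, hv, hdet⟩ := exists_columns (L := L) (ι := Fin (N + 1))
    (fun j v => algebraMap B L (pderiv v (coneG g (i0.succAbove j))))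
    (fun c hc => jacobian_rows _ h1 c hc)
  refine ⟨fun l => _root_.finSuccEquiv N (v l), (_root_.finSuccEquiv N).injective.comp hv, ?_⟩
  intro h0
  apply hdet
  have h2 : (Matrix.of fun (j l : Fin n) => algebraMap B L (pderiv (v l) (coneG g (i0.succAbove j)))) =
      (algebraMap B L).mapMatrix (Matrix.of fun j l => (if v l = 0 then 1 else X 0 : B) *
        (rename Fin.succ : MvPolynomial (Fin N) ℂ →ₐ[ℂ] B)
          (wcol g (i0.succAbove j) (_root_.finSuccEquiv N (v l)))) := by
    ext j l
    simp only [Matrix.of_apply, RingHom.mapMatrix_apply, Matrix.map_apply]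
    rw [pderiv_cone]
  rw [h2, ← RingHom.map_det]
  have h3 : (Matrix.of fun (j l : Fin n) => (if v l = 0 then 1 else X 0 : B) *
        (rename Fin.succ : MvPolynomial (Fin N) ℂ →ₐ[ℂ] B)
          (wcol g (i0.succAbove j) (_root_.finSuccEquiv N (v l)))).det = 0 := by
    rw [Matrix.det_mul_row (fun l => (if v l = 0 then 1 else X 0 : B)) (fun j l =>
      (rename Fin.succ : MvPolynomial (Fin N) ℂ →ₐ[ℂ] B)
          (wcol g (i0.succAbove j) (_root_.finSuccEquiv N (v l))))]
    have h4 : Matrix.det (fun (j l : Fin n) => (rename Fin.succ : MvPolynomial (Fin N) ℂ →ₐ[ℂ] B)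
          (wcol g (i0.succAbove j) (_root_.finSuccEquiv N (v l)))) =
        (rename Fin.succ : MvPolynomial (Fin N) ℂ →ₐ[ℂ] B) (Matrix.of fun j l =>
          wcol g (i0.succAbove j) (_root_.finSuccEquiv N (v l))).det := by
      rw [AlgHom.map_det]
      rfl
    rw [h4, h0, map_zero, mul_zero]
  rw [h3, map_zero]

end Pool.Agent.Helper115.Nd
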