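import Pool.Agent.Helper115.LowerC

set_option autoImplicit false

namespace Pool.Agent.Helper115.Nd

open MvPolynomial

theorem form_ne_zero {n : ℕ} (F : MvPolynomial (Fin (n + 1)) ℂ)
    (hsm : ∀ x : Fin (n + 1) → ℂ, x ≠ 0 → eval x F = 0 → ∃ i, eval x (pderiv i F) ≠ 0) : F ≠ 0 := by
  rintro rfl
  obtain ⟨i, hi⟩ := hsm (fun _ => 1) (by
    intro h
    have := congrFun h 0
    simp at this) (by simp)
  simp at hi

/-- Degree bound: a smooth unirational hypersurface of degree `D + 1` in `ℙ^n`, `n ≥ 2`,
satisfies `D < n`. -/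
theorem lower_ge_two {n N D : ℕ} (hn : 2 ≤ n) (F : MvPolynomial (Fin (n + 1)) ℂ)
    (hF : F.IsHomogeneous (D + 1))
    (hsm : ∀ x : Fin (n + 1) → ℂ, x ≠ 0 → eval x F = 0 → ∃ i, eval x (pderiv i F) ≠ 0)
    (hex : ∃ g : Fin (n + 1) → MvPolynomial (Fin N) ℂ, (∃ i, g i ≠ 0) ∧ aeval g F = 0 ∧
      ∀ (k : ℕ) (h : MvPolynomial (Fin (n + 1)) ℂ), h.IsHomogeneous k → aeval g h = 0 →
        ∀ x, eval x F = 0 → eval x h = 0) : D < n := by
  classical
  -- a family of minimal degree
  let Pm : ℕ → Prop := fun E => ∃ g : Fin (n + 1) → MvPolynomial (Fin N) ℂ, (∃ i, g i ≠ 0) ∧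
    aeval g F = 0 ∧ (∀ (k : ℕ) (h : MvPolynomial (Fin (n + 1)) ℂ), h.IsHomogeneous k →
      aeval g h = 0 → ∀ x, eval x F = 0 → eval x h = 0) ∧ ∀ i, (g i).totalDegree ≤ E
  have hPm : ∃ E, Pm E := by
    obtain ⟨g, h1, h2, h3⟩ := hex
    exact ⟨Finset.univ.sup fun i => (g i).totalDegree, g, h1, h2, h3, fun i =>
      Finset.le_sup (f := fun i => (g i).totalDegree) (Finset.mem_univ i)⟩
  obtain ⟨E, ⟨g, ⟨i', hi'⟩, hgF, hdom, hdeg⟩, hmin⟩ : ∃ E, Pm E ∧ ∀ m < E, ¬ Pm m :=
    ⟨Nat.find hPm, Nat.find_spec hPm, fun m hm => Nat.find_min hPm hm⟩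
  -- coprimality
  have hcop : ∀ π : MvPolynomial (Fin N) ℂ, Prime π → ∃ i, ¬ π ∣ g i := by
    intro π hπ
    by_contra hcon
    push Not at hcon
    choose g' hg' using hcon
    have hπd : 1 ≤ π.totalDegree := by
      by_contra h0
      have h1 : π.totalDegree = 0 := by omega
      rw [totalDegree_eq_zero_iff_eq_C] at h1
      apply hπ.not_isUnit
      rw [h1]
      refine IsUnit.map C ?_
      rw [isUnit_iff_ne_zero]
      intro h2
      apply hπ.ne_zero
      rw [h1, h2, map_zero]
    have hprod : ∀ i, g i ≠ 0 → g' i ≠ 0 := by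
      intro i hi h0
      apply hi
      rw [hg' i, h0, mul_zero]
    have hE : 1 ≤ E := by
      have h1 := hdeg i'
      rw [hg' i', totalDegree_mul_of_isDomain hπ.ne_zero (hprod i' hi')] at h1
      omega
    have hgg : g = fun i => π * g' i := funext hg'
    apply hmin (E - 1) (by omega)
    refine ⟨g', ⟨i', hprod i' hi'⟩, ?_, ?_, ?_⟩
    · have h1 := hgF
      rw [hgg, aeval_mul_of_isHomogeneous F (D + 1) hF] at h1
      exact (mul_eq_zero.mp h1).resolve_left (pow_ne_zero _ hπ.ne_zero)
    · intro k h hk h0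
      apply hdom k h hk
      rw [hgg, aeval_mul_of_isHomogeneous h k hk, h0, mul_zero]
    · intro i
      by_cases hi : g' i = 0
      · rw [hi, totalDegree_zero]; omega
      · have h1 := hdeg i
        rw [hg' i, totalDegree_mul_of_isDomain hπ.ne_zero hi] at h1
        omega
  -- the maximum degree is attained
  obtain ⟨im, him0, himE⟩ : ∃ i, g i ≠ 0 ∧ (g i).totalDegree = E := by
    rcases Nat.eq_zero_or_pos E with h0 | h0
    · refine ⟨i', hi', ?_⟩
      have := hdeg i'
      omega
    · by_contra hcon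
      push Not at hcon
      apply hmin (E - 1) (by omega)
      refine ⟨g, ⟨i', hi'⟩, hgF, hdom, ?_⟩
      intro i
      by_cases hi : g i = 0
      · rw [hi, totalDegree_zero]; omega
      · have h1 := hcon i hi
        have h2 := hdeg i
        omega
  obtain ⟨M, A, hDM, hM0, hAhom, hA⟩ := nullst F hF hsm
  let f : Fin (n + 1) → MvPolynomial (Fin N) ℂ := fun j => aeval g (pderiv j F)
  have hgM : ∀ i, g i ^ M = ∑ j, aeval g (A i j) * f j := by
    intro i
    have h1 := congrArg (aeval g) (hA i)
    simp only [map_sum, map_mul, map_pow, aeval_X] at h1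
    exact h1
  have hfcop : ∀ π : MvPolynomial (Fin N) ℂ, Prime π → ∃ j, ¬ π ∣ f j := by
    intro π hπ
    by_contra hcon
    push Not at hcon
    obtain ⟨i, hi⟩ := hcop π hπ
    apply hi
    apply hπ.dvd_of_dvd_pow (n := M)
    rw [hgM i]
    exact Finset.dvd_sum fun j _ => (hcon j).mul_left _
  obtain ⟨i1, hi10, hi1⟩ : ∃ j, f j ≠ 0 ∧ D * E ≤ (f j).totalDegree := by
    by_contra hcon
    push Not at hcon
    have h1 := hgM im
    have h2 : (g im ^ M).totalDegree = M * E := by rw [totalDegree_pow_eq _ him0, himE]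
    by_cases hDE : D * E = 0
    · have h3 : ∀ j, f j = 0 := by
        intro j
        by_contra hj
        have := hcon j hj
        omega
      rw [Finset.sum_eq_zero (fun j _ => by rw [h3 j, mul_zero])] at h1
      exact pow_ne_zero _ him0 h1
    · have h3 : (∑ j, aeval g (A im j) * f j).totalDegree ≤ (M - D) * E + (D * E - 1) := by
        refine totalDegree_finsetSum_le fun j _ => ?_
        by_cases hj : f j = 0
        · rw [hj, mul_zero, totalDegree_zero]; omega
        · refine (totalDegree_mul _ _).trans ?_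
          have h4 := totalDegree_aeval_le (A im j) (hAhom im j) g hdeg
          have h5 := hcon j hj
          omega
      rw [← h1, h2] at h3
      have h6 : (M - D) * E + D * E = M * E := by
        rw [← Nat.add_mul, Nat.sub_add_cancel hDM]
      omega
  -- choose the minor
  obtain ⟨i0, hi0⟩ : ∃ i0, pderiv i0 F ≠ 0 := by
    by_contra hcon
    push Not at hcon
    have h1 : f i1 = 0 := by simp [f, hcon i1]
    exact hi10 h1
  obtain ⟨col, hcolinj, hdet⟩ := exists_minor F i0 hi0 g hdom
  let W : Matrix (Fin (n + 1)) (Fin n) (MvPolynomial (Fin N) ℂ) :=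
    Matrix.of fun i l => wcol g i (col l)
  have hfW : ∀ l, ∑ i, f i * W i l = 0 := by
    intro l
    simp only [W, Matrix.of_apply, f]
    rcases h : col l with _ | k
    · simp only [wcol]
      have h1 := congrArg (aeval g) hF.sum_X_mul_pderiv
      rw [map_sum, map_nsmul, hgF, smul_zero] at h1
      rw [← h1]
      refine Finset.sum_congr rfl fun i _ => ?_
      rw [map_mul, aeval_X, mul_comm]
    · simp only [wcol]
      rw [← pderiv_aeval, hgF, map_zero]
  have hrel := minor_relation W f hfW
  have hJ0 : (-1) ^ (i0 : ℕ) * (W.submatrix i0.succAbove id).det ≠ 0 := by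
    refine mul_ne_zero (pow_ne_zero _ (neg_ne_zero.mpr one_ne_zero)) ?_
    exact hdet
  have hJ1 : (-1) ^ (i1 : ℕ) * (W.submatrix i1.succAbove id).det ≠ 0 := by
    intro h0
    have h1 := hrel i0 i1
    rw [h0, mul_zero] at h1
    exact mul_ne_zero hi10 hJ0 h1
  have hdvd : f i1 ∣ (-1) ^ (i1 : ℕ) * (W.submatrix i1.succAbove id).det := by
    apply dvd_of_forall_dvd_mul f hfcop (f i1) hi10
    intro j
    rw [mul_comm, hrel i1 j]
    exact Dvd.intro _ rfl
  have hE1 : 1 ≤ E := by
    by_contra h0
    have hE0 : E = 0 := by omega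
    -- some column is a partial derivative, hence zero
    have h1 : ∃ l, col l ≠ none := by
      by_contra hcon
      push Not at hcon
      have h2 : (⟨0, by omega⟩ : Fin n) = ⟨1, by omega⟩ := hcolinj (by rw [hcon, hcon])
      simp at h2
    obtain ⟨l, hl⟩ := h1
    apply hdet
    apply Matrix.det_eq_zero_of_column_eq_zero l
    intro j
    simp only [Matrix.of_apply]
    rcases h : col l with _ | k
    · exact absurd h hl
    · simp only [wcol]
      have h2 : (g (i0.succAbove j)).totalDegree = 0 := by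
        have := hdeg (i0.succAbove j)
        omega
      rw [totalDegree_eq_zero_iff_eq_C] at h2
      rw [h2, pderiv_C]
  have hdeg1 : ((-1) ^ (i1 : ℕ) * (W.submatrix i1.succAbove id).det).totalDegree ≤
      n * (E - 1) + 1 := by
    have h1 : ((-1) ^ (i1 : ℕ) * (W.submatrix i1.succAbove id).det).totalDegree ≤
        (W.submatrix i1.succAbove id).det.totalDegree := by
      rcases neg_one_pow_eq_or (MvPolynomial (Fin N) ℂ) (i1 : ℕ) with h | h
      · rw [h, one_mul]
      · rw [h, neg_one_mul, totalDegree_neg]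
    refine h1.trans ?_
    refine (totalDegree_det_le _ (fun l => (E - 1) + if col l = none then 1 else 0) ?_).trans ?_
    · intro i l
      simp only [W, Matrix.submatrix_apply, Matrix.of_apply, id]
      rcases h : col l with _ | k
      · simp only [wcol, if_true]
        have := hdeg (i1.succAbove i)
        omega
      · simp only [wcol]
        have h2 := totalDegree_pderiv_le k (g (i1.succAbove i))
        have h3 := hdeg (i1.succAbove i)
        simp
        omega
    · rw [Finset.sum_add_distrib]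
      have h2 : ∑ l : Fin n, (E - 1) = n * (E - 1) := by simp
      rw [h2]
      apply Nat.add_le_add_left
      rw [← Finset.sum_filter, Finset.sum_const, smul_eq_mul, mul_one]
      apply Finset.card_le_one.mpr
      intro a ha b hb
      apply hcolinj
      rw [(Finset.mem_filter.mp ha).2, (Finset.mem_filter.mp hb).2]
  have hfin : D * E ≤ n * (E - 1) + 1 :=
    (hi1.trans (totalDegree_le_of_dvd_of_isDomain hdvd hJ1)).trans hdeg1
  obtain ⟨E', rfl⟩ : ∃ E', E = E' + 1 := ⟨E - 1, by omega⟩
  by_contra hcon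
  have h1 : n * (E' + 1) ≤ D * (E' + 1) := Nat.mul_le_mul_right _ (by omega)
  have h2 : n * (E' + 1) = n * E' + n := by ring
  rw [Nat.add_sub_cancel] at hfin
  omega

end Pool.Agent.Helper115.Nd
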