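import Pool.Agent.Helper115.LowerD
import Pool.Agent.Helper115.Base

set_option autoImplicit false

namespace Pool.Agent.Helper115.Nd

open MvPolynomial

theorem exists_linear {N D : ℕ} (F : MvPolynomial (Fin 2) ℂ) (hF0 : F ≠ 0)
    (hF : F.IsHomogeneous (D + 1)) (g : Fin 2 → MvPolynomial (Fin N) ℂ)
    (hgF : aeval g F = 0) :
    ∃ a : Fin 2 → ℂ, a ≠ 0 ∧
      aeval g (C (a 0) * X 0 + C (a 1) * X 1 : MvPolynomial (Fin 2) ℂ) = 0 := by
  by_cases h1 : g 1 = 0
  · refine ⟨![0, 1], ?_, ?_⟩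
    · intro h
      have := congrFun h 1
      simp at this
    · simp [h1]
  let K := FractionRing (MvPolynomial (Fin N) ℂ)
  let φ : MvPolynomial (Fin N) ℂ →ₐ[ℂ] K := IsScalarTower.toAlgHom ℂ (MvPolynomial (Fin N) ℂ) K
  have hφ : Function.Injective φ := IsFractionRing.injective (MvPolynomial (Fin N) ℂ) K
  have hφ1 : φ (g 1) ≠ 0 := fun h => h1 (hφ (h.trans (map_zero φ).symm))
  let r : K := φ (g 0) / φ (g 1)
  have h2 : aeval (fun i => φ (g i)) F = 0 := by
    have h3 : (aeval (fun i => φ (g i)) : MvPolynomial (Fin 2) ℂ →ₐ[ℂ] K) = φ.comp (aeval g) := by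
      ext i
      simp
    rw [h3, AlgHom.comp_apply, hgF, map_zero]
  have h3 : (fun i => φ (g i)) = fun i => φ (g 1) * (![r, 1] : Fin 2 → K) i := by
    funext i
    fin_cases i
    · simp [r, mul_div_cancel₀ _ hφ1]
    · simp
  rw [h3, aeval_mul_of_isHomogeneous F (D + 1) hF] at h2
  have h4 := (mul_eq_zero.mp h2).resolve_left (pow_ne_zero _ hφ1)
  let f : Polynomial ℂ := aeval (![Polynomial.C 1 * Polynomial.X ^ 1, 1] : Fin 2 → Polynomial ℂ) F
  have hf : f ≠ 0 := fun h => hF0 (homIndep_pair 1 one_pos 1 one_ne_zero F (D + 1) hF h)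
  have h5 : Polynomial.aeval r f = 0 := by
    have h6 : (Polynomial.aeval r).comp
        (aeval (![Polynomial.C 1 * Polynomial.X ^ 1, 1] : Fin 2 → Polynomial ℂ)) =
        (aeval (![r, 1] : Fin 2 → K) : MvPolynomial (Fin 2) ℂ →ₐ[ℂ] K) := by
      apply MvPolynomial.algHom_ext
      intro i
      fin_cases i <;> simp
    have h7 := DFunLike.congr_fun h6 F
    rw [h4] at h7
    exact h7
  have h6 : IsIntegral ℂ r := IsAlgebraic.isIntegral ⟨f, hf, h5⟩
  obtain ⟨c, hc⟩ := minpoly.mem_range_of_degree_eq_one ℂ r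
    (IsAlgClosed.degree_eq_one_of_irreducible ℂ (minpoly.irreducible h6))
  refine ⟨![1, -c], ?_, ?_⟩
  · intro h
    have := congrFun h 0
    simp at this
  · apply hφ
    rw [map_zero]
    have h8 : φ (g 0) = φ (C c) * φ (g 1) := by
      have h9 : φ (C c) = r := by
        rw [← hc]
        exact φ.commutes c
      rw [h9]
      exact (div_mul_cancel₀ _ hφ1).symm
    simp [h8]

/-- On the projective line only the points are unirational (in the dominant sense). -/
theorem lower_one {N D : ℕ} (F : MvPolynomial (Fin 2) ℂ)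
    (hF : F.IsHomogeneous (D + 1))
    (hsm : ∀ x : Fin 2 → ℂ, x ≠ 0 → eval x F = 0 → ∃ i, eval x (pderiv i F) ≠ 0)
    (hex : ∃ g : Fin 2 → MvPolynomial (Fin N) ℂ, (∃ i, g i ≠ 0) ∧ aeval g F = 0 ∧
      ∀ (k : ℕ) (h : MvPolynomial (Fin 2) ℂ), h.IsHomogeneous k → aeval g h = 0 →
        ∀ x, eval x F = 0 → eval x h = 0) : D = 0 := by
  obtain ⟨g, -, hgF, hdom⟩ := hex
  have hF0 : F ≠ 0 := form_ne_zero F hsm
  obtain ⟨a, ha0, ha⟩ := exists_linear F hF0 hF g hgF
  set ℓ : MvPolynomial (Fin 2) ℂ := C (a 0) * X 0 + C (a 1) * X 1 with hℓ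
  have hℓh : ℓ.IsHomogeneous 1 := by
    apply IsHomogeneous.add
    · simpa using (isHomogeneous_C _ _).mul (isHomogeneous_X ℂ (0 : Fin 2))
    · simpa using (isHomogeneous_C _ _).mul (isHomogeneous_X ℂ (1 : Fin 2))
  have hpd0 : pderiv 0 ℓ = C (a 0) := by
    simp [hℓ, pderiv_X_self, pderiv_X_of_ne]
  have hpd1 : pderiv 1 ℓ = C (a 1) := by
    simp [hℓ, pderiv_X_self, pderiv_X_of_ne]
  have hℓ0 : ℓ ≠ 0 := by
    intro h
    apply ha0
    rw [h, map_zero] at hpd0 hpd1
    funext i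
    fin_cases i
    · exact (C_injective (Fin 2) ℂ (hpd0.symm.trans (C_0).symm))
    · exact (C_injective (Fin 2) ℂ (hpd1.symm.trans (C_0).symm))
  have hvan := hdom 1 ℓ hℓh ha
  -- Nullstellensatz
  have h1 : ℓ ∈ (Ideal.span {F}).radical := by
    rw [← vanishingIdeal_zeroLocus_eq_radical (K := ℂ)]
    rw [mem_vanishingIdeal_iff]
    intro x hx
    apply hvan x
    exact hx F (Ideal.subset_span rfl)
  obtain ⟨k, hk⟩ := h1
  rw [Ideal.mem_span_singleton] at hk
  have hirr : Irreducible ℓ := by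
    apply irreducible_of_totalDegree_eq_one
    · exact hℓh.totalDegree hℓ0
    · intro y hy
      rw [isUnit_iff_ne_zero]
      rintro rfl
      apply hℓ0
      ext m
      exact zero_dvd_iff.mp (hy m)
  obtain ⟨i, hik, hi⟩ := (dvd_prime_pow hirr.prime k).mp hk
  obtain ⟨u, hu⟩ := hi.symm
  have hu2 : (u : MvPolynomial (Fin 2) ℂ).totalDegree = 0 :=
    (MvPolynomial.isUnit_iff_totalDegree_of_isReduced.mp u.isUnit).2
  have hiD : i = D + 1 := by
    have h2 : F.totalDegree = D + 1 := hF.totalDegree hF0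
    rw [← hu, totalDegree_mul_of_isDomain (pow_ne_zero _ hℓ0) u.ne_zero, totalDegree_pow_eq _ hℓ0,
      hℓh.totalDegree hℓ0, hu2] at h2
    omega
  by_contra hD
  have hx0 : (![-(a 1), a 0] : Fin 2 → ℂ) ≠ 0 := by
    intro h
    apply ha0
    have h2 := congrFun h 0
    have h3 := congrFun h 1
    simp only [Matrix.cons_val_zero, Matrix.cons_val_one, Pi.zero_apply, neg_eq_zero] at h2 h3
    funext i
    fin_cases i
    · exact h3
    · exact h2
  have hx1 : eval (![-(a 1), a 0] : Fin 2 → ℂ) ℓ = 0 := by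
    simp [hℓ]
    ring
  obtain ⟨D', rfl⟩ : ∃ D', D = D' + 1 := ⟨D - 1, by omega⟩
  obtain ⟨j, hj⟩ := hsm _ hx0 (by
    rw [← hu, map_mul, map_pow, hx1, hiD]
    simp)
  apply hj
  rw [← hu, pderiv_mul, pderiv_pow, map_add, map_mul, map_mul, map_mul, map_mul, map_pow, map_pow,
    hx1, hiD]
  simp

/-- The general lower bound: a smooth unirational hypersurface of degree `D + 1` in `ℙ^n`
satisfies `D + 1 ≤ n`. -/
theorem lower {n N D : ℕ} (F : MvPolynomial (Fin (n + 1)) ℂ)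
    (hF : F.IsHomogeneous (D + 1))
    (hsm : ∀ x : Fin (n + 1) → ℂ, x ≠ 0 → eval x F = 0 → ∃ i, eval x (pderiv i F) ≠ 0)
    (hex : ∃ g : Fin (n + 1) → MvPolynomial (Fin N) ℂ, (∃ i, g i ≠ 0) ∧ aeval g F = 0 ∧
      ∀ (k : ℕ) (h : MvPolynomial (Fin (n + 1)) ℂ), h.IsHomogeneous k → aeval g h = 0 →
        ∀ x, eval x F = 0 → eval x h = 0) : D < n := by
  rcases n with _ | _ | n
  · exfalso
    obtain ⟨g, ⟨i, hi⟩, hgF, -⟩ := hex
    apply form_ne_zero F hsm
    refine homIndep_fin_one g ?_ F (D + 1) hF hgF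
    have hi0 : i = 0 := by
      apply Fin.ext
      have := i.isLt
      simp only [Fin.val_zero]
      omega
    rwa [hi0] at hi
  · have := lower_one F hF hsm hex
    omega
  · exact lower_ge_two (by omega) F hF hsm hex

end Pool.Agent.Helper115.Nd
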