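import Mathlib

set_option autoImplicit false

namespace Pool.Agent.Helper115.MG

open Set Topology

/-- middle coordinates of `x` at level `j` -/
def mid {N : ℕ} (j : ℕ) (x : Fin N → ℝ) : Set (Fin N) :=
  {i | 1/3 < Int.fract ((3:ℝ)^j * x i) ∧ Int.fract ((3:ℝ)^j * x i) < 2/3}

/-- the Menger compactum -/
def Mg (N k : ℕ) : Set (Fin N → ℝ) :=
  {x | (∀ i, x i ∈ Icc (0:ℝ) 1) ∧ ∀ j : ℕ, (mid j x).ncard ≤ k}

/-- finite stage -/
def MM (N k j : ℕ) : Set (Fin N → ℝ) :=
  {x | (∀ i, x i ∈ Icc (0:ℝ) 1) ∧ ∀ j' : ℕ, j' < j → (mid j' x).ncard ≤ k}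

/-- intermediate stage -/
def EE (N k j s : ℕ) : Set (Fin N → ℝ) :=
  {x | x ∈ MM N k j ∧ (mid j x).ncard ≤ s}

/-- a piece -/
def PP (N k j s : ℕ) (S : Finset (Fin N)) (a : Fin N → ℤ) : Set (Fin N → ℝ) :=
  {x | x ∈ EE N k j s ∧
    (∀ i ∈ S, (a i : ℝ) + 1/3 ≤ (3:ℝ)^j * x i ∧ (3:ℝ)^j * x i ≤ (a i : ℝ) + 2/3) ∧
    ∀ i, i ∉ S → i ∉ mid j x}

/-- extension property of the target `T` for spheres of dimension `s - 1` with parameters -/
def ExtProp (T : Type) [TopologicalSpace T] (s : ℕ) : Prop :=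
  ∀ (ι : Type) [Fintype ι], Fintype.card ι = s →
    ∀ (Y : Type) [TopologicalSpace Y] [CompactSpace Y] [T2Space Y] (θ : (ι → ℝ) × Y → T),
      ContinuousOn θ (Metric.sphere (0 : ι → ℝ) 1 ×ˢ (univ : Set Y)) →
      ∃ Θ : (ι → ℝ) × Y → T, ContinuousOn Θ (Metric.closedBall (0 : ι → ℝ) 1 ×ˢ (univ : Set Y)) ∧
        EqOn Θ θ (Metric.sphere (0 : ι → ℝ) 1 ×ˢ (univ : Set Y))

/-- nerve graph of a family of sets -/
def nerve {Y κ : Type} (V : κ → Set Y) : SimpleGraph κ where
  Adj i j := i ≠ j ∧ (V i ∩ V j).Nonempty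
  symm := ⟨fun i j h => ⟨h.1.symm, by rw [inter_comm]; exact h.2⟩⟩
  loopless := ⟨fun i h => h.1 rfl⟩

section S_basic

theorem mem_mid_iff {N : ℕ} (j : ℕ) (x : Fin N → ℝ) (i : Fin N) :
    i ∈ mid j x ↔ ∃ b : ℤ, (b:ℝ) + 1/3 < (3:ℝ)^j * x i ∧ (3:ℝ)^j * x i < b + 2/3 := by
  have hf := Int.floor_add_fract ((3:ℝ)^j * x i)
  constructor
  · rintro ⟨h1, h2⟩
    exact ⟨⌊(3:ℝ)^j * x i⌋, by linarith, by linarith⟩
  · rintro ⟨b, h1, h2⟩
    have hb : ⌊(3:ℝ)^j * x i⌋ = b := by
      rw [Int.floor_eq_iff]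
      constructor <;> linarith
    rw [hb] at hf
    exact ⟨by linarith, by linarith⟩

theorem isOpen_mid {N : ℕ} (j : ℕ) (i : Fin N) : IsOpen {x : Fin N → ℝ | i ∈ mid j x} := by
  have h : {x : Fin N → ℝ | i ∈ mid j x} =
      ⋃ b : ℤ, {x : Fin N → ℝ | (b:ℝ) + 1/3 < (3:ℝ)^j * x i ∧ (3:ℝ)^j * x i < b + 2/3} := by
    ext x
    simp only [mem_iUnion]
    exact mem_mid_iff j x i
  rw [h]
  refine isOpen_iUnion fun b => ?_
  have hc : Continuous fun x : Fin N → ℝ => (3:ℝ)^j * x i := continuous_const.mul (continuous_apply i)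
  exact (isOpen_lt continuous_const hc).inter (isOpen_lt hc continuous_const)

theorem isClosed_ncard {N : ℕ} (j s : ℕ) : IsClosed {x : Fin N → ℝ | (mid j x).ncard ≤ s} := by
  classical
  rw [← isOpen_compl_iff]
  have h : {x : Fin N → ℝ | (mid j x).ncard ≤ s}ᶜ =
      ⋃ S : {S : Finset (Fin N) // s < S.card}, ⋂ i ∈ S.1, {x : Fin N → ℝ | i ∈ mid j x} := by
    ext x
    rw [mem_iUnion]
    constructor
    · intro hx
      have hx' : s < (mid j x).ncard := not_le.1 hx
      have hfin : (mid j x).Finite := Set.toFinite _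
      rw [Set.ncard_eq_toFinset_card _ hfin] at hx'
      refine ⟨⟨hfin.toFinset, hx'⟩, ?_⟩
      simp only [mem_iInter]
      intro i hi
      exact (Set.Finite.mem_toFinset hfin).1 hi
    · rintro ⟨⟨S, hS⟩, hx⟩
      simp only [mem_iInter] at hx
      intro hle
      have hle' : (mid j x).ncard ≤ s := hle
      have hsub : (S : Set (Fin N)) ⊆ mid j x := fun i hi => hx i hi
      have := Set.ncard_le_ncard hsub (Set.toFinite _)
      rw [Set.ncard_coe_finset] at this
      omega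
  rw [h]
  refine isOpen_iUnion fun S => ?_
  exact isOpen_biInter_finset fun i _ => isOpen_mid j i

theorem mg_cube (N : ℕ) : IsCompact {x : Fin N → ℝ | ∀ i, x i ∈ Icc (0:ℝ) 1} := by
  have h := isCompact_univ_pi (X := fun _ : Fin N => ℝ) (s := fun _ => Icc (0:ℝ) 1)
    (fun _ => isCompact_Icc)
  have e : {x : Fin N → ℝ | ∀ i, x i ∈ Icc (0:ℝ) 1} = Set.pi univ fun _ : Fin N => Icc (0:ℝ) 1 := by
    ext x
    rw [Set.mem_univ_pi]
    rfl
  rw [e]; exact h

theorem isCompact_MM (N k j : ℕ) : IsCompact (MM N k j) := by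
  have e : MM N k j = {x : Fin N → ℝ | ∀ i, x i ∈ Icc (0:ℝ) 1} ∩
      ⋂ j' : ℕ, ⋂ (_ : j' < j), {x : Fin N → ℝ | (mid j' x).ncard ≤ k} := by
    ext x
    simp only [mem_inter_iff, mem_iInter]
    rfl
  rw [e]
  exact (mg_cube N).inter_right (isClosed_iInter fun j' => isClosed_iInter fun _ => isClosed_ncard j' k)

theorem isCompact_Mg (N k : ℕ) : IsCompact (Mg N k) := by
  have e : Mg N k = {x : Fin N → ℝ | ∀ i, x i ∈ Icc (0:ℝ) 1} ∩
      ⋂ j' : ℕ, {x : Fin N → ℝ | (mid j' x).ncard ≤ k} := by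
    ext x
    simp only [mem_inter_iff, mem_iInter]
    rfl
  rw [e]
  exact (mg_cube N).inter_right (isClosed_iInter fun j' => isClosed_ncard j' k)

theorem isClosed_EE (N k j s : ℕ) : IsClosed (EE N k j s) :=
  (isCompact_MM N k j).isClosed.inter (isClosed_ncard j s)

theorem isCompact_PP (N k j s : ℕ) (S : Finset (Fin N)) (a : Fin N → ℤ) : IsCompact (PP N k j s S a) := by
  have hE : IsCompact (EE N k j s) :=
    (isCompact_MM N k j).inter_right (isClosed_ncard j s)
  have e : PP N k j s S a = EE N k j s ∩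
      ((⋂ i ∈ S, {x : Fin N → ℝ | (a i : ℝ) + 1/3 ≤ (3:ℝ)^j * x i ∧ (3:ℝ)^j * x i ≤ (a i : ℝ) + 2/3}) ∩
        ⋂ (i : Fin N) (_ : i ∉ S), {x : Fin N → ℝ | i ∈ mid j x}ᶜ) := by
    ext x
    simp only [mem_inter_iff, mem_iInter]
    rfl
  rw [e]
  refine hE.inter_right (IsClosed.inter ?_ ?_)
  · refine isClosed_iInter fun i => isClosed_iInter fun _ => ?_
    have hc : Continuous fun x : Fin N → ℝ => (3:ℝ)^j * x i := continuous_const.mul (continuous_apply i)
    exact (isClosed_le continuous_const hc).inter (isClosed_le hc continuous_const)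
  · exact isClosed_iInter fun i => isClosed_iInter fun _ => (isOpen_mid j i).isClosed_compl

end S_basic

section S_glue

theorem glue_ext {E T : Type} [TopologicalSpace E] [TopologicalSpace T] {K L : Set E} (hL : IsClosed L)
    {ι : Type} [Finite ι] (P : ι → Set E) (hP : ∀ i, IsClosed (P i))
    (hcov : K ⊆ L ∪ ⋃ i, P i) (hdis : ∀ i j, i ≠ j → P i ∩ P j ⊆ L)
    (hext : ∀ i, ∀ θ : E → T, ContinuousOn θ (P i ∩ L) →
      ∃ Θ : E → T, ContinuousOn Θ (P i) ∧ EqOn Θ θ (P i ∩ L))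
    (θ : E → T) (hθ : ContinuousOn θ L) : ∃ Θ : E → T, ContinuousOn Θ K ∧ EqOn Θ θ L := by
  classical
  choose Ti hTc hTe using fun i => hext i θ (hθ.mono inter_subset_right)
  obtain ⟨Θ, hΘ⟩ : ∃ Θ : E → T, Θ = fun x => if x ∈ L then θ x else
      if h : ∃ i, x ∈ P i then Ti h.choose x else θ x := ⟨_, rfl⟩
  have h1 : EqOn Θ θ L := by
    intro x hx
    rw [hΘ]
    exact if_pos hx
  have h2 : ∀ i, EqOn Θ (Ti i) (P i) := by
    intro i x hx
    by_cases hxL : x ∈ L
    · rw [h1 hxL, hTe i ⟨hx, hxL⟩]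
    · have h : ∃ i, x ∈ P i := ⟨i, hx⟩
      have h3 : h.choose = i := by
        by_contra hcon
        exact hxL (hdis _ _ hcon ⟨h.choose_spec, hx⟩)
      rw [hΘ]
      show (if x ∈ L then θ x else if h : ∃ i, x ∈ P i then Ti h.choose x else θ x) = Ti i x
      rw [if_neg hxL, dif_pos h, h3]
  refine ⟨Θ, ?_, h1⟩
  have h4 : ContinuousOn Θ (⋃ o : Option ι, (match o with | none => L | some i => P i)) := by
    refine LocallyFinite.continuousOn_iUnion (locallyFinite_of_finite _) ?_ ?_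
    · rintro (_ | i)
      · exact hL
      · exact hP i
    · rintro (_ | i)
      · exact hθ.congr h1
      · exact (hTc i).congr (h2 i)
  refine h4.mono ?_
  intro x hx
  rcases hcov hx with h | h
  · exact mem_iUnion.2 ⟨none, h⟩
  · obtain ⟨i, hi⟩ := mem_iUnion.1 h
    exact mem_iUnion.2 ⟨some i, hi⟩

end S_glue

section S_extbool

theorem extProp_bool (s : ℕ) (hs : 2 ≤ s) : ExtProp Bool s := by
  intro ι _ hι Y _ _ _ θ hθ
  have hrank : 1 < Module.rank ℝ (ι → ℝ) := by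
    rw [rank_fun', hι]; exact_mod_cast hs
  have hcon : IsConnected (Metric.sphere (0 : ι → ℝ) 1) := isConnected_sphere hrank 0 zero_le_one
  obtain ⟨p, hp⟩ := hcon.nonempty
  refine ⟨fun q => θ (p, q.2), ?_, ?_⟩
  · have : Continuous fun y : Y => θ (p, y) := by
      rw [← continuousOn_univ]
      exact hθ.comp (by fun_prop) (fun y _ => ⟨hp, trivial⟩)
    exact (this.comp continuous_snd).continuousOn
  · rintro ⟨b, y⟩ ⟨hb, -⟩
    have hc : ContinuousOn (fun x => θ (x, y)) (Metric.sphere (0 : ι → ℝ) 1) :=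
      hθ.comp (by fun_prop) (fun x hx => ⟨hx, trivial⟩)
    exact hcon.isPreconnected.constant hc hp hb

end S_extbool

section S_lifthom

theorem lift_homotopy {Z : Type} [TopologicalSpace Z] [CompactSpace Z]
    (H : Z × ℝ → UnitAddCircle) (hH : ContinuousOn H (univ ×ˢ Icc (0:ℝ) 1)) :
    ∃ ψ : Z → ℝ, Continuous ψ ∧ ∀ z, ((ψ z : ℝ) : UnitAddCircle) = H (z, 1) - H (z, 0) := by
  have cov : IsCoveringMap ((↑) : ℝ → UnitAddCircle) := AddCircle.isCoveringMap_coe (1 : ℝ)
  have hc1 : Continuous (fun q : unitInterval × Z => H (q.2, (q.1 : ℝ))) := by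
    refine hH.comp_continuous (f := fun q : unitInterval × Z => (q.2, (q.1 : ℝ))) ?_ ?_
    · exact continuous_snd.prodMk (continuous_subtype_val.comp continuous_fst)
    · intro q
      exact ⟨mem_univ _, q.1.2⟩
  have hc2 : Continuous (fun q : unitInterval × Z => H (q.2, (0 : ℝ))) := by
    refine hH.comp_continuous (f := fun q : unitInterval × Z => (q.2, (0 : ℝ))) ?_ ?_
    · exact continuous_snd.prodMk continuous_const
    · intro q
      exact ⟨mem_univ _, by simp⟩
  let G : C(unitInterval × Z, UnitAddCircle) :=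
    ⟨fun q => H (q.2, (q.1 : ℝ)) - H (q.2, (0 : ℝ)), hc1.sub hc2⟩
  let f : C(Z, ℝ) := ⟨fun _ => 0, continuous_const⟩
  have H0 : ∀ a, G (0, a) = ((f a : ℝ) : UnitAddCircle) := by
    intro a
    change H (a, ((0 : unitInterval) : ℝ)) - H (a, (0 : ℝ)) = ((0 : ℝ) : UnitAddCircle)
    rw [Set.Icc.coe_zero, sub_self]
    exact (AddCircle.coe_zero (p := (1 : ℝ))).symm
  refine ⟨fun z => cov.liftHomotopy G f H0 (1, z), ?_, ?_⟩
  · exact (cov.liftHomotopy G f H0).continuous.comp (continuous_const.prodMk continuous_id)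
  · intro z
    have h1 := congr_fun (cov.liftHomotopy_lifts G f H0) (1, z)
    change ((cov.liftHomotopy G f H0 (1, z) : ℝ) : UnitAddCircle)
      = H (z, ((1 : unitInterval) : ℝ)) - H (z, (0 : ℝ)) at h1
    rw [Set.Icc.coe_one] at h1
    exact h1

end S_lifthom

section S_extcirc

theorem exc_hemi {ι : Type} [Fintype ι] (i0 : ι) (σ : ℝ) (hσ : σ = 1 ∨ σ = -1)
    {Y : Type} [TopologicalSpace Y] [CompactSpace Y] (θ : (ι → ℝ) × Y → UnitAddCircle)
    (hθ : ContinuousOn θ (Metric.sphere (0 : ι → ℝ) 1 ×ˢ (univ : Set Y))) (p : ι → ℝ)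
    (hp : p ∈ Metric.sphere (0 : ι → ℝ) 1) (hp0 : 0 ≤ σ * p i0) :
    ∃ φ : (ι → ℝ) × Y → ℝ,
      ContinuousOn φ ((Metric.sphere (0 : ι → ℝ) 1 ∩ {x | 0 ≤ σ * x i0}) ×ˢ (univ : Set Y)) ∧
      (∀ x ∈ Metric.sphere (0 : ι → ℝ) 1, 0 ≤ σ * x i0 →
        ∀ y, ((φ (x, y) : ℝ) : UnitAddCircle) = θ (x, y) - θ (p, y)) ∧ ∀ y, φ (p, y) = 0 := by
  classical
  set A : Set (ι → ℝ) := Metric.sphere (0 : ι → ℝ) 1 ∩ {x | 0 ≤ σ * x i0} with hA
  have hσ2 : σ * σ = 1 := by rcases hσ with h | h <;> rw [h] <;> norm_num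
  have hAc : IsCompact A := by
    refine (isCompact_sphere 0 1).inter_right ?_
    exact isClosed_le continuous_const (continuous_const.mul (continuous_apply i0))
  have : CompactSpace A := isCompact_iff_compactSpace.1 hAc
  set c : ι → ℝ := Pi.single i0 σ with hc
  have hcn : ‖c‖ = 1 := by
    rw [hc, Pi.norm_single]
    rcases hσ with h | h <;> rw [h] <;> norm_num
  have hv0 : ∀ x ∈ A, ∀ t ∈ Icc (0:ℝ) 1, (1 - t) • c + t • x ≠ 0 := by
    intro x hx t ht h0
    have h1 := congrFun h0 i0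
    simp only [hc, Pi.add_apply, Pi.smul_apply, Pi.single_eq_same, smul_eq_mul,
      Pi.zero_apply] at h1
    have h2 : σ * ((1 - t) * σ + t * x i0) = 0 := by rw [h1, mul_zero]
    have h3 : (1 - t) * (σ * σ) + t * (σ * x i0) = 0 := by linarith
    rw [hσ2] at h3
    have h4 : 0 ≤ σ * x i0 := hx.2
    have h5 : 0 ≤ t * (σ * x i0) := mul_nonneg ht.1 h4
    have h6 : t = 1 := by linarith [ht.2]
    rw [h6] at h0
    simp only [sub_self, zero_smul, one_smul, zero_add] at h0
    have h7 := hx.1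
    rw [h0, mem_sphere_zero_iff_norm, norm_zero] at h7
    exact zero_ne_one h7
  have hcont : ContinuousOn (fun q : (A × Y) × ℝ =>
      ((‖(1 - q.2) • c + q.2 • (q.1.1 : ι → ℝ)‖⁻¹ •
        ((1 - q.2) • c + q.2 • (q.1.1 : ι → ℝ)), q.1.2) : (ι → ℝ) × Y))
      (univ ×ˢ Icc (0:ℝ) 1) := by
    have h1 : Continuous fun q : (A × Y) × ℝ => (1 - q.2) • c + q.2 • (q.1.1 : ι → ℝ) := by
      fun_prop
    refine ContinuousOn.prodMk ?_ (by fun_prop)
    refine ContinuousOn.smul (ContinuousOn.inv₀ h1.norm.continuousOn ?_) h1.continuousOn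
    intro q hq
    exact norm_ne_zero_iff.2 (hv0 _ q.1.1.2 _ hq.2)
  obtain ⟨ψ, hψc, hψ⟩ := lift_homotopy (Z := A × Y)
    (fun q => θ (‖(1 - q.2) • c + q.2 • (q.1.1 : ι → ℝ)‖⁻¹ •
        ((1 - q.2) • c + q.2 • (q.1.1 : ι → ℝ)), q.1.2)) (by
    refine hθ.comp hcont ?_
    intro q hq
    refine ⟨?_, mem_univ _⟩
    show _ ∈ Metric.sphere (0 : ι → ℝ) 1
    rw [mem_sphere_zero_iff_norm, norm_smul, norm_inv, norm_norm]
    exact inv_mul_cancel₀ (norm_ne_zero_iff.2 (hv0 _ q.1.1.2 _ hq.2)))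
  have hψ2 : ∀ x (hx : x ∈ A) y, ((ψ (⟨x, hx⟩, y) : ℝ) : UnitAddCircle) = θ (x, y) - θ (c, y) := by
    intro x hx y
    rw [hψ]
    have h1 : ‖x‖ = 1 := by simpa using hx.1
    simp only [sub_self, zero_smul, one_smul, zero_add, sub_zero, add_zero, h1, hcn, inv_one]
  have hpA : p ∈ A := ⟨hp, hp0⟩
  refine ⟨fun w => if h : w.1 ∈ A then ψ (⟨w.1, h⟩, w.2) - ψ (⟨p, hpA⟩, w.2) else 0, ?_, ?_, ?_⟩
  · rw [continuousOn_iff_continuous_domRestrict]
    have h1 : ((A ×ˢ (univ : Set Y)).domRestrict fun w : (ι → ℝ) × Y =>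
        if h : w.1 ∈ A then ψ (⟨w.1, h⟩, w.2) - ψ (⟨p, hpA⟩, w.2) else 0) =
        fun w : ↥(A ×ˢ (univ : Set Y)) =>
          ψ (⟨w.1.1, w.2.1⟩, w.1.2) - ψ (⟨p, hpA⟩, w.1.2) := by
      funext w
      show (if h : w.1.1 ∈ A then _ else _) = _
      rw [dif_pos w.2.1]
    rw [h1]
    refine Continuous.sub (hψc.comp ?_) (hψc.comp ?_)
    · exact Continuous.prodMk (Continuous.subtype_mk (continuous_fst.comp continuous_subtype_val) _)
        (continuous_snd.comp continuous_subtype_val)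
    · exact Continuous.prodMk continuous_const (continuous_snd.comp continuous_subtype_val)
  · intro x hx hx0 y
    have hxA : x ∈ A := ⟨hx, hx0⟩
    show (((if h : x ∈ A then _ else _ : ℝ)) : UnitAddCircle) = _
    rw [dif_pos hxA, AddCircle.coe_sub, hψ2, hψ2]
    abel
  · intro y
    show (if h : p ∈ A then _ else _ : ℝ) = 0
    rw [dif_pos hpA, sub_self]

theorem exc_equator {ι : Type} [Fintype ι] (i0 : ι) (hs : 3 ≤ Fintype.card ι) :
    IsPreconnected (Metric.sphere (0 : ι → ℝ) 1 ∩ {x | x i0 = 0}) := by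
  classical
  set ext : ({i : ι // i ≠ i0} → ℝ) → (ι → ℝ) :=
    fun f i => if h : i = i0 then 0 else f ⟨i, h⟩ with hext
  have hc : Continuous ext := by
    refine continuous_pi fun i => ?_
    by_cases h : i = i0
    · simp only [hext, dif_pos h]
      exact continuous_const
    · simp only [hext, dif_neg h]
      exact continuous_apply _
  have hn : ∀ f, ‖ext f‖ = ‖f‖ := by
    intro f
    apply le_antisymm
    · rw [pi_norm_le_iff_of_nonneg (norm_nonneg _)]
      intro i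
      by_cases h : i = i0
      · simp only [hext, dif_pos h, norm_zero]
        exact norm_nonneg _
      · simp only [hext, dif_neg h]
        exact norm_le_pi_norm f ⟨i, h⟩
    · rw [pi_norm_le_iff_of_nonneg (norm_nonneg _)]
      intro i
      have h1 : f i = ext f i.1 := by
        simp only [hext, dif_neg i.2]
      rw [h1]
      exact norm_le_pi_norm (ext f) i.1
  have himg : Metric.sphere (0 : ι → ℝ) 1 ∩ {x | x i0 = 0} =
      ext '' (Metric.sphere (0 : {i : ι // i ≠ i0} → ℝ) 1) := by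
    ext x
    constructor
    · rintro ⟨hx, hx0⟩
      have h1 : ext (fun i => x i.1) = x := by
        funext i
        by_cases h : i = i0
        · simp only [hext, dif_pos h, h]
          exact hx0.symm
        · simp only [hext, dif_neg h]
      refine ⟨fun i => x i.1, ?_, h1⟩
      rw [mem_sphere_zero_iff_norm] at hx ⊢
      rw [← hn, h1, hx]
    · rintro ⟨f, hf, rfl⟩
      refine ⟨?_, ?_⟩
      · rw [mem_sphere_zero_iff_norm] at hf ⊢
        rw [hn, hf]
      · show ext f i0 = 0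
        simp only [hext, dif_pos]
  rw [himg]
  refine (isPreconnected_sphere ?_ 0 1).image _ hc.continuousOn
  rw [rank_fun']
  have h1 : Fintype.card {i : ι // i ≠ i0} = Fintype.card ι - 1 := Set.card_ne_eq i0
  rw [h1]
  have h2 : 1 < Fintype.card ι - 1 := by omega
  exact_mod_cast h2

theorem extProp_circle (s : ℕ) (hs : 3 ≤ s) : ExtProp UnitAddCircle s := by
  classical
  intro ι _ hcard Y _ _ _ θ hθ
  obtain ⟨i0, i1, hi⟩ : ∃ i0 i1 : ι, i0 ≠ i1 := by
    have : 1 < Fintype.card ι := by omega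
    exact Fintype.exists_pair_of_one_lt_card this
  set p : ι → ℝ := Pi.single i1 1 with hp
  have hp0 : p i0 = 0 := by rw [hp, Pi.single_eq_of_ne hi]
  have hpS : p ∈ Metric.sphere (0 : ι → ℝ) 1 := by
    rw [mem_sphere_zero_iff_norm, hp, Pi.norm_single, norm_one]
  obtain ⟨f, hfc, hf, hfp⟩ := exc_hemi i0 1 (Or.inl rfl) θ hθ p hpS (by rw [hp0, mul_zero])
  obtain ⟨g, hgc, hg, hgp⟩ := exc_hemi i0 (-1) (Or.inr rfl) θ hθ p hpS (by rw [hp0, mul_zero])
  have heq : ∀ x ∈ Metric.sphere (0 : ι → ℝ) 1, x i0 = 0 → ∀ y, f (x, y) = g (x, y) := by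
    intro x hx hx0 y
    have hpre := exc_equator i0 (hcard ▸ hs)
    have hcon : ContinuousOn (fun x => f (x, y) - g (x, y))
        (Metric.sphere (0 : ι → ℝ) 1 ∩ {x | x i0 = 0}) := by
      refine ContinuousOn.sub ?_ ?_
      · refine hfc.comp (Continuous.continuousOn (by fun_prop)) ?_
        intro z hz
        refine ⟨⟨hz.1, ?_⟩, mem_univ _⟩
        show 0 ≤ 1 * z i0
        rw [hz.2, mul_zero]
      · refine hgc.comp (Continuous.continuousOn (by fun_prop)) ?_
        intro z hz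
        refine ⟨⟨hz.1, ?_⟩, mem_univ _⟩
        show 0 ≤ -1 * z i0
        rw [hz.2, mul_zero]
    have hint : ∀ z ∈ Metric.sphere (0 : ι → ℝ) 1 ∩ {x | x i0 = 0}, ∃ n : ℤ,
        f (z, y) - g (z, y) = n := by
      intro z hz
      have h1 := hf z hz.1 (by rw [hz.2, mul_zero]) y
      have h2 := hg z hz.1 (by rw [hz.2, mul_zero]) y
      have h3 : ((f (z, y) - g (z, y) : ℝ) : UnitAddCircle) = 0 := by
        rw [AddCircle.coe_sub, h1, h2, sub_self]
      obtain ⟨n, hn⟩ := (AddCircle.coe_eq_zero_iff (1 : ℝ)).1 h3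
      exact ⟨n, by rw [← hn]; simp⟩
    have hpD : p ∈ Metric.sphere (0 : ι → ℝ) 1 ∩ {x | x i0 = 0} := ⟨hpS, hp0⟩
    have hxD : x ∈ Metric.sphere (0 : ι → ℝ) 1 ∩ {x | x i0 = 0} := ⟨hx, hx0⟩
    have hp3 : f (p, y) - g (p, y) = 0 := by rw [hfp, hgp, sub_zero]
    obtain ⟨n, hn⟩ := hint x hxD
    have hno : ∀ z ∈ Metric.sphere (0 : ι → ℝ) 1 ∩ {x | x i0 = 0},
        f (z, y) - g (z, y) ≠ 1 / 2 ∧ f (z, y) - g (z, y) ≠ -(1 / 2) := by
      intro z hz
      obtain ⟨k, hk⟩ := hint z hz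
      rw [hk]
      constructor
      · intro h
        have h1 : (2 * k : ℝ) = 1 := by linarith
        have h2 : (2 * k : ℤ) = 1 := by exact_mod_cast h1
        omega
      · intro h
        have h1 : (2 * k : ℝ) = -1 := by linarith
        have h2 : (2 * k : ℤ) = -1 := by exact_mod_cast h1
        omega
    rcases lt_trichotomy n 0 with h | h | h
    · exfalso
      have h1 := hpre.intermediate_value hxD hpD hcon
      have h2 : (-(1 / 2) : ℝ) ∈ Icc (f (x, y) - g (x, y)) (f (p, y) - g (p, y)) := by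
        rw [hn, hp3]
        have h3 : (n : ℝ) ≤ -1 := by exact_mod_cast (by omega : n ≤ -1)
        constructor <;> linarith
      obtain ⟨z, hz, hz2⟩ := h1 h2
      exact (hno z hz).2 hz2
    · rw [h] at hn
      push_cast at hn
      linarith
    · exfalso
      have h1 := hpre.intermediate_value hpD hxD hcon
      have h2 : ((1 / 2) : ℝ) ∈ Icc (f (p, y) - g (p, y)) (f (x, y) - g (x, y)) := by
        rw [hn, hp3]
        have h3 : (1 : ℝ) ≤ (n : ℝ) := by exact_mod_cast (by omega : 1 ≤ n)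
        constructor <;> linarith
      obtain ⟨z, hz, hz2⟩ := h1 h2
      exact (hno z hz).1 hz2
  -- glue
  set φ : (ι → ℝ) × Y → ℝ := fun w => if 0 ≤ w.1 i0 then f w else g w with hφ
  have hφc : ContinuousOn φ (Metric.sphere (0 : ι → ℝ) 1 ×ˢ (univ : Set Y)) := by
    have hA : IsClosed ((Metric.sphere (0 : ι → ℝ) 1 ∩ {x | 0 ≤ 1 * x i0}) ×ˢ (univ : Set Y)) := by
      refine IsClosed.prod (Metric.isClosed_sphere.inter ?_) isClosed_univ
      exact isClosed_le continuous_const (continuous_const.mul (continuous_apply i0))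
    have hB : IsClosed ((Metric.sphere (0 : ι → ℝ) 1 ∩ {x | 0 ≤ -1 * x i0}) ×ˢ (univ : Set Y)) := by
      refine IsClosed.prod (Metric.isClosed_sphere.inter ?_) isClosed_univ
      exact isClosed_le continuous_const (continuous_const.mul (continuous_apply i0))
    have hU : Metric.sphere (0 : ι → ℝ) 1 ×ˢ (univ : Set Y) =
        ((Metric.sphere (0 : ι → ℝ) 1 ∩ {x | 0 ≤ 1 * x i0}) ×ˢ (univ : Set Y)) ∪
        ((Metric.sphere (0 : ι → ℝ) 1 ∩ {x | 0 ≤ -1 * x i0}) ×ˢ (univ : Set Y)) := by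
      ext w
      simp only [mem_prod, mem_union, mem_inter_iff, mem_ofPred_eq, mem_univ, and_true]
      constructor
      · intro h
        rcases le_total 0 (w.1 i0) with h1 | h1
        · exact Or.inl ⟨h, by linarith⟩
        · exact Or.inr ⟨h, by linarith⟩
      · rintro (h | h)
        · exact h.1
        · exact h.1
    rw [hU]
    refine ContinuousOn.union_of_isClosed ?_ ?_ hA hB
    · refine hfc.congr ?_
      rintro ⟨x, y⟩ ⟨hx, -⟩
      have h1 : 0 ≤ x i0 := by
        have : 0 ≤ 1 * x i0 := hx.2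
        linarith
      show (if 0 ≤ x i0 then f (x, y) else g (x, y)) = f (x, y)
      rw [if_pos h1]
    · refine hgc.congr ?_
      rintro ⟨x, y⟩ ⟨hx, -⟩
      have h1 : x i0 ≤ 0 := by
        have : 0 ≤ -1 * x i0 := hx.2
        linarith
      show (if 0 ≤ x i0 then f (x, y) else g (x, y)) = g (x, y)
      split_ifs with h2
      · exact heq x hx.1 (le_antisymm h1 h2) y
      · rfl
  have hφθ : ∀ x ∈ Metric.sphere (0 : ι → ℝ) 1, ∀ y,
      ((φ (x, y) : ℝ) : UnitAddCircle) = θ (x, y) - θ (p, y) := by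
    intro x hx y
    show ((((if 0 ≤ x i0 then f (x, y) else g (x, y)) : ℝ)) : UnitAddCircle) = _
    split_ifs with h
    · exact hf x hx (by linarith) y
    · exact hg x hx (by linarith [not_le.1 h]) y
  have hSc : IsClosed (Metric.sphere (0 : ι → ℝ) 1 ×ˢ (univ : Set Y)) :=
    Metric.isClosed_sphere.prod isClosed_univ
  obtain ⟨Φ, hΦ⟩ := ContinuousMap.exists_restrict_eq hSc
    ⟨(Metric.sphere (0 : ι → ℝ) 1 ×ˢ (univ : Set Y)).domRestrict φ,
      continuousOn_iff_continuous_domRestrict.1 hφc⟩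
  refine ⟨fun w => ((Φ w : ℝ) : UnitAddCircle) + θ (p, w.2), ?_, ?_⟩
  · apply Continuous.continuousOn
    refine Continuous.add ((AddCircle.continuous_mk' 1).comp Φ.continuous) ?_
    have h1 : Continuous fun w : (ι → ℝ) × Y => ((p, w.2) : (ι → ℝ) × Y) := by fun_prop
    exact hθ.comp_continuous h1 fun w => ⟨hpS, mem_univ _⟩
  · rintro ⟨x, y⟩ hw
    have h1 : Φ (x, y) = φ (x, y) := by
      have := DFunLike.congr_fun hΦ ⟨(x, y), hw⟩
      exact this
    show ((Φ (x, y) : ℝ) : UnitAddCircle) + θ (p, y) = θ (x, y)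
    rw [h1, hφθ x hw.1 y]
    abel

end S_extcirc

section S_piece

theorem piece_loc {N : ℕ} (j j' : ℕ) (hj : j' < j) (x x' : Fin N → ℝ) (i : Fin N) (a : ℤ)
    (h1 : (a : ℝ) + 1/3 ≤ (3:ℝ)^j * x i) (h2 : (3:ℝ)^j * x i ≤ (a : ℝ) + 2/3)
    (h1' : (a : ℝ) + 1/3 ≤ (3:ℝ)^j * x' i) (h2' : (3:ℝ)^j * x' i ≤ (a : ℝ) + 2/3)
    (h : i ∈ mid j' x) : i ∈ mid j' x' := by
  rw [mem_mid_iff] at h ⊢
  obtain ⟨b, hb1, hb2⟩ := h
  obtain ⟨m, rfl⟩ : ∃ m, j = j' + (m + 1) := ⟨j - j' - 1, by omega⟩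
  have e : ∀ t : ℝ, (3:ℝ)^(j' + (m+1)) * t = (3 * 3^m) * (3^j' * t) := by
    intro t; rw [pow_add, pow_succ]; ring
  rw [e] at h1 h2 h1' h2'
  have hm : (0:ℝ) < 3 * 3^m := by positivity
  refine ⟨b, ?_, ?_⟩
  · have hA : ((3^m * (3 * b + 1) : ℤ) : ℝ) < ((a + 1 : ℤ) : ℝ) := by
      push_cast
      have := mul_lt_mul_of_pos_left hb1 hm
      nlinarith
    have hA' : (3^m * (3 * b + 1) : ℤ) ≤ a := Int.lt_add_one_iff.1 (by exact_mod_cast hA)
    have hA'' : ((3^m * (3 * b + 1) : ℤ) : ℝ) ≤ (a : ℝ) := by exact_mod_cast hA'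
    push_cast at hA''
    refine lt_of_mul_lt_mul_left ?_ hm.le
    nlinarith
  · have hB : ((a : ℤ) : ℝ) < ((3^m * (3 * b + 2) : ℤ) : ℝ) := by
      push_cast
      have := mul_lt_mul_of_pos_left hb2 hm
      nlinarith
    have hB' : a + 1 ≤ (3^m * (3 * b + 2) : ℤ) := Int.add_one_le_iff.2 (by exact_mod_cast hB)
    have hB'' : ((a + 1 : ℤ) : ℝ) ≤ ((3^m * (3 * b + 2) : ℤ) : ℝ) := by exact_mod_cast hB'
    push_cast at hB''
    refine lt_of_mul_lt_mul_left ?_ hm.le
    nlinarith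

theorem piece_same {N : ℕ} (j : ℕ) (x x' : Fin N → ℝ) (i : Fin N) (h : x' i = x i) :
    i ∈ mid j x' ↔ i ∈ mid j x := by
  simp only [mid, mem_ofPred_eq, h]

theorem piece_move {N k j s : ℕ} {S : Finset (Fin N)} (hS : S.card = s) {a : Fin N → ℤ}
    {x x' : Fin N → ℝ} (hx : x ∈ PP N k j s S a) (h1 : ∀ i, i ∉ S → x' i = x i)
    (h2 : ∀ i ∈ S, (a i : ℝ) + 1/3 ≤ (3:ℝ)^j * x' i ∧ (3:ℝ)^j * x' i ≤ (a i : ℝ) + 2/3) :
    x' ∈ PP N k j s S a := by
  obtain ⟨⟨⟨hc, hM⟩, hn⟩, hS1, hS2⟩ := hx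
  have hout : ∀ i, i ∉ S → i ∉ mid j x' := by
    intro i hi
    rw [piece_same j x x' i (h1 i hi)]
    exact hS2 i hi
  refine ⟨⟨⟨?_, ?_⟩, ?_⟩, h2, hout⟩
  · intro i
    by_cases hi : i ∈ S
    · obtain ⟨ha, hb⟩ := hS1 i hi
      obtain ⟨ha', hb'⟩ := h2 i hi
      obtain ⟨h0, h01⟩ := hc i
      have h3 : (0:ℝ) < 3^j := by positivity
      have hai : 0 ≤ a i := by
        have : ((-1 : ℤ) : ℝ) < ((a i : ℤ) : ℝ) := by
          push_cast
          have : 0 ≤ (3:ℝ)^j * x i := by positivity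
          linarith
        have : -1 < a i := by exact_mod_cast this
        omega
      have hai2 : a i + 1 ≤ 3^j := by
        have : ((a i : ℤ) : ℝ) < (((3^j : ℤ)) : ℝ) := by
          push_cast
          have : (3:ℝ)^j * x i ≤ 3^j * 1 := mul_le_mul_of_nonneg_left h01 h3.le
          linarith
        have : a i < 3^j := by exact_mod_cast this
        omega
      have hai' : (0:ℝ) ≤ (a i : ℝ) := by exact_mod_cast hai
      have hai2' : (a i : ℝ) + 1 ≤ 3^j := by exact_mod_cast hai2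
      constructor
      · by_contra hcon
        push Not at hcon
        have : (3:ℝ)^j * x' i < 0 := mul_neg_of_pos_of_neg h3 hcon
        linarith
      · by_contra hcon
        push Not at hcon
        have : (3:ℝ)^j * 1 < 3^j * x' i := mul_lt_mul_of_pos_left hcon h3
        linarith
    · rw [h1 i hi]; exact hc i
  · intro j' hj'
    have : mid j' x' ⊆ mid j' x := by
      intro i hi
      by_cases hiS : i ∈ S
      · exact piece_loc j j' hj' x' x i (a i) (h2 i hiS).1 (h2 i hiS).2 (hS1 i hiS).1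
          (hS1 i hiS).2 hi
      · exact (piece_same j' x x' i (h1 i hiS)).1 hi
    exact (ncard_le_ncard this (toFinite _)).trans (hM j' hj')
  · have : mid j x' ⊆ (S : Set (Fin N)) := by
      intro i hi
      by_contra hiS
      exact hout i (by simpa using hiS) hi
    refine (ncard_le_ncard this (toFinite _)).trans ?_
    rw [ncard_coe_finset, hS]

theorem piece_edge {N k j s : ℕ} (hs : 0 < s) {S : Finset (Fin N)} (hS : S.card = s)
    {a : Fin N → ℤ} {x : Fin N → ℝ} (hx : x ∈ PP N k j s S a) :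
    x ∈ EE N k j (s - 1) ↔ ∃ i ∈ S, (3:ℝ)^j * x i = a i + 1/3 ∨ (3:ℝ)^j * x i = a i + 2/3 := by
  obtain ⟨⟨hM, hn⟩, hS1, hS2⟩ := hx
  have hsub : mid j x ⊆ (S : Set (Fin N)) := by
    intro i hi
    by_contra hiS
    exact hS2 i (by simpa using hiS) hi
  constructor
  · rintro ⟨-, hn'⟩
    by_contra hcon
    push Not at hcon
    have hsup : (S : Set (Fin N)) ⊆ mid j x := by
      intro i hi
      have hi' : i ∈ S := by simpa using hi
      rw [mem_mid_iff]
      exact ⟨a i, lt_of_le_of_ne (hS1 i hi').1 (hcon i hi').1.symm,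
        lt_of_le_of_ne (hS1 i hi').2 (hcon i hi').2⟩
    have := ncard_le_ncard hsup (toFinite _)
    rw [ncard_coe_finset, hS] at this
    omega
  · rintro ⟨i, hi, hi'⟩
    refine ⟨hM, ?_⟩
    have hni : i ∉ mid j x := by
      rw [mem_mid_iff]
      rintro ⟨b, hb1, hb2⟩
      rcases hi' with h | h
      · rw [h] at hb1 hb2
        have e1 : (b : ℝ) < a i := by linarith
        have e2 : ((a i : ℤ) : ℝ) < ((b + 1 : ℤ) : ℝ) := by push_cast; linarith
        have e1' : b < a i := by exact_mod_cast e1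
        have e2' : a i < b + 1 := by exact_mod_cast e2
        omega
      · rw [h] at hb1 hb2
        have e1 : ((b : ℤ) : ℝ) < ((a i + 1 : ℤ) : ℝ) := by push_cast; linarith
        have e2 : ((a i : ℤ) : ℝ) < ((b : ℤ) : ℝ) := by push_cast; linarith
        have e1' : b < a i + 1 := by exact_mod_cast e1
        have e2' : a i < b := by exact_mod_cast e2
        omega
    have : mid j x ⊆ ((S.erase i : Finset (Fin N)) : Set (Fin N)) := by
      intro i' hi'
      rw [Finset.mem_coe, Finset.mem_erase]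
      exact ⟨fun h => hni (h ▸ hi'), by simpa using hsub hi'⟩
    refine (ncard_le_ncard this (toFinite _)).trans ?_
    rw [ncard_coe_finset, Finset.card_erase_of_mem hi, hS]

theorem piece_ext (T : Type) [TopologicalSpace T] (N k j s : ℕ) (hks : k < s) (hT : ExtProp T s)
    (S : Finset (Fin N)) (hS : S.card = s) (a : Fin N → ℤ) (θ : (Fin N → ℝ) → T)
    (hθ : ContinuousOn θ (PP N k j s S a ∩ EE N k j (s-1))) :
    ∃ Θ : (Fin N → ℝ) → T, ContinuousOn Θ (PP N k j s S a) ∧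
      EqOn Θ θ (PP N k j s S a ∩ EE N k j (s-1)) := by
  classical
  have hs : 0 < s := by omega
  have h3 : (0:ℝ) < 3^j := by positivity
  set P := PP N k j s S a with hP
  -- the parameter space
  let Yset : Set (Fin N → ℝ) := P ∩ {y | ∀ i ∈ S, (3:ℝ)^j * y i = a i + 1/2}
  have hYc : IsCompact Yset := by
    refine (isCompact_PP N k j s S a).inter_right ?_
    have : {y : Fin N → ℝ | ∀ i ∈ S, (3:ℝ)^j * y i = a i + 1/2} =
        ⋂ i ∈ S, {y : Fin N → ℝ | (3:ℝ)^j * y i = a i + 1/2} := by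
      ext y; simp
    rw [this]
    exact isClosed_biInter fun i _ =>
      isClosed_eq (continuous_const.mul (continuous_apply i)) continuous_const
  haveI : CompactSpace Yset := isCompact_iff_compactSpace.1 hYc
  let Φ : ({i // i ∈ S} → ℝ) × Yset → (Fin N → ℝ) := fun p i =>
    if h : i ∈ S then ((a i : ℝ) + 1/2 + p.1 ⟨i, h⟩ / 6) / 3^j else p.2.1 i
  have hΦc : Continuous Φ := by
    refine continuous_pi fun i => ?_
    by_cases h : i ∈ S
    · simp only [Φ, h, dif_pos]
      fun_prop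
    · simp only [Φ, h, not_false_eq_true, dif_neg]
      exact (continuous_apply i).comp (continuous_subtype_val.comp continuous_snd)
  have hΦ1 : ∀ p : ({i // i ∈ S} → ℝ) × Yset, ∀ i (h : i ∈ S),
      (3:ℝ)^j * Φ p i = (a i : ℝ) + 1/2 + p.1 ⟨i, h⟩ / 6 := by
    intro p i h
    simp only [Φ, h, dif_pos]
    field_simp
  have hΦ2 : ∀ p : ({i // i ∈ S} → ℝ) × Yset, ∀ i, i ∉ S → Φ p i = p.2.1 i := by
    intro p i h
    simp only [Φ, h, not_false_eq_true, dif_neg]
  have hΦP : ∀ p : ({i // i ∈ S} → ℝ) × Yset, ‖p.1‖ ≤ 1 → Φ p ∈ P := by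
    intro p hp
    refine piece_move hS p.2.2.1 (hΦ2 p) (fun i hi => ?_)
    rw [hΦ1 p i hi]
    have := (norm_le_pi_norm p.1 ⟨i, hi⟩).trans hp
    rw [Real.norm_eq_abs, abs_le] at this
    constructor <;> linarith [this.1, this.2]
  have hΦE : ∀ p : ({i // i ∈ S} → ℝ) × Yset, ‖p.1‖ = 1 → Φ p ∈ P ∩ EE N k j (s - 1) := by
    intro p hp
    have h1 := hΦP p hp.le
    refine ⟨h1, ?_⟩
    rw [piece_edge hs hS h1]
    have : ∃ i, |p.1 i| = 1 := by
      by_contra hcon
      push Not at hcon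
      have : ‖p.1‖ < 1 := by
        rw [pi_norm_lt_iff one_pos]
        intro i
        have := (norm_le_pi_norm p.1 i).trans hp.le
        exact lt_of_le_of_ne this (hcon i)
      linarith
    obtain ⟨⟨i, hi⟩, hi'⟩ := this
    refine ⟨i, hi, ?_⟩
    rw [hΦ1 p i hi]
    rcases eq_or_eq_neg_of_abs_eq hi' with h | h
    · right; rw [h]; ring
    · left; rw [h]; ring
  have hcard : Fintype.card {i // i ∈ S} = s := by rw [Fintype.card_coe, hS]
  obtain ⟨Θ', hΘc, hΘe⟩ := hT {i // i ∈ S} hcard Yset (θ ∘ Φ) (by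
    refine hθ.comp hΦc.continuousOn ?_
    rintro p ⟨hp, -⟩
    exact hΦE p (by simpa using hp))
  -- the inverse
  let yy : (Fin N → ℝ) → (Fin N → ℝ) := fun x i => if i ∈ S then ((a i : ℝ) + 1/2) / 3^j else x i
  have hyy : ∀ x ∈ P, yy x ∈ Yset := by
    intro x hx
    have e : ∀ i ∈ S, (3:ℝ)^j * yy x i = a i + 1/2 := by
      intro i hi
      simp only [yy, hi, if_true]
      field_simp
    refine ⟨piece_move hS hx (fun i hi => ?_) (fun i hi => ?_), e⟩
    · simp only [yy, hi, if_false]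
    · rw [e i hi]; constructor <;> linarith
  let R : P → ({i // i ∈ S} → ℝ) × Yset := fun x =>
    (fun i => 6 * ((3:ℝ)^j * x.1 i.1 - a i.1 - 1/2), ⟨yy x.1, hyy x.1 x.2⟩)
  have hyyc : Continuous yy := by
    refine continuous_pi fun i => ?_
    by_cases h : i ∈ S
    · simp only [yy, h, if_true]; exact continuous_const
    · simp only [yy, h, if_false]; exact continuous_apply i
  have hRc : Continuous R := by
    refine Continuous.prodMk ?_ ?_
    · refine continuous_pi fun i => ?_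
      have : Continuous (fun x : P => x.1 i.1) := (continuous_apply i.1).comp continuous_subtype_val
      exact continuous_const.mul (((continuous_const.mul this).sub continuous_const).sub continuous_const)
    · exact Continuous.subtype_mk (hyyc.comp continuous_subtype_val) _
  have hRb : ∀ x : P, ∀ i, |(R x).1 i| ≤ 1 := by
    intro x i
    have := x.2.2.1 i.1 i.2
    simp only [R]
    rw [abs_le]
    constructor <;> linarith [this.1, this.2]
  have hRn : ∀ x : P, ‖(R x).1‖ ≤ 1 := by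
    intro x
    rw [pi_norm_le_iff_of_nonneg zero_le_one]
    exact hRb x
  have hΦR : ∀ x : P, Φ (R x) = x.1 := by
    intro x
    funext i
    by_cases h : i ∈ S
    · have := hΦ1 (R x) i h
      have e : (3:ℝ)^j * Φ (R x) i = 3^j * x.1 i := by
        rw [this]
        simp only [R]
        ring
      exact mul_left_cancel₀ h3.ne' e
    · rw [hΦ2 _ i h]
      simp only [R, yy, h, if_false]
  refine ⟨fun x => if h : x ∈ P then Θ' (R ⟨x, h⟩) else θ x, ?_, ?_⟩
  · rw [continuousOn_iff_continuous_domRestrict]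
    have : P.domRestrict (fun x => if h : x ∈ P then Θ' (R ⟨x, h⟩) else θ x) = fun x => Θ' (R x) := by
      funext x
      simp [Set.domRestrict, x.2]
    rw [this]
    refine hΘc.comp_continuous hRc (fun x => ⟨?_, mem_univ _⟩)
    simpa using hRn x
  · rintro x ⟨hxP, hxE⟩
    have e1 : (if h : x ∈ P then Θ' (R ⟨x, h⟩) else θ x) = Θ' (R ⟨x, hxP⟩) := dif_pos hxP
    simp only [e1]
    have hsph : ‖(R ⟨x, hxP⟩).1‖ = 1 := by
      apply le_antisymm (hRn _)
      obtain ⟨i, hi, hi'⟩ := (piece_edge hs hS hxP).1 hxE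
      have : |(R ⟨x, hxP⟩).1 ⟨i, hi⟩| = 1 := by
        simp only [R]
        rcases hi' with h | h
        · rw [h, show (6:ℝ) * ((a i : ℝ) + 1/3 - a i - 1/2) = -1 by ring]; simp
        · rw [h, show (6:ℝ) * ((a i : ℝ) + 2/3 - a i - 1/2) = 1 by ring]; simp
      rw [← this]
      exact norm_le_pi_norm (R ⟨x, hxP⟩).1 ⟨i, hi⟩
    rw [hΘe ⟨by simpa using hsph, mem_univ _⟩]
    simp only [Function.comp, hΦR]

end S_piece

section S_steps

theorem step_s (T : Type) [TopologicalSpace T] (N k j s : ℕ) (hks : k < s) (hT : ExtProp T s)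
    (θ : (Fin N → ℝ) → T) (hθ : ContinuousOn θ (EE N k j (s-1))) :
    ∃ Θ : (Fin N → ℝ) → T, ContinuousOn Θ (EE N k j s) ∧ EqOn Θ θ (EE N k j (s-1)) := by
  classical
  have hs1 : 1 ≤ s := by omega
  let ι := {p : Finset (Fin N) × (Fin N → Fin (3^j)) // p.1.card = s ∧ ∀ i, i ∉ p.1 → (p.2 i : ℕ) = 0}
  have hncard : ∀ x : Fin N → ℝ, (mid j x).ncard = (mid j x).toFinset.card := by
    intro x
    rw [Set.ncard_eq_toFinset_card']
  refine glue_ext (ι := ι) (isClosed_EE N k j (s-1)) (fun p => PP N k j s p.1.1 (fun i => ((p.1.2 i : ℕ) : ℤ)))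
    (fun p => (isCompact_PP N k j s _ _).isClosed) ?_ ?_
    (fun p θ hθ => piece_ext T N k j s hks hT p.1.1 p.2.1 _ θ hθ) θ hθ
  · intro x hx
    by_cases h : (mid j x).ncard ≤ s - 1
    · exact Or.inl ⟨hx.1, h⟩
    · right
      have hcard : (mid j x).ncard = s := by have := hx.2; omega
      have hex : ∀ i, ∃ c : Fin (3^j), (i ∈ mid j x → ((c : ℕ) : ℝ) + 1/3 ≤ (3:ℝ)^j * x i ∧ (3:ℝ)^j * x i ≤ ((c : ℕ) : ℝ) + 2/3) ∧
          (i ∉ mid j x → (c : ℕ) = 0) := by
        intro i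
        by_cases hi : i ∈ mid j x
        · obtain ⟨b, hb1, hb2⟩ := (mem_mid_iff j x i).mp hi
          have hxi := hx.1.1 i
          have h3 : (0 : ℝ) < 3 ^ j := by positivity
          have hb0 : 0 ≤ b := by
            have h1 : (0 : ℝ) ≤ 3 ^ j * x i := mul_nonneg h3.le hxi.1
            have h2 : ((-1 : ℤ) : ℝ) < b := by push_cast; linarith
            have h4 : (-1 : ℤ) < b := by exact_mod_cast h2
            omega
          have hb3 : b < 3 ^ j := by
            have h1 : (3 : ℝ) ^ j * x i ≤ 3 ^ j := by nlinarith [hxi.2]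
            have h2 : (b : ℝ) < ((3 ^ j : ℤ) : ℝ) := by push_cast; linarith
            exact_mod_cast h2
          have hb4 : b.toNat < 3 ^ j := by
            zify
            rw [Int.toNat_of_nonneg hb0]
            exact hb3
          refine ⟨⟨b.toNat, hb4⟩, fun _ => ?_, fun h => absurd hi h⟩
          have hb5 : ((b.toNat : ℕ) : ℝ) = (b : ℝ) := by
            have := Int.toNat_of_nonneg hb0
            exact_mod_cast this
          show ((b.toNat : ℕ) : ℝ) + 1/3 ≤ _ ∧ _ ≤ ((b.toNat : ℕ) : ℝ) + 2/3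
          rw [hb5]
          exact ⟨hb1.le, hb2.le⟩
        · exact ⟨⟨0, by positivity⟩, fun h => absurd h hi, fun _ => rfl⟩
      choose c hc1 hc2 using hex
      rw [Set.mem_iUnion]
      refine ⟨⟨((mid j x).toFinset, c), ?_, ?_⟩, hx, ?_, ?_⟩
      · show (mid j x).toFinset.card = s
        rw [← hncard, hcard]
      · intro i hi
        exact hc2 i (by simpa using hi)
      · intro i hi
        have := hc1 i (by simpa using hi)
        simpa using this
      · intro i hi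
        simpa using hi
  · intro p q hpq x hx
    by_contra hxL
    have hxE : x ∈ EE N k j s := hx.1.1
    have hcard : (mid j x).ncard = s := by
      by_contra hne
      apply hxL
      refine ⟨hxE.1, ?_⟩
      have := hxE.2
      omega
    have hcard' : (mid j x).toFinset.card = s := by rw [← hncard, hcard]
    have hS : ∀ r : ι, x ∈ PP N k j s r.1.1 (fun i => ((r.1.2 i : ℕ) : ℤ)) → r.1.1 = (mid j x).toFinset := by
      intro r hr
      symm
      apply Finset.eq_of_subset_of_card_le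
      · intro i hi
        by_contra hi'
        exact hr.2.2 i hi' (by simpa using hi)
      · rw [r.2.1, hcard']
    have hp := hS p hx.1
    have hq := hS q hx.2
    apply hpq
    apply Subtype.ext
    apply Prod.ext
    · rw [hp, hq]
    · funext i
      apply Fin.ext
      by_cases hi : i ∈ (mid j x).toFinset
      · have h1 := hx.1.2.1 i (by rw [hp]; exact hi)
        have h2 := hx.2.2.1 i (by rw [hq]; exact hi)
        simp only [Int.cast_natCast] at h1 h2
        have h3 : ((p.1.2 i : ℕ) : ℝ) < ((q.1.2 i : ℕ) : ℝ) + 1 := by linarith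
        have h4 : ((q.1.2 i : ℕ) : ℝ) < ((p.1.2 i : ℕ) : ℝ) + 1 := by linarith
        have h5 : (p.1.2 i : ℕ) < (q.1.2 i : ℕ) + 1 := by exact_mod_cast h3
        have h6 : (q.1.2 i : ℕ) < (p.1.2 i : ℕ) + 1 := by exact_mod_cast h4
        omega
      · rw [p.2.2 i (by rw [hp]; exact hi), q.2.2 i (by rw [hq]; exact hi)]

end S_steps

section S_extall

theorem ext_all_EE (N k j : ℕ) : EE N k j k = MM N k (j + 1) := by
  ext x
  constructor
  · rintro ⟨⟨h1, h2⟩, h3⟩
    refine ⟨h1, fun j' hj' => ?_⟩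
    rcases Nat.lt_succ_iff_lt_or_eq.1 hj' with h | h
    · exact h2 j' h
    · rw [h]
      exact h3
  · rintro ⟨h1, h2⟩
    exact ⟨⟨h1, fun j' hj' => h2 j' (by omega)⟩, h2 j (by omega)⟩

theorem ext_all_EE' (N k j : ℕ) : EE N k j (k + N) = MM N k j := by
  ext x
  constructor
  · exact fun h => h.1
  · intro h
    refine ⟨h, ?_⟩
    have h1 : (mid j x).ncard ≤ (Set.univ : Set (Fin N)).ncard :=
      Set.ncard_le_ncard (Set.subset_univ _)
    rw [Set.ncard_univ, Nat.card_fin] at h1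
    omega

theorem ext_all_step (T : Type) [TopologicalSpace T] (N k j : ℕ) (hT : ∀ s, k < s → ExtProp T s)
    (θ : (Fin N → ℝ) → T) (hθ : ContinuousOn θ (EE N k j k)) (t : ℕ) :
    ∃ Θ : (Fin N → ℝ) → T, ContinuousOn Θ (EE N k j (k + t)) ∧ EqOn Θ θ (EE N k j k) := by
  induction t with
  | zero => exact ⟨θ, hθ, fun _ _ => rfl⟩
  | succ t ih =>
    obtain ⟨Θ, h1, h2⟩ := ih
    obtain ⟨Θ', h3, h4⟩ := step_s T N k j (k + (t + 1)) (by omega) (hT _ (by omega)) Θ (by
      have e : k + (t + 1) - 1 = k + t := by omega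
      rw [e]
      exact h1)
    refine ⟨Θ', h3, fun x hx => ?_⟩
    have hx' : x ∈ EE N k j (k + (t + 1) - 1) := ⟨hx.1, hx.2.trans (by omega)⟩
    rw [h4 hx', h2 hx]

theorem ext_all (T : Type) [TopologicalSpace T] (N k j : ℕ) (hT : ∀ s, k < s → ExtProp T s)
    (θ : (Fin N → ℝ) → T) (hθ : ContinuousOn θ (MM N k j)) :
    ∃ Θ : (Fin N → ℝ) → T, ContinuousOn Θ (Icc (0 : Fin N → ℝ) 1) ∧ EqOn Θ θ (MM N k j) := by
  induction j generalizing θ with
  | zero =>
    have e : MM N k 0 = Icc (0 : Fin N → ℝ) 1 := by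
      ext x
      constructor
      · rintro ⟨h1, -⟩
        exact ⟨fun i => (h1 i).1, fun i => (h1 i).2⟩
      · rintro ⟨h1, h2⟩
        exact ⟨fun i => ⟨h1 i, h2 i⟩, fun j' hj' => absurd hj' (Nat.not_lt_zero _)⟩
    rw [← e]
    exact ⟨θ, hθ, fun _ _ => rfl⟩
  | succ j ih =>
    rw [← ext_all_EE] at hθ
    obtain ⟨Θ₁, h1, h2⟩ := ext_all_step T N k j hT θ hθ N
    rw [ext_all_EE'] at h1
    obtain ⟨Θ₂, h3, h4⟩ := ih Θ₁ h1
    refine ⟨Θ₂, h3, fun x hx => ?_⟩
    rw [← ext_all_EE] at hx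
    rw [h4 hx.1, h2 hx]

end S_extall

section S_nbhdbool

theorem nbhd_ext_bool (N k : ℕ) (θ : Mg N k → Bool) (hθ : Continuous θ) :
    ∃ (j : ℕ) (Θ : (Fin N → ℝ) → Bool), ContinuousOn Θ (MM N k j) ∧ ∀ x : Mg N k, Θ x = θ x := by
  classical
  let g : Bool → ℝ := fun b => if b then 1 else 0
  have hg : Continuous g := continuous_of_discreteTopology
  obtain ⟨F, hF⟩ := ContinuousMap.exists_restrict_eq (isCompact_Mg N k).isClosed
    (⟨fun x => g (θ x), hg.comp hθ⟩ : C(Mg N k, ℝ))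
  have hFx : ∀ x : Mg N k, F x = g (θ x) := by
    intro x
    have := congrArg (fun h : C(Mg N k, ℝ) => h x) hF
    simpa using this
  have hex : ∃ j, ¬ (MM N k j ∩ {x | F x = 1/2}).Nonempty := by
    by_contra hcon
    push Not at hcon
    have hcl : IsClosed {x : Fin N → ℝ | F x = 1/2} := isClosed_eq F.continuous continuous_const
    have hne := IsCompact.nonempty_iInter_of_sequence_nonempty_isCompact_isClosed
      (fun j => MM N k j ∩ {x | F x = 1/2})
      (fun j x hx => ⟨⟨hx.1.1, fun j' hj' => hx.1.2 j' (by omega)⟩, hx.2⟩)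
      hcon ((isCompact_MM N k 0).inter_right hcl)
      (fun j => (isCompact_MM N k j).isClosed.inter hcl)
    obtain ⟨x, hx⟩ := hne
    rw [mem_iInter] at hx
    have hxM : x ∈ Mg N k := ⟨(hx 0).1.1, fun j => (hx (j+1)).1.2 j (by omega)⟩
    have h1 : F x = 1/2 := (hx 0).2
    have h2 := hFx ⟨x, hxM⟩
    rw [h1] at h2
    by_cases hb : θ ⟨x, hxM⟩ = true
    · simp [g, hb] at h2
    · simp [g, hb] at h2
  obtain ⟨j, hj⟩ := hex
  refine ⟨j, fun x => decide (1/2 < F x), ?_, ?_⟩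
  · intro x hx
    have hne : F x ≠ 1/2 := fun h => hj ⟨x, hx, h⟩
    apply ContinuousAt.continuousWithinAt
    rcases lt_or_gt_of_ne hne with h | h
    · have hev : ∀ᶠ y in 𝓝 x, F y < 1/2 :=
        (F.continuous.tendsto x).eventually (gt_mem_nhds h)
      have : (fun x => decide (1/2 < F x)) =ᶠ[𝓝 x] fun _ => false := by
        filter_upwards [hev] with y hy
        simp only [decide_eq_false_iff_not, not_lt]
        exact hy.le
      exact (continuousAt_const (y := false)).congr this.symm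
    · have hev : ∀ᶠ y in 𝓝 x, 1/2 < F y :=
        (F.continuous.tendsto x).eventually (lt_mem_nhds h)
      have : (fun x => decide (1/2 < F x)) =ᶠ[𝓝 x] fun _ => true := by
        filter_upwards [hev] with y hy
        simp only [decide_eq_true_eq]
        exact hy
      exact (continuousAt_const (y := true)).congr this.symm
  · intro x
    show decide (1/2 < F x) = θ x
    rw [hFx x]
    by_cases hb : θ x = true
    · rw [hb]; simp only [g]; norm_num
    · rw [Bool.not_eq_true] at hb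
      rw [hb]; simp only [g]; norm_num

end S_nbhdbool

section S_nbhdcirc

theorem nbhd_ext_circle (N k : ℕ) (θ : Mg N k → UnitAddCircle) (hθ : Continuous θ) :
    ∃ (j : ℕ) (Θ : (Fin N → ℝ) → UnitAddCircle), ContinuousOn Θ (MM N k j) ∧
      ∀ x : Mg N k, Θ x = θ x := by
  classical
  have h2π : (2 * Real.pi : ℝ) ≠ 0 := by positivity
  let φ : AddCircle (1 : ℝ) ≃ₜ AddCircle (2 * Real.pi) :=
    AddCircle.homeomorphAddCircle 1 (2 * Real.pi) one_ne_zero h2π
  let G : C(Mg N k, ℂ) := ⟨fun x => (AddCircle.homeomorphCircle' (φ (θ x)) : ℂ),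
    continuous_subtype_val.comp
      (AddCircle.homeomorphCircle'.continuous.comp (φ.continuous.comp hθ))⟩
  obtain ⟨F, hF⟩ := G.exists_restrict_eq (isCompact_Mg N k).isClosed
  have hFG : ∀ x : Mg N k, F x = (AddCircle.homeomorphCircle' (φ (θ x)) : ℂ) := fun x => by
    have h := DFunLike.congr_fun hF x
    exact h
  have hex : ∃ j, ∀ x ∈ MM N k j, F x ≠ 0 := by
    by_contra hcon
    push Not at hcon
    have hne : ∀ j, (MM N k j ∩ {x | F x = 0}).Nonempty := fun j => by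
      obtain ⟨x, hx, h0⟩ := hcon j
      exact ⟨x, hx, h0⟩
    have hcl : IsClosed {x | F x = 0} := isClosed_eq F.continuous continuous_const
    have hmono : ∀ j, MM N k (j + 1) ⊆ MM N k j := fun j x hx =>
      ⟨hx.1, fun j' hj' => hx.2 j' (Nat.lt_succ_of_lt hj')⟩
    obtain ⟨x, hx⟩ := IsCompact.nonempty_iInter_of_sequence_nonempty_isCompact_isClosed
      (fun j => MM N k j ∩ {x | F x = 0}) (fun j => inter_subset_inter_left _ (hmono j)) hne
      ((isCompact_MM N k 0).inter_right hcl)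
      (fun j => ((isCompact_MM N k j).inter_right hcl).isClosed)
    have hxM : ∀ j, x ∈ MM N k j := fun j => (mem_iInter.1 hx j).1
    have hx0 : F x = 0 := (mem_iInter.1 hx 0).2
    have hxMg : x ∈ Mg N k := ⟨(hxM 0).1, fun j => (hxM (j + 1)).2 j (Nat.lt_succ_self j)⟩
    have h := hFG ⟨x, hxMg⟩
    exact Circle.coe_ne_zero _ (h.symm.trans hx0)
  obtain ⟨j, hj⟩ := hex
  refine ⟨j, fun x => φ.symm ((Complex.arg (F x) : ℝ) : AddCircle (2 * Real.pi)), ?_, ?_⟩
  · intro x hx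
    have h1 := Complex.continuousAt_arg_coe_angle (hj x hx)
    have h2 : ContinuousAt (fun x => ((Complex.arg (F x) : ℝ) : AddCircle (2 * Real.pi))) x :=
      ContinuousAt.comp (f := F) (g := fun z : ℂ => ((Complex.arg z : ℝ) : Real.Angle)) h1
        F.continuous.continuousAt
    exact (φ.symm.continuous.continuousAt.comp h2).continuousWithinAt
  · intro x
    change φ.symm ((Complex.arg (F x) : ℝ) : AddCircle (2 * Real.pi)) = θ x
    rw [hFG x]
    have h : ((Complex.arg (AddCircle.homeomorphCircle' (φ (θ x)) : ℂ) : ℝ) :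
        AddCircle (2 * Real.pi)) =
        AddCircle.homeomorphCircle'.symm (AddCircle.homeomorphCircle' (φ (θ x))) := rfl
    rw [h, Homeomorph.symm_apply_apply, Homeomorph.symm_apply_apply]

end S_nbhdcirc

section S_liftcube

theorem lift_cube (N : ℕ) (Θ : (Fin N → ℝ) → UnitAddCircle)
    (hΘ : ContinuousOn Θ (Icc (0 : Fin N → ℝ) 1)) :
    ∃ ψ : (Fin N → ℝ) → ℝ, ContinuousOn ψ (Icc (0 : Fin N → ℝ) 1) ∧
      ∀ x ∈ Icc (0 : Fin N → ℝ) 1, ((ψ x : ℝ) : UnitAddCircle) = Θ x := by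
  classical
  have hcomp : CompactSpace ↥(Icc (0 : Fin N → ℝ) 1) := isCompact_iff_compactSpace.mp isCompact_Icc
  have hmaps : ContinuousOn (fun p : ↥(Icc (0 : Fin N → ℝ) 1) × ℝ => Θ (p.2 • (p.1 : Fin N → ℝ)))
      (univ ×ˢ Icc (0:ℝ) 1) := by
    refine hΘ.comp (by fun_prop) ?_
    rintro ⟨⟨z, hz⟩, t⟩ ⟨_, ht⟩
    refine ⟨fun i => ?_, fun i => ?_⟩
    · exact mul_nonneg ht.1 (hz.1 i)
    · exact mul_le_one₀ ht.2 (hz.1 i) (hz.2 i)
  obtain ⟨ψ0, hψ0, hψ⟩ := lift_homotopy _ hmaps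
  obtain ⟨c, hc⟩ := QuotientAddGroup.mk_surjective (Θ 0)
  refine ⟨fun x => if h : x ∈ Icc (0 : Fin N → ℝ) 1 then ψ0 ⟨x, h⟩ + c else 0, ?_, ?_⟩
  · rw [continuousOn_iff_continuous_domRestrict]
    have h1 : (Icc (0 : Fin N → ℝ) 1).domRestrict
        (fun x => if h : x ∈ Icc (0 : Fin N → ℝ) 1 then ψ0 ⟨x, h⟩ + c else 0)
        = fun x => ψ0 x + c := by
      funext x
      show (if h : (x : Fin N → ℝ) ∈ Icc (0 : Fin N → ℝ) 1 then ψ0 ⟨x, h⟩ + c else 0) = _
      rw [dif_pos x.2]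
    rw [h1]
    exact hψ0.add continuous_const
  · intro x hx
    show (((if h : x ∈ Icc (0 : Fin N → ℝ) 1 then ψ0 ⟨x, h⟩ + c else 0 : ℝ)) : UnitAddCircle) = _
    rw [dif_pos hx, AddCircle.coe_add, hψ ⟨x, hx⟩]
    have h2 : ((c : ℝ) : UnitAddCircle) = Θ 0 := hc
    rw [h2]
    simp

end S_liftcube

section S_conn

theorem Mg_sub_MM (N k j : ℕ) : Mg N k ⊆ MM N k j := fun _ hx => ⟨hx.1, fun j' _ => hx.2 j'⟩

theorem Mg_sub_cube (N k : ℕ) : Mg N k ⊆ Icc (0 : Fin N → ℝ) 1 := by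
  intro x hx
  exact ⟨fun i => (hx.1 i).1, fun i => (hx.1 i).2⟩

theorem zero_mem_Mg (N k : ℕ) : (0 : Fin N → ℝ) ∈ Mg N k := by
  refine ⟨fun i => ⟨le_refl _, zero_le_one⟩, fun j => ?_⟩
  have : mid j (0 : Fin N → ℝ) = ∅ := by
    rw [Set.eq_empty_iff_forall_notMem]
    intro i hi
    simp [mid] at hi
    try linarith
  rw [this, Set.ncard_empty]
  exact Nat.zero_le _

theorem connected_Mg (N k : ℕ) (hk : 1 ≤ k) : IsConnected (Mg N k) := by
  refine ⟨⟨0, zero_mem_Mg N k⟩, ?_⟩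
  rw [isPreconnected_iff_preconnectedSpace]
  apply preconnectedSpace_of_forall_constant
  intro θ hθ x y
  obtain ⟨j, Θ, hΘ, hΘθ⟩ := nbhd_ext_bool N k θ hθ
  obtain ⟨Θ', hΘ', hE⟩ := ext_all Bool N k j (fun s hs => extProp_bool s (by omega)) Θ hΘ
  have hpre : IsPreconnected (Icc (0 : Fin N → ℝ) 1) := (convex_Icc _ _).isPreconnected
  have := hpre.constant (f := Θ') hΘ' (Mg_sub_cube N k x.2) (Mg_sub_cube N k y.2)
  rw [hE (Mg_sub_MM N k j x.2), hE (Mg_sub_MM N k j y.2), hΘθ, hΘθ] at this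
  exact this

theorem lift_Mg (N k : ℕ) (hk : 2 ≤ k) (θ : Mg N k → UnitAddCircle) (hθ : Continuous θ) :
    ∃ ψ : Mg N k → ℝ, Continuous ψ ∧ ∀ x, ((ψ x : ℝ) : UnitAddCircle) = θ x := by
  obtain ⟨j, Θ, hΘ, hΘθ⟩ := nbhd_ext_circle N k θ hθ
  obtain ⟨Θ', hΘ', hE⟩ := ext_all UnitAddCircle N k j (fun s hs => extProp_circle s (by omega)) Θ hΘ
  obtain ⟨ψ, hψ, hψΘ⟩ := lift_cube N Θ' hΘ'
  refine ⟨fun x => ψ x, ?_, ?_⟩
  · exact hψ.comp_continuous continuous_subtype_val (fun x => Mg_sub_cube N k x.2)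
  · intro x
    rw [hψΘ x (Mg_sub_cube N k x.2), hE (Mg_sub_MM N k j x.2), hΘθ]

end S_conn

section S_loccover

theorem locConn_of_cover {Z : Type} [MetricSpace Z]
    (h : ∀ ε : ℝ, 0 < ε → ∃ F : Set (Set Z), F.Finite ∧
      (∀ Q ∈ F, IsClosed Q ∧ IsPreconnected Q ∧ ∀ x ∈ Q, ∀ y ∈ Q, dist x y < ε) ∧
      ⋃₀ F = univ) : LocallyConnectedSpace Z := by
  rw [locallyConnectedSpace_iff_connected_subsets]
  intro x U hU
  obtain ⟨ε, hε, hball⟩ := Metric.mem_nhds_iff.1 hU
  obtain ⟨F, hfin, hQ, hcov⟩ := h ε hε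
  refine ⟨⋃₀ {Q ∈ F | x ∈ Q}, ?_, ?_, ?_⟩
  · have hclosed : IsClosed (⋃₀ {Q ∈ F | x ∉ Q}) := by
      rw [sUnion_eq_biUnion]
      refine Set.Finite.isClosed_biUnion (hfin.subset (sep_subset _ _)) ?_
      intro Q hq
      exact (hQ Q hq.1).1
    have hx : x ∉ ⋃₀ {Q ∈ F | x ∉ Q} := by
      rintro ⟨Q, hq, hxQ⟩
      exact hq.2 hxQ
    refine Filter.mem_of_superset (hclosed.isOpen_compl.mem_nhds hx) ?_
    intro y hy
    have hyc : y ∈ ⋃₀ F := by rw [hcov]; trivial
    obtain ⟨Q, hq, hyQ⟩ := hyc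
    by_cases hxQ : x ∈ Q
    · exact ⟨Q, ⟨hq, hxQ⟩, hyQ⟩
    · exact absurd ⟨Q, ⟨hq, hxQ⟩, hyQ⟩ hy
  · exact isPreconnected_sUnion x _ (fun Q hq => hq.2) (fun Q hq => (hQ Q hq.1).2.1)
  · rintro y ⟨Q, hq, hyQ⟩
    exact hball (Metric.mem_ball.2 ((hQ Q hq.1).2.2 y hyQ x hq.2))

end S_loccover

section S_coverMg

/-- the similarity -/
noncomputable def cmphi {N : ℕ} (a : Fin N → Fin 3) (x : Fin N → ℝ) : Fin N → ℝ :=
  fun i => (((a i : ℕ) : ℝ) + x i) / 3

theorem cm_mid_succ {N : ℕ} (a : Fin N → Fin 3) (x : Fin N → ℝ) (j : ℕ) :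
    mid (j + 1) (cmphi a x) = mid j x := by
  ext i
  rw [mem_mid_iff, mem_mid_iff]
  have e : (3:ℝ)^(j+1) * cmphi a x i = (((3:ℤ)^j * ((a i : ℕ) : ℤ) : ℤ) : ℝ) + (3:ℝ)^j * x i := by
    unfold cmphi
    push_cast
    ring
  rw [e]
  constructor
  · rintro ⟨b, h1, h2⟩
    refine ⟨b - (3:ℤ)^j * ((a i : ℕ) : ℤ), ?_, ?_⟩
    · rw [Int.cast_sub]; linarith
    · rw [Int.cast_sub]; linarith
  · rintro ⟨b, h1, h2⟩
    refine ⟨b + (3:ℤ)^j * ((a i : ℕ) : ℤ), ?_, ?_⟩
    · rw [Int.cast_add]; linarith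
    · rw [Int.cast_add]; linarith

theorem cm_mid_zero {N : ℕ} (a : Fin N → Fin 3) (x : Fin N → ℝ) (hx : ∀ i, x i ∈ Icc (0:ℝ) 1) :
    mid 0 (cmphi a x) ⊆ {i | a i = 1} := by
  intro i hi
  rw [mem_mid_iff] at hi
  obtain ⟨b, h1, h2⟩ := hi
  obtain ⟨x0, x1⟩ := hx i
  unfold cmphi at h1 h2
  rw [pow_zero, one_mul] at h1 h2
  have ha : ((a i : ℕ) : ℝ) ≤ 2 := by
    have : (a i : ℕ) ≤ 2 := by omega
    exact_mod_cast this
  have ha0 : (0:ℝ) ≤ ((a i : ℕ) : ℝ) := Nat.cast_nonneg _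
  have hb1 : b < 1 := by
    have : (b : ℝ) < 1 := by linarith
    exact_mod_cast this
  have hb0 : -1 < b := by
    have : (-1 : ℝ) < (b : ℝ) := by linarith
    exact_mod_cast this
  have hb : b = 0 := by omega
  subst hb
  rw [Int.cast_zero] at h1 h2
  have c1 : (0:ℝ) < ((a i : ℕ) : ℝ) := by linarith
  have c2 : ((a i : ℕ) : ℝ) < 2 := by linarith
  have d1 : 0 < (a i : ℕ) := by exact_mod_cast c1
  have d2 : (a i : ℕ) < 2 := by exact_mod_cast c2
  change a i = 1
  apply Fin.ext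
  change (a i : ℕ) = 1
  omega

theorem cm_maps {N k : ℕ} (a : Fin N → Fin 3) (ha : {i | a i = 1}.ncard ≤ k) (x : Fin N → ℝ)
    (hx : x ∈ Mg N k) : cmphi a x ∈ Mg N k := by
  refine ⟨?_, ?_⟩
  · intro i
    obtain ⟨x0, x1⟩ := hx.1 i
    have ha2 : ((a i : ℕ) : ℝ) ≤ 2 := by
      have : (a i : ℕ) ≤ 2 := by omega
      exact_mod_cast this
    have ha0 : (0:ℝ) ≤ ((a i : ℕ) : ℝ) := Nat.cast_nonneg _
    unfold cmphi
    constructor
    · positivity
    · rw [div_le_one (by norm_num)]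
      linarith
  · intro j
    cases j with
    | zero => exact (Set.ncard_le_ncard (cm_mid_zero a x hx.1) (Set.toFinite _)).trans ha
    | succ j =>
      rw [cm_mid_succ]
      exact hx.2 j

theorem cm_surj {N k : ℕ} (x : Fin N → ℝ) (hx : x ∈ Mg N k) :
    ∃ a : Fin N → Fin 3, {i | a i = 1}.ncard ≤ k ∧ ∃ y ∈ Mg N k, cmphi a y = x := by
  have hex : ∀ i, ∃ c : Fin 3, (0 ≤ 3 * x i - ((c : ℕ) : ℝ) ∧ 3 * x i - ((c : ℕ) : ℝ) ≤ 1) ∧
      (c = 1 → 1/3 < x i ∧ x i < 2/3) := by
    intro i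
    obtain ⟨x0, x1⟩ := hx.1 i
    rcases le_or_gt (x i) (1/3) with h | h
    · refine ⟨0, ⟨?_, ?_⟩, ?_⟩
      · simp; linarith
      · simp; linarith
      · intro h0; exact absurd h0 (by decide)
    · rcases lt_or_ge (x i) (2/3) with h2 | h2
      · refine ⟨1, ⟨?_, ?_⟩, fun _ => ⟨h, h2⟩⟩
        · simp; linarith
        · simp; linarith
      · refine ⟨2, ⟨?_, ?_⟩, ?_⟩
        · simp; linarith
        · simp; linarith
        · intro h0; exact absurd h0 (by decide)
  choose a ha1 ha2 using hex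
  have e : cmphi a (fun i => 3 * x i - ((a i : ℕ) : ℝ)) = x := by
    funext i
    unfold cmphi
    ring
  refine ⟨a, ?_, fun i => 3 * x i - ((a i : ℕ) : ℝ), ⟨fun i => ha1 i, ?_⟩, e⟩
  · refine (Set.ncard_le_ncard ?_ (Set.toFinite _)).trans (hx.2 0)
    intro i hi
    rw [mem_mid_iff]
    have := ha2 i hi
    exact ⟨0, by rw [pow_zero, one_mul, Int.cast_zero, zero_add]; exact this.1,
      by rw [pow_zero, one_mul, Int.cast_zero, zero_add]; exact this.2⟩
  · intro j
    rw [← cm_mid_succ a, e]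
    exact hx.2 (j + 1)

theorem cm_cont {N : ℕ} (a : Fin N → Fin 3) : Continuous (cmphi a) := by
  unfold cmphi
  fun_prop

theorem cm_dist {N : ℕ} (a : Fin N → Fin 3) (x y : Fin N → ℝ) (r : ℝ) (hr : 0 ≤ r)
    (h : dist x y ≤ 3 * r) : dist (cmphi a x) (cmphi a y) ≤ r := by
  rw [dist_pi_le_iff hr]
  intro i
  have h1 := (dist_pi_le_iff (by linarith)).1 h i
  rw [Real.dist_eq] at h1 ⊢
  unfold cmphi
  have e : (((a i : ℕ) : ℝ) + x i) / 3 - (((a i : ℕ) : ℝ) + y i) / 3 = (x i - y i) / 3 := by ring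
  rw [e, abs_div, abs_of_pos (show (0:ℝ) < 3 by norm_num)]
  linarith

theorem cm_ind (N k : ℕ) (hconn : IsConnected (Mg N k)) (n : ℕ) :
    ∃ F : Set (Set (Fin N → ℝ)), F.Finite ∧
      (∀ Q ∈ F, IsCompact Q ∧ IsPreconnected Q ∧ Q ⊆ Mg N k ∧
        ∀ x ∈ Q, ∀ y ∈ Q, dist x y ≤ (1/3 : ℝ)^n) ∧
      ⋃₀ F = Mg N k := by
  induction n with
  | zero =>
    refine ⟨{Mg N k}, Set.finite_singleton _, ?_, Set.sUnion_singleton _⟩
    intro Q hQ
    rw [Set.mem_singleton_iff] at hQ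
    subst hQ
    refine ⟨isCompact_Mg N k, hconn.isPreconnected, Set.Subset.rfl, ?_⟩
    intro x hx y hy
    rw [pow_zero, dist_pi_le_iff zero_le_one]
    intro i
    obtain ⟨x0, x1⟩ := hx.1 i
    obtain ⟨y0, y1⟩ := hy.1 i
    rw [Real.dist_eq, abs_le]
    constructor <;> linarith
  | succ n ih =>
    obtain ⟨F, hF, hQ, hU⟩ := ih
    refine ⟨Set.image2 (fun (a : Fin N → Fin 3) Q => cmphi a '' Q) {a | {i | a i = 1}.ncard ≤ k} F,
      Set.Finite.image2 _ (Set.toFinite _) hF, ?_, ?_⟩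
    · rintro _ ⟨a, ha, Q, hQF, rfl⟩
      obtain ⟨q1, q2, q3, q4⟩ := hQ Q hQF
      refine ⟨q1.image (cm_cont a), q2.image _ (cm_cont a).continuousOn, ?_, ?_⟩
      · rintro _ ⟨x, hx, rfl⟩
        exact cm_maps a ha x (q3 hx)
      · rintro _ ⟨x, hx, rfl⟩ _ ⟨y, hy, rfl⟩
        refine cm_dist a x y _ (by positivity) ((q4 x hx y hy).trans (le_of_eq ?_))
        rw [pow_succ]; ring
    · apply Set.Subset.antisymm
      · rintro x ⟨_, ⟨a, ha, Q, hQF, rfl⟩, ⟨y, hy, rfl⟩⟩
        exact cm_maps a ha y ((hQ Q hQF).2.2.1 hy)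
      · intro x hx
        obtain ⟨a, ha, y, hy, rfl⟩ := cm_surj x hx
        rw [← hU] at hy
        obtain ⟨Q, hQF, hyQ⟩ := hy
        exact ⟨_, ⟨a, ha, Q, hQF, rfl⟩, ⟨y, hyQ, rfl⟩⟩

theorem cover_Mg (N k : ℕ) (hconn : IsConnected (Mg N k)) (ε : ℝ) (hε : 0 < ε) :
    ∃ F : Set (Set (Fin N → ℝ)), F.Finite ∧
      (∀ Q ∈ F, IsClosed Q ∧ IsPreconnected Q ∧ Q ⊆ Mg N k ∧ ∀ x ∈ Q, ∀ y ∈ Q, dist x y < ε) ∧
      ⋃₀ F = Mg N k := by
  obtain ⟨n, hn⟩ := exists_pow_lt_of_lt_one hε (show (1/3 : ℝ) < 1 by norm_num)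
  obtain ⟨F, hF, hQ, hU⟩ := cm_ind N k hconn n
  refine ⟨F, hF, ?_, hU⟩
  intro Q hQF
  obtain ⟨q1, q2, q3, q4⟩ := hQ Q hQF
  exact ⟨q1.isClosed, q2, q3, fun x hx y hy => lt_of_le_of_lt (q4 x hx y hy) hn⟩

end S_coverMg

section S_locconn

theorem locConn_Mg (N k : ℕ) (hk : 1 ≤ k) : LocallyConnectedSpace (Mg N k) := by
  refine locConn_of_cover fun ε hε => ?_
  obtain ⟨F, hF, hQ, hU⟩ := cover_Mg N k (connected_Mg N k hk) ε hε
  refine ⟨(fun Q => (Subtype.val : Mg N k → (Fin N → ℝ)) ⁻¹' Q) '' F, hF.image _, ?_, ?_⟩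
  · rintro _ ⟨Q, hQF, rfl⟩
    obtain ⟨h1, h2, h3, h4⟩ := hQ Q hQF
    refine ⟨h1.preimage continuous_subtype_val, ?_, ?_⟩
    · rw [← Topology.IsInducing.subtypeVal.isPreconnected_image, Set.image_preimage_eq_of_subset]
      · exact h2
      · rw [Subtype.range_coe]
        exact h3
    · intro x hx y hy
      exact h4 x hx y hy
  · rw [eq_univ_iff_forall]
    intro x
    have hx : (x : Fin N → ℝ) ∈ ⋃₀ F := by rw [hU]; exact x.2
    obtain ⟨Q, hQF, hxQ⟩ := hx
    exact ⟨_, ⟨Q, hQF, rfl⟩, hxQ⟩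

end S_locconn

section S_cover1

theorem nat_eq_of_real {a b : ℕ} (h1 : (a : ℝ) - b < 1) (h2 : (b : ℝ) - a < 1) : a = b := by
  rcases lt_trichotomy a b with h | h | h
  · have : (a : ℝ) + 1 ≤ b := by exact_mod_cast h
    linarith
  · exact h
  · have : (b : ℝ) + 1 ≤ a := by exact_mod_cast h
    linarith

theorem near_pt {M : ℕ} {t : ℝ} (h0 : 0 ≤ t) (h1 : t ≤ M) :
    ∃ w : Fin (M + 1),
      (¬ (1/3 < Int.fract t ∧ Int.fract t < 2/3) → |t - ((w : ℕ) : ℝ)| ≤ 1/3) ∧
      ((1/3 < Int.fract t ∧ Int.fract t < 2/3) → 1/3 < t - ((w : ℕ) : ℝ) ∧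
        t - ((w : ℕ) : ℝ) < 2/3) := by
  have hf : Int.fract t = t - ⌊t⌋₊ := by
    rw [Int.fract, ← natCast_floor_eq_intCast_floor h0]
  have hfl : (⌊t⌋₊ : ℝ) ≤ t := Nat.floor_le h0
  have hfl2 : t < ⌊t⌋₊ + 1 := Nat.lt_floor_add_one t
  have hM : ⌊t⌋₊ ≤ M := by
    have : (⌊t⌋₊ : ℝ) ≤ M := hfl.trans h1
    exact_mod_cast this
  by_cases hc : 2/3 ≤ Int.fract t
  · have hlt : ⌊t⌋₊ < M := by
      rcases hM.lt_or_eq with h | h
      · exact h
      · exfalso
        rw [hf, h] at hc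
        linarith
    refine ⟨⟨⌊t⌋₊ + 1, by omega⟩, fun _ => ?_, fun h => absurd h.2 (not_lt.2 hc)⟩
    rw [hf] at hc
    push_cast
    rw [abs_le]
    constructor <;> linarith
  · refine ⟨⟨⌊t⌋₊, by omega⟩, fun h => ?_, fun h => ?_⟩
    · have h3 : Int.fract t ≤ 1/3 := by
        by_contra h4
        exact h ⟨not_le.1 h4, not_le.1 hc⟩
      rw [hf] at h3
      simp only
      rw [abs_le]
      constructor <;> linarith
    · rw [hf] at h
      exact h

theorem cover_Mg1 (N : ℕ) (ε : ℝ) (hε : 0 < ε) :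
    ∃ (ι : Type) (_ : Finite ι) (U : ι → Set (Mg N 1)) (col : ι → Bool),
      (∀ i, IsOpen (U i)) ∧ (⋃ i, U i = univ) ∧
      (∀ i j, i ≠ j → col i = col j → Disjoint (U i) (U j)) ∧
      ∀ i, ∀ x ∈ U i, ∀ y ∈ U i, dist x y < ε := by
  obtain ⟨j, hj⟩ := exists_pow_lt_of_lt_one hε (show (1/3 : ℝ) < 1 by norm_num)
  have h3 : (0 : ℝ) < 3 ^ j := by positivity
  have hj' : 1 < ε * 3 ^ j := by
    rw [one_div, inv_pow, inv_lt_iff_one_lt_mul₀ h3] at hj
    linarith
  -- the sets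
  let A : (Fin N → Fin (3 ^ j + 1)) → Set (Fin N → ℝ) := fun v =>
    {x | ∀ i, |(3:ℝ)^j * x i - ((v i : ℕ) : ℝ)| < 2/5}
  let B : (Fin N → Fin (3 ^ j + 1)) → Fin N → Set (Fin N → ℝ) := fun v i =>
    {x | (1/3 < (3:ℝ)^j * x i - ((v i : ℕ) : ℝ) ∧ (3:ℝ)^j * x i - ((v i : ℕ) : ℝ) < 2/3) ∧
      ∀ l, l ≠ i → |(3:ℝ)^j * x l - ((v l : ℕ) : ℝ)| < 1/2}
  let V : (Fin N → Fin (3 ^ j + 1)) × Option (Fin N) → Set (Fin N → ℝ) := fun p =>
    match p.2 with
    | none => A p.1
    | some i => B p.1 i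
  refine ⟨(Fin N → Fin (3 ^ j + 1)) × Option (Fin N), inferInstance,
    fun p => {x : Mg N 1 | x.1 ∈ V p}, fun p => p.2.isNone, ?_, ?_, ?_, ?_⟩
  · -- open
    have hA : ∀ v, IsOpen (A v) := by
      intro v
      have : A v = ⋂ i, {x : Fin N → ℝ | |(3:ℝ)^j * x i - ((v i : ℕ) : ℝ)| < 2/5} := by
        ext x
        simp only [A, Set.mem_iInter]
        rfl
      rw [this]
      apply isOpen_iInter_of_finite
      intro i
      exact isOpen_lt (by fun_prop) continuous_const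
    have hB : ∀ v i, IsOpen (B v i) := by
      intro v i
      have : B v i = ({x : Fin N → ℝ | 1/3 < (3:ℝ)^j * x i - ((v i : ℕ) : ℝ)} ∩
          {x : Fin N → ℝ | (3:ℝ)^j * x i - ((v i : ℕ) : ℝ) < 2/3}) ∩
          ⋂ l : Fin N, {x : Fin N → ℝ | l ≠ i → |(3:ℝ)^j * x l - ((v l : ℕ) : ℝ)| < 1/2} := by
        ext x
        simp only [B, Set.mem_iInter, Set.mem_inter_iff]
        rfl
      rw [this]
      apply IsOpen.inter
      · exact (isOpen_lt continuous_const (by fun_prop)).inter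
          (isOpen_lt (by fun_prop) continuous_const)
      · apply isOpen_iInter_of_finite
        intro l
        by_cases hl : l = i
        · have : {x : Fin N → ℝ | l ≠ i → |(3:ℝ)^j * x l - ((v l : ℕ) : ℝ)| < 1/2} = univ := by
            ext x
            exact ⟨fun _ => trivial, fun _ h => absurd hl h⟩
          rw [this]
          exact isOpen_univ
        · have : {x : Fin N → ℝ | l ≠ i → |(3:ℝ)^j * x l - ((v l : ℕ) : ℝ)| < 1/2} =
              {x : Fin N → ℝ | |(3:ℝ)^j * x l - ((v l : ℕ) : ℝ)| < 1/2} := by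
            ext x
            exact ⟨fun h => h hl, fun h _ => h⟩
          rw [this]
          exact isOpen_lt (by fun_prop) continuous_const
    rintro ⟨v, o⟩
    apply IsOpen.preimage continuous_subtype_val
    cases o with
    | none => exact hA v
    | some i => exact hB v i
  · -- cover
    rw [Set.eq_univ_iff_forall]
    intro x
    have hx := x.2
    have hpt : ∀ i, ∃ w : Fin (3 ^ j + 1),
        (i ∉ mid j x.1 → |(3:ℝ)^j * x.1 i - ((w : ℕ) : ℝ)| ≤ 1/3) ∧
        (i ∈ mid j x.1 → 1/3 < (3:ℝ)^j * x.1 i - ((w : ℕ) : ℝ) ∧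
          (3:ℝ)^j * x.1 i - ((w : ℕ) : ℝ) < 2/3) := by
      intro i
      have h01 := hx.1 i
      apply near_pt (t := (3:ℝ)^j * x.1 i)
      · exact mul_nonneg h3.le h01.1
      · push_cast
        exact mul_le_of_le_one_right h3.le h01.2
    choose v hv1 hv2 using hpt
    rw [Set.mem_iUnion]
    by_cases hm : ∃ i, i ∈ mid j x.1
    · obtain ⟨i, hi⟩ := hm
      refine ⟨(v, some i), ?_⟩
      refine ⟨hv2 i hi, fun l hl => ?_⟩
      have hlm : l ∉ mid j x.1 := by
        intro hlm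
        exact hl ((Set.ncard_le_one (Set.toFinite _)).1 (hx.2 j) l hlm i hi)
      have := hv1 l hlm
      linarith
    · push Not at hm
      refine ⟨(v, none), ?_⟩
      intro i
      have := hv1 i (hm i)
      linarith
  · -- disjoint
    rintro ⟨v, o⟩ ⟨v', o'⟩ hne hcol
    rw [Set.disjoint_left]
    intro x hx hx'
    apply hne
    cases o with
    | none =>
      cases o' with
      | none =>
        have hxa : ∀ i, |(3:ℝ)^j * x.1 i - ((v i : ℕ) : ℝ)| < 2/5 := hx
        have hxb : ∀ i, |(3:ℝ)^j * x.1 i - ((v' i : ℕ) : ℝ)| < 2/5 := hx'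
        have : v = v' := by
          funext i
          apply Fin.ext
          have h1 := abs_lt.1 (hxa i)
          have h2 := abs_lt.1 (hxb i)
          apply nat_eq_of_real <;> linarith
        rw [this]
      | some i' => simp at hcol
    | some i =>
      cases o' with
      | none => simp at hcol
      | some i' =>
        have hxa : x.1 ∈ B v i := hx
        have hxb : x.1 ∈ B v' i' := hx'
        have hi : i ∈ mid j x.1 := (mem_mid_iff j x.1 i).2 ⟨((v i : ℕ) : ℤ), by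
          push_cast
          linarith [hxa.1.1], by
          push_cast
          linarith [hxa.1.2]⟩
        have hi' : i' ∈ mid j x.1 := (mem_mid_iff j x.1 i').2 ⟨((v' i' : ℕ) : ℤ), by
          push_cast
          linarith [hxb.1.1], by
          push_cast
          linarith [hxb.1.2]⟩
        have hii : i = i' := (Set.ncard_le_one (Set.toFinite _)).1 (x.2.2 j) i hi i' hi'
        subst hii
        have : v = v' := by
          funext l
          apply Fin.ext
          by_cases hl : l = i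
          · subst hl
            have h1 := hxa.1
            have h2 := hxb.1
            apply nat_eq_of_real <;> linarith
          · have h1 := abs_lt.1 (hxa.2 l hl)
            have h2 := abs_lt.1 (hxb.2 l hl)
            apply nat_eq_of_real <;> linarith
        rw [this]
  · -- diameter
    rintro ⟨v, o⟩ x hx y hy
    have key : ∀ l, |(3:ℝ)^j * x.1 l - (3:ℝ)^j * y.1 l| < 1 := by
      intro l
      rw [abs_lt]
      cases o with
      | none =>
        have hxa : ∀ i, |(3:ℝ)^j * x.1 i - ((v i : ℕ) : ℝ)| < 2/5 := hx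
        have hxb : ∀ i, |(3:ℝ)^j * y.1 i - ((v i : ℕ) : ℝ)| < 2/5 := hy
        have h1 := abs_lt.1 (hxa l)
        have h2 := abs_lt.1 (hxb l)
        constructor <;> linarith
      | some i =>
        have hxa : x.1 ∈ B v i := hx
        have hxb : y.1 ∈ B v i := hy
        by_cases hl : l = i
        · subst hl
          have h1 := hxa.1
          have h2 := hxb.1
          constructor <;> linarith
        · have h1 := abs_lt.1 (hxa.2 l hl)
          have h2 := abs_lt.1 (hxb.2 l hl)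
          constructor <;> linarith
    rw [Subtype.dist_eq, dist_pi_lt_iff hε]
    intro l
    rw [Real.dist_eq]
    have h1 := key l
    rw [← mul_sub, abs_mul, abs_of_pos h3] at h1
    nlinarith

end S_cover1

section S_compcov

theorem comp_cover {Y X : Type} [TopologicalSpace Y] [CompactSpace Y] [LocallyConnectedSpace Y]
    [TopologicalSpace X] (f : Y → X) (hf : Continuous f)
    {ι : Type} [Finite ι] (U : ι → Set X) (col : ι → Bool) (hU : ∀ i, IsOpen (U i))
    (hcov : ⋃ i, U i = univ) (hdis : ∀ i j, i ≠ j → col i = col j → Disjoint (U i) (U j)) :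
    ∃ (κ : Type) (_ : Finite κ) (V : κ → Set Y) (c : κ → Bool),
      (∀ i, IsOpen (V i)) ∧ (⋃ i, V i = univ) ∧
      (∀ i j, i ≠ j → c i = c j → Disjoint (V i) (V j)) ∧ (∀ i, IsConnected (V i)) ∧
      ∀ i, ∃ l, V i ⊆ f ⁻¹' (U l) := by
  have hex : ∀ y : Y, ∃ i, f y ∈ U i := by
    intro y
    have : f y ∈ ⋃ i, U i := by rw [hcov]; exact mem_univ _
    exact mem_iUnion.1 this
  choose ix hix using hex
  have hopen : ∀ y : Y, IsOpen (connectedComponentIn (f ⁻¹' U (ix y)) y) := fun y =>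
    ((hU (ix y)).preimage hf).connectedComponentIn
  have hmem : ∀ y : Y, y ∈ connectedComponentIn (f ⁻¹' U (ix y)) y := fun y =>
    mem_connectedComponentIn (hix y)
  obtain ⟨t, ht⟩ := isCompact_univ.elim_finite_subcover
    (fun y : Y => connectedComponentIn (f ⁻¹' U (ix y)) y) hopen
    (fun y _ => mem_iUnion.2 ⟨y, hmem y⟩)
  have hfin : ((fun y : Y => ((ix y, connectedComponentIn (f ⁻¹' U (ix y)) y) : ι × Set Y)) ''
      (t : Set Y)).Finite := t.finite_toSet.image _
  refine ⟨((fun y : Y => ((ix y, connectedComponentIn (f ⁻¹' U (ix y)) y) : ι × Set Y)) ''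
      (t : Set Y) : Set (ι × Set Y)), hfin.to_subtype, fun p => p.1.2, fun p => col p.1.1,
      ?_, ?_, ?_, ?_, ?_⟩
  · rintro ⟨_, y, hy, rfl⟩
    exact hopen y
  · rw [eq_univ_iff_forall]
    intro x
    have hx := ht (mem_univ x)
    rw [mem_iUnion₂] at hx
    obtain ⟨y, hy, hxy⟩ := hx
    exact mem_iUnion.2 ⟨⟨_, y, hy, rfl⟩, hxy⟩
  · rintro ⟨_, y, hy, rfl⟩ ⟨_, y', hy', rfl⟩ hne hcol
    simp only at hcol ⊢
    by_cases hii : ix y = ix y'
    · rw [Set.disjoint_left]
      intro z hz hz'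
      apply hne
      apply Subtype.ext
      refine Prod.ext hii ?_
      show connectedComponentIn (f ⁻¹' U (ix y)) y = connectedComponentIn (f ⁻¹' U (ix y')) y'
      rw [← hii] at hz' ⊢
      rw [connectedComponentIn_eq hz, connectedComponentIn_eq hz']
    · have hd := hdis _ _ hii hcol
      rw [Set.disjoint_left]
      intro z hz hz'
      have h1 : z ∈ f ⁻¹' U (ix y) := connectedComponentIn_subset _ _ hz
      have h2 : z ∈ f ⁻¹' U (ix y') := connectedComponentIn_subset _ _ hz'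
      exact Set.disjoint_left.1 hd h1 h2
  · rintro ⟨_, y, hy, rfl⟩
    exact isConnected_connectedComponentIn_iff.2 (hix y)
  · rintro ⟨_, y, hy, rfl⟩
    exact ⟨ix y, connectedComponentIn_subset _ _⟩

end S_compcov

section S_nervconn

theorem nerve_connected {Y κ : Type} [TopologicalSpace Y] [ConnectedSpace Y] (V : κ → Set Y)
    (hV : ∀ i, IsOpen (V i)) (hcov : ⋃ i, V i = univ) (hc : ∀ i, IsConnected (V i)) :
    (nerve V).Connected := by
  classical
  have hY : Nonempty Y := inferInstance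
  obtain ⟨y0⟩ := hY
  have hκ : Nonempty κ := by
    have : y0 ∈ ⋃ i, V i := by rw [hcov]; trivial
    obtain ⟨i, -⟩ := mem_iUnion.mp this
    exact ⟨i⟩
  refine { preconnected := ?_, nonempty := hκ }
  intro i0 j0
  by_contra hnr
  let A : Set Y := ⋃ l ∈ {l | (nerve V).Reachable i0 l}, V l
  let B : Set Y := ⋃ l ∈ {l | ¬ (nerve V).Reachable i0 l}, V l
  have hA : IsOpen A := isOpen_biUnion fun l _ => hV l
  have hB : IsOpen B := isOpen_biUnion fun l _ => hV l
  have hcovAB : (univ : Set Y) ⊆ A ∪ B := by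
    intro y _
    have : y ∈ ⋃ i, V i := by rw [hcov]; trivial
    obtain ⟨l, hl⟩ := mem_iUnion.mp this
    by_cases h : (nerve V).Reachable i0 l
    · left; exact mem_biUnion (show l ∈ {l | (nerve V).Reachable i0 l} from h) hl
    · right; exact mem_biUnion (show l ∈ {l | ¬ (nerve V).Reachable i0 l} from h) hl
  obtain ⟨a, ha⟩ := (hc i0).nonempty
  obtain ⟨b, hb⟩ := (hc j0).nonempty
  have hAne : ((univ : Set Y) ∩ A).Nonempty :=
    ⟨a, trivial, mem_biUnion (show i0 ∈ {l | (nerve V).Reachable i0 l} from SimpleGraph.Reachable.refl _) ha⟩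
  have hBne : ((univ : Set Y) ∩ B).Nonempty :=
    ⟨b, trivial, mem_biUnion (show j0 ∈ {l | ¬ (nerve V).Reachable i0 l} from hnr) hb⟩
  obtain ⟨y, -, hyA, hyB⟩ := isPreconnected_univ A B hA hB hcovAB hAne hBne
  obtain ⟨l, hl, hyl⟩ := mem_iUnion₂.mp hyA
  obtain ⟨l', hl', hyl'⟩ := mem_iUnion₂.mp hyB
  have hl1 : (nerve V).Reachable i0 l := hl
  have hl1' : ¬ (nerve V).Reachable i0 l' := hl'
  apply hl1'
  by_cases hll : l = l'
  · rw [← hll]; exact hl1
  · exact hl1.trans (SimpleGraph.Adj.reachable ⟨hll, ⟨y, hyl, hyl'⟩⟩)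

end S_nervconn

section S_nervacyc

theorem nerve_acyclic_delta {Y : Type} [MetricSpace Y] (U : Set Y) (hU : IsOpen U) :
    ∃ δ : Y → ℝ, Continuous δ ∧ (∀ y, 0 ≤ δ y) ∧ ∀ y, 0 < δ y ↔ y ∈ U := by
  by_cases h : U = univ
  · refine ⟨fun _ => 1, continuous_const, fun _ => zero_le_one, fun y => ?_⟩
    rw [h]
    simp
  · have hne : (Uᶜ).Nonempty := nonempty_compl.mpr h
    refine ⟨fun y => Metric.infDist y Uᶜ, Metric.continuous_infDist_pt _,
      fun y => Metric.infDist_nonneg, fun y => ?_⟩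
    have h1 := hU.isClosed_compl.mem_iff_infDist_zero hne (x := y)
    constructor
    · intro h2
      by_contra h3
      have h2' : 0 < Metric.infDist y Uᶜ := h2
      rw [h1.mp h3] at h2'
      exact lt_irrefl _ h2'
    · intro h2
      refine lt_of_le_of_ne Metric.infDist_nonneg (fun h3 => ?_)
      exact h1.mpr h3.symm h2

theorem nerve_acyclic_disc : IsDiscrete (range ((↑) : ℤ → ℝ)) :=
  isDiscrete_iff_discreteTopology.mpr
    (Int.isClosedEmbedding_coe_real.isEmbedding.toHomeomorph.symm.isEmbedding.discreteTopology)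

theorem nerve_acyclic {Y κ : Type} [MetricSpace Y] (V : κ → Set Y)
    (hlift : ∀ θ : Y → UnitAddCircle, Continuous θ →
      ∃ ψ : Y → ℝ, Continuous ψ ∧ ∀ x, ((ψ x : ℝ) : UnitAddCircle) = θ x)
    (c : κ → Bool) (hV : ∀ i, IsOpen (V i)) (hcov : ⋃ i, V i = univ) (hc : ∀ i, IsConnected (V i))
    (hdis : ∀ i j, i ≠ j → c i = c j → Disjoint (V i) (V j)) :
    (nerve V).IsAcyclic := by
  classical
  rw [SimpleGraph.isAcyclic_iff_forall_adj_isBridge]
  intro a b hab
  rw [SimpleGraph.isBridge_iff]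
  intro hreach
  obtain ⟨hne, z0, hz0a, hz0b⟩ := hab
  have hcab : c a ≠ c b := by
    intro h
    exact Set.disjoint_left.mp (hdis a b hne h) hz0a hz0b
  obtain ⟨δa, hδa, hδa0, hδaU⟩ := nerve_acyclic_delta (V a) (hV a)
  obtain ⟨δb, hδb, hδb0, hδbU⟩ := nerve_acyclic_delta (V b) (hV b)
  set u : Y → ℝ := fun y => δb y / (δa y + δb y) with hu
  have hua : ∀ y, y ∉ V b → u y = 0 := by
    intro y hy
    have h1 : δb y = 0 := le_antisymm (not_lt.mp fun h => hy ((hδbU y).mp h)) (hδb0 y)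
    rw [hu]
    simp only
    rw [h1, zero_div]
  have hub : ∀ y, y ∈ V b → y ∉ V a → u y = 1 := by
    intro y hy hy'
    have h1 : δa y = 0 := le_antisymm (not_lt.mp fun h => hy' ((hδaU y).mp h)) (hδa0 y)
    have h2 : 0 < δb y := (hδbU y).mpr hy
    rw [hu]
    simp only
    rw [h1, zero_add, div_self h2.ne']
  have huc : ∀ y, y ∈ V a ∪ V b → ContinuousAt u y := by
    intro y hy
    have h1 : δa y + δb y ≠ 0 := by
      rcases hy with h | h
      · have h2 := (hδaU y).mpr h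
        have h3 := hδb0 y
        linarith
      · have h2 := (hδbU y).mpr h
        have h3 := hδa0 y
        linarith
    exact hδb.continuousAt.div (hδa.continuousAt.add hδb.continuousAt) h1
  -- other indices
  have hoth : ∀ d, d ≠ a → d ≠ b → ∀ z ∈ V d, (z ∉ V a ∨ z ∉ V b) := by
    intro d hda hdb z hz
    have h1 : c d = c a ∨ c d = c b := by
      revert hcab
      cases c d <;> cases c a <;> cases c b <;> simp
    rcases h1 with h1 | h1
    · exact Or.inl (Set.disjoint_left.mp (hdis d a hda h1) hz)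
    · exact Or.inr (Set.disjoint_left.mp (hdis d b hdb h1) hz)
  have hint : ∀ d, d ≠ a → d ≠ b → ∀ z ∈ V d, ((u z : ℝ) : UnitAddCircle) = 0 := by
    intro d hda hdb z hz
    by_cases hzb : z ∈ V b
    · have hza : z ∉ V a := by
        rcases hoth d hda hdb z hz with h | h
        · exact h
        · exact absurd hzb h
      rw [hub z hzb hza]
      exact AddCircle.coe_period 1
    · rw [hua z hzb]
      simp
  have hcovz : ∀ y, ∃ d, y ∈ V d := by
    intro y
    have : y ∈ ⋃ i, V i := by rw [hcov]; trivial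
    exact mem_iUnion.mp this
  have hθ : Continuous (fun y => ((u y : ℝ) : UnitAddCircle)) := by
    rw [continuous_iff_continuousAt]
    intro y
    by_cases hy : y ∈ V a ∪ V b
    · exact (AddCircle.continuous_mk' 1).continuousAt.comp (huc y hy)
    · obtain ⟨d, hd⟩ := hcovz y
      have hda : d ≠ a := fun h => hy (Or.inl (h ▸ hd))
      have hdb : d ≠ b := fun h => hy (Or.inr (h ▸ hd))
      have h1 : (fun y => ((u y : ℝ) : UnitAddCircle)) =ᶠ[𝓝 y] fun _ => 0 := by
        filter_upwards [(hV d).mem_nhds hd] with z hz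
        exact hint d hda hdb z hz
      exact continuousAt_const.congr h1.symm
  obtain ⟨ψ, hψ, hψθ⟩ := hlift _ hθ
  -- the offset
  set off : κ → Y → ℝ := fun d z => if d = a then u z else if d = b then u z - 1 else 0 with hoff
  have hoffa : ∀ z, off a z = u z := fun z => by rw [hoff]; simp
  have hoffb : ∀ z, off b z = u z - 1 := fun z => by
    show (if b = a then u z else if b = b then u z - 1 else 0) = u z - 1
    rw [if_neg hne.symm, if_pos rfl]
  have hoffo : ∀ d, d ≠ a → d ≠ b → ∀ z, off d z = 0 := fun d h1 h2 z => by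
    rw [hoff]; simp only; rw [if_neg h1, if_neg h2]
  have hoffc : ∀ d, ContinuousOn (off d) (V d) := by
    intro d
    by_cases hda : d = a
    · subst hda
      have h1 : off d = u := funext hoffa
      rw [h1]
      exact fun y hy => (huc y (Or.inl hy)).continuousWithinAt
    · by_cases hdb : d = b
      · subst hdb
        have h1 : off d = fun z => u z - 1 := funext hoffb
        rw [h1]
        exact fun y hy => ((huc y (Or.inr hy)).sub continuousAt_const).continuousWithinAt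
      · have h1 : off d = fun _ => 0 := funext (hoffo d hda hdb)
        rw [h1]
        exact continuousOn_const
  have hoffθ : ∀ d, ∀ z ∈ V d, ((off d z : ℝ) : UnitAddCircle) = ((u z : ℝ) : UnitAddCircle) := by
    intro d z hz
    by_cases hda : d = a
    · subst hda
      rw [hoffa]
    · by_cases hdb : d = b
      · subst hdb
        rw [hoffb, AddCircle.coe_sub, AddCircle.coe_period 1, sub_zero]
      · rw [hoffo d hda hdb, hint d hda hdb z hz]
        simp
  have hZ : ∀ d, MapsTo (fun z => ψ z - off d z) (V d) (range ((↑) : ℤ → ℝ)) := by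
    intro d z hz
    have h1 : ((ψ z - off d z : ℝ) : UnitAddCircle) = 0 := by
      rw [AddCircle.coe_sub, hψθ, hoffθ d z hz, sub_self]
    rw [AddCircle.coe_eq_zero_iff] at h1
    obtain ⟨k, hk⟩ := h1
    refine ⟨k, ?_⟩
    show (k : ℝ) = ψ z - off d z
    rw [← hk]; simp
  have hconst : ∀ d, ∀ x ∈ V d, ∀ y ∈ V d, ψ x - off d x = ψ y - off d y := by
    intro d x hx y hy
    exact (hc d).isPreconnected.constant_of_mapsTo nerve_acyclic_disc
      (f := fun z => ψ z - off d z) (hψ.continuousOn.sub (hoffc d)) (hZ d) hx hy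
  choose p hp using fun d => (hc d).nonempty
  set n : κ → ℝ := fun d => ψ (p d) - off d (p d) with hn
  have hnz : ∀ d, ∀ z ∈ V d, n d = ψ z - off d z := fun d z hz => hconst d _ (hp d) z hz
  have hstep : ∀ d e, (nerve V).Adj d e → s(d, e) ≠ s(a, b) → n d = n e := by
    intro d e hde hs
    obtain ⟨hdne, z, hzd, hze⟩ := hde
    have hcde : c d ≠ c e := fun h => Set.disjoint_left.mp (hdis d e hdne h) hzd hze
    have h1 : ¬ (d = a ∧ e = b) := fun h => hs (by rw [h.1, h.2])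
    have h2 : ¬ (d = b ∧ e = a) := fun h => hs (by rw [h.1, h.2]; exact Sym2.eq_swap)
    have hga : ∀ e, e ≠ a → e ≠ b → c a ≠ c e → z ∈ V e → u z = 0 := by
      intro e hea heb hce hze
      apply hua
      have h3 : c e = c b := by
        revert hcab hce
        cases c e <;> cases c a <;> cases c b <;> simp
      exact Set.disjoint_left.mp (hdis e b heb h3) hze
    have hgb : ∀ e, e ≠ a → e ≠ b → c b ≠ c e → z ∈ V e → z ∈ V b → u z = 1 := by
      intro e hea heb hce hze hzb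
      apply hub z hzb
      have h3 : c e = c a := by
        revert hcab hce
        cases c e <;> cases c a <;> cases c b <;> simp
      exact Set.disjoint_left.mp (hdis e a hea h3) hze
    rw [hnz d z hzd, hnz e z hze]
    congr 1
    by_cases hda : d = a
    · have hea : e ≠ a := fun h => hdne (by rw [hda, h])
      have heb : e ≠ b := fun h => h1 ⟨hda, h⟩
      rw [hda] at hcde ⊢
      rw [hoffa, hoffo e hea heb]
      exact hga e hea heb hcde hze
    · by_cases hdb : d = b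
      · have heb : e ≠ b := fun h => hdne (by rw [hdb, h])
        have hea : e ≠ a := fun h => h2 ⟨hdb, h⟩
        rw [hdb] at hcde hzd ⊢
        rw [hoffb, hoffo e hea heb, hgb e hea heb hcde hze hzd]
        norm_num
      · rw [hoffo d hda hdb]
        by_cases hea : e = a
        · rw [hea] at hcde ⊢
          rw [hoffa]
          exact (hga d hda hdb hcde.symm hzd).symm
        · by_cases heb : e = b
          · rw [heb] at hcde hze ⊢
            rw [hoffb, hgb d hda hdb hcde.symm hzd hze]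
            norm_num
          · rw [hoffo e hea heb]
  have hwalk : ∀ x y, ∀ w : ((nerve V).deleteEdges {s(a, b)}).Walk x y, n x = n y := by
    intro x y w
    induction w with
    | nil => rfl
    | cons h _ ih =>
      rw [SimpleGraph.deleteEdges_adj] at h
      rw [← ih]
      exact hstep _ _ h.1 (fun h' => h.2 (by rw [h']; exact Set.mem_singleton _))
  obtain ⟨w⟩ := hreach
  have h1 := hwalk a b w
  rw [hnz a z0 hz0a, hnz b z0 hz0b, hoffa, hoffb] at h1
  linarith

end S_nervacyc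

section S_treefix

theorem treefix_path {κ : Type} (G : SimpleGraph κ) (hG : G.Connected) (i l : κ) (hil : i ≠ l) :
    ∃ j, G.Adj i j ∧ (G.deleteEdges {s(i, j)}).Reachable j l := by
  classical
  obtain ⟨p, hp⟩ := (hG.preconnected i l).exists_isPath
  cases p with
  | nil => exact absurd rfl hil
  | @cons _ j _ h q =>
    rw [SimpleGraph.Walk.cons_isPath_iff] at hp
    refine ⟨j, h, ⟨q.toDeleteEdges {s(i, j)} ?_⟩⟩
    intro e he hmem
    rw [Set.mem_singleton_iff] at hmem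
    subst hmem
    exact hp.2 (q.fst_mem_support_of_mem_edges he)

theorem treefix_walk {κ : Type} (G : SimpleGraph κ) (i i' : κ) (u w : κ) (p : G.Walk u w)
    (hu : (G.deleteEdges {s(i, i')}).Reachable i u ∨ (G.deleteEdges {s(i, i')}).Reachable i' u) :
    (G.deleteEdges {s(i, i')}).Reachable i w ∨ (G.deleteEdges {s(i, i')}).Reachable i' w := by
  induction p with
  | nil => exact hu
  | @cons u v w h p ih =>
    apply ih
    by_cases he : s(u, v) = s(i, i')
    · rw [Sym2.eq_iff] at he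
      rcases he with ⟨_, rfl⟩ | ⟨_, rfl⟩
      · exact Or.inr (SimpleGraph.Reachable.refl _)
      · exact Or.inl (SimpleGraph.Reachable.refl _)
    · have hadj : (G.deleteEdges {s(i, i')}).Adj u v := by
        rw [SimpleGraph.deleteEdges_adj]
        exact ⟨h, he⟩
      rcases hu with hu | hu
      · exact Or.inl (hu.trans hadj.reachable)
      · exact Or.inr (hu.trans hadj.reachable)

theorem tree_fixed {Y κ : Type} [TopologicalSpace Y] [Finite κ] (V : κ → Set Y)
    (hV : ∀ i, IsOpen (V i)) (hcov : ⋃ i, V i = univ) (hc : ∀ i, IsConnected (V i))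
    (htree : (nerve V).IsTree) (g : Y → Y) (hg : Continuous g) :
    ∃ i, ∃ z ∈ V i, g z ∈ V i := by
  classical
  haveI : Fintype κ := Fintype.ofFinite κ
  by_contra hcon
  push Not at hcon
  have hex : ∀ i, ∃ y l, y ∈ V i ∧ g y ∈ V l := by
    intro i
    obtain ⟨y, hy⟩ := (hc i).nonempty
    have : g y ∈ ⋃ i, V i := by rw [hcov]; exact mem_univ _
    obtain ⟨l, hl⟩ := mem_iUnion.mp this
    exact ⟨y, l, hy, hl⟩
  choose y l hy hl using hex
  have hli : ∀ i, i ≠ l i := by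
    intro i h
    apply hcon i (y i) (hy i)
    have := hl i
    rw [← h] at this
    exact this
  have hP := fun i => treefix_path (nerve V) htree.connected i (l i) (hli i)
  choose j hj1 hj2 using hP
  have hpig : ∃ i ∈ (Finset.univ : Finset κ), ∃ i' ∈ (Finset.univ : Finset κ), i ≠ i' ∧
      s(i, j i) = s(i', j i') := by
    apply Finset.exists_ne_map_eq_of_card_lt_of_maps_to (t := (nerve V).edgeFinset)
    · have := htree.card_edgeFinset
      rw [Finset.card_univ]
      omega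
    · intro i _
      show s(i, j i) ∈ (((nerve V).edgeFinset : Finset (Sym2 κ)) : Set (Sym2 κ))
      rw [Finset.mem_coe, SimpleGraph.mem_edgeFinset, SimpleGraph.mem_edgeSet]
      exact hj1 i
  obtain ⟨i, _, i', _, hne, he⟩ := hpig
  rw [Sym2.eq_iff] at he
  rcases he with ⟨h, _⟩ | ⟨h1, h2⟩
  · exact hne h
  have hadj : (nerve V).Adj i i' := by
    have := hj1 i
    rwa [h2] at this
  have hR1 : ((nerve V).deleteEdges {s(i, i')}).Reachable i' (l i) := by
    have := hj2 i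
    rwa [h2] at this
  have hR2 : ((nerve V).deleteEdges {s(i, i')}).Reachable i (l i') := by
    have := hj2 i'
    rwa [← h1, Sym2.eq_swap] at this
  have hnR : ¬ ((nerve V).deleteEdges {s(i, i')}).Reachable i i' := by
    have h3 := (SimpleGraph.isAcyclic_iff_forall_adj_isBridge.mp htree.isAcyclic) hadj
    rw [SimpleGraph.isBridge_iff] at h3
    exact h3
  let A : Set Y := ⋃ m ∈ {m | ((nerve V).deleteEdges {s(i, i')}).Reachable i m}, V m
  let B : Set Y := ⋃ m ∈ {m | ((nerve V).deleteEdges {s(i, i')}).Reachable i' m}, V m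
  have hAo : IsOpen A := isOpen_biUnion fun m _ => hV m
  have hBo : IsOpen B := isOpen_biUnion fun m _ => hV m
  have hAB : ∀ z, z ∈ A ∪ B := by
    intro z
    have : z ∈ ⋃ i, V i := by rw [hcov]; exact mem_univ _
    obtain ⟨m, hm⟩ := mem_iUnion.mp this
    obtain ⟨p⟩ := htree.connected.preconnected i m
    rcases treefix_walk (nerve V) i i' i m p (Or.inl (SimpleGraph.Reachable.refl _)) with h | h
    · exact Or.inl (mem_biUnion (show m ∈ {m | _} from h) hm)
    · exact Or.inr (mem_biUnion (show m ∈ {m | _} from h) hm)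
  have hint : A ∩ B ⊆ V i ∩ V i' := by
    rintro z ⟨hzA, hzB⟩
    obtain ⟨m, hm, hzm⟩ := mem_iUnion₂.mp hzA
    obtain ⟨m', hm', hzm'⟩ := mem_iUnion₂.mp hzB
    have hm : ((nerve V).deleteEdges {s(i, i')}).Reachable i m := hm
    have hm' : ((nerve V).deleteEdges {s(i, i')}).Reachable i' m' := hm'
    have hmm : m ≠ m' := by
      rintro rfl
      exact hnR (hm.trans hm'.symm)
    have hadj' : (nerve V).Adj m m' := ⟨hmm, ⟨z, hzm, hzm'⟩⟩
    by_cases he : s(m, m') = s(i, i')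
    · rw [Sym2.eq_iff] at he
      rcases he with ⟨rfl, rfl⟩ | ⟨rfl, rfl⟩
      · exact ⟨hzm, hzm'⟩
      · exact ⟨hzm', hzm⟩
    · exfalso
      have hadj2 : ((nerve V).deleteEdges {s(i, i')}).Adj m m' := by
        rw [SimpleGraph.deleteEdges_adj]
        exact ⟨hadj', he⟩
      exact hnR ((hm.trans hadj2.reachable).trans hm'.symm)
  have hconn : IsPreconnected (g '' (V i ∪ V i')) := by
    have h3 : IsConnected (V i ∪ V i') := IsConnected.union hadj.2 (hc i) (hc i')
    exact h3.isPreconnected.image g hg.continuousOn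
  obtain ⟨w, ⟨z, hz, rfl⟩, hw⟩ := hconn A B hAo hBo (fun w _ => hAB w)
    ⟨g (y i'), ⟨y i', Or.inr (hy i'), rfl⟩, mem_biUnion (show l i' ∈ {m | _} from hR2) (hl i')⟩
    ⟨g (y i), ⟨y i, Or.inl (hy i), rfl⟩, mem_biUnion (show l i ∈ {m | _} from hR1) (hl i)⟩
  have hw2 := hint hw
  rcases hz with hz | hz
  · exact hcon i z hz hw2.1
  · exact hcon i' z hz hw2.2

end S_treefix

section S_fixpt

theorem fixed_point {Y X : Type} [MetricSpace Y] [CompactSpace Y] [ConnectedSpace Y]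
    [LocallyConnectedSpace Y] [MetricSpace X] [CompactSpace X]
    (hlift : ∀ θ : Y → UnitAddCircle, Continuous θ →
      ∃ ψ : Y → ℝ, Continuous ψ ∧ ∀ x, ((ψ x : ℝ) : UnitAddCircle) = θ x)
    (hX : ∀ ε : ℝ, 0 < ε → ∃ (ι : Type) (_ : Finite ι) (U : ι → Set X) (col : ι → Bool),
      (∀ i, IsOpen (U i)) ∧ (⋃ i, U i = univ) ∧
      (∀ i j, i ≠ j → col i = col j → Disjoint (U i) (U j)) ∧
      ∀ i, ∀ x ∈ U i, ∀ y ∈ U i, dist x y < ε)
    (f : Y → X) (hf : Continuous f) (g : Y → Y) (hg : Continuous g) (h : X → X) (hh : Continuous h)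
    (hfg : ∀ y, f (g y) = h (f y)) : ∃ x, h x = x := by
  have key : ∀ ε : ℝ, 0 < ε → ∃ x : X, dist x (h x) < ε := by
    intro ε hε
    obtain ⟨ι, hι, U, col, hU, hcov, hdis, hsmall⟩ := hX ε hε
    obtain ⟨κ, hκ, V, c, hV, hVcov, hVdis, hVc, hVU⟩ := comp_cover f hf U col hU hcov hdis
    have hcon := nerve_connected V hV hVcov hVc
    have hac := nerve_acyclic V hlift c hV hVcov hVc hVdis
    obtain ⟨i, z, hz, hgz⟩ := tree_fixed V hV hVcov hVc ⟨hcon, hac⟩ g hg
    obtain ⟨l, hl⟩ := hVU i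
    refine ⟨f z, ?_⟩
    have h1 : f z ∈ U l := hl hz
    have h2 : f (g z) ∈ U l := hl hgz
    rw [hfg] at h2
    exact hsmall l _ h1 _ h2
  obtain ⟨y0⟩ : Nonempty Y := inferInstance
  haveI : Nonempty X := ⟨f y0⟩
  obtain ⟨x0, -, hx0⟩ := isCompact_univ.exists_isMinOn (Set.univ_nonempty (α := X))
    (continuous_id.dist hh).continuousOn
  refine ⟨x0, ?_⟩
  by_contra hne
  have hpos : 0 < dist x0 (h x0) := dist_pos.2 (fun e => hne e.symm)
  obtain ⟨x, hx⟩ := key _ hpos
  have := hx0 (Set.mem_univ x)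
  simp only [Set.mem_setOf_eq, id] at this
  exact absurd hx (not_lt.2 this)

end S_fixpt

/-- A self-map of the Menger curve that is intertwined by a continuous map from a higher-dimensional
Menger compactum with a self-map of the latter has a fixed point. -/
theorem mainA (m : ℕ) (hm : 0 < m) (f : Mg (2 * (m + 1) + 1) (m + 1) → Mg (2 * 1 + 1) 1)
    (g : Mg (2 * (m + 1) + 1) (m + 1) → Mg (2 * (m + 1) + 1) (m + 1))
    (h : Mg (2 * 1 + 1) 1 → Mg (2 * 1 + 1) 1) (hf : Continuous f) (hg : Continuous g)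
    (hh : Continuous h) (hfg : ∀ y, f (g y) = h (f y)) : ∃ x, h x = x := by
  have : CompactSpace (Mg (2 * (m + 1) + 1) (m + 1)) := isCompact_iff_compactSpace.1 (isCompact_Mg _ _)
  have : CompactSpace (Mg (2 * 1 + 1) 1) := isCompact_iff_compactSpace.1 (isCompact_Mg _ _)
  have : ConnectedSpace (Mg (2 * (m + 1) + 1) (m + 1)) :=
    isConnected_iff_connectedSpace.1 (connected_Mg _ _ (by omega))
  have : LocallyConnectedSpace (Mg (2 * (m + 1) + 1) (m + 1)) := locConn_Mg _ _ (by omega)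
  exact fixed_point (fun θ hθ => lift_Mg _ _ (by omega) θ hθ) (fun ε hε => cover_Mg1 _ ε hε)
    f hf g hg h hh hfg


end Pool.Agent.Helper115.MG
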