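import Pool.Agent.Helper115.HomIndep

set_option autoImplicit false

namespace Pool.Agent.Helper115.Nd

open MvPolynomial

variable {R S : Type*} [CommRing R] [CommRing S]

/-- The coefficient of `a ^ (k+1)` in `(1 + a y_i) (1 + a y_{i+1}) ^ D`. -/
def ent (D : ℕ) (y : ℕ → R) (k i : ℕ) : R :=
  (D.choose (k + 1) : R) * y (i + 1) ^ (k + 1) + (D.choose k : R) * y i * y (i + 1) ^ k

/-- Signed maximal minors of the matrix of coefficients (rows `ρ+1, ..., ρ+M`). -/
def mino (D ρ M : ℕ) (y : ℕ → R) (j : Fin (M + 1)) : R :=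
  (-1) ^ (j : ℕ) * (Matrix.of fun (l i : Fin M) => ent D y (ρ + 1 + l) (j.succAbove i)).det

/-- The full determinant (rows `ρ, ..., ρ+M`). -/
def tdet (D ρ M : ℕ) (y : ℕ → R) : R :=
  (Matrix.of fun (l i : Fin (M + 1)) => ent D y (ρ + l) i).det

theorem map_ent (f : R →+* S) (D : ℕ) (y : ℕ → R) (k i : ℕ) :
    f (ent D y k i) = ent D (fun n => f (y n)) k i := by
  simp [ent]

theorem map_mino (f : R →+* S) (D ρ M : ℕ) (y : ℕ → R) (j : Fin (M + 1)) :
    f (mino D ρ M y j) = mino D ρ M (fun n => f (y n)) j := by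
  simp only [mino, map_mul, map_pow, map_neg, map_one, RingHom.map_det]
  congr 2
  ext l i
  simp [map_ent]

theorem map_tdet (f : R →+* S) (D ρ M : ℕ) (y : ℕ → R) :
    f (tdet D ρ M y) = tdet D ρ M (fun n => f (y n)) := by
  simp only [tdet, RingHom.map_det]
  congr 1
  ext l i
  simp [map_ent]

theorem sum_mul_mino (D ρ M : ℕ) (y : ℕ → R) (v : Fin (M + 1) → R) :
    ∑ j, v j * mino D ρ M y j =
      (Matrix.of (Fin.cons v fun (l : Fin M) (i : Fin (M + 1)) => ent D y (ρ + 1 + l) i) :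
        Matrix (Fin (M + 1)) (Fin (M + 1)) R).det := by
  rw [Matrix.det_succ_row_zero]
  refine Finset.sum_congr rfl fun j _ => ?_
  simp only [mino, Matrix.of_apply, Fin.cons_zero]
  have : ((Matrix.of (Fin.cons v fun (l : Fin M) (i : Fin (M + 1)) => ent D y (ρ + 1 + l) i) :
        Matrix (Fin (M + 1)) (Fin (M + 1)) R).submatrix Fin.succ j.succAbove) =
      Matrix.of fun (l i : Fin M) => ent D y (ρ + 1 + l) (j.succAbove i) := by
    ext l i
    simp
  rw [this]
  ring

theorem sum_ent_mul_mino_eq_zero (D ρ M : ℕ) (y : ℕ → R) (l : ℕ) (hl : l < M) :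
    ∑ j : Fin (M + 1), ent D y (ρ + 1 + l) j * mino D ρ M y j = 0 := by
  rw [sum_mul_mino D ρ M y fun j : Fin (M + 1) => ent D y (ρ + 1 + l) j]
  refine Matrix.det_zero_of_row_eq (i := 0) (j := (⟨l, hl⟩ : Fin M).succ) (Fin.succ_ne_zero _).symm ?_
  funext i
  simp only [Matrix.of_apply, Fin.cons_zero, Fin.cons_succ]

theorem sum_ent_mul_mino_eq_tdet (D ρ M : ℕ) (y : ℕ → R) :
    ∑ j : Fin (M + 1), ent D y ρ j * mino D ρ M y j = tdet D ρ M y := by
  rw [sum_mul_mino D ρ M y fun j : Fin (M + 1) => ent D y ρ j, tdet]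
  congr 1
  ext l i
  refine Fin.cases ?_ (fun l => ?_) l
  · simp
  · simp only [Matrix.of_apply, Fin.cons_succ, Fin.val_succ]
    congr 1
    omega

/-- Prepend a new variable to a sequence. -/
noncomputable def ynew (y : ℕ → R) : ℕ → Polynomial R
  | 0 => 0
  | 1 => Polynomial.X
  | (i + 2) => Polynomial.C (y (i + 1))

theorem constantCoeff_ynew (y : ℕ → R) (hy : y 0 = 0) (i : ℕ) :
    Polynomial.constantCoeff (ynew y (i + 1)) = y i := by
  cases i with
  | zero => simp [ynew, hy]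
  | succ i => simp [ynew]

theorem constantCoeff_ent_ynew (D : ℕ) (y : ℕ → R) (hy : y 0 = 0) (k i : ℕ) :
    Polynomial.constantCoeff (ent D (ynew y) k (i + 1)) = ent D y k i := by
  rw [map_ent]
  simp only [ent, constantCoeff_ynew y hy]

theorem ent_ynew_zero (D : ℕ) (y : ℕ → R) (k : ℕ) :
    ent D (ynew y) k 0 = Polynomial.X ^ (k + 1) * (D.choose (k + 1) : Polynomial R) := by
  simp [ent, ynew, mul_comm]

/-- A general determinant factorisation along the first column. -/
theorem det_first_col (K : ℕ) (e : ℕ) (A : Matrix (Fin (K + 1)) (Fin (K + 1)) (Polynomial R))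
    (u : Fin (K + 1) → Polynomial R) (hA : ∀ l, A l 0 = Polynomial.X ^ e * u l)
    (hu : ∀ l : Fin K, (u l.succ).coeff 0 = 0) :
    ∃ q : Polynomial R, A.det = Polynomial.X ^ e * q ∧
      q.coeff 0 = (u 0).coeff 0 *
        (Matrix.of fun (l i : Fin K) => (A l.succ i.succ).coeff 0).det := by
  refine ⟨(A.updateCol 0 u).det, ?_, ?_⟩
  · have h1 : A = A.updateCol 0 ((Polynomial.X ^ e : Polynomial R) • u) := by
      ext1 l i
      refine Fin.cases ?_ (fun i => ?_) i
      · simp [hA, Matrix.updateCol_self]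
      · rw [Matrix.updateCol_ne (Fin.succ_ne_zero i)]
    conv_lhs => rw [h1]
    rw [Matrix.det_updateCol_smul]
  · have h2 : ((A.updateCol 0 u).det).coeff 0 = Polynomial.constantCoeff (A.updateCol 0 u).det := rfl
    rw [h2, RingHom.map_det, Matrix.det_succ_column_zero, Fin.sum_univ_succ]
    have h3 : ∑ i : Fin K, (-1) ^ ((i.succ : Fin (K + 1)) : ℕ) *
        (Polynomial.constantCoeff.mapMatrix (A.updateCol 0 u)) i.succ 0 *
        ((Polynomial.constantCoeff.mapMatrix (A.updateCol 0 u)).submatrix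
          i.succ.succAbove Fin.succ).det = 0 := by
      refine Finset.sum_eq_zero fun i _ => ?_
      have : (Polynomial.constantCoeff.mapMatrix (A.updateCol 0 u)) i.succ 0 = 0 := by
        simp [Matrix.updateCol_self, hu]
      rw [this]; ring
    rw [h3]
    have h4 : (Polynomial.constantCoeff.mapMatrix (A.updateCol 0 u)) 0 0 = (u 0).coeff 0 := by
      simp [Matrix.updateCol_self]
    rw [h4]
    have h5 : ((Polynomial.constantCoeff.mapMatrix (A.updateCol 0 u)).submatrix
          (Fin.succAbove 0) Fin.succ) =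
        Matrix.of fun (l i : Fin K) => (A l.succ i.succ).coeff 0 := by
      ext l i
      simp
    rw [h5]
    simp

theorem mino_ynew_zero (D ρ M : ℕ) (y : ℕ → R) (hy : y 0 = 0) :
    (mino D ρ (M + 1) (ynew y) 0).coeff 0 = tdet D (ρ + 1) M y := by
  have h2 : (mino D ρ (M + 1) (ynew y) 0).coeff 0 =
    Polynomial.constantCoeff (mino D ρ (M + 1) (ynew y) 0) := rfl
  rw [h2, mino, tdet]
  simp only [Fin.val_zero, pow_zero, one_mul, RingHom.map_det]
  congr 1
  ext l i
  simp only [RingHom.mapMatrix_apply, Matrix.map_apply, Matrix.of_apply, Fin.zero_succAbove,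
    Fin.val_succ]
  rw [constantCoeff_ent_ynew D y hy]

theorem mino_ynew_succ (D ρ M : ℕ) (y : ℕ → R) (hy : y 0 = 0) (j : Fin (M + 1)) :
    ∃ q : Polynomial R, mino D ρ (M + 1) (ynew y) j.succ = Polynomial.X ^ (ρ + 2) * q ∧
      q.coeff 0 = -(D.choose (ρ + 2) : R) * mino D (ρ + 1) M y j := by
  obtain ⟨q, hq1, hq2⟩ := det_first_col M (ρ + 2)
    (Matrix.of fun (l i : Fin (M + 1)) => ent D (ynew y) (ρ + 1 + l) (j.succ.succAbove i))
    (fun l => Polynomial.X ^ (l : ℕ) * (D.choose (ρ + 2 + l) : Polynomial R)) (by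
      intro l
      simp only [Matrix.of_apply, Fin.succ_succAbove_zero, Fin.val_zero]
      rw [ent_ynew_zero, show ρ + 1 + (l : ℕ) + 1 = ρ + 2 + l by omega, pow_add]
      ring) (by
      intro l
      simp [pow_succ])
  refine ⟨(-1) ^ ((j.succ : Fin (M + 2)) : ℕ) * q, ?_, ?_⟩
  · rw [mino, hq1]; ring
  · have h1 : ((-1) ^ ((j.succ : Fin (M + 2)) : ℕ) * q).coeff 0 =
        (-1) ^ ((j.succ : Fin (M + 2)) : ℕ) * q.coeff 0 := by
      have : ∀ r : Polynomial R, r.coeff 0 = Polynomial.constantCoeff r := fun r => rfl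
      simp only [this, map_mul, map_pow, map_neg, map_one]
    rw [h1, hq2, mino]
    have h2 : (Matrix.of fun (l i : Fin M) =>
        ((Matrix.of fun (l i : Fin (M + 1)) =>
          ent D (ynew y) (ρ + 1 + l) (j.succ.succAbove i)) l.succ i.succ).coeff 0) =
        Matrix.of fun (l i : Fin M) => ent D y (ρ + 1 + 1 + l) (j.succAbove i) := by
      ext l i
      simp only [Matrix.of_apply, Fin.succ_succAbove_succ, Fin.val_succ]
      rw [← constantCoeff_ent_ynew D y hy]
      rw [show ρ + 1 + ((l : ℕ) + 1) = ρ + 1 + 1 + l by omega]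
      rfl
    rw [h2]
    simp only [Fin.val_zero, pow_zero, one_mul, add_zero, Fin.val_succ]
    have h3 : ((D.choose (ρ + 2) : ℕ) : Polynomial R).coeff 0 = (D.choose (ρ + 2) : R) := by
      simp
    rw [h3]
    ring

theorem tdet_ynew (D ρ M : ℕ) (y : ℕ → R) (hy : y 0 = 0) :
    ∃ q : Polynomial R, tdet D ρ (M + 1) (ynew y) = Polynomial.X ^ (ρ + 1) * q ∧
      q.coeff 0 = (D.choose (ρ + 1) : R) * tdet D (ρ + 1) M y := by
  obtain ⟨q, hq1, hq2⟩ := det_first_col (M + 1) (ρ + 1)
    (Matrix.of fun (l i : Fin (M + 2)) => ent D (ynew y) (ρ + l) i)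
    (fun l => Polynomial.X ^ (l : ℕ) * (D.choose (ρ + 1 + l) : Polynomial R)) (by
      intro l
      simp only [Matrix.of_apply, Fin.val_zero]
      rw [ent_ynew_zero, show ρ + (l : ℕ) + 1 = ρ + 1 + l by omega, pow_add]
      ring) (by
      intro l
      simp [pow_succ])
  refine ⟨q, ?_, ?_⟩
  · rw [tdet, hq1]
  · rw [hq2, tdet]
    have h2 : (Matrix.of fun (l i : Fin (M + 1)) =>
        ((Matrix.of fun (l i : Fin (M + 2)) =>
          ent D (ynew y) (ρ + l) i) l.succ i.succ).coeff 0) =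
        Matrix.of fun (l i : Fin (M + 1)) => ent D y (ρ + 1 + l) i := by
      ext l i
      simp only [Matrix.of_apply, Fin.val_succ]
      rw [← constantCoeff_ent_ynew D y hy]
      rw [show ρ + ((l : ℕ) + 1) = ρ + 1 + l by omega]
      rfl
    rw [h2]
    simp

theorem natCast_ne_zero_of_algebra (R : Type*) [CommRing R] [IsDomain R] [Algebra ℂ R] (n : ℕ)
    (hn : n ≠ 0) : (n : R) ≠ 0 := by
  have h : (n : R) = algebraMap ℂ R n := by simp
  rw [h]
  intro h0
  apply hn
  have := (algebraMap ℂ R).injective (h0.trans (map_zero _).symm)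
  exact_mod_cast this

theorem step (R : Type) [CommRing R] [IsDomain R] [Algebra ℂ R] (D ρ M : ℕ) (hD : M + 1 + ρ + 1 = D)
    (y : ℕ → R) (hy : y 0 = 0) (h1 : HomIndep (mino D (ρ + 1) (M + 1) y))
    (h2 : tdet D (ρ + 1) (M + 1) y ≠ 0) :
    HomIndep (mino D ρ (M + 2) (ynew y)) ∧ tdet D ρ (M + 2) (ynew y) ≠ 0 := by
  have hc2 : (D.choose (ρ + 2) : R) ≠ 0 :=
    natCast_ne_zero_of_algebra R _ (Nat.choose_pos (by omega)).ne'
  have hc1 : (D.choose (ρ + 1) : R) ≠ 0 :=
    natCast_ne_zero_of_algebra R _ (Nat.choose_pos (by omega)).ne'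
  constructor
  · choose w hw1 hw2 using fun j : Fin (M + 2) => mino_ynew_succ D ρ (M + 1) y hy j
    refine homIndep_step (ρ + 2) (by omega) _ w ?_ hw1 ?_
    · rw [mino_ynew_zero D ρ (M + 1) y hy]; exact h2
    · have : (fun j => (w j).coeff 0) =
          fun j => -(D.choose (ρ + 2) : R) * mino D (ρ + 1) (M + 1) y j := funext hw2
      rw [this]
      exact h1.mul (neg_ne_zero.mpr hc2)
  · obtain ⟨q, hq1, hq2⟩ := tdet_ynew D ρ (M + 1) y hy
    rw [hq1]
    refine mul_ne_zero (pow_ne_zero _ Polynomial.X_ne_zero) ?_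
    rintro rfl
    rw [Polynomial.coeff_zero] at hq2
    exact mul_ne_zero hc1 h2 hq2.symm

end Pool.Agent.Helper115.Nd
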