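import Mathlib

set_option autoImplicit false

namespace Pool.Agent.Helper115.PS

open MeasureTheory Set Filter Topology Manifold
open scoped ENNReal ContDiff

variable {E : Type*} [NormedAddCommGroup E] [NormedSpace ℝ E]
  {Ω : Type*} [TopologicalSpace Ω] [ChartedSpace E Ω]

/-- Finsler structure. -/
structure IsFinsler [IsManifold 𝓘(ℝ, E) 1 Ω]
    (N : ∀ x : Ω, TangentSpace 𝓘(ℝ, E) x → ℝ) : Prop where
  nonneg : ∀ x v, 0 ≤ N x v
  eq_zero : ∀ x v, N x v = 0 → v = 0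
  smul : ∀ x (r : ℝ) v, N x (r • v) = |r| * N x v
  add_le : ∀ x v w, N x (v + w) ≤ N x v + N x w
  continuous : Continuous fun p : TangentBundle 𝓘(ℝ, E) Ω => N p.1 p.2

/-- Finsler length. -/
noncomputable def finslerLength (N : ∀ x : Ω, TangentSpace 𝓘(ℝ, E) x → ℝ) (σ : ℝ → Ω)
    (a b : ℝ) : ℝ≥0∞ :=
  ∫⁻ r in Icc a b, ENNReal.ofReal (N (σ r) (mfderivWithin 𝓘(ℝ, ℝ) 𝓘(ℝ, E) σ (Icc a b) r 1))

/-- The differential of a real function on `Ω` at `x`, applied to the tangent vector `v`. -/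
noncomputable def differential (f : Ω → ℝ) (x : Ω) (v : TangentSpace 𝓘(ℝ, E) x) : ℝ :=
  mfderiv 𝓘(ℝ, E) 𝓘(ℝ, ℝ) f x v

theorem exists_segment [IsManifold 𝓘(ℝ, E) 1 Ω]
    (N : ∀ x : Ω, TangentSpace 𝓘(ℝ, E) x → ℝ)
    (hN : Continuous fun p : TangentBundle 𝓘(ℝ, E) Ω => N p.1 p.2)
    (x : Ω) (w : E) (η : ℝ) (hη : 0 < η) :
    ∃ (σ : ℝ → Ω), σ 0 = x ∧ HasMFDerivAt 𝓘(ℝ, ℝ) 𝓘(ℝ, E) σ 0
        (ContinuousLinearMap.smulRight (1 : ℝ →L[ℝ] ℝ) w) ∧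
      ∃ δ > 0, ∀ b, 0 < b → b ≤ δ → ContMDiffOn 𝓘(ℝ, ℝ) 𝓘(ℝ, E) 1 σ (Icc 0 b) ∧
        finslerLength N σ 0 b ≤ ENNReal.ofReal (b * (N x w + η)) := by
  set φ := extChartAt 𝓘(ℝ, E) x with hφ
  let c : ℝ → E := fun r => φ x + r • w
  have hc0 : c 0 = φ x := by simp [c]
  have hcs : ContDiff ℝ 1 c := contDiff_const.add (contDiff_id.smul contDiff_const)
  have hcd : ∀ r, HasDerivAt c w r := by
    intro r
    simpa [c] using ((hasDerivAt_id r).smul_const w).const_add (φ x)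
  have htarget : φ.target ∈ 𝓝 (φ x) := by
    rw [hφ]; exact extChartAt_target_mem_nhds x
  have hopen : IsOpen φ.target := isOpen_extChartAt_target x
  have hsymm : ContMDiffOn 𝓘(ℝ, E) 𝓘(ℝ, E) 1 φ.symm φ.target := contMDiffOn_extChartAt_symm x
  have hU : UniqueMDiffOn 𝓘(ℝ, E) φ.target := hopen.uniqueMDiffOn
  have hG := hsymm.continuousOn_tangentMapWithin le_rfl hU
  have hmem : φ x ∈ φ.target := mem_of_mem_nhds htarget
  have hd0 : mfderivWithin 𝓘(ℝ, E) 𝓘(ℝ, E) φ.symm φ.target (φ x) =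
      ContinuousLinearMap.id ℝ _ := by
    have h1 := mfderivWithin_range_extChartAt_symm (I := 𝓘(ℝ, E)) (x := x)
    rw [mfderivWithin_of_isOpen hopen hmem]
    simpa using! h1
  have hs0 : HasMFDerivAt 𝓘(ℝ, E) 𝓘(ℝ, E) φ.symm (φ x) (ContinuousLinearMap.id ℝ _) := by
    have h1 := (hsymm.mdifferentiableOn one_ne_zero (φ x) hmem).hasMFDerivWithinAt
    rw [hd0] at h1
    exact h1.hasMFDerivAt htarget
  -- the length density
  let D : ℝ → ℝ := fun r =>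
    N (φ.symm (c r)) (mfderivWithin 𝓘(ℝ, E) 𝓘(ℝ, E) φ.symm φ.target (c r) w)
  have hsec : Continuous (fun y : E => (⟨y, w⟩ : TangentBundle 𝓘(ℝ, E) E)) :=
    (contMDiff_vectorSpace_iff_contDiff (n := 0)).mpr contDiff_const |>.continuous
  have hcc : Continuous c := hcs.continuous
  have hDcont : ContinuousAt D 0 := by
    have h1 : ContinuousOn (fun r => tangentMapWithin 𝓘(ℝ, E) 𝓘(ℝ, E) φ.symm φ.target
        (⟨c r, w⟩ : TangentBundle 𝓘(ℝ, E) E)) (c ⁻¹' φ.target) := by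
      apply hG.comp (hsec.comp hcc).continuousOn
      intro r hr
      exact hr
    have h2 : ContinuousAt (fun r => tangentMapWithin 𝓘(ℝ, E) 𝓘(ℝ, E) φ.symm φ.target
        (⟨c r, w⟩ : TangentBundle 𝓘(ℝ, E) E)) 0 := by
      apply h1.continuousAt
      apply hcc.continuousAt.preimage_mem_nhds
      rw [hc0]; exact htarget
    exact hN.continuousAt.comp h2
  have hD0 : D 0 = N x w := by
    have h1 : φ.symm (c 0) = x := by rw [hc0]; exact extChartAt_to_inv x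
    have h2 : ∀ y : E, y = φ x → N (φ.symm y)
        (mfderivWithin 𝓘(ℝ, E) 𝓘(ℝ, E) φ.symm φ.target y w) = N x w := by
      rintro y rfl
      rw [hd0]
      have h3 : ∀ z : Ω, z = x → N z w = N x w := by
        rintro z rfl; rfl
      exact h3 _ (extChartAt_to_inv x)
    exact h2 _ hc0
  obtain ⟨δ, hδ, hball⟩ : ∃ δ > 0, ∀ r, |r| < δ → c r ∈ φ.target ∧ D r < N x w + η := by
    have h1 : ∀ᶠ r in 𝓝 (0 : ℝ), c r ∈ φ.target ∧ D r < N x w + η := by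
      apply Filter.Eventually.and
      · apply hcc.continuousAt.preimage_mem_nhds
        rw [hc0]; exact htarget
      · apply hDcont.eventually_lt continuousAt_const
        rw [hD0]; linarith
    rw [Metric.eventually_nhds_iff] at h1
    obtain ⟨δ, hδ, h2⟩ := h1
    refine ⟨δ, hδ, fun r hr => h2 ?_⟩
    rwa [Real.dist_eq, sub_zero]
  refine ⟨fun r => φ.symm (c r), ?_, ?_, δ / 2, by positivity, ?_⟩
  · change φ.symm (c 0) = x
    rw [hc0]; exact extChartAt_to_inv x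
  · have h1 : HasMFDerivAt 𝓘(ℝ, E) 𝓘(ℝ, E) φ.symm (c 0) (ContinuousLinearMap.id ℝ _) := by
      rw [hc0]; exact hs0
    have h2 : HasMFDerivAt 𝓘(ℝ, ℝ) 𝓘(ℝ, E) c 0
        (ContinuousLinearMap.smulRight (1 : ℝ →L[ℝ] ℝ) w) := (hcd 0).hasFDerivAt.hasMFDerivAt
    have h3 := h1.comp 0 h2
    exact h3
  · intro b hb hbδ
    have hsub : Icc 0 b ⊆ c ⁻¹' φ.target := by
      intro r hr
      apply (hball r _).1
      rw [abs_of_nonneg hr.1]
      linarith [hr.2]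
    have hcm : ContMDiff 𝓘(ℝ, ℝ) 𝓘(ℝ, E) 1 c := hcs.contMDiff
    refine ⟨hsymm.comp hcm.contMDiffOn hsub, ?_⟩
    unfold finslerLength
    have hb' : b ≤ δ / 2 := hbδ
    have hlen : ∀ r ∈ Icc (0 : ℝ) b, ENNReal.ofReal (N (φ.symm (c r))
        (mfderivWithin 𝓘(ℝ, ℝ) 𝓘(ℝ, E) (fun r => φ.symm (c r)) (Icc 0 b) r 1)) ≤
          ENNReal.ofReal (N x w + η) := by
      intro r hr
      have h1 : mfderivWithin 𝓘(ℝ, ℝ) 𝓘(ℝ, E) (φ.symm ∘ c) (Icc 0 b) r =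
          (mfderivWithin 𝓘(ℝ, E) 𝓘(ℝ, E) φ.symm φ.target (c r)).comp
            (mfderivWithin 𝓘(ℝ, ℝ) 𝓘(ℝ, E) c (Icc 0 b) r) := by
        apply mfderivWithin_comp
        · exact hsymm.mdifferentiableOn one_ne_zero (c r) (hsub hr)
        · exact (hcm.mdifferentiable one_ne_zero r).mdifferentiableWithinAt
        · exact hsub
        · rw [uniqueMDiffWithinAt_iff_uniqueDiffWithinAt]
          exact uniqueDiffOn_Icc hb r hr
      have h2 : mfderivWithin 𝓘(ℝ, ℝ) 𝓘(ℝ, E) c (Icc 0 b) r 1 = w := by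
        rw [mfderivWithin_eq_fderivWithin]
        change fderivWithin ℝ c (Icc 0 b) r 1 = w
        rw [((hcd r).hasFDerivAt.hasFDerivWithinAt).fderivWithin (uniqueDiffOn_Icc hb r hr)]
        simp
      have h3 : mfderivWithin 𝓘(ℝ, ℝ) 𝓘(ℝ, E) (fun r => φ.symm (c r)) (Icc 0 b) r 1 =
          mfderivWithin 𝓘(ℝ, E) 𝓘(ℝ, E) φ.symm φ.target (c r) w :=
        (congrArg (fun L => L 1) h1).trans
          (congrArg (mfderivWithin 𝓘(ℝ, E) 𝓘(ℝ, E) φ.symm φ.target (c r)) h2)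
      rw [h3]
      apply ENNReal.ofReal_le_ofReal
      refine ((hball r ?_).2).le
      rw [abs_of_nonneg hr.1]
      linarith [hr.2]
    calc _ ≤ ∫⁻ r in Icc 0 b, ENNReal.ofReal (N x w + η) :=
          setLIntegral_mono' measurableSet_Icc hlen
      _ = ENNReal.ofReal (b * (N x w + η)) := by
          rw [setLIntegral_const, Real.volume_Icc, sub_zero, mul_comm, ← ENNReal.ofReal_mul hb.le]

theorem slope_bound_aux [IsManifold 𝓘(ℝ, E) 1 Ω]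
    (N : ∀ x : Ω, TangentSpace 𝓘(ℝ, E) x → ℝ) (hN : IsFinsler N) (f : Ω → ℝ) (x : Ω)
    (hf : MDifferentiableAt 𝓘(ℝ, E) 𝓘(ℝ, ℝ) f x) (K : ℝ)
    (h : ∀ (σ : ℝ → Ω) (b : ℝ), 0 < b → ContMDiffOn 𝓘(ℝ, ℝ) 𝓘(ℝ, E) 1 σ (Icc 0 b) → σ 0 = x →
      ∀ ℓ : ℝ, 0 ≤ ℓ → finslerLength N σ 0 b ≤ ENNReal.ofReal ℓ → f x - K * ℓ ≤ f (σ b))
    (w : E) : - (K * N x w) ≤ (mfderiv 𝓘(ℝ, E) 𝓘(ℝ, ℝ) f x w : ℝ) := by
  have hmain : ∀ η > 0, - (K * (N x w + η)) ≤ (mfderiv 𝓘(ℝ, E) 𝓘(ℝ, ℝ) f x w : ℝ) := by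
    intro η hη
    obtain ⟨σ, hσ0, hσd, δ, hδ, hσ⟩ := exists_segment N hN.continuous x w η hη
    let L : E →L[ℝ] ℝ := mfderiv 𝓘(ℝ, E) 𝓘(ℝ, ℝ) f x
    have h1 : HasDerivAt (fun r => f (σ r)) (L w) 0 := by
      have h2 : HasMFDerivAt 𝓘(ℝ, E) 𝓘(ℝ, ℝ) f (σ 0) L := by
        have h3 := hf.hasMFDerivAt
        rw [← hσ0] at h3
        have h4 : L = mfderiv 𝓘(ℝ, E) 𝓘(ℝ, ℝ) f (σ 0) := by rw [hσ0]
        rw [h4]; exact h3
      have h3 := h2.comp 0 hσd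
      have h4 : HasFDerivAt (fun r => f (σ r))
        (L.comp (ContinuousLinearMap.smulRight (1 : ℝ →L[ℝ] ℝ) w)) (0 : ℝ) := h3.hasFDerivAt
      have h5 := h4.hasDerivAt
      convert h5 using 1
      simp
    change - (K * (N x w + η)) ≤ L w
    have h2 := (hasDerivAt_iff_tendsto_slope.mp h1).mono_left
      (nhdsWithin_mono (0 : ℝ) (s := Ioi 0) (t := {0}ᶜ) (fun y hy => (ne_of_gt hy : y ≠ 0)))
    have h3 : ∀ᶠ b in 𝓝[>] (0 : ℝ), - (K * (N x w + η)) ≤ slope (fun r => f (σ r)) 0 b := by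
      have h4 : Ioc (0 : ℝ) δ ∈ 𝓝[>] (0 : ℝ) := Ioc_mem_nhdsGT hδ
      filter_upwards [h4] with b hb
      obtain ⟨h5, h6⟩ := hσ b hb.1 hb.2
      have h7 : 0 ≤ N x w := hN.nonneg x w
      have h8 := h σ b hb.1 h5 hσ0 (b * (N x w + η)) (by have := hb.1; positivity) h6
      rw [slope_def_field, hσ0, sub_zero, le_div_iff₀ hb.1]
      nlinarith
    exact ge_of_tendsto h2 h3
  have h1 : Tendsto (fun η : ℝ => - (K * (N x w + η))) (𝓝[>] 0) (𝓝 (- (K * (N x w + 0)))) := by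
    apply Tendsto.mono_left _ nhdsWithin_le_nhds
    exact (Continuous.tendsto (by fun_prop) 0)
  have h2 := le_of_tendsto h1 (eventually_nhdsWithin_of_forall fun η hη => hmain η hη)
  simpa using h2

/-- If a function decreases at most like `K` times the length along curves starting at `x`, then
its differential has norm at most `K`. -/
theorem slope_bound [IsManifold 𝓘(ℝ, E) 1 Ω]
    (N : ∀ x : Ω, TangentSpace 𝓘(ℝ, E) x → ℝ) (hN : IsFinsler N) (f : Ω → ℝ) (x : Ω)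
    (hf : MDifferentiableAt 𝓘(ℝ, E) 𝓘(ℝ, ℝ) f x) (K : ℝ)
    (h : ∀ (σ : ℝ → Ω) (b : ℝ), 0 < b → ContMDiffOn 𝓘(ℝ, ℝ) 𝓘(ℝ, E) 1 σ (Icc 0 b) → σ 0 = x →
      ∀ ℓ : ℝ, 0 ≤ ℓ → finslerLength N σ 0 b ≤ ENNReal.ofReal ℓ → f x - K * ℓ ≤ f (σ b))
    (v : TangentSpace 𝓘(ℝ, E) x) : |differential f x v| ≤ K * N x v := by
  have h1 : - (K * N x v) ≤ differential f x v := slope_bound_aux N hN f x hf K h v
  have h2 : - (K * N x (-v)) ≤ differential f x (-v) := slope_bound_aux N hN f x hf K h (-v)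
  have h3 : N x (-v) = N x v := by
    have h4 := hN.smul x (-1) v
    rw [neg_one_smul] at h4
    rw [h4]; simp
  have h5 : differential f x (-v) = - differential f x v :=
    map_neg (mfderiv 𝓘(ℝ, E) 𝓘(ℝ, ℝ) f x) v
  rw [h5, h3] at h2
  rw [abs_le]
  constructor
  · exact h1
  · linarith

end Pool.Agent.Helper115.PS
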