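import Pool.Agent.Helper115.PSa

set_option autoImplicit false

namespace Pool.Agent.Helper115.PS

open MeasureTheory Set Filter Topology Manifold
open scoped ENNReal ContDiff

variable {E : Type*} [NormedAddCommGroup E] [NormedSpace ℝ E]
  {Ω : Type*} [TopologicalSpace Ω] [ChartedSpace E Ω]

/-- The differential `df(x) : T_x Ω → ℝ` of `f : Ω → ℝ`.  As in Mathlib, the tangent space `T_x Ω` is
the model space `E`, by means of the preferred chart at `x`. -/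
noncomputable def dif (f : Ω → ℝ) (x : Ω) : E →L[ℝ] ℝ :=
  fderiv ℝ (fun u => f ((chartAt E x).symm u)) (chartAt E x x)

/-- The velocity `σ'(r) ∈ T_{σ r} Ω = E` of a curve `σ : [a, b] → Ω`. -/
noncomputable def vel (σ : ℝ → Ω) (a b r : ℝ) : E :=
  derivWithin (fun u => chartAt E (σ r) (σ u)) (Icc a b) r

/-- A Finsler structure: norms `N x` on the tangent spaces `T_x Ω = E`, which form a continuous
function on the tangent bundle. -/
structure IsFin [IsManifold 𝓘(ℝ, E) 1 Ω] (N : Ω → E → ℝ) : Prop where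
  nonneg : ∀ x v, 0 ≤ N x v
  eq_zero : ∀ x v, N x v = 0 → v = 0
  smul : ∀ x (r : ℝ) v, N x (r • v) = |r| * N x v
  add_le : ∀ x v w, N x (v + w) ≤ N x v + N x w
  continuous : Continuous fun p : TangentBundle 𝓘(ℝ, E) Ω => N p.1 p.2

/-- The Finsler length of a curve. -/
noncomputable def len (N : Ω → E → ℝ) (σ : ℝ → Ω) (a b : ℝ) : ℝ≥0∞ :=
  ∫⁻ r in Icc a b, ENNReal.ofReal (N (σ r) (vel σ a b r))

theorem dif_eq (f : Ω → ℝ) (x : Ω) (hf : MDifferentiableAt 𝓘(ℝ, E) 𝓘(ℝ, ℝ) f x) (v : E) :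
    dif f x v = differential f x v := by
  unfold dif differential
  rw [mfderiv, if_pos hf]
  simp [writtenInExtChartAt, fderivWithin_univ]
  rfl

theorem vel_eq (σ : ℝ → Ω) (a b r : ℝ)
    (hσ : MDifferentiableWithinAt 𝓘(ℝ, ℝ) 𝓘(ℝ, E) σ (Icc a b) r) :
    vel (E := E) σ a b r = (show E from mfderivWithin 𝓘(ℝ, ℝ) 𝓘(ℝ, E) σ (Icc a b) r 1) := by
  unfold vel
  rw [mfderivWithin, if_pos hσ]
  simp [writtenInExtChartAt]
  rfl

theorem len_eq (N : Ω → E → ℝ) (σ : ℝ → Ω) (a b : ℝ)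
    (hσ : ContMDiffOn 𝓘(ℝ, ℝ) 𝓘(ℝ, E) 1 σ (Icc a b)) :
    len N σ a b = finslerLength (fun x v => N x v) σ a b := by
  unfold len finslerLength
  apply setLIntegral_congr_fun measurableSet_Icc
  intro r hr
  simp only
  rw [vel_eq σ a b r (hσ.mdifferentiableOn one_ne_zero r hr)]

theorem isFinsler_of_isFin [IsManifold 𝓘(ℝ, E) 1 Ω] {N : Ω → E → ℝ} (h : IsFin N) :
    IsFinsler (E := E) (Ω := Ω) (fun x v => N x v) where
  nonneg := h.nonneg
  eq_zero := h.eq_zero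
  smul := h.smul
  add_le := h.add_le
  continuous := h.continuous

/-- If a function decreases at most like `K` times the length along curves starting at `x`, then
its differential has norm at most `K`. -/
theorem slope_bound' [IsManifold 𝓘(ℝ, E) 1 Ω]
    (N : Ω → E → ℝ) (hN : IsFin N) (f : Ω → ℝ) (x : Ω)
    (hf : MDifferentiableAt 𝓘(ℝ, E) 𝓘(ℝ, ℝ) f x) (K : ℝ)
    (h : ∀ (σ : ℝ → Ω) (b : ℝ), 0 < b → ContMDiffOn 𝓘(ℝ, ℝ) 𝓘(ℝ, E) 1 σ (Icc 0 b) → σ 0 = x →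
      ∀ ℓ : ℝ, 0 ≤ ℓ → len N σ 0 b ≤ ENNReal.ofReal ℓ → f x - K * ℓ ≤ f (σ b))
    (v : E) : |dif f x v| ≤ K * N x v := by
  rw [dif_eq f x hf v]
  refine slope_bound (fun x v => N x v) (isFinsler_of_isFin hN) f x hf K ?_ v
  intro σ b hb hσ hσ0 ℓ hℓ hl
  exact h σ b hb hσ hσ0 ℓ hℓ (by rwa [len_eq N σ 0 b hσ])

end Pool.Agent.Helper115.PS
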