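import Mathlib

set_option autoImplicit false

namespace Pool.Agent.Helper115.PS

open MeasureTheory Set Filter Topology
open scoped ENNReal

theorem ac_of_dist_le {X : Type*} [PseudoMetricSpace X] (f : ℝ → X) (Φ : ℝ → ℝ) (p q : ℝ)
    (hΦ : AbsolutelyContinuousOnInterval Φ p q)
    (h : ∀ x ∈ uIcc p q, ∀ y ∈ uIcc p q, dist (f x) (f y) ≤ dist (Φ x) (Φ y)) :
    AbsolutelyContinuousOnInterval f p q := by
  rw [absolutelyContinuousOnInterval_iff] at hΦ ⊢
  intro ε hε
  obtain ⟨δ, hδ, h1⟩ := hΦ ε hε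
  refine ⟨δ, hδ, fun E hE hEδ => ?_⟩
  refine lt_of_le_of_lt (Finset.sum_le_sum fun i hi => ?_) (h1 E hE hEδ)
  have h2 := hE.1 i hi
  exact h _ h2.1 _ h2.2

theorem energy_lower {H : Type*} [NormedAddCommGroup H] [InnerProductSpace ℝ H] [CompleteSpace H]
    (c c0 a b w : ℝ → H) (hw : MemLp w 2 (volume.restrict (Icc (0 : ℝ) 1)))
    (hc : ∀ t ∈ Icc (0 : ℝ) 1, c t = c 0 + ∫ τ in (0 : ℝ)..t, w τ)
    (hc0 : ∀ t, HasDerivAt c0 (a t) t) (ha : ∀ t, HasDerivAt a (b t) t) (hb : Continuous b)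
    (h0 : c 0 = c0 0) (h1 : c 1 = c0 1) (B : ℝ) (hB : ∀ t ∈ Icc (0 : ℝ) 1, ‖b t‖ ≤ B) :
    1 / 2 * (∫ t in (0 : ℝ)..1, ‖a t‖ ^ 2) - B * (∫ t in (0 : ℝ)..1, ‖c t - c0 t‖) ≤
      1 / 2 * ∫ t in (0 : ℝ)..1, ‖w t‖ ^ 2 := by
  have hcont_a : Continuous a := continuous_iff_continuousAt.mpr fun t => (ha t).continuousAt
  have hwint : IntervalIntegrable w volume 0 1 := by
    rw [intervalIntegrable_iff_integrableOn_Icc_of_le zero_le_one]
    exact hw.integrable one_le_two
  have hgint : IntervalIntegrable (fun t => w t - a t) volume 0 1 :=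
    hwint.sub (hcont_a.intervalIntegrable 0 1)
  -- u = c - c0
  have hu : ∀ t ∈ Icc (0 : ℝ) 1, c t - c0 t = ∫ τ in (0 : ℝ)..t, (w τ - a τ) := by
    intro t ht
    have h2 : IntervalIntegrable w volume 0 t := hwint.mono_set (by
      rw [uIcc_of_le zero_le_one, uIcc_of_le ht.1]; exact Icc_subset_Icc_right ht.2)
    rw [intervalIntegral.integral_sub h2 (hcont_a.intervalIntegrable 0 t),
      intervalIntegral.integral_eq_sub_of_hasDerivAt (fun x _ => hc0 x)
        (hcont_a.intervalIntegrable 0 t), hc t ht, h0]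
    abel
  let g : ℝ → H := fun τ => w τ - a τ
  let U : ℝ → H := fun t => ∫ τ in (0 : ℝ)..t, g τ
  have hgn : IntervalIntegrable (fun t => ‖g t‖) volume 0 1 := hgint.norm
  have hsub : ∀ x ∈ Icc (0 : ℝ) 1, ∀ y ∈ Icc (0 : ℝ) 1, uIcc x y ⊆ uIcc (0 : ℝ) 1 := by
    intro x hx y hy
    rw [uIcc_of_le (zero_le_one (α := ℝ))]
    exact uIcc_subset_Icc hx hy
  obtain ⟨A, hA⟩ : ∃ A, ∀ t ∈ Icc (0 : ℝ) 1, ‖a t‖ ≤ A :=
    isCompact_Icc.exists_bound_of_continuousOn hcont_a.continuousOn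
  have hA0 : 0 ≤ A := (norm_nonneg _).trans (hA 0 (by simp))
  have hB0 : 0 ≤ B := (norm_nonneg _).trans (hB 0 (by simp))
  let G : ℝ := ∫ τ in (0 : ℝ)..1, ‖g τ‖
  have hUdiff : ∀ x ∈ Icc (0 : ℝ) 1, ∀ y ∈ Icc (0 : ℝ) 1, U y - U x = ∫ τ in x..y, g τ := by
    intro x hx y hy
    exact intervalIntegral.integral_interval_sub_left
      (hgint.mono_set (hsub 0 (by simp) y hy)) (hgint.mono_set (hsub 0 (by simp) x hx))
  have hUG : ∀ t ∈ Icc (0 : ℝ) 1, ‖U t‖ ≤ G := by
    intro t ht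
    refine (intervalIntegral.norm_integral_le_integral_norm ht.1).trans ?_
    exact intervalIntegral.integral_mono_interval le_rfl ht.1 ht.2
      (Filter.Eventually.of_forall fun _ => norm_nonneg _) hgn
  have hG0 : 0 ≤ G := (norm_nonneg _).trans (hUG 0 (by simp))
  have haLip : ∀ x ∈ Icc (0 : ℝ) 1, ∀ y ∈ Icc (0 : ℝ) 1, ‖a y - a x‖ ≤ B * ‖y - x‖ := by
    intro x hx y hy
    exact (convex_Icc (0 : ℝ) 1).norm_image_sub_le_of_norm_hasDerivWithin_le
      (fun t _ => (ha t).hasDerivWithinAt) hB hx hy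
  let Φ : ℝ → ℝ := fun t => A * (∫ τ in (0 : ℝ)..t, ‖g τ‖) + (B * G) * t
  have hΦ : AbsolutelyContinuousOnInterval Φ 0 1 := by
    apply AbsolutelyContinuousOnInterval.add
    · exact (hgn.absolutelyContinuousOnInterval_intervalIntegral (by simp)).const_mul A
    · apply AbsolutelyContinuousOnInterval.const_mul
      exact (contDiff_id.contDiffOn (n := 1)).absolutelyContinuousOnInterval
  let ψ : ℝ → ℝ := fun t => inner ℝ (a t) (U t)
  have hψdist : ∀ x ∈ Icc (0 : ℝ) 1, ∀ y ∈ Icc (0 : ℝ) 1, x ≤ y →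
      dist (ψ x) (ψ y) ≤ dist (Φ x) (Φ y) := by
    intro x hx y hy hxy
    have h2 : ψ y - ψ x = inner ℝ (a y) (U y - U x) + inner ℝ (a y - a x) (U x) := by
      simp only [ψ]
      rw [inner_sub_right, inner_sub_left]; ring
    have h3 : Φ y - Φ x = A * (∫ τ in x..y, ‖g τ‖) + B * G * (y - x) := by
      simp only [Φ]
      rw [← intervalIntegral.integral_interval_sub_left
        (hgn.mono_set (hsub 0 (by simp) y hy)) (hgn.mono_set (hsub 0 (by simp) x hx))]
      ring
    have h4 : ‖U y - U x‖ ≤ ∫ τ in x..y, ‖g τ‖ := by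
      rw [hUdiff x hx y hy]
      exact intervalIntegral.norm_integral_le_integral_norm hxy
    have h5 : 0 ≤ ∫ τ in x..y, ‖g τ‖ := (norm_nonneg _).trans h4
    have h6 : |ψ y - ψ x| ≤ Φ y - Φ x := by
      rw [h2, h3]
      refine (abs_add_le _ _).trans (add_le_add ?_ ?_)
      · refine (abs_real_inner_le_norm _ _).trans ?_
        exact mul_le_mul (hA y hy) h4 (norm_nonneg _) hA0
      · refine (abs_real_inner_le_norm _ _).trans ?_
        have h7 := haLip x hx y hy
        rw [Real.norm_of_nonneg (sub_nonneg.mpr hxy)] at h7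
        calc ‖a y - a x‖ * ‖U x‖ ≤ (B * (y - x)) * G :=
              mul_le_mul h7 (hUG x hx) (norm_nonneg _) (mul_nonneg hB0 (sub_nonneg.mpr hxy))
          _ = B * G * (y - x) := by ring
    rw [dist_comm, Real.dist_eq, dist_comm, Real.dist_eq]
    exact h6.trans (le_abs_self _)
  have hψ : AbsolutelyContinuousOnInterval ψ 0 1 := by
    apply ac_of_dist_le ψ Φ 0 1 hΦ
    rw [uIcc_of_le zero_le_one]
    intro x hx y hy
    rcases le_total x y with h2 | h2
    · exact hψdist x hx y hy h2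
    · rw [dist_comm (ψ x), dist_comm (Φ x)]
      exact hψdist y hy x hx h2
  have hψint := hψ.integral_deriv_eq_sub
  have hψ0 : ψ 0 = 0 := by simp [ψ, U]
  have hψ1 : ψ 1 = 0 := by
    have h2 := hu 1 (by simp)
    have h3 : U 1 = 0 := by
      change ∫ τ in (0 : ℝ)..1, (w τ - a τ) = 0
      rw [← h2, h1, sub_self]
    simp [ψ, h3]
  rw [hψ0, hψ1, sub_zero] at hψint
  have hUcont : ContinuousOn U (Icc 0 1) := by
    have h2 := intervalIntegral.continuousOn_primitive_interval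
      (μ := volume) (f := g) (a := 0) (b := 1) (by
        rw [uIcc_of_le zero_le_one]
        exact (intervalIntegrable_iff_integrableOn_Icc_of_le zero_le_one).mp hgint)
    rwa [uIcc_of_le zero_le_one] at h2
  have hd : ∀ᵐ t, t ∈ uIoc (0 : ℝ) 1 → deriv ψ t = inner ℝ (b t) (U t) + inner ℝ (a t) (g t) := by
    filter_upwards [hgint.ae_hasDerivAt_integral] with t ht htm
    have h2 := ht (uIoc_subset_uIcc htm) 0 (by simp)
    have h3 := (ha t).inner ℝ h2
    rw [h3.deriv]
    ring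
  rw [intervalIntegral.integral_congr_ae hd] at hψint
  have hI1 : IntervalIntegrable (fun t => inner ℝ (b t) (U t)) volume 0 1 := by
    apply ContinuousOn.intervalIntegrable
    rw [uIcc_of_le zero_le_one]
    exact hb.continuousOn.inner hUcont
  have hI2 : IntervalIntegrable (fun t => inner ℝ (a t) (g t)) volume 0 1 := by
    rw [intervalIntegrable_iff_integrableOn_Icc_of_le zero_le_one] at hgn hgint ⊢
    refine Integrable.mono' (hgn.const_mul A) ?_ ?_
    · exact hcont_a.aestronglyMeasurable.inner hgint.aestronglyMeasurable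
    · rw [ae_restrict_iff' measurableSet_Icc]
      refine Filter.Eventually.of_forall fun t ht => ?_
      exact (abs_real_inner_le_norm _ _).trans
        (mul_le_mul_of_nonneg_right (hA t ht) (norm_nonneg _))
  have hI3 : IntervalIntegrable (fun t => ‖w t‖ ^ 2) volume 0 1 := by
    rw [intervalIntegrable_iff_integrableOn_Icc_of_le zero_le_one]
    exact hw.integrable_norm_pow (by norm_num)
  have hI4 : IntervalIntegrable (fun t => ‖a t‖ ^ 2) volume 0 1 :=
    (hcont_a.norm.pow 2).intervalIntegrable 0 1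
  have hI5 : IntervalIntegrable (fun t => ‖U t‖) volume 0 1 := by
    apply ContinuousOn.intervalIntegrable
    rw [uIcc_of_le zero_le_one]
    exact hUcont.norm
  rw [intervalIntegral.integral_add hI1 hI2] at hψint
  have hUc : ∫ t in (0 : ℝ)..1, ‖c t - c0 t‖ = ∫ t in (0 : ℝ)..1, ‖U t‖ := by
    apply intervalIntegral.integral_congr
    intro t ht
    rw [uIcc_of_le zero_le_one] at ht
    simp only
    rw [hu t ht]
  have hest1 : -(B * ∫ t in (0 : ℝ)..1, ‖U t‖) ≤ - ∫ t in (0 : ℝ)..1, inner ℝ (b t) (U t) := by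
    rw [← intervalIntegral.integral_const_mul]
    apply neg_le_neg
    apply intervalIntegral.integral_mono_on zero_le_one hI1 (hI5.const_mul B)
    intro t ht
    exact (real_inner_le_norm _ _).trans (mul_le_mul_of_nonneg_right (hB t ht) (norm_nonneg _))
  have hest2 : 1 / 2 * (∫ t in (0 : ℝ)..1, ‖a t‖ ^ 2) + ∫ t in (0 : ℝ)..1, inner ℝ (a t) (g t) ≤
      1 / 2 * ∫ t in (0 : ℝ)..1, ‖w t‖ ^ 2 := by
    rw [← intervalIntegral.integral_const_mul, ← intervalIntegral.integral_const_mul,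
      ← intervalIntegral.integral_add (hI4.const_mul _) hI2]
    apply intervalIntegral.integral_mono_on zero_le_one ((hI4.const_mul _).add hI2)
      (hI3.const_mul _)
    intro t ht
    have h2 : inner ℝ (a t) (g t) = inner ℝ (a t) (w t) - ‖a t‖ ^ 2 := by
      simp only [g]
      rw [inner_sub_right, real_inner_self_eq_norm_sq]
    have h3 : ‖w t - a t‖ ^ 2 = ‖w t‖ ^ 2 - 2 * inner ℝ (w t) (a t) + ‖a t‖ ^ 2 :=
      norm_sub_sq_real _ _
    rw [real_inner_comm] at h3
    have h4 : 0 ≤ ‖w t - a t‖ ^ 2 := by positivity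
    rw [h2]
    linarith
  rw [hUc]
  linarith

end Pool.Agent.Helper115.PS
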