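import Mathlib

set_option autoImplicit false

namespace Pool.Agent.Helper115.PS

open MeasureTheory Set Filter Topology
open scoped ENNReal ContDiff

/-- The flat two-dimensional torus `(ℝ/ℤ)²`, with its area measure `volume` (total mass one). -/
abbrev T2 : Type := UnitAddTorus (Fin 2)

/-- `ℂ² = ℝ⁴` with its Euclidean norm. -/
def C2 : Type := PiLp 2 (fun _ : Fin 2 => ℂ)

noncomputable instance : NormedAddCommGroup C2 :=
  PiLp.normedAddCommGroup 2 (fun _ : Fin 2 => ℂ)

noncomputable instance : InnerProductSpace ℝ C2 :=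
  PiLp.innerProductSpace (fun _ : Fin 2 => ℂ)

noncomputable instance : NormedSpace ℂ C2 :=
  PiLp.normedSpace 2 ℂ (fun _ : Fin 2 => ℂ)

instance : CompleteSpace C2 :=
  inferInstanceAs (CompleteSpace (PiLp 2 (fun _ : Fin 2 => ℂ)))

/-- The Hilbert space `L²(T²; ℂ²)`. -/
def L2T : Type := Lp C2 2 (volume : Measure T2)

noncomputable instance : NormedAddCommGroup L2T :=
  Lp.instNormedAddCommGroup

noncomputable instance : InnerProductSpace ℝ L2T :=
  L2.innerProductSpace

instance : CompleteSpace L2T :=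
  inferInstanceAs (CompleteSpace (Lp C2 2 (volume : Measure T2)))

/-- The coordinates of a vector of `ℂ²`. -/
def C2.co (v : C2) (j : Fin 2) : ℂ := (show PiLp 2 (fun _ : Fin 2 => ℂ) from v) j

theorem C2.ext' (v w : C2) (h : ∀ j, v.co j = w.co j) : v = w :=
  PiLp.ext h

/-- The isometric embedding `x ↦ (2π)⁻¹ (exp (2πi x₀), exp (2πi x₁))` of the flat torus into
`ℂ² = ℝ⁴`. -/
noncomputable def emb (x : T2) : C2 :=
  show PiLp 2 (fun _ : Fin 2 => ℂ) from WithLp.toLp 2 fun j => ((2 * Real.pi : ℝ) : ℂ)⁻¹ * (AddCircle.toCircle (x j) : ℂ)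

/-- The Fourier coefficient `f̂(n) = ∫ exp (-2πi n·x) f(x) dx` of `f : T² → ℂ²`. -/
noncomputable def fourierCoef (f : T2 → C2) (n : Fin 2 → ℤ) : C2 :=
  ∫ x : T2, UnitAddTorus.mFourier (-n) x • f x

/-- The square of the `H^s` norm of `f : T² → ℂ²`: the sum over all frequencies `n` of
`(1 + |n|²)^s |f̂(n)|²`. -/
noncomputable def hsNormSq (s : ℝ) (f : T2 → C2) : ℝ≥0∞ :=
  ∑' n : Fin 2 → ℤ, ENNReal.ofReal
    ((1 + ((n 0 : ℝ) ^ 2 + (n 1 : ℝ) ^ 2)) ^ s * ‖fourierCoef f n‖ ^ 2)

/-- The group `𝒟^s_μ(T²)`: the homeomorphisms of `T²` that preserve the area measure and are,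
together with their inverse, of Sobolev class `H^s` (as maps into `ℂ²`).  For `s > 2` these are
`C¹` diffeomorphisms. -/
structure SDiff (s : ℝ) where
  toHomeo : T2 ≃ₜ T2
  measurePreserving : MeasurePreserving toHomeo volume volume
  sobolev : hsNormSq s (fun x => emb (toHomeo x)) < ⊤
  sobolev_symm : hsNormSq s (fun x => emb (toHomeo.symm x)) < ⊤

theorem continuous_toCircle' : Continuous fun x : UnitAddCircle => (AddCircle.toCircle x : ℂ) :=
  continuous_subtype_val.comp AddCircle.continuous_toCircle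

theorem continuous_emb : Continuous emb := by
  unfold emb
  apply (PiLp.continuous_toLp 2 (fun _ : Fin 2 => ℂ)).comp
  apply continuous_pi
  intro j
  exact continuous_const.mul (continuous_toCircle'.comp (continuous_apply j))

theorem emb_co (x : T2) (j : Fin 2) :
    (emb x).co j = ((2 * Real.pi : ℝ) : ℂ)⁻¹ * (AddCircle.toCircle (x j) : ℂ) := rfl

theorem emb_injective : Function.Injective emb := by
  intro x y h
  funext j
  have h1 : (emb x).co j = (emb y).co j := by rw [h]
  rw [emb_co, emb_co] at h1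
  have h2 : ((2 * Real.pi : ℝ) : ℂ)⁻¹ ≠ 0 := by
    apply inv_ne_zero
    exact_mod_cast (by positivity : (2 * Real.pi : ℝ) ≠ 0)
  have h3 := mul_left_cancel₀ h2 h1
  exact AddCircle.injective_toCircle one_ne_zero (Subtype.ext h3)

theorem SDiff.memLp {s : ℝ} (η : SDiff s) : MemLp (fun x => emb (η.toHomeo x)) 2
    (volume : Measure T2) := by
  have h1 : Continuous fun x => emb (η.toHomeo x) := continuous_emb.comp η.toHomeo.continuous
  exact ContinuousMap.memLp (p := 2) (μ := (volume : Measure T2)) ℝ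
    (⟨fun x => emb (η.toHomeo x), h1⟩ : C(T2, C2))

/-- The map `η ∈ 𝒟^s_μ(T²)` as an element of the Hilbert space `L²(T²; ℂ²)`. -/
noncomputable def SDiff.toL2 {s : ℝ} (η : SDiff s) : L2T := η.memLp.toLp

/-- The velocity `γ̇(t)` of a curve in `𝒟^s_μ(T²)`, an element of `L²(T²; ℂ²)`. -/
noncomputable def velocity {s : ℝ} (c : ℝ → SDiff s) (t : ℝ) : L2T :=
  deriv (fun τ => (c τ).toL2) t

/-- The kinetic energy `½ ∫₀¹ ‖γ̇(t)‖²_{L²} dt`. -/
noncomputable def energy {s : ℝ} (c : ℝ → SDiff s) : ℝ :=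
  1 / 2 * ∫ t in (0 : ℝ)..1, ‖velocity c t‖ ^ 2

/-- The curve `c : [0,1] → 𝒟^s_μ(T²)` has finite energy: its velocity is square integrable and
the curve is the integral of its velocity. -/
structure FiniteEnergy {s : ℝ} (c : ℝ → SDiff s) : Prop where
  memLp : MemLp (velocity c) 2 (volume.restrict (Icc (0 : ℝ) 1))
  eq_integral : ∀ t ∈ Icc (0 : ℝ) 1, (c t).toL2 = (c 0).toL2 + ∫ τ in (0 : ℝ)..t, velocity c τ

/-- The curve `c` in `𝒟^s_μ(T²)` is smooth, jointly in time and space. -/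
def SmoothCurve {s : ℝ} (c : ℝ → SDiff s) : Prop :=
  ContDiff ℝ ∞ fun p : ℝ × (Fin 2 → ℝ) =>
    emb ((c p.1).toHomeo fun i => ((p.2 i : ℝ) : UnitAddCircle))

theorem SDiff.ext' {s : ℝ} (η ζ : SDiff s) (h : ∀ x, η.toHomeo x = ζ.toHomeo x) : η = ζ := by
  cases η; cases ζ
  congr
  exact Homeomorph.ext h

theorem SDiff.toL2_injective {s : ℝ} : Function.Injective (SDiff.toL2 (s := s)) := by
  intro η ζ h
  have h1 := (MemLp.toLp_eq_toLp_iff η.memLp ζ.memLp).mp h
  have h2 := (Continuous.ae_eq_iff_eq (volume : Measure T2)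
    (continuous_emb.comp η.toHomeo.continuous) (continuous_emb.comp ζ.toHomeo.continuous)).mp h1
  apply SDiff.ext'
  intro x
  apply emb_injective
  exact congrFun h2 x

/-- A curve of finite energy zero is constant. -/
theorem eq_of_energy_eq_zero {s : ℝ} (c : ℝ → SDiff s) (hc : FiniteEnergy c)
    (h : energy c = 0) (t : ℝ) (ht : t ∈ Icc (0 : ℝ) 1) : c t = c 0 := by
  apply SDiff.toL2_injective
  rw [hc.eq_integral t ht]
  have hI : IntegrableOn (fun t => ‖velocity c t‖ ^ 2) (Icc 0 1) volume :=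
    hc.memLp.integrable_norm_pow (by norm_num)
  have h1 : ∫ t in Icc (0 : ℝ) 1, ‖velocity c t‖ ^ 2 = 0 := by
    unfold energy at h
    rw [intervalIntegral.integral_of_le zero_le_one, ← integral_Icc_eq_integral_Ioc] at h
    linarith
  rw [setIntegral_eq_zero_iff_of_nonneg_ae (Filter.Eventually.of_forall fun _ => by positivity)
    hI] at h1
  have h2 : ∫ τ in (0 : ℝ)..t, velocity c τ = 0 := by
    rw [intervalIntegral.integral_of_le ht.1]
    rw [integral_eq_zero_of_ae]
    have h3 : ∀ᵐ τ ∂(volume.restrict (Icc (0 : ℝ) 1)), velocity c τ = 0 := by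
      filter_upwards [h1] with τ hτ
      have h4 : ‖velocity c τ‖ ^ 2 = 0 := hτ
      simpa using h4
    have h5 : Ioc (0 : ℝ) t ⊆ Icc (0 : ℝ) 1 := fun τ hτ => ⟨hτ.1.le, hτ.2.trans ht.2⟩
    exact ae_restrict_of_ae_restrict_of_subset h5 h3
  rw [h2, add_zero]

end Pool.Agent.Helper115.PS
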