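import Mathlib

set_option autoImplicit false

namespace Pool.Agent.Helper115.PS

open MeasureTheory Set Filter Topology
open scoped ENNReal ContDiff

/-- Fourier coefficient of a one-periodic function. -/
noncomputable def fc (U : ℝ → ℂ) (m : ℤ) : ℂ :=
  ∫ x in (0 : ℝ)..1, Complex.exp (-(2 * Real.pi * Complex.I * m * x)) * U x

theorem hasDerivAt_ker (m : ℤ) (x : ℝ) :
    HasDerivAt (fun x : ℝ => Complex.exp (-(2 * Real.pi * Complex.I * m * x)))
      (-(2 * Real.pi * Complex.I * m) * Complex.exp (-(2 * Real.pi * Complex.I * m * x))) x := by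
  have h1 : HasDerivAt (fun x : ℝ => -(2 * Real.pi * Complex.I * m * (x : ℂ)))
      (-(2 * Real.pi * Complex.I * m * 1)) x :=
    (((hasDerivAt_id x).ofReal_comp).const_mul (2 * Real.pi * Complex.I * m)).neg
  have h2 := h1.cexp
  convert h2 using 1
  ring

theorem continuous_ker (m : ℤ) :
    Continuous (fun x : ℝ => Complex.exp (-(2 * Real.pi * Complex.I * m * x))) := by
  fun_prop

theorem ker_one (m : ℤ) : Complex.exp (-(2 * Real.pi * Complex.I * m * ((1 : ℝ) : ℂ))) = 1 := by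
  rw [Complex.exp_eq_one_iff]
  refine ⟨-m, ?_⟩
  push_cast
  ring

theorem norm_ker (m : ℤ) (x : ℝ) :
    ‖Complex.exp (-(2 * Real.pi * Complex.I * m * x))‖ = 1 := by
  have h1 : -(2 * Real.pi * Complex.I * m * x) = ((-(2 * Real.pi * m * x) : ℝ) : ℂ) * Complex.I := by
    push_cast; ring
  rw [h1, Complex.norm_exp_ofReal_mul_I]

theorem fc_deriv (U U' : ℝ → ℂ) (hU : ∀ x, HasDerivAt U (U' x) x) (hc : Continuous U')
    (hper : U 1 = U 0) (m : ℤ) : (2 * Real.pi * Complex.I * m) * fc U m = fc U' m := by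
  have hUc : Continuous U := continuous_iff_continuousAt.mpr fun t => (hU t).continuousAt
  have h1 : ∀ x ∈ uIcc (0 : ℝ) 1, HasDerivAt
      (fun x : ℝ => Complex.exp (-(2 * Real.pi * Complex.I * m * x)) * U x)
      ((-(2 * Real.pi * Complex.I * m) * Complex.exp (-(2 * Real.pi * Complex.I * m * x))) * U x +
        Complex.exp (-(2 * Real.pi * Complex.I * m * x)) * U' x) x := fun x _ =>
    (hasDerivAt_ker m x).mul (hU x)
  have h2 := intervalIntegral.integral_eq_sub_of_hasDerivAt h1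
    (Continuous.intervalIntegrable (by fun_prop) 0 1)
  rw [ker_one, hper] at h2
  simp only [Complex.ofReal_zero, mul_zero, neg_zero, Complex.exp_zero, sub_self] at h2
  rw [intervalIntegral.integral_add (Continuous.intervalIntegrable (by fun_prop) 0 1)
    (Continuous.intervalIntegrable (by fun_prop) 0 1)] at h2
  have h3 : (∫ x in (0 : ℝ)..1, (-(2 * Real.pi * Complex.I * m) *
      Complex.exp (-(2 * Real.pi * Complex.I * m * x))) * U x) =
      -(2 * Real.pi * Complex.I * m) * fc U m := by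
    unfold fc
    rw [← intervalIntegral.integral_const_mul]
    refine intervalIntegral.integral_congr fun x _ => ?_
    ring
  rw [h3] at h2
  unfold fc at h2 ⊢
  linear_combination -h2

theorem fc_norm_le (U : ℝ → ℂ) (M : ℝ) (hM : ∀ x ∈ Icc (0 : ℝ) 1, ‖U x‖ ≤ M) (m : ℤ) :
    ‖fc U m‖ ≤ M := by
  unfold fc
  have h1 := intervalIntegral.norm_integral_le_of_norm_le_const (a := 0) (b := 1)
    (f := fun x : ℝ => Complex.exp (-(2 * Real.pi * Complex.I * m * x)) * U x) (C := M) (by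
      intro x hx
      rw [uIoc_of_le zero_le_one] at hx
      rw [norm_mul, norm_ker, one_mul]
      exact hM x ⟨hx.1.le, hx.2⟩)
  simpa using h1

theorem fc_decay (p : ℕ) : ∀ (U : ℝ → ℂ), ContDiff ℝ ∞ U → Function.Periodic U 1 →
    ∃ C : ℝ, ∀ m : ℤ, |(m : ℝ)| ^ p * ‖fc U m‖ ≤ C := by
  induction p with
  | zero =>
    intro U hU _
    obtain ⟨M, hM⟩ := isCompact_Icc.exists_bound_of_continuousOn (s := Icc (0 : ℝ) 1)
      hU.continuous.continuousOn
    refine ⟨M, fun m => ?_⟩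
    rw [pow_zero, one_mul]
    exact fc_norm_le U M hM m
  | succ p ih =>
    intro U hU hper
    have hd : ContDiff ℝ ∞ (deriv U) := hU.deriv'
    have hpd : Function.Periodic (deriv U) 1 := by
      intro x
      have h1 : (fun y => U (y + 1)) = U := funext hper
      have h2 := deriv_comp_add_const U 1 x
      rw [h1] at h2
      exact h2.symm
    obtain ⟨C, hC⟩ := ih (deriv U) hd hpd
    refine ⟨C, fun m => ?_⟩
    have h1 := fc_deriv U (deriv U)
      (fun x => (hU.differentiable (by simp)).differentiableAt.hasDerivAt) hd.continuous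
      (by simpa using hper 0) m
    have h2 := hC m
    rw [← h1, norm_mul] at h2
    have h3 : ‖(2 * Real.pi * Complex.I * m : ℂ)‖ = 2 * Real.pi * |(m : ℝ)| := by
      simp [abs_of_pos Real.pi_pos]
    rw [h3] at h2
    have h4 : (1 : ℝ) ≤ 2 * Real.pi := by linarith [Real.pi_gt_three]
    refine le_trans ?_ h2
    have h5 : 0 ≤ |(m : ℝ)| ^ (p + 1) * ‖fc U m‖ := by positivity
    calc |(m : ℝ)| ^ (p + 1) * ‖fc U m‖ ≤ (2 * Real.pi) * (|(m : ℝ)| ^ (p + 1) * ‖fc U m‖) :=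
          le_mul_of_one_le_left h5 h4
      _ = _ := by ring

theorem fc_const (c : ℂ) (m : ℤ) (hm : m ≠ 0) : fc (fun _ => c) m = 0 := by
  have h1 := fc_deriv (fun _ => c) (fun _ => 0) (fun x => hasDerivAt_const x c) continuous_const
    rfl m
  have h2 : fc (fun _ => (0 : ℂ)) m = 0 := by simp [fc]
  rw [h2] at h1
  refine (mul_eq_zero.mp h1).resolve_left ?_
  simp [hm, Real.pi_ne_zero]

theorem fc_const_zero (c : ℂ) : fc (fun _ => c) 0 = c := by
  simp [fc]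

/-- A summability criterion. -/
theorem summable_weight (s : ℝ) (hs : 0 ≤ s) (c : ℤ → ℂ)
    (hc : ∀ p : ℕ, ∃ C : ℝ, ∀ m : ℤ, |(m : ℝ)| ^ p * ‖c m‖ ≤ C) :
    Summable fun m : ℤ => (1 + ((m : ℝ) ^ 2 + 1)) ^ s * ‖c m‖ ^ 2 := by
  obtain ⟨C, hC⟩ := hc (⌈s⌉₊ + 1)
  have hsum : Summable fun m : ℤ => (3 ^ ⌈s⌉₊ * C ^ 2) * (1 / (m : ℝ) ^ 2) :=
    (Real.summable_one_div_int_pow.mpr (by norm_num)).mul_left _
  refine hsum.of_norm_bounded_eventually ?_
  have h0 : ∀ᶠ m : ℤ in cofinite, m ≠ 0 := (Set.finite_singleton (0 : ℤ)).compl_mem_cofinite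
  filter_upwards [h0] with m hm
  have hm1 : (1 : ℝ) ≤ (m : ℝ) ^ 2 := by
    have h : 0 < m ^ 2 := by positivity
    have h' : 1 ≤ m ^ 2 := h
    exact_mod_cast h'
  have hCm := hC m
  have hpos : 0 ≤ |(m : ℝ)| ^ (⌈s⌉₊ + 1) * ‖c m‖ := by positivity
  have h1 : (|(m : ℝ)| ^ (⌈s⌉₊ + 1) * ‖c m‖) ^ 2 ≤ C ^ 2 := by
    exact pow_le_pow_left₀ hpos hCm 2
  have h2 : (1 + ((m : ℝ) ^ 2 + 1)) ^ s ≤ (3 * (m : ℝ) ^ 2) ^ ⌈s⌉₊ := by
    calc (1 + ((m : ℝ) ^ 2 + 1)) ^ s ≤ (3 * (m : ℝ) ^ 2) ^ s :=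
          Real.rpow_le_rpow (by positivity) (by linarith) hs
      _ ≤ (3 * (m : ℝ) ^ 2) ^ (⌈s⌉₊ : ℝ) :=
          Real.rpow_le_rpow_of_exponent_le (by linarith) (Nat.le_ceil s)
      _ = (3 * (m : ℝ) ^ 2) ^ ⌈s⌉₊ := Real.rpow_natCast _ _
  rw [Real.norm_of_nonneg (by positivity)]
  have h3 : 0 < (m : ℝ) ^ 2 := by linarith
  rw [mul_one_div, le_div_iff₀ h3]
  calc (1 + ((m : ℝ) ^ 2 + 1)) ^ s * ‖c m‖ ^ 2 * (m : ℝ) ^ 2 ≤
        (3 * (m : ℝ) ^ 2) ^ ⌈s⌉₊ * ‖c m‖ ^ 2 * (m : ℝ) ^ 2 := by gcongr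
    _ = 3 ^ ⌈s⌉₊ * (|(m : ℝ)| ^ (⌈s⌉₊ + 1) * ‖c m‖) ^ 2 := by
        have h4 : (|(m : ℝ)| ^ (⌈s⌉₊ + 1) * ‖c m‖) ^ 2 =
            ((m : ℝ) ^ 2) ^ (⌈s⌉₊ + 1) * ‖c m‖ ^ 2 := by
          rw [mul_pow, ← pow_mul, mul_comm (⌈s⌉₊ + 1) 2, pow_mul, sq_abs]
        rw [h4, mul_pow]
        ring
    _ ≤ 3 ^ ⌈s⌉₊ * C ^ 2 := by gcongr

end Pool.Agent.Helper115.PS
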