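import Pool.Agent.Helper115.PSc
import Pool.Agent.Helper115.PSd

set_option autoImplicit false

namespace Pool.Agent.Helper115.PS

open MeasureTheory Set Filter Topology
open scoped ENNReal ContDiff

/-- The shear `(x₀, x₁) ↦ (x₀, x₁ + h x₀)`. -/
noncomputable def shearHomeo (h : UnitAddCircle → UnitAddCircle) (hh : Continuous h) :
    T2 ≃ₜ T2 where
  toFun x := ![x 0, x 1 + h (x 0)]
  invFun x := ![x 0, x 1 - h (x 0)]
  left_inv x := by
    funext i
    fin_cases i <;> simp
  right_inv x := by
    funext i
    fin_cases i <;> simp
  continuous_toFun := by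
    apply continuous_pi
    intro i
    fin_cases i
    · exact continuous_apply 0
    · exact (continuous_apply 1).add (hh.comp (continuous_apply 0))
  continuous_invFun := by
    apply continuous_pi
    intro i
    fin_cases i
    · exact continuous_apply 0
    · exact (continuous_apply 1).sub (hh.comp (continuous_apply 0))

theorem shear_measurePreserving (h : UnitAddCircle → UnitAddCircle) (hh : Continuous h) :
    MeasurePreserving (shearHomeo h hh) (volume : Measure T2) volume := by
  have h1 : MeasurePreserving (fun p : UnitAddCircle × UnitAddCircle => (p.1, p.2 + h p.1))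
      (volume.prod volume) (volume.prod volume) := by
    apply MeasurePreserving.skew_product (MeasurePreserving.id volume)
      (g := fun a c => c + h a)
    · exact (measurable_snd.add (hh.measurable.comp measurable_fst))
    · exact Filter.Eventually.of_forall fun a => (measurePreserving_add_right volume (h a)).map_eq
  have h2 := (volume_preserving_finTwoArrow UnitAddCircle)
  have h3 := (h2.symm.comp h1).comp h2
  convert h3 using 1
  funext x
  funext i
  fin_cases i <;> rfl

/-- The coordinates as continuous linear maps. -/
noncomputable def coL (j : Fin 2) : C2 →L[ℂ] ℂ :=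
  show PiLp 2 (fun _ : Fin 2 => ℂ) →L[ℂ] ℂ from PiLp.proj 2 (fun _ : Fin 2 => ℂ) j

theorem coL_apply (j : Fin 2) (v : C2) : coL j v = v.co j := rfl

theorem coef_apply (f : T2 → C2) (hf : Continuous f) (n : Fin 2 → ℤ) (j : Fin 2) :
    (fourierCoef f n).co j = ∫ t : T2, UnitAddTorus.mFourier (-n) t * (f t).co j := by
  unfold fourierCoef
  have h1 : Integrable (fun t : T2 => UnitAddTorus.mFourier (-n) t • f t) volume :=
    (((UnitAddTorus.mFourier (-n)).continuous.smul hf)).integrable_of_hasCompactSupport
      (HasCompactSupport.of_compactSpace _)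
  have h2 := (coL j).integral_comp_comm h1
  simp only [map_smul, smul_eq_mul, coL_apply] at h2
  exact h2.symm

theorem coef_prod (n : Fin 2 → ℤ) (u v : UnitAddCircle → ℂ) :
    ∫ t : T2, UnitAddTorus.mFourier (-n) t * (u (t 0) * v (t 1)) =
      (∫ x : UnitAddCircle, fourier (-(n 0)) x * u x) *
        ∫ y : UnitAddCircle, fourier (-(n 1)) y * v y := by
  have h1 := integral_fintype_prod_volume_eq_prod (ι := Fin 2) (E := fun _ => UnitAddCircle)
    (𝕜 := ℂ) (fun i x => if i = 0 then fourier (-(n 0)) x * u x else fourier (-(n 1)) x * v x)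
  rw [Fin.prod_univ_two] at h1
  simp only [if_true, Fin.isValue, one_ne_zero, if_false] at h1
  rw [← h1]
  congr 1
  funext t
  rw [Fin.prod_univ_two]
  simp only [UnitAddTorus.mFourier, ContinuousMap.coe_mk, Fin.prod_univ_two, Pi.neg_apply]
  simp only [if_true, Fin.isValue, one_ne_zero, if_false]
  ring

theorem circle_fc (m : ℤ) (u : UnitAddCircle → ℂ) :
    ∫ x : UnitAddCircle, fourier (-m) x * u x = fc (fun x : ℝ => u (x : UnitAddCircle)) m := by
  rw [← UnitAddCircle.intervalIntegral_preimage 0, zero_add]
  unfold fc
  refine intervalIntegral.integral_congr fun x _ => ?_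
  simp only
  rw [fourier_coe_apply]
  congr 2
  push_cast
  ring

end Pool.Agent.Helper115.PS
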