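import Pool.Agent.Helper115.PSe

set_option autoImplicit false

namespace Pool.Agent.Helper115.PS

open MeasureTheory Set Filter Topology
open scoped ENNReal ContDiff

/-- The basic character on the circle. -/
noncomputable def ch (x : UnitAddCircle) : ℂ := (AddCircle.toCircle x : ℂ)

theorem continuous_ch : Continuous ch := continuous_toCircle'

theorem ch_add (x y : UnitAddCircle) : ch (x + y) = ch x * ch y := by
  simp [ch, AddCircle.toCircle_add]

theorem ch_coe (x : ℝ) : ch (x : UnitAddCircle) = Complex.exp (2 * Real.pi * Complex.I * x) := by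
  rw [ch, AddCircle.toCircle_apply_mk, Circle.coe_exp]
  congr 1
  push_cast
  ring

theorem norm_ch (x : UnitAddCircle) : ‖ch x‖ = 1 := Circle.norm_coe _

theorem hasDerivAt_ch (x : ℝ) :
    HasDerivAt (fun x : ℝ => ch (x : UnitAddCircle)) (2 * Real.pi * Complex.I * ch x) x := by
  have h0 : (fun x : ℝ => ch (x : UnitAddCircle)) =
      fun x : ℝ => Complex.exp (2 * Real.pi * Complex.I * x) := funext ch_coe
  rw [h0, ch_coe]
  have h1 : HasDerivAt (fun x : ℝ => (2 * Real.pi * Complex.I * (x : ℂ)))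
      (2 * Real.pi * Complex.I * 1) x :=
    (((hasDerivAt_id x).ofReal_comp).const_mul (2 * Real.pi * Complex.I))
  convert h1.cexp using 1
  ring

theorem fc_ch (m : ℤ) (hm : m ≠ 1) : fc (fun x : ℝ => ch (x : UnitAddCircle)) m = 0 := by
  have hc : Continuous fun x : ℝ => 2 * Real.pi * Complex.I * ch (x : UnitAddCircle) :=
    continuous_const.mul (continuous_ch.comp (AddCircle.continuous_mk' 1))
  have h1 := fc_deriv (fun x : ℝ => ch (x : UnitAddCircle))
    (fun x : ℝ => 2 * Real.pi * Complex.I * ch (x : UnitAddCircle)) hasDerivAt_ch hc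
    (by
      rw [ch_coe, ch_coe]
      simp) m
  have h2 : fc (fun x : ℝ => 2 * Real.pi * Complex.I * ch (x : UnitAddCircle)) m =
      2 * Real.pi * Complex.I * fc (fun x : ℝ => ch (x : UnitAddCircle)) m := by
    unfold fc
    rw [← intervalIntegral.integral_const_mul]
    refine intervalIntegral.integral_congr fun x _ => ?_
    ring
  rw [h2] at h1
  have h3 : (2 * Real.pi * Complex.I) * ((m : ℂ) - 1) *
      fc (fun x : ℝ => ch (x : UnitAddCircle)) m = 0 := by
    linear_combination h1
  refine (mul_eq_zero.mp h3).resolve_left ?_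
  have h4 : (m : ℂ) - 1 ≠ 0 := by
    rw [sub_ne_zero]
    exact_mod_cast hm
  have h5 : (2 * Real.pi * Complex.I : ℂ) ≠ 0 := by simp [Real.pi_ne_zero]
  exact mul_ne_zero h5 h4

theorem fc_ch_one : fc (fun x : ℝ => ch (x : UnitAddCircle)) 1 = 1 := by
  unfold fc
  have h1 : ∀ x : ℝ, Complex.exp (-(2 * Real.pi * Complex.I * (1 : ℤ) * x)) *
      ch (x : UnitAddCircle) = 1 := by
    intro x
    rw [ch_coe, ← Complex.exp_add]
    simp
  simp_rw [h1]
  simp

theorem continuous_shear_emb (h : UnitAddCircle → UnitAddCircle) (hh : Continuous h) :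
    Continuous fun x => emb (shearHomeo h hh x) :=
  continuous_emb.comp (shearHomeo h hh).continuous

theorem coef_shear_zero (h : UnitAddCircle → UnitAddCircle) (hh : Continuous h)
    (n : Fin 2 → ℤ) : (fourierCoef (fun x => emb (shearHomeo h hh x)) n).co 0 =
      ((2 * Real.pi : ℝ) : ℂ)⁻¹ * (fc (fun x : ℝ => ch (x : UnitAddCircle)) (n 0) *
        fc (fun _ => 1) (n 1)) := by
  rw [coef_apply _ (continuous_shear_emb h hh), ← circle_fc, ← circle_fc (n 1) (fun _ => 1),
    ← coef_prod, ← integral_const_mul]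
  congr 1
  funext x
  have h1 : (emb (shearHomeo h hh x)).co 0 = ((2 * Real.pi : ℝ) : ℂ)⁻¹ * ch (x 0) := rfl
  rw [h1]
  ring

theorem coef_shear_one (h : UnitAddCircle → UnitAddCircle) (hh : Continuous h)
    (n : Fin 2 → ℤ) : (fourierCoef (fun x => emb (shearHomeo h hh x)) n).co 1 =
      ((2 * Real.pi : ℝ) : ℂ)⁻¹ * (fc (fun x : ℝ => ch (h (x : UnitAddCircle))) (n 0) *
        fc (fun x : ℝ => ch (x : UnitAddCircle)) (n 1)) := by
  rw [coef_apply _ (continuous_shear_emb h hh), ← circle_fc (n 0) (fun x => ch (h x)),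
    ← circle_fc (n 1), ← coef_prod, ← integral_const_mul]
  congr 1
  funext x
  have h1 : (emb (shearHomeo h hh x)).co 1 = ((2 * Real.pi : ℝ) : ℂ)⁻¹ * ch (x 1 + h (x 0)) := rfl
  rw [h1, ch_add]
  ring

end Pool.Agent.Helper115.PS
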