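import Pool.Agent.Helper115.PSf

set_option autoImplicit false

namespace Pool.Agent.Helper115.PS

open MeasureTheory Set Filter Topology
open scoped ENNReal ContDiff

theorem norm_sq_C2 (v : C2) : ‖v‖ ^ 2 = ‖v.co 0‖ ^ 2 + ‖v.co 1‖ ^ 2 := by
  have h1 := PiLp.norm_sq_eq_of_L2 (fun _ : Fin 2 => ℂ) v
  rw [Fin.sum_univ_two] at h1
  exact h1

theorem tsum_fin_two (F : (Fin 2 → ℤ) → ℝ≥0∞) :
    ∑' n : Fin 2 → ℤ, F n = ∑' a : ℤ, ∑' b : ℤ, F ![a, b] := by
  rw [← ENNReal.tsum_prod (f := fun a b : ℤ => F ![a, b])]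
  rw [← (finTwoArrowEquiv ℤ).symm.tsum_eq]
  rfl

theorem hs_shear_lt_top (s : ℝ) (hs : 0 ≤ s) (h : UnitAddCircle → UnitAddCircle)
    (hh : Continuous h) (hdec : ∀ p : ℕ, ∃ C : ℝ, ∀ m : ℤ,
      |(m : ℝ)| ^ p * ‖fc (fun x : ℝ => ch (h (x : UnitAddCircle))) m‖ ≤ C) :
    hsNormSq s (fun x => emb (shearHomeo h hh x)) < ⊤ := by
  unfold hsNormSq
  rw [tsum_fin_two]
  set f : T2 → C2 := fun x => emb (shearHomeo h hh x) with hf
  have h0 : ∀ n : Fin 2 → ℤ, (fourierCoef f n).co 0 =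
      ((2 * Real.pi : ℝ) : ℂ)⁻¹ * (fc (fun x : ℝ => ch (x : UnitAddCircle)) (n 0) *
        fc (fun _ => 1) (n 1)) := coef_shear_zero h hh
  have h1 : ∀ n : Fin 2 → ℤ, (fourierCoef f n).co 1 =
      ((2 * Real.pi : ℝ) : ℂ)⁻¹ * (fc (fun x : ℝ => ch (h (x : UnitAddCircle))) (n 0) *
        fc (fun x : ℝ => ch (x : UnitAddCircle)) (n 1)) := coef_shear_one h hh
  have hzero : ∀ n : Fin 2 → ℤ, n 1 ≠ 0 → n 1 ≠ 1 → fourierCoef f n = 0 := by
    intro n hn0 hn1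
    apply C2.ext'
    intro j
    fin_cases j
    · change (fourierCoef f n).co 0 = 0
      rw [h0, fc_const _ _ hn0]; simp
    · change (fourierCoef f n).co 1 = 0
      rw [h1, fc_ch _ hn1]; simp
  have hrow0 : ∀ a : ℤ, a ≠ 1 → fourierCoef f ![a, 0] = 0 := by
    intro a ha
    apply C2.ext'
    intro j
    fin_cases j
    · change (fourierCoef f _).co 0 = 0
      rw [h0]
      simp [fc_ch _ ha]
    · change (fourierCoef f _).co 1 = 0
      rw [h1]
      have : fc (fun x : ℝ => ch (x : UnitAddCircle)) 0 = 0 := fc_ch 0 (by norm_num)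
      simp [this]
  have hrow1 : ∀ a : ℤ, ‖fourierCoef f ![a, 1]‖ ^ 2 ≤
      ‖fc (fun x : ℝ => ch (h (x : UnitAddCircle))) a‖ ^ 2 := by
    intro a
    rw [norm_sq_C2, h0, h1]
    have h2 : fc (fun _ => (1 : ℂ)) 1 = 0 := fc_const _ _ (by norm_num)
    have h3 : ‖((2 * Real.pi : ℝ) : ℂ)⁻¹‖ ≤ 1 := by
      rw [norm_inv]
      apply inv_le_one_of_one_le₀
      rw [Complex.norm_real, Real.norm_of_nonneg (by positivity)]
      linarith [Real.pi_gt_three]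
    simp only [Matrix.cons_val_zero, Matrix.cons_val_one, h2, fc_ch_one, mul_zero, norm_zero,
      mul_one]
    rw [norm_mul, mul_pow]
    have h4 : ‖((2 * Real.pi : ℝ) : ℂ)⁻¹‖ ^ 2 ≤ 1 := pow_le_one₀ (norm_nonneg _) h3
    have h5 : 0 ≤ ‖fc (fun x : ℝ => ch (h (x : UnitAddCircle))) a‖ ^ 2 := by positivity
    nlinarith
  have hinner : ∀ a : ℤ, ∑' b : ℤ, ENNReal.ofReal
      ((1 + (((![a, b] : Fin 2 → ℤ) 0 : ℝ) ^ 2 + ((![a, b] : Fin 2 → ℤ) 1 : ℝ) ^ 2)) ^ s *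
        ‖fourierCoef f ![a, b]‖ ^ 2) ≤
      ENNReal.ofReal ((1 + ((a : ℝ) ^ 2 + 0 ^ 2)) ^ s * ‖fourierCoef f ![a, 0]‖ ^ 2) +
      ENNReal.ofReal ((1 + ((a : ℝ) ^ 2 + 1)) ^ s *
        ‖fc (fun x : ℝ => ch (h (x : UnitAddCircle))) a‖ ^ 2) := by
    intro a
    rw [tsum_eq_sum (s := {0, 1})]
    · rw [Finset.sum_pair (by norm_num)]
      apply add_le_add
      · simp
      · apply ENNReal.ofReal_le_ofReal
        simp only [Matrix.cons_val_zero, Matrix.cons_val_one, Int.cast_one, one_pow]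
        exact mul_le_mul_of_nonneg_left (hrow1 a) (by positivity)
    · intro b hb
      simp only [Finset.mem_insert, Finset.mem_singleton, not_or] at hb
      rw [hzero ![a, b] hb.1 hb.2]
      simp
  refine lt_of_le_of_lt (ENNReal.tsum_le_tsum hinner) ?_
  rw [ENNReal.tsum_add, ENNReal.add_lt_top]
  constructor
  · rw [tsum_eq_single 1]
    · exact ENNReal.ofReal_lt_top
    · intro a ha
      rw [hrow0 a ha]
      simp
  · have h2 := summable_weight s hs _ hdec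
    rw [← ENNReal.ofReal_tsum_of_nonneg (fun a => by positivity) h2]
    exact ENNReal.ofReal_lt_top

end Pool.Agent.Helper115.PS
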