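import Mathlib

set_option autoImplicit false

namespace Pool.Agent.Helper115.PS

open Set Filter Topology
open scoped ENNReal

/-- Weak form of Ekeland's variational principle, for extended pseudometric spaces. -/
theorem ekeland {X : Type*} [PseudoEMetricSpace X] [CompleteSpace X] (F : X → ℝ≥0∞)
    (hF : Continuous F) (x0 : X) (h0 : F x0 ≠ ⊤) (ε : ℝ≥0∞) (hε0 : ε ≠ 0) (hε : ε ≠ ⊤) :
    ∃ y, F y + ε * edist x0 y ≤ F x0 ∧ ∀ z, F y ≤ F z + ε * edist y z := by
  let S : X → Set X := fun x => {z | F z + ε * edist x z ≤ F x}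
  have hself : ∀ x, x ∈ S x := fun x => by
    change F x + ε * edist x x ≤ F x
    simp
  have htrans : ∀ x y z, y ∈ S x → z ∈ S y → z ∈ S x := by
    intro x y z hy hz
    change F z + ε * edist x z ≤ F x
    calc F z + ε * edist x z ≤ F z + ε * (edist x y + edist y z) := by
          gcongr; exact edist_triangle _ _ _
      _ = (F z + ε * edist y z) + ε * edist x y := by ring
      _ ≤ F y + ε * edist x y := by gcongr; exact hz
      _ ≤ F x := hy
  have hex : ∀ (x : X) (n : ℕ), ∃ z ∈ S x, F z ≤ (⨅ w ∈ S x, F w) + (2⁻¹ : ℝ≥0∞) ^ n := by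
    intro x n
    by_cases hinf : (⨅ w ∈ S x, F w) = ⊤
    · exact ⟨x, hself x, by rw [hinf]; simp⟩
    · have hpos : (2⁻¹ : ℝ≥0∞) ^ n ≠ 0 := by
        apply pow_ne_zero
        simp
      have h1 : (⨅ w ∈ S x, F w) < (⨅ w ∈ S x, F w) + (2⁻¹ : ℝ≥0∞) ^ n :=
        ENNReal.lt_add_right hinf hpos
      rw [iInf_lt_iff] at h1
      obtain ⟨z, hz⟩ := h1
      rw [iInf_lt_iff] at hz
      obtain ⟨hz1, hz2⟩ := hz
      exact ⟨z, hz1, hz2.le⟩
  choose nxt hnxt1 hnxt2 using hex
  let u : ℕ → X := fun n => Nat.rec x0 (fun n x => nxt x n) n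
  have hu : ∀ n, u (n + 1) = nxt (u n) n := fun n => rfl
  have hS : ∀ n m, n ≤ m → u m ∈ S (u n) := by
    intro n m hnm
    induction m, hnm using Nat.le_induction with
    | base => exact hself _
    | succ m _ ih => exact htrans _ _ _ ih (hu m ▸ hnxt1 (u m) m)
  have hfin : ∀ n, F (u n) ≠ ⊤ := by
    intro n
    have h1 : F (u n) + ε * edist x0 (u n) ≤ F x0 := hS 0 n (Nat.zero_le n)
    exact ne_top_of_le_ne_top h0 (le_self_add.trans h1)
  have hclose : ∀ n z, z ∈ S (u (n + 1)) → ε * edist (u (n + 1)) z ≤ (2⁻¹ : ℝ≥0∞) ^ n := by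
    intro n z hz
    have h1 : F (u (n + 1)) ≤ (⨅ w ∈ S (u n), F w) + (2⁻¹ : ℝ≥0∞) ^ n := hnxt2 (u n) n
    have h2 : (⨅ w ∈ S (u n), F w) ≤ F z :=
      iInf₂_le z (htrans _ _ _ (hS n (n + 1) (Nat.le_succ n)) hz)
    have h3 : F z + ε * edist (u (n + 1)) z ≤ F (u (n + 1)) := hz
    have hz' : F z ≠ ⊤ := ne_top_of_le_ne_top (hfin (n + 1)) (le_self_add.trans h3)
    have h4 : F z + ε * edist (u (n + 1)) z ≤ F z + (2⁻¹ : ℝ≥0∞) ^ n := by
      refine h3.trans (h1.trans ?_)
      gcongr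
    exact (ENNReal.add_le_add_iff_left hz').mp h4
  have hclose' : ∀ n z, z ∈ S (u (n + 1)) → edist (u (n + 1)) z ≤ ε⁻¹ * (2⁻¹ : ℝ≥0∞) ^ n := by
    intro n z hz
    have h1 := hclose n z hz
    rw [← ENNReal.div_eq_inv_mul, ENNReal.le_div_iff_mul_le (Or.inl hε0) (Or.inl hε), mul_comm]
    exact h1
  have hcauchy : CauchySeq fun n => u (n + 1) := by
    apply EMetric.cauchySeq_iff.mpr
    intro δ hδ
    have h1 : Tendsto (fun n : ℕ => ε⁻¹ * (2⁻¹ : ℝ≥0∞) ^ n) atTop (𝓝 (ε⁻¹ * 0)) := by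
      apply ENNReal.Tendsto.const_mul
      · exact ENNReal.tendsto_pow_atTop_nhds_zero_of_lt_one (by simp)
      · right
        exact ENNReal.inv_ne_top.mpr hε0
    rw [mul_zero] at h1
    have hδ2 : 0 < δ / 2 := ENNReal.half_pos hδ.ne'
    obtain ⟨K, hK⟩ := (h1.eventually_lt_const hδ2).exists
    refine ⟨K, fun m hm n hn => ?_⟩
    have h2 := hclose' K (u (m + 1)) (hS (K + 1) (m + 1) (by omega))
    have h3 := hclose' K (u (n + 1)) (hS (K + 1) (n + 1) (by omega))
    calc edist (u (m + 1)) (u (n + 1)) ≤ edist (u (m + 1)) (u (K + 1)) +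
          edist (u (K + 1)) (u (n + 1)) := edist_triangle _ _ _
      _ < δ / 2 + δ / 2 := by
          apply ENNReal.add_lt_add
          · rw [edist_comm]; exact h2.trans_lt hK
          · exact h3.trans_lt hK
      _ = δ := ENNReal.add_halves δ
  obtain ⟨y, hy⟩ := cauchySeq_tendsto_of_complete hcauchy
  have hyS : ∀ n, y ∈ S (u n) := by
    intro n
    change F y + ε * edist (u n) y ≤ F (u n)
    have h1 : Tendsto (fun m => F (u (m + 1)) + ε * edist (u n) (u (m + 1))) atTop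
        (𝓝 (F y + ε * edist (u n) y)) := by
      apply Tendsto.add
      · exact (hF.tendsto y).comp hy
      · apply ENNReal.Tendsto.const_mul
        · exact tendsto_const_nhds.edist hy
        · right; exact hε
    apply le_of_tendsto h1
    filter_upwards [eventually_ge_atTop n] with m hm
    exact hS n (m + 1) (by omega)
  refine ⟨y, hyS 0, fun z => ?_⟩
  by_contra hcon
  push Not at hcon
  have hz : z ∈ S y := hcon.le
  have hzn : ∀ n, z ∈ S (u n) := fun n => htrans _ _ _ (hyS n) hz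
  have hdist : edist y z = 0 := by
    have h1 : Tendsto (fun n : ℕ => ε⁻¹ * (2⁻¹ : ℝ≥0∞) ^ n + ε⁻¹ * (2⁻¹ : ℝ≥0∞) ^ n) atTop
        (𝓝 (ε⁻¹ * 0 + ε⁻¹ * 0)) := by
      have h2 : Tendsto (fun n : ℕ => ε⁻¹ * (2⁻¹ : ℝ≥0∞) ^ n) atTop (𝓝 (ε⁻¹ * 0)) := by
        apply ENNReal.Tendsto.const_mul
        · exact ENNReal.tendsto_pow_atTop_nhds_zero_of_lt_one (by simp)
        · right
          exact ENNReal.inv_ne_top.mpr hε0
      exact h2.add h2
    rw [mul_zero, add_zero] at h1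
    refine le_antisymm (ge_of_tendsto h1 (Filter.Eventually.of_forall fun n => ?_)) zero_le
    calc edist y z ≤ edist y (u (n + 1)) + edist (u (n + 1)) z := edist_triangle _ _ _
      _ ≤ _ := by
          apply add_le_add
          · rw [edist_comm]; exact hclose' n y (hyS (n + 1))
          · exact hclose' n z (hzn (n + 1))
  have hins : Inseparable y z := EMetric.inseparable_iff.mpr hdist
  have hFeq : F y = F z := (hins.map hF).eq
  rw [hdist, mul_zero, add_zero, hFeq] at hcon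
  exact lt_irrefl _ hcon

end Pool.Agent.Helper115.PS
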