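import Pool.Agent.Helper115.PSg

set_option autoImplicit false

namespace Pool.Agent.Helper115.PS

open MeasureTheory Set Filter Topology
open scoped ENNReal ContDiff

/-- The profile `((1 + cos (2πx)) / 2)^k` on the circle: it equals one at `0` and concentrates there
for large `k`. -/
noncomputable def prof (k : ℕ) (x : UnitAddCircle) : ℝ := ((1 + (ch x).re) / 2) ^ k

theorem continuous_prof (k : ℕ) : Continuous (prof k) :=
  ((continuous_const.add (Complex.continuous_re.comp continuous_ch)).div_const 2).pow k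

theorem re_ch_coe (x : ℝ) : (ch (x : UnitAddCircle)).re = Real.cos (2 * Real.pi * x) := by
  rw [ch_coe]
  have h1 : (2 * Real.pi * Complex.I * x : ℂ) = ((2 * Real.pi * x : ℝ) : ℂ) * Complex.I := by
    push_cast; ring
  rw [h1, Complex.exp_ofReal_mul_I_re]

theorem prof_coe (k : ℕ) (x : ℝ) :
    prof k (x : UnitAddCircle) = ((1 + Real.cos (2 * Real.pi * x)) / 2) ^ k := by
  rw [prof, re_ch_coe]

theorem prof_zero (k : ℕ) : prof k 0 = 1 := by
  have h1 := prof_coe k 0
  simp only [mul_zero, Real.cos_zero] at h1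
  have h2 : ((0 : ℝ) : UnitAddCircle) = 0 := rfl
  rw [h2] at h1
  rw [h1]
  norm_num

theorem base_mem (x : UnitAddCircle) : 0 ≤ (1 + (ch x).re) / 2 ∧ (1 + (ch x).re) / 2 ≤ 1 := by
  have h1 := Complex.abs_re_le_norm (ch x)
  rw [norm_ch, abs_le] at h1
  constructor <;> linarith [h1.1, h1.2]

theorem prof_nonneg (k : ℕ) (x : UnitAddCircle) : 0 ≤ prof k x := pow_nonneg (base_mem x).1 k

theorem prof_le_one (k : ℕ) (x : UnitAddCircle) : prof k x ≤ 1 :=
  pow_le_one₀ (base_mem x).1 (base_mem x).2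

/-- The shift `x ↦ A prof x`. -/
noncomputable def shiftFun (k : ℕ) (A : ℝ) (x : UnitAddCircle) : UnitAddCircle :=
  ((A * prof k x : ℝ) : UnitAddCircle)

theorem continuous_shiftFun (k : ℕ) (A : ℝ) : Continuous (shiftFun k A) :=
  (AddCircle.continuous_mk' 1).comp (continuous_const.mul (continuous_prof k))

/-- The lifted exponential of the shift. -/
noncomputable def expShift (k : ℕ) (A : ℝ) (x : ℝ) : ℂ :=
  Complex.exp (((2 * Real.pi * (A * ((1 + Real.cos (2 * Real.pi * x)) / 2) ^ k) : ℝ) : ℂ) *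
    Complex.I)

theorem ch_shiftFun (k : ℕ) (A : ℝ) (x : ℝ) :
    ch (shiftFun k A (x : UnitAddCircle)) = expShift k A x := by
  rw [shiftFun, ch_coe, prof_coe, expShift]
  congr 1
  push_cast
  ring

theorem contDiff_expShift (k : ℕ) (A : ℝ) : ContDiff ℝ ∞ (expShift k A) := by
  unfold expShift
  apply ContDiff.cexp
  apply ContDiff.mul _ contDiff_const
  have h1 : ContDiff ℝ ∞ fun x : ℝ =>
      2 * Real.pi * (A * ((1 + Real.cos (2 * Real.pi * x)) / 2) ^ k) := by
    fun_prop
  exact Complex.ofRealCLM.contDiff.comp h1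

theorem periodic_expShift (k : ℕ) (A : ℝ) : Function.Periodic (expShift k A) 1 := by
  intro x
  unfold expShift
  have h1 : Real.cos (2 * Real.pi * (x + 1)) = Real.cos (2 * Real.pi * x) := by
    have h2 : 2 * Real.pi * (x + 1) = 2 * Real.pi * x + 2 * Real.pi := by ring
    rw [h2, Real.cos_add_two_pi]
  rw [h1]

theorem decay_expShift (k : ℕ) (A : ℝ) (p : ℕ) : ∃ C : ℝ, ∀ m : ℤ,
    |(m : ℝ)| ^ p * ‖fc (fun x : ℝ => ch (shiftFun k A (x : UnitAddCircle))) m‖ ≤ C := by
  have h1 : (fun x : ℝ => ch (shiftFun k A (x : UnitAddCircle))) = expShift k A :=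
    funext (ch_shiftFun k A)
  rw [h1]
  exact fc_decay p _ (contDiff_expShift k A) (periodic_expShift k A)

theorem shear_symm_apply (k : ℕ) (A : ℝ) (x : T2) :
    (shearHomeo (shiftFun k A) (continuous_shiftFun k A)).symm x =
      shearHomeo (shiftFun k (-A)) (continuous_shiftFun k (-A)) x := by
  change ![x 0, x 1 - shiftFun k A (x 0)] = ![x 0, x 1 + shiftFun k (-A) (x 0)]
  have h1 : shiftFun k (-A) (x 0) = - shiftFun k A (x 0) := by
    unfold shiftFun
    rw [neg_mul, AddCircle.coe_neg]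
  rw [h1, sub_eq_add_neg]

/-- The shear `(x₀, x₁) ↦ (x₀, x₁ + A ((1 + cos (2π x₀)) / 2)^k)` as an element of
`𝒟^s_μ(T²)`. -/
noncomputable def shearDiff (s : ℝ) (hs : 0 ≤ s) (k : ℕ) (A : ℝ) : SDiff s where
  toHomeo := shearHomeo (shiftFun k A) (continuous_shiftFun k A)
  measurePreserving := shear_measurePreserving _ _
  sobolev := hs_shear_lt_top s hs _ _ (decay_expShift k A)
  sobolev_symm := by
    simp_rw [shear_symm_apply]
    exact hs_shear_lt_top s hs _ _ (decay_expShift k (-A))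

theorem shearDiff_zero (s : ℝ) (hs : 0 ≤ s) (k : ℕ) :
    (shearDiff s hs k 0).toHomeo = Homeomorph.refl T2 := by
  ext x i
  change (![x 0, x 1 + shiftFun k 0 (x 0)] : T2) i = x i
  have h1 : shiftFun k 0 (x 0) = 0 := by
    unfold shiftFun
    rw [zero_mul]; rfl
  rw [h1, add_zero]
  fin_cases i <;> rfl

theorem shearDiff_half (s : ℝ) (hs : 0 ≤ s) (k : ℕ) :
    (shearDiff s hs k (1 / 2)).toHomeo 0 = ![0, ((1 / 2 : ℝ) : UnitAddCircle)] := by
  change (![(0 : T2) 0, (0 : T2) 1 + shiftFun k (1 / 2) ((0 : T2) 0)] : T2) = _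
  simp only [Pi.zero_apply, zero_add]
  unfold shiftFun
  rw [prof_zero, mul_one]

theorem half_ne_zero : (![0, ((1 / 2 : ℝ) : UnitAddCircle)] : T2) ≠ 0 := by
  intro h
  have h1 : ((1 / 2 : ℝ) : UnitAddCircle) = 0 := congrFun h 1
  rw [AddCircle.coe_eq_zero_iff] at h1
  obtain ⟨n, hn⟩ := h1
  have h2 : (2 * n : ℝ) = 1 := by
    rw [zsmul_eq_mul, mul_one] at hn
    linarith
  have h3 : 2 * n = 1 := by exact_mod_cast h2
  omega

theorem contDiff_C2 {F : Type*} [NormedAddCommGroup F] [NormedSpace ℝ F] (f : F → C2)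
    (h : ∀ j, ContDiff ℝ ∞ fun p => (f p).co j) : ContDiff ℝ ∞ f := by
  have h1 : ContDiff ℝ ∞ (fun p => (show PiLp 2 (fun _ : Fin 2 => ℂ) from f p)) := by
    rw [contDiff_piLp]
    exact h
  exact h1

theorem smoothCurve_shear (s : ℝ) (hs : 0 ≤ s) (k : ℕ) (A : ℝ → ℝ) (hA : ContDiff ℝ ∞ A) :
    SmoothCurve fun t => shearDiff s hs k (A t) := by
  unfold SmoothCurve
  apply contDiff_C2
  intro j
  fin_cases j
  · have h1 : (fun p : ℝ × (Fin 2 → ℝ) => (emb ((shearDiff s hs k (A p.1)).toHomeo fun i =>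
        ((p.2 i : ℝ) : UnitAddCircle))).co 0) = fun p => ((2 * Real.pi : ℝ) : ℂ)⁻¹ *
          Complex.exp (2 * Real.pi * Complex.I * (p.2 0 : ℝ)) := by
      funext p
      change ((2 * Real.pi : ℝ) : ℂ)⁻¹ * ch ((p.2 0 : ℝ) : UnitAddCircle) = _
      rw [ch_coe]
    change ContDiff ℝ ∞ (fun p : ℝ × (Fin 2 → ℝ) => (emb ((shearDiff s hs k (A p.1)).toHomeo
        fun i => ((p.2 i : ℝ) : UnitAddCircle))).co 0)
    rw [h1]
    apply contDiff_const.mul
    apply ContDiff.cexp
    apply contDiff_const.mul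
    apply Complex.ofRealCLM.contDiff.comp
    fun_prop
  · have h1 : (fun p : ℝ × (Fin 2 → ℝ) => (emb ((shearDiff s hs k (A p.1)).toHomeo fun i =>
        ((p.2 i : ℝ) : UnitAddCircle))).co 1) = fun p => ((2 * Real.pi : ℝ) : ℂ)⁻¹ *
          Complex.exp (2 * Real.pi * Complex.I * ((p.2 1 + A p.1 *
            ((1 + Real.cos (2 * Real.pi * p.2 0)) / 2) ^ k : ℝ) : ℂ)) := by
      funext p
      change ((2 * Real.pi : ℝ) : ℂ)⁻¹ * ch (((p.2 1 : ℝ) : UnitAddCircle) +
        shiftFun k (A p.1) ((p.2 0 : ℝ) : UnitAddCircle)) = _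
      rw [shiftFun, ← AddCircle.coe_add, ch_coe, prof_coe]
    change ContDiff ℝ ∞ (fun p : ℝ × (Fin 2 → ℝ) => (emb ((shearDiff s hs k (A p.1)).toHomeo
        fun i => ((p.2 i : ℝ) : UnitAddCircle))).co 1)
    rw [h1]
    apply contDiff_const.mul
    apply ContDiff.cexp
    apply contDiff_const.mul
    have h2 : ContDiff ℝ ∞ fun p : ℝ × (Fin 2 → ℝ) =>
        p.2 1 + A p.1 * ((1 + Real.cos (2 * Real.pi * p.2 0)) / 2) ^ k := by
      fun_prop
    exact Complex.ofRealCLM.contDiff.comp h2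

/-- The `L²` size of the profile. -/
noncomputable def profC (k : ℕ) : C(T2, ℝ) :=
  ⟨fun x => prof k (x 0), (continuous_prof k).comp (continuous_apply 0)⟩

/-- The `L²` size of the profile. -/
noncomputable def gsize (k : ℕ) : ℝ := ‖ContinuousMap.toLp (E := ℝ) 2 (volume : Measure T2) ℝ (profC k)‖

theorem gsize_sq (k : ℕ) : gsize k ^ 2 =
    ∫ x in (0 : ℝ)..1, (((1 + Real.cos (2 * Real.pi * x)) / 2) ^ k) ^ 2 := by
  unfold gsize
  rw [← real_inner_self_eq_norm_sq, L2.inner_def]
  have h1 : ∫ x : T2, inner ℝ ((ContinuousMap.toLp (E := ℝ) 2 (volume : Measure T2) ℝ (profC k)) x)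
      ((ContinuousMap.toLp (E := ℝ) 2 (volume : Measure T2) ℝ (profC k)) x) =
      ∫ x : T2, prof k (x 0) ^ 2 := by
    apply integral_congr_ae
    filter_upwards [ContinuousMap.coeFn_toLp (p := 2) (𝕜 := ℝ) (volume : Measure T2) (profC k)]
      with x hx
    rw [hx, real_inner_self_eq_norm_sq, Real.norm_eq_abs, sq_abs]
    rfl
  rw [h1]
  have h2 := integral_fintype_prod_volume_eq_prod (ι := Fin 2) (E := fun _ => UnitAddCircle)
    (𝕜 := ℝ) (fun i x => if i = 0 then prof k x ^ 2 else 1)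
  rw [Fin.prod_univ_two] at h2
  simp only [if_true, Fin.isValue, one_ne_zero, if_false] at h2
  have h3 : ∫ x : T2, prof k (x 0) ^ 2 =
      ∫ x : Fin 2 → UnitAddCircle, ∏ i, (if i = 0 then prof k (x i) ^ 2 else 1) := by
    congr 1
    funext x
    rw [Fin.prod_univ_two]
    simp
  rw [h3, h2]
  have h4 : ∫ x : UnitAddCircle, (1 : ℝ) = 1 := by
    rw [integral_const, smul_eq_mul, mul_one]
    simp [Measure.real]
  rw [h4, mul_one, ← UnitAddCircle.intervalIntegral_preimage 0, zero_add]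
  refine intervalIntegral.integral_congr fun x _ => ?_
  change prof k (x : UnitAddCircle) ^ 2 = _
  rw [prof_coe]

theorem gsize_nonneg (k : ℕ) : 0 ≤ gsize k := norm_nonneg _

theorem tendsto_gsize : Tendsto gsize atTop (𝓝 0) := by
  have h1 : Tendsto (fun k => gsize k ^ 2) atTop (𝓝 0) := by
    simp_rw [gsize_sq]
    have h0 : ∫ x in (0 : ℝ)..1, (0 : ℝ) = 0 := by simp
    have hmain : Tendsto (fun k : ℕ => ∫ x in (0 : ℝ)..1,
        (((1 + Real.cos (2 * Real.pi * x)) / 2) ^ k) ^ 2) atTop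
          (𝓝 (∫ x in (0 : ℝ)..1, (0 : ℝ))) := ?_
    · rwa [h0] at hmain
    apply intervalIntegral.tendsto_integral_filter_of_dominated_convergence (fun _ => (1 : ℝ))
    · refine Filter.Eventually.of_forall fun k => ?_
      apply Continuous.aestronglyMeasurable
      fun_prop
    · refine Filter.Eventually.of_forall fun k => Filter.Eventually.of_forall fun x _ => ?_
      rw [Real.norm_of_nonneg (by positivity)]
      have h2 := Real.neg_one_le_cos (2 * Real.pi * x)
      have h3 := Real.cos_le_one (2 * Real.pi * x)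
      exact pow_le_one₀ (pow_nonneg (by linarith) _) (pow_le_one₀ (by linarith) (by linarith))
    · exact continuous_const.intervalIntegrable 0 1
    · have h2 : ∀ᵐ x : ℝ, x ≠ 1 := by simp [ae_iff, measure_singleton]
      filter_upwards [h2] with x hx1 hx
      rw [uIoc_of_le zero_le_one] at hx
      have hx2 : x < 1 := lt_of_le_of_ne hx.2 hx1
      have h3 : Real.cos (2 * Real.pi * x) < 1 := by
        rcases lt_or_eq_of_le (Real.cos_le_one (2 * Real.pi * x)) with h | h
        · exact h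
        · exfalso
          rw [Real.cos_eq_one_iff_of_lt_of_lt] at h
          · have h4 : (0 : ℝ) < 2 * Real.pi * x := by
              have := hx.1
              positivity
            linarith
          · have := hx.1
            nlinarith [Real.pi_pos]
          · nlinarith [Real.pi_pos]
      have h4 := Real.neg_one_le_cos (2 * Real.pi * x)
      have h5 : Tendsto (fun k : ℕ => ((1 + Real.cos (2 * Real.pi * x)) / 2) ^ k) atTop (𝓝 0) :=
        tendsto_pow_atTop_nhds_zero_of_lt_one (by linarith) (by linarith)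
      have h6 := h5.pow 2
      simpa using h6
  have h2 := (Real.continuous_sqrt.tendsto 0).comp h1
  rw [Real.sqrt_zero] at h2
  refine h2.congr fun k => ?_
  simp only [Function.comp]
  exact Real.sqrt_sq (gsize_nonneg k)

end Pool.Agent.Helper115.PS
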