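import Pool.Agent.Helper115.PSn

set_option autoImplicit false

namespace Pool.Agent.Helper115.PS

open MeasureTheory Set Filter Topology
open scoped ENNReal ContDiff

/-- The generator of the shear. -/
noncomputable def genS (k : ℕ) : C(T2, ℂ) :=
  ⟨fun x => ((2 * Real.pi * prof k (x 0) : ℝ) : ℂ) * Complex.I, by
    have h1 : Continuous fun x : T2 => 2 * Real.pi * prof k (x 0) :=
      continuous_const.mul ((continuous_prof k).comp (continuous_apply 0))
    exact (Complex.continuous_ofReal.comp h1).mul continuous_const⟩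

/-- The second coordinate of the embedding. -/
noncomputable def genX : C(T2, ℂ) :=
  ⟨fun x => ((2 * Real.pi : ℝ) : ℂ)⁻¹ * ch (x 1),
    continuous_const.mul (continuous_ch.comp (continuous_apply 1))⟩

/-- The inclusion of functions as second coordinate. -/
noncomputable def inc1 : ℂ →L[ℝ] C2 :=
  show ℂ →L[ℝ] PiLp 2 (fun _ : Fin 2 => ℂ) from
  ((PiLp.continuousLinearEquiv 2 ℝ (fun _ : Fin 2 => ℂ)).symm :
    (Fin 2 → ℂ) →L[ℝ] PiLp 2 (fun _ : Fin 2 => ℂ)).comp
    (ContinuousLinearMap.single ℝ (fun _ : Fin 2 => ℂ) 1)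

theorem inc1_zero (z : ℂ) : (inc1 z).co 0 = 0 := by
  change (Pi.single 1 z : Fin 2 → ℂ) 0 = 0
  simp

theorem inc1_one (z : ℂ) : (inc1 z).co 1 = z := by
  change (Pi.single 1 z : Fin 2 → ℂ) 1 = z
  simp

/-- Continuous functions as elements of `L²`. -/
noncomputable def toL2T : C(T2, C2) →L[ℝ] L2T :=
  show C(T2, C2) →L[ℝ] Lp C2 2 (volume : Measure T2) from
    ContinuousMap.toLp (E := C2) 2 (volume : Measure T2) ℝ

/-- The map to `L²`. -/
noncomputable def Lam : C(T2, ℂ) →L[ℝ] L2T :=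
  toL2T.comp (inc1.compLeftContinuous ℝ T2)

/-- Iterated derivatives of the shear curve. -/
noncomputable def PP (k m : ℕ) (a : ℝ) : L2T :=
  Lam (genX * genS k ^ m * NormedSpace.exp (a • genS k))

theorem hasDerivAt_PP (k m : ℕ) (a : ℝ) : HasDerivAt (PP k m) (PP k (m + 1) a) a := by
  have h1 : HasDerivAt (fun a : ℝ => NormedSpace.exp (a • genS k))
      (NormedSpace.exp (a • genS k) * genS k) a := hasDerivAt_exp_smul_const (genS k) a
  have h2 := (h1.const_mul (genX * genS k ^ m))
  have h3 := Lam.hasFDerivAt.comp_hasDerivAt a h2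
  have h4 : genX * genS k ^ m * (NormedSpace.exp (a • genS k) * genS k) =
      genX * genS k ^ (m + 1) * NormedSpace.exp (a • genS k) := by
    rw [pow_succ]; ring
  rw [h4] at h3
  exact h3

theorem exp_genS_apply (k : ℕ) (a : ℝ) (x : T2) :
    (NormedSpace.exp (a • genS k)) x =
      Complex.exp (((2 * Real.pi * (a * prof k (x 0)) : ℝ) : ℂ) * Complex.I) := by
  have h1 : (NormedSpace.exp (a • genS k)) x = NormedSpace.exp ((a • genS k) x) := by
    exact NormedSpace.map_exp (ContinuousMap.evalAlgHom ℂ ℂ x) (by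
      exact continuous_eval_const x) (a • genS k)
  rw [h1, Complex.exp_eq_exp_ℂ]
  congr 1
  simp only [ContinuousMap.smul_apply, genS, ContinuousMap.coe_mk, Complex.real_smul]
  push_cast
  ring

/-- The constant part. -/
noncomputable def partC : C(T2, C2) :=
  ⟨fun x => (show PiLp 2 (fun _ : Fin 2 => ℂ) from
      WithLp.toLp 2 ![((2 * Real.pi : ℝ) : ℂ)⁻¹ * ch (x 0), 0]), by
    apply (PiLp.continuous_toLp 2 (fun _ : Fin 2 => ℂ)).comp
    apply continuous_pi
    intro j
    fin_cases j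
    · exact continuous_const.mul (continuous_ch.comp (continuous_apply 0))
    · exact continuous_const⟩

theorem toL2_eq {s : ℝ} (η : SDiff s) : η.toL2 =
    toL2T ⟨fun x => emb (η.toHomeo x), continuous_emb.comp η.toHomeo.continuous⟩ := rfl

theorem toL2_shear (s : ℝ) (hs : 0 ≤ s) (k : ℕ) (A : ℝ) :
    (shearDiff s hs k A).toL2 = toL2T partC + PP k 0 A := by
  rw [toL2_eq]
  unfold PP Lam
  rw [ContinuousLinearMap.comp_apply, ← map_add]
  congr 1
  ext x
  apply C2.ext'
  intro j
  have h1 : ((inc1.compLeftContinuous ℝ T2)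
      (genX * genS k ^ 0 * NormedSpace.exp (A • genS k))) x =
      inc1 (genX x * (NormedSpace.exp (A • genS k)) x) := by
    simp
  rw [ContinuousMap.add_apply, h1, exp_genS_apply]
  change (emb (shearHomeo (shiftFun k A) (continuous_shiftFun k A) x)).co j = _
  fin_cases j
  · change ((2 * Real.pi : ℝ) : ℂ)⁻¹ * ch (x 0) = ((2 * Real.pi : ℝ) : ℂ)⁻¹ * ch (x 0) +
      (inc1 _).co 0
    rw [inc1_zero, add_zero]
  · change ((2 * Real.pi : ℝ) : ℂ)⁻¹ * ch (x 1 + shiftFun k A (x 0)) = 0 +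
      (inc1 _).co 1
    rw [inc1_one, ch_add, zero_add]
    have h2 : ch (shiftFun k A (x 0)) =
        Complex.exp (((2 * Real.pi * (A * prof k (x 0)) : ℝ) : ℂ) * Complex.I) := by
      rw [shiftFun, ch_coe]
      congr 1
      push_cast
      ring
    rw [h2]
    simp only [genX, ContinuousMap.coe_mk]
    ring

theorem norm_PP_le (k m : ℕ) (hm : 1 ≤ m) (a : ℝ) :
    ‖PP k m a‖ ≤ (2 * Real.pi) ^ m * gsize k := by
  unfold PP Lam gsize
  rw [ContinuousLinearMap.comp_apply]
  change ‖ContinuousMap.toLp (E := C2) 2 (volume : Measure T2) ℝ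
    ((inc1.compLeftContinuous ℝ T2) (genX * genS k ^ m * NormedSpace.exp (a • genS k)))‖ ≤ _
  apply Lp.norm_le_mul_norm_of_ae_le_mul
  filter_upwards [ContinuousMap.coeFn_toLp (p := 2) (𝕜 := ℝ) (volume : Measure T2) (profC k),
    ContinuousMap.coeFn_toLp (E := C2) (p := 2) (𝕜 := ℝ) (volume : Measure T2)
      ((inc1.compLeftContinuous ℝ T2) (genX * genS k ^ m * NormedSpace.exp (a • genS k)))]
    with x hx1 hx2
  rw [hx1, hx2]
  have h0 : ((inc1.compLeftContinuous ℝ T2)
      (genX * genS k ^ m * NormedSpace.exp (a • genS k))) x =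
      inc1 (genX x * genS k x ^ m * (NormedSpace.exp (a • genS k)) x) := by
    simp
  rw [h0, exp_genS_apply]
  have hn : ∀ z : ℂ, ‖inc1 z‖ = ‖z‖ := by
    intro z
    have h1 := norm_sq_C2 (inc1 z)
    rw [inc1_zero, inc1_one, norm_zero, zero_pow two_ne_zero, zero_add] at h1
    exact (pow_left_inj₀ (norm_nonneg _) (norm_nonneg _) two_ne_zero).mp h1
  rw [hn, norm_mul, Complex.norm_exp_ofReal_mul_I, mul_one, norm_mul, norm_pow]
  have hp0 := prof_nonneg k (x 0)
  have hp1 := prof_le_one k (x 0)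
  have h1 : ‖genX x‖ ≤ 1 := by
    simp only [genX, ContinuousMap.coe_mk]
    rw [norm_mul, norm_ch, mul_one, norm_inv, Complex.norm_real,
      Real.norm_of_nonneg (by positivity)]
    apply inv_le_one_of_one_le₀
    linarith [Real.pi_gt_three]
  have h2 : ‖genS k x‖ = 2 * Real.pi * prof k (x 0) := by
    simp only [genS, ContinuousMap.coe_mk]
    rw [norm_mul, Complex.norm_I, mul_one, Complex.norm_real, Real.norm_eq_abs, abs_mul,
      abs_of_pos (by positivity : (0 : ℝ) < 2 * Real.pi), abs_of_nonneg hp0]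
  have h3 : ‖(profC k) x‖ = prof k (x 0) := by
    simp only [profC, ContinuousMap.coe_mk]
    exact Real.norm_of_nonneg hp0
  rw [h2, h3, mul_pow]
  have h4 : prof k (x 0) ^ m ≤ prof k (x 0) := by
    calc prof k (x 0) ^ m ≤ prof k (x 0) ^ 1 := pow_le_pow_of_le_one hp0 hp1 hm
      _ = _ := pow_one _
  calc ‖genX x‖ * ((2 * Real.pi) ^ m * prof k (x 0) ^ m) ≤
        1 * ((2 * Real.pi) ^ m * prof k (x 0)) := by
        apply mul_le_mul h1 _ (by positivity) zero_le_one
        exact mul_le_mul_of_nonneg_left h4 (by positivity)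
    _ = _ := one_mul _

/-- The amplitude `2 t (1 - t)`. -/
noncomputable def amp (t : ℝ) : ℝ := 2 * (t * (1 - t))

/-- First and second derivative of the loop in `L²`. -/
noncomputable def vel1 (k : ℕ) (t : ℝ) : L2T :=
  (2 * (1 - 2 * t)) • PP k 1 (amp t)

/-- Second derivative. -/
noncomputable def acc1 (k : ℕ) (t : ℝ) : L2T :=
  (2 * (1 - 2 * t)) • ((2 * (1 - 2 * t)) • PP k 2 (amp t)) +
    (-4 : ℝ) • PP k 1 (amp t)

theorem hasDerivAt_amp (t : ℝ) : HasDerivAt amp (2 * (1 - 2 * t)) t := by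
  unfold amp
  have h1 : HasDerivAt (fun t : ℝ => t * (1 - t)) (1 * (1 - t) + t * (-1)) t :=
    (hasDerivAt_id t).mul ((hasDerivAt_id t).const_sub 1)
  refine (h1.const_mul 2).congr_deriv ?_
  ring

/-- The loop of shears. -/
noncomputable def loop (s : ℝ) (hs : 0 ≤ s) (k : ℕ) (t : ℝ) : SDiff s := shearDiff s hs k (amp t)

theorem hasDerivAt_loop (s : ℝ) (hs : 0 ≤ s) (k : ℕ) (t : ℝ) :
    HasDerivAt (fun t => (loop s hs k t).toL2) (vel1 k t) t := by
  have h0 : (fun t => (loop s hs k t).toL2) = fun t =>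
      toL2T partC + PP k 0 (amp t) := by
    funext t
    exact toL2_shear s hs k (amp t)
  rw [h0]
  exact ((hasDerivAt_PP k 0 (amp t)).scomp t (hasDerivAt_amp t)).const_add _

theorem hasDerivAt_vel1 (k : ℕ) (t : ℝ) : HasDerivAt (vel1 k) (acc1 k t) t := by
  have h1 : HasDerivAt (fun t : ℝ => 2 * (1 - 2 * t)) (-4) t := by
    have h2 : HasDerivAt (fun t : ℝ => 1 - 2 * t) (-(2 * 1)) t :=
      ((hasDerivAt_id t).const_mul 2).const_sub 1
    refine (h2.const_mul 2).congr_deriv ?_
    ring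
  exact h1.smul ((hasDerivAt_PP k 1 (amp t)).scomp t (hasDerivAt_amp t))

theorem continuous_acc1 (k : ℕ) : Continuous (acc1 k) := by
  have h1 : Continuous (amp) := continuous_iff_continuousAt.mpr fun t =>
    (hasDerivAt_amp t).continuousAt
  have h2 : ∀ m, Continuous (PP k m) := fun m => continuous_iff_continuousAt.mpr fun t =>
    (hasDerivAt_PP k m t).continuousAt
  unfold acc1
  have h3 : Continuous fun t : ℝ => 2 * (1 - 2 * t) := by fun_prop
  have h4 : Continuous fun _ : ℝ => (-4 : ℝ) := continuous_const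
  exact (h3.smul (h3.smul ((h2 2).comp h1))).add (h4.smul ((h2 1).comp h1))

end Pool.Agent.Helper115.PS
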