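import Pool.Agent.Helper115.PSo

set_option autoImplicit false

namespace Pool.Agent.Helper115.PS

open MeasureTheory Set Filter Topology
open scoped ENNReal ContDiff

theorem velocity_loop (s : ℝ) (hs : 0 ≤ s) (k : ℕ) (t : ℝ) :
    velocity (loop s hs k) t = vel1 k t := (hasDerivAt_loop s hs k t).deriv

theorem continuous_vel1 (k : ℕ) : Continuous (vel1 k) :=
  continuous_iff_continuousAt.mpr fun t => (hasDerivAt_vel1 k t).continuousAt

theorem finiteEnergy_loop (s : ℝ) (hs : 0 ≤ s) (k : ℕ) : FiniteEnergy (loop s hs k) := by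
  have h0 : velocity (loop s hs k) = vel1 k := funext (velocity_loop s hs k)
  constructor
  · rw [h0]
    rw [memLp_two_iff_integrable_sq_norm (continuous_vel1 k).aestronglyMeasurable]
    exact ((continuous_vel1 k).norm.pow 2).continuousOn.integrableOn_compact isCompact_Icc
  · intro t _
    rw [h0, intervalIntegral.integral_eq_sub_of_hasDerivAt
      (fun x _ => hasDerivAt_loop s hs k x) ((continuous_vel1 k).intervalIntegrable 0 t)]
    abel

theorem loop_zero (s : ℝ) (hs : 0 ≤ s) (k : ℕ) :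
    (loop s hs k 0).toHomeo = Homeomorph.refl T2 := by
  have h1 : amp 0 = 0 := by simp [amp]
  rw [loop, h1]
  exact shearDiff_zero s hs k

theorem loop_one (s : ℝ) (hs : 0 ≤ s) (k : ℕ) :
    (loop s hs k 1).toHomeo = Homeomorph.refl T2 := by
  have h1 : amp 1 = 0 := by simp [amp]
  rw [loop, h1]
  exact shearDiff_zero s hs k

theorem loop_half (s : ℝ) (hs : 0 ≤ s) (k : ℕ) :
    (loop s hs k (1 / 2)).toHomeo 0 = ![0, ((1 / 2 : ℝ) : UnitAddCircle)] := by
  have h1 : amp (1 / 2) = 1 / 2 := by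
    unfold amp
    ring
  rw [loop, h1]
  exact shearDiff_half s hs k

theorem smooth_loop (s : ℝ) (hs : 0 ≤ s) (k : ℕ) : SmoothCurve (loop s hs k) := by
  apply smoothCurve_shear
  unfold amp
  fun_prop

theorem abs_le_of_mem (t : ℝ) (ht : t ∈ Icc (0 : ℝ) 1) : |2 * (1 - 2 * t)| ≤ 2 := by
  rw [abs_le]
  constructor <;> linarith [ht.1, ht.2]

/-- The constant in the bounds. -/
noncomputable def bigC : ℝ := 4 * (2 * Real.pi) ^ 2 + 4 * (2 * Real.pi)

theorem bigC_nonneg : 0 ≤ bigC := by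
  unfold bigC
  positivity

theorem norm_acc1_le (k : ℕ) (t : ℝ) (ht : t ∈ Icc (0 : ℝ) 1) :
    ‖acc1 k t‖ ≤ bigC * gsize k := by
  have h1 := abs_le_of_mem t ht
  have h2 := norm_PP_le k 2 (by norm_num) (amp t)
  have h3 := norm_PP_le k 1 le_rfl (amp t)
  rw [pow_one] at h3
  unfold acc1
  refine (norm_add_le _ _).trans ?_
  rw [norm_smul, norm_smul, norm_smul, Real.norm_eq_abs, Real.norm_eq_abs, abs_neg,
    abs_of_nonneg (by norm_num : (0 : ℝ) ≤ 4)]
  have hg := gsize_nonneg k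
  have h5 : |2 * (1 - 2 * t)| * (|2 * (1 - 2 * t)| * ‖PP k 2 (amp t)‖) ≤
      2 * (2 * ((2 * Real.pi) ^ 2 * gsize k)) := by
    apply mul_le_mul h1 _ (by positivity) (by norm_num)
    apply mul_le_mul h1 h2 (norm_nonneg _) (by norm_num)
  unfold bigC
  nlinarith

theorem energy_loop_le (s : ℝ) (hs : 0 ≤ s) (k : ℕ) :
    energy (loop s hs k) ≤ bigC ^ 2 * gsize k ^ 2 := by
  have h0 : velocity (loop s hs k) = vel1 k := funext (velocity_loop s hs k)
  unfold energy
  rw [h0]
  have hg := gsize_nonneg k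
  have h1 : ∀ t ∈ Icc (0 : ℝ) 1, ‖vel1 k t‖ ^ 2 ≤ bigC ^ 2 * gsize k ^ 2 := by
    intro t ht
    have h2 : ‖vel1 k t‖ ≤ bigC * gsize k := by
      unfold vel1
      rw [norm_smul, Real.norm_eq_abs]
      have h3 := norm_PP_le k 1 le_rfl (amp t)
      rw [pow_one] at h3
      calc _ ≤ 2 * ((2 * Real.pi) * gsize k) :=
            mul_le_mul (abs_le_of_mem t ht) h3 (norm_nonneg _) (by norm_num)
        _ = (2 * (2 * Real.pi)) * gsize k := by ring
        _ ≤ bigC * gsize k := by
            apply mul_le_mul_of_nonneg_right _ hg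
            unfold bigC
            nlinarith [Real.pi_pos]
    calc ‖vel1 k t‖ ^ 2 ≤ (bigC * gsize k) ^ 2 := pow_le_pow_left₀ (norm_nonneg _) h2 2
      _ = _ := mul_pow _ _ _
  have h2 : ∫ t in (0 : ℝ)..1, ‖vel1 k t‖ ^ 2 ≤ ∫ t in (0 : ℝ)..1, bigC ^ 2 * gsize k ^ 2 :=
    intervalIntegral.integral_mono_on zero_le_one
      (((continuous_vel1 k).norm.pow 2).intervalIntegrable 0 1)
      (continuous_const.intervalIntegrable 0 1) h1
  rw [intervalIntegral.integral_const, sub_zero, one_smul] at h2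
  have h3 : 0 ≤ bigC ^ 2 * gsize k ^ 2 := by positivity
  linarith

theorem energy_nonneg {s : ℝ} (c : ℝ → SDiff s) : 0 ≤ energy c := by
  unfold energy
  have h1 : 0 ≤ ∫ t in (0 : ℝ)..1, ‖velocity c t‖ ^ 2 :=
    intervalIntegral.integral_nonneg zero_le_one fun t _ => by positivity
  linarith

/-- The energy only depends on the curve on `[0, 1]`. -/
theorem energy_congr {s : ℝ} (c c' : ℝ → SDiff s) (h : ∀ t ∈ Icc (0 : ℝ) 1, c t = c' t) :
    energy c = energy c' := by
  unfold energy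
  congr 1
  rw [intervalIntegral.integral_of_le zero_le_one, intervalIntegral.integral_of_le zero_le_one,
    integral_Ioc_eq_integral_Ioo, integral_Ioc_eq_integral_Ioo]
  apply setIntegral_congr_fun measurableSet_Ioo
  intro t ht
  have h1 : (fun τ => (c τ).toL2) =ᶠ[𝓝 t] fun τ => (c' τ).toL2 := by
    filter_upwards [Ioo_mem_nhds ht.1 ht.2] with τ hτ
    rw [h τ ⟨hτ.1.le, hτ.2.le⟩]
  simp only [velocity, h1.deriv_eq]

end Pool.Agent.Helper115.PS
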