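import Pool.Agent.Helper115.PSa2
import Pool.Agent.Helper115.PSb
import Pool.Agent.Helper115.PSp
import Pool.Agent.Helper115.PSl

set_option autoImplicit false

namespace Pool.Agent.Helper115.PS

open MeasureTheory Set Filter Topology Manifold
open scoped ENNReal ContDiff

variable {E : Type*} [NormedAddCommGroup E] [NormedSpace ℝ E]
  {Ω : Type*} [TopologicalSpace Ω] [ChartedSpace E Ω]

/-- The `C¹` manifold `Ω`, with the curve `γ x` attached to every point `x`, is a manifold of curves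
of finite energy in `𝒟^s_μ(T²)` from the identity to `φ`, with Finsler norms `N` on its tangent
spaces. -/
structure IsCurveManifold [IsManifold 𝓘(ℝ, E) 1 Ω] (s : ℝ) (φ : T2 ≃ₜ T2) (γ : Ω → ℝ → SDiff s)
    (N : Ω → E → ℝ) : Prop where
  /-- the curves start at the identity -/
  start : ∀ x, (γ x 0).toHomeo = Homeomorph.refl T2
  /-- the curves end at `φ` -/
  finish : ∀ x, (γ x 1).toHomeo = φ
  /-- the curves have finite energy -/
  finiteEnergy : ∀ x, FiniteEnergy (γ x)
  /-- every smooth curve from the identity to `φ` belongs to `Ω` -/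
  smooth_mem : ∀ c : ℝ → SDiff s, SmoothCurve c → (c 0).toHomeo = Homeomorph.refl T2 →
    (c 1).toHomeo = φ → ∃ x, ∀ t ∈ Icc (0 : ℝ) 1, γ x t = c t
  /-- the position at time `t` of every particle `p` depends continuously on the curve -/
  eval_continuous : ∀ t ∈ Icc (0 : ℝ) 1, ∀ p : T2, Continuous fun x => (γ x t).toHomeo p
  /-- the energy is a `C¹` function on `Ω` -/
  energy_C1 : ContMDiff 𝓘(ℝ, E) 𝓘(ℝ, ℝ) 1 fun x => energy (γ x)
  /-- the norms on the tangent spaces form a Finsler structure -/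
  finsler : IsFin N

/-- The Finsler length controls the average over time of the `L²` distance of the curves. -/
def ControlsL2 {s : ℝ} (γ : Ω → ℝ → SDiff s) (N : Ω → E → ℝ) : Prop :=
  ∃ C : ℝ, ∀ (σ : ℝ → Ω) (a b : ℝ), a ≤ b → ContMDiffOn 𝓘(ℝ, ℝ) 𝓘(ℝ, E) 1 σ (Icc a b) →
    ENNReal.ofReal (∫ t in (0 : ℝ)..1, ‖(γ (σ b) t).toL2 - (γ (σ a) t).toL2‖) ≤
      ENNReal.ofReal C * len N σ a b

/-- The Finsler structure is complete: there is a complete metric on `Ω` that induces its topology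
and is bounded by the Finsler length of curves. -/
def IsCompleteFinsler (N : Ω → E → ℝ) : Prop :=
  ∃ m : PseudoEMetricSpace Ω, m.toUniformSpace.toTopologicalSpace = ‹TopologicalSpace Ω› ∧
    @CompleteSpace Ω m.toUniformSpace ∧
    ∀ (σ : ℝ → Ω) (a b : ℝ), a ≤ b → ContMDiffOn 𝓘(ℝ, ℝ) 𝓘(ℝ, E) 1 σ (Icc a b) →
      m.edist (σ a) (σ b) ≤ len N σ a b

/-- The Palais-Smale condition for `f`: every sequence with `f (x k)` bounded and
`‖df (x k)‖ → 0` has a convergent subsequence. -/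
def PalaisSmale (N : Ω → E → ℝ) (f : Ω → ℝ) : Prop :=
  ∀ x : ℕ → Ω, (∃ B : ℝ, ∀ k, |f (x k)| ≤ B) →
    (∀ ε : ℝ, 0 < ε → ∀ᶠ k in atTop, ∀ v, |dif f (x k) v| ≤ ε * N (x k) v) →
    ∃ (y : Ω) (ψ : ℕ → ℕ), StrictMono ψ ∧ Tendsto (x ∘ ψ) atTop (𝓝 y)

section
variable [IsManifold 𝓘(ℝ, E) 1 Ω] {s : ℝ} (hs : 0 ≤ s) {γ : Ω → ℝ → SDiff s}
  {N : Ω → E → ℝ}
  (h : IsCurveManifold s (Homeomorph.refl T2) γ N)

include h

theorem exists_loops : ∃ x : ℕ → Ω, ∀ k, ∀ t ∈ Icc (0 : ℝ) 1,
    γ (x k) t = loop s hs k t := by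
  have h1 : ∀ k : ℕ, ∃ x, ∀ t ∈ Icc (0 : ℝ) 1, γ x t = loop s hs k t := fun k =>
    h.smooth_mem _ (smooth_loop s hs k) (loop_zero _ _ k) (loop_one _ _ k)
  choose x hx using h1
  exact ⟨x, hx⟩

theorem no_limit (x : ℕ → Ω) (hx : ∀ k, ∀ t ∈ Icc (0 : ℝ) 1, γ (x k) t = loop s hs k t)
    (ψ : ℕ → ℕ) (y : Ω) (hy : Tendsto (x ∘ ψ) atTop (𝓝 y))
    (hE : energy (γ y) = 0) : False := by
  have hh : (1 / 2 : ℝ) ∈ Icc (0 : ℝ) 1 := by constructor <;> norm_num
  have h1 : γ y (1 / 2) = γ y 0 := eq_of_energy_eq_zero _ (h.finiteEnergy y) hE (1 / 2) hh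
  have h2 : (γ y (1 / 2)).toHomeo 0 = 0 := by
    rw [h1, h.start y]; rfl
  have h3 := ((h.eval_continuous (1 / 2) hh 0).tendsto y).comp hy
  rw [h2] at h3
  have h4 : Tendsto (fun _ : ℕ => (![0, ((1 / 2 : ℝ) : UnitAddCircle)] : T2)) atTop (𝓝 0) := by
    refine h3.congr fun j => ?_
    simp only [Function.comp]
    rw [hx (ψ j) (1 / 2) hh, loop_half]
  exact half_ne_zero (tendsto_nhds_unique tendsto_const_nhds h4)

theorem energy_drop (x y : Ω) (k : ℕ)
    (hx : ∀ t ∈ Icc (0 : ℝ) 1, γ x t = loop s hs k t) :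
    energy (γ x) - bigC * gsize k * (∫ t in (0 : ℝ)..1, ‖(γ y t).toL2 - (γ x t).toL2‖) ≤
      energy (γ y) := by
  have h1 : energy (γ x) = 1 / 2 * ∫ t in (0 : ℝ)..1, ‖vel1 k t‖ ^ 2 := by
    have hv : velocity (loop s hs k) = vel1 k := funext (velocity_loop s hs k)
    rw [energy_congr _ (loop s hs k) hx]
    unfold energy
    rw [hv]
  have h2 : ∫ t in (0 : ℝ)..1, ‖(γ y t).toL2 - (γ x t).toL2‖ =
      ∫ t in (0 : ℝ)..1, ‖(γ y t).toL2 - (loop s hs k t).toL2‖ := by
    apply intervalIntegral.integral_congr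
    intro t ht
    rw [uIcc_of_le zero_le_one] at ht
    simp only
    rw [hx t ht]
  rw [h1, h2]
  have h3 : ∀ t, (γ y t).toHomeo = (loop s hs k t).toHomeo →
      (γ y t).toL2 = (loop s hs k t).toL2 := by
    intro t ht
    exact congrArg SDiff.toL2 (SDiff.ext' _ _ (fun p => by rw [ht]))
  exact energy_lower (fun t => (γ y t).toL2) (fun t => (loop s hs k t).toL2)
    (vel1 k) (acc1 k) (velocity (γ y)) (h.finiteEnergy y).memLp (h.finiteEnergy y).eq_integral
    (hasDerivAt_loop s hs k) (hasDerivAt_vel1 k) (continuous_acc1 k)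
    (h3 0 (by rw [h.start y, loop_zero])) (h3 1 (by rw [h.finish y, loop_one]))
    (bigC * gsize k) (norm_acc1_le k)

theorem not_ps_of_controls (hs : 0 ≤ s) (hC : ControlsL2 γ N) :
    ¬ PalaisSmale N (fun x => energy (γ x)) := by
  intro hPS
  obtain ⟨x, hx⟩ := exists_loops hs h
  obtain ⟨C, hC⟩ := hC
  have hen : ∀ k : ℕ, energy (γ (x k)) ≤ bigC ^ 2 * gsize k ^ 2 := by
    intro k
    rw [energy_congr _ _ (hx k)]
    exact energy_loop_le s hs k
  have hen0 : Tendsto (fun k => bigC ^ 2 * gsize k ^ 2) atTop (𝓝 0) := by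
    have h1 := (tendsto_gsize.pow 2).const_mul (bigC ^ 2)
    simpa using h1
  obtain ⟨y, ψ, hψ, hy⟩ := hPS x (by
    obtain ⟨B, hB⟩ := hen0.bddAbove_range
    refine ⟨B, fun k => ?_⟩
    rw [abs_of_nonneg (energy_nonneg _)]
    exact (hen k).trans (hB ⟨k, rfl⟩)) (by
    intro ε hε
    have h1 : Tendsto (fun k : ℕ => bigC * gsize k * max C 0) atTop (𝓝 0) := by
      have h2 := (tendsto_gsize.const_mul bigC).mul_const (max C 0)
      simpa using h2
    filter_upwards [h1.eventually_lt_const hε] with k hk v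
    have h6 : 0 ≤ bigC * gsize k := mul_nonneg bigC_nonneg (gsize_nonneg k)
    have h2 := slope_bound' N h.finsler (fun x => energy (γ x)) (x k)
      (h.energy_C1.mdifferentiable one_ne_zero _) (bigC * gsize k * max C 0) (by
        intro σ b hb hσ hσ0 ℓ hℓ hlen
        have h3 := energy_drop hs h (x k) (σ b) k (hx k)
        have h4 := hC σ 0 b hb.le hσ
        rw [hσ0] at h4
        have h5 : ENNReal.ofReal (∫ t in (0 : ℝ)..1,
            ‖(γ (σ b) t).toL2 - (γ (x k) t).toL2‖) ≤ ENNReal.ofReal (max C 0 * ℓ) := by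
          refine h4.trans ?_
          rw [ENNReal.ofReal_mul (le_max_right _ _)]
          exact mul_le_mul' (ENNReal.ofReal_le_ofReal (le_max_left _ _)) hlen
        rw [ENNReal.ofReal_le_ofReal_iff (mul_nonneg (le_max_right _ _) hℓ)] at h5
        have h7 := mul_le_mul_of_nonneg_left h5 h6
        rw [← mul_assoc] at h7
        exact (sub_le_sub_left h7 _).trans h3) v
    exact h2.trans (mul_le_mul_of_nonneg_right hk.le (h.finsler.nonneg _ _)))
  refine no_limit hs h x hx ψ y hy ?_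
  have h1 : Tendsto (fun j => energy (γ (x (ψ j)))) atTop (𝓝 (energy (γ y))) :=
    (h.energy_C1.continuous.tendsto y).comp hy
  refine le_antisymm (le_of_tendsto_of_tendsto h1 (hen0.comp hψ.tendsto_atTop) ?_)
    (energy_nonneg _)
  exact Filter.Eventually.of_forall fun j => hen (ψ j)

theorem not_ps_of_complete (hs : 0 ≤ s) (hC : IsCompleteFinsler N) :
    ¬ PalaisSmale N (fun x => energy (γ x)) := by
  intro hPS
  obtain ⟨x, hx⟩ := exists_loops hs h
  obtain ⟨m, htop, hcomp, hlen⟩ := hC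
  subst htop
  let _ := m
  have _ := hcomp
  have hen : ∀ k : ℕ, energy (γ (x k)) ≤ bigC ^ 2 * gsize k ^ 2 := by
    intro k
    rw [energy_congr _ _ (hx k)]
    exact energy_loop_le s hs k
  have hen0 : Tendsto (fun k => bigC ^ 2 * gsize k ^ 2) atTop (𝓝 0) := by
    have h1 := (tendsto_gsize.pow 2).const_mul (bigC ^ 2)
    simpa using h1
  -- the small parameter
  let δ : ℕ → ℝ := fun k => gsize k + 1 / ((k + 1 : ℕ) : ℝ)
  have hδpos : ∀ k, 0 < δ k := fun k => add_pos_of_nonneg_of_pos (gsize_nonneg k) (by positivity)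
  have hδ0 : Tendsto δ atTop (𝓝 0) := by
    have h1 : Tendsto (fun k : ℕ => 1 / ((k + 1 : ℕ) : ℝ)) atTop (𝓝 0) :=
      (tendsto_const_div_atTop_nhds_zero_nat 1).comp (tendsto_add_atTop_nat 1)
    have h2 := tendsto_gsize.add h1
    rwa [add_zero] at h2
  have hEcont : Continuous fun x => energy (γ x) := h.energy_C1.continuous
  have hFcont : Continuous fun x => ENNReal.ofReal (energy (γ x)) :=
    ENNReal.continuous_ofReal.comp hEcont
  have hne : ∀ k, ENNReal.ofReal (δ k) ≠ 0 := fun k => by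
    rw [Ne, ENNReal.ofReal_eq_zero, not_le]; exact hδpos k
  have hek : ∀ k : ℕ, ∃ y, ENNReal.ofReal (energy (γ y)) +
      ENNReal.ofReal (δ k) * edist (x k) y ≤ ENNReal.ofReal (energy (γ (x k))) ∧
      ∀ z, ENNReal.ofReal (energy (γ y)) ≤ ENNReal.ofReal (energy (γ z)) +
        ENNReal.ofReal (δ k) * edist y z := fun k =>
    ekeland _ hFcont (x k) ENNReal.ofReal_ne_top _ (hne k) ENNReal.ofReal_ne_top
  choose y hy1 hy2 using hek
  have hyE : ∀ k, energy (γ (y k)) ≤ bigC ^ 2 * gsize k ^ 2 := by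
    intro k
    refine le_trans ?_ (hen k)
    rw [← ENNReal.ofReal_le_ofReal_iff (energy_nonneg _)]
    exact le_self_add.trans (hy1 k)
  have hyd : ∀ k, edist (x k) (y k) ≤ ENNReal.ofReal (bigC ^ 2 * gsize k) := by
    intro k
    have h1 : ENNReal.ofReal (δ k) * edist (x k) (y k) ≤
        ENNReal.ofReal (bigC ^ 2 * gsize k ^ 2) :=
      (le_add_self.trans (hy1 k)).trans (ENNReal.ofReal_le_ofReal (hen k))
    rw [mul_comm, ← ENNReal.le_div_iff_mul_le (Or.inl (hne k))
      (Or.inl ENNReal.ofReal_ne_top), ← ENNReal.ofReal_div_of_pos (hδpos k)] at h1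
    refine h1.trans (ENNReal.ofReal_le_ofReal ?_)
    rw [div_le_iff₀ (hδpos k)]
    have hg := gsize_nonneg k
    have h2 : gsize k ≤ δ k := le_add_of_nonneg_right (by positivity)
    calc bigC ^ 2 * gsize k ^ 2 = bigC ^ 2 * gsize k * gsize k := by ring
      _ ≤ bigC ^ 2 * gsize k * δ k := mul_le_mul_of_nonneg_left h2 (by positivity)
  obtain ⟨z, ψ, hψ, hz⟩ := hPS y (by
    obtain ⟨B, hB⟩ := hen0.bddAbove_range
    refine ⟨B, fun k => ?_⟩
    rw [abs_of_nonneg (energy_nonneg _)]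
    exact (hyE k).trans (hB ⟨k, rfl⟩)) (by
    intro ε hε
    filter_upwards [hδ0.eventually_lt_const hε] with k hk v
    have h2 := slope_bound' N h.finsler (fun x => energy (γ x)) (y k)
      (h.energy_C1.mdifferentiable one_ne_zero _) (δ k) (by
        intro σ b hb hσ hσ0 ℓ hℓ hl
        have h3 := hlen σ 0 b hb.le hσ
        rw [hσ0] at h3
        have h4 := hy2 k (σ b)
        have h5 : ENNReal.ofReal (energy (γ (y k))) ≤
            ENNReal.ofReal (energy (γ (σ b)) + δ k * ℓ) := by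
          refine h4.trans ?_
          rw [ENNReal.ofReal_add (energy_nonneg _) (mul_nonneg (hδpos k).le hℓ),
            ENNReal.ofReal_mul (hδpos k).le]
          exact add_le_add le_rfl (mul_le_mul' le_rfl (h3.trans hl))
        rw [ENNReal.ofReal_le_ofReal_iff
          (add_nonneg (energy_nonneg _) (mul_nonneg (hδpos k).le hℓ))] at h5
        linarith) v
    exact h2.trans (mul_le_mul_of_nonneg_right hk.le (h.finsler.nonneg _ _)))
  have hzE : energy (γ z) = 0 := by
    have h1 : Tendsto (fun j => energy (γ (y (ψ j)))) atTop (𝓝 (energy (γ z))) :=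
      (hEcont.tendsto z).comp hz
    refine le_antisymm (le_of_tendsto_of_tendsto h1 (hen0.comp hψ.tendsto_atTop) ?_)
      (energy_nonneg _)
    exact Filter.Eventually.of_forall fun j => hyE (ψ j)
  refine no_limit hs h x hx ψ z ?_ hzE
  have h1 : Tendsto (fun j => edist (x (ψ j)) (y (ψ j)) + edist (y (ψ j)) z) atTop
      (𝓝 (0 + 0)) := by
    apply Tendsto.add
    · have h2 : Tendsto (fun j : ℕ => ENNReal.ofReal (bigC ^ 2 * gsize (ψ j))) atTop (𝓝 0) := by
        have h3 := (tendsto_gsize.const_mul (bigC ^ 2)).comp hψ.tendsto_atTop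
        rw [mul_zero] at h3
        have h4 := ENNReal.tendsto_ofReal h3
        rwa [ENNReal.ofReal_zero] at h4
      exact tendsto_of_tendsto_of_tendsto_of_le_of_le tendsto_const_nhds h2
        (fun _ => zero_le) (fun j => hyd (ψ j))
    · exact tendsto_iff_edist_tendsto_0.mp hz
  rw [add_zero] at h1
  rw [tendsto_iff_edist_tendsto_0]
  exact tendsto_of_tendsto_of_tendsto_of_le_of_le tendsto_const_nhds h1
    (fun _ => zero_le) (fun j => edist_triangle _ _ _)

end

end Pool.Agent.Helper115.PS
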