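import Pool.Agent.Helper115.Chain

set_option autoImplicit false

namespace Pool.Agent.Helper115.Nd

open MvPolynomial

variable {R : Type*} [CommRing R]

theorem ent_congr (D : ℕ) (y y' : ℕ → R) (k i : ℕ) (h1 : y i = y' i)
    (h2 : y (i + 1) = y' (i + 1)) : ent D y k i = ent D y' k i := by
  simp only [ent, h1, h2]

theorem mino_congr (D ρ M : ℕ) (y y' : ℕ → R) (h : ∀ i, i ≤ M + 1 → y i = y' i)
    (j : Fin (M + 1)) : mino D ρ M y j = mino D ρ M y' j := by
  simp only [mino]
  congr 2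
  ext l i
  simp only [Matrix.of_apply]
  have h1 := (j.succAbove i).isLt
  exact ent_congr _ _ _ _ _ (h _ (by omega)) (h _ (by omega))

theorem tdet_congr (D ρ M : ℕ) (y y' : ℕ → R) (h : ∀ i, i ≤ M + 1 → y i = y' i) :
    tdet D ρ M y = tdet D ρ M y' := by
  simp only [tdet]
  congr 1
  ext l i
  simp only [Matrix.of_apply]
  have h1 := i.isLt
  exact ent_congr _ _ _ _ _ (h _ (by omega)) (h _ (by omega))

theorem lin_pow (D : ℕ) (y : ℕ → R) (j : ℕ) (a b : R) :
    (b + a * y j) * (b + a * y (j + 1)) ^ D =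
      b ^ (D + 1) + ∑ k ∈ Finset.range (D + 1), a ^ (k + 1) * b ^ (D - k) * ent D y k j := by
  have h1 : (b + a * y (j + 1)) ^ D =
      ∑ k ∈ Finset.range (D + 1), (a * y (j + 1)) ^ k * b ^ (D - k) * (D.choose k : R) := by
    rw [add_comm, add_pow]
  have h2 : b * (b + a * y (j + 1)) ^ D = b ^ (D + 1) +
      ∑ k ∈ Finset.range (D + 1),
        a ^ (k + 1) * b ^ (D - k) * ((D.choose (k + 1) : R) * y (j + 1) ^ (k + 1)) := by
    rw [h1, Finset.sum_range_succ', Finset.sum_range_succ (n := D)]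
    rw [Nat.choose_succ_self]
    simp only [Nat.cast_zero, zero_mul, mul_zero, add_zero, pow_zero, Nat.choose_zero_right,
      Nat.cast_one, mul_one, one_mul, Nat.sub_zero]
    rw [mul_add, Finset.mul_sum, add_comm, ← pow_succ']
    congr 1
    refine Finset.sum_congr rfl fun k hk => ?_
    have hk' : k < D := Finset.mem_range.mp hk
    have h3 : b ^ (D - k) = b * b ^ (D - (k + 1)) := by
      rw [← pow_succ']; congr 1; omega
    rw [h3, mul_pow]
    ring
  have h4 : a * y j * (b + a * y (j + 1)) ^ D =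
      ∑ k ∈ Finset.range (D + 1),
        a ^ (k + 1) * b ^ (D - k) * ((D.choose k : R) * y j * y (j + 1) ^ k) := by
    rw [h1, Finset.mul_sum]
    refine Finset.sum_congr rfl fun k _ => ?_
    rw [mul_pow]
    ring
  rw [add_mul, h2, h4, add_assoc, ← Finset.sum_add_distrib]
  congr 1
  refine Finset.sum_congr rfl fun k _ => ?_
  rw [ent]
  ring

theorem key_identity (D : ℕ) (y : ℕ → R) (a b : R) :
    ∑ j : Fin (D + 1), mino D 0 D y j * ((b + a * y j) * (b + a * y (j + 1)) ^ D) =
      b ^ (D + 1) * ∑ j : Fin (D + 1), mino D 0 D y j + a * b ^ D * tdet D 0 D y := by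
  simp_rw [lin_pow]
  simp_rw [mul_add, Finset.sum_add_distrib, Finset.mul_sum]
  congr 1
  · refine Finset.sum_congr rfl fun j _ => ?_
    ring
  · rw [Finset.sum_comm]
    rw [Finset.sum_eq_single 0]
    · simp only [zero_add, pow_one, Nat.sub_zero]
      rw [← sum_ent_mul_mino_eq_tdet, Finset.mul_sum]
      refine Finset.sum_congr rfl fun j _ => ?_
      ring
    · intro k hk hk0
      obtain ⟨l, rfl⟩ : ∃ l, k = l + 1 := ⟨k - 1, by omega⟩
      have hl : l < D := by
        have := Finset.mem_range.mp hk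
        omega
      have h1 := sum_ent_mul_mino_eq_zero D 0 D y l hl
      have h2 : ∀ j : Fin (D + 1),
          mino D 0 D y j * (a ^ (l + 1 + 1) * b ^ (D - (l + 1)) * ent D y (l + 1) j) =
          (a ^ (l + 1 + 1) * b ^ (D - (l + 1))) * (ent D y (0 + 1 + l) j * mino D 0 D y j) := by
        intro j
        rw [show 0 + 1 + l = l + 1 by omega]
        ring
      rw [Finset.sum_congr rfl fun j _ => h2 j, ← Finset.mul_sum, h1, mul_zero]
    · intro h
      exact absurd (Finset.mem_range.mpr (Nat.succ_pos D)) h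

theorem chain_zero (A : Type*) [CommRing A] [Algebra ℂ A] (D : ℕ) (y Q : ℕ → A) (L : A)
    (hy : y 0 = 0)
    (hQ : ∀ j : Fin (D + 1), Q j * Q (j + 1) ^ D = L * mino D 0 D y j) :
    aeval (fun j : Fin (D + 2) => (L * tdet D 0 D y +
      -(L * (∑ j : Fin (D + 1), mino D 0 D y j) + Q 0 ^ (D + 1)) * y j) * Q j) (chainF D) = 0 := by
  set b := L * tdet D 0 D y with hb
  set S := ∑ j : Fin (D + 1), mino D 0 D y j with hS
  set a := -(L * S + Q 0 ^ (D + 1)) with ha
  rw [chainF]
  simp only [map_add, map_pow, map_sum, map_mul, aeval_X, Fin.val_zero, hy, mul_zero, add_zero,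
    Fin.val_castSucc, Fin.val_succ]
  have h1 : ∀ j : Fin (D + 1), (b + a * y j) * Q j * ((b + a * y (j + 1)) * Q (j + 1)) ^ D =
      L * (mino D 0 D y j * ((b + a * y j) * (b + a * y (j + 1)) ^ D)) := by
    intro j
    rw [mul_pow]
    linear_combination ((b + a * y j) * (b + a * y (j + 1)) ^ D) * hQ j
  rw [Finset.sum_congr rfl fun j _ => h1 j, ← Finset.mul_sum, key_identity, ← hS]
  rw [mul_pow]
  have h2 : L * (b ^ (D + 1) * S + a * b ^ D * tdet D 0 D y) =
      b ^ (D + 1) * (L * S) + a * b ^ D * b := by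
    rw [hb]; ring
  rw [h2, ha]
  ring

theorem rev_chain {A K : Type*} [CommRing A] [Field K] (D : ℕ) (M' : ℕ → A) (z lam : A)
    (ev : A →+* K) (k : ℕ) : ∃ (B : ℕ → A) (L : A),
      (∀ i, i < k → B (i + 1) * B i ^ D = L * M' i) ∧
      ∀ b : ℕ → K, b 0 = ev z → (∀ i, i < k → b (i + 1) * b i ^ D = ev lam * ev (M' i)) →
        (∀ i, i ≤ k → b i ≠ 0) →
        ∃ f : K, f ≠ 0 ∧ (∀ i, i ≤ k → ev (B i) = f * b i) ∧ ev L = f ^ (D + 1) * ev lam := by
  induction k with
  | zero =>
    refine ⟨fun _ => z, lam, fun i hi => absurd hi (Nat.not_lt_zero i), ?_⟩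
    intro b h0 _ _
    refine ⟨1, one_ne_zero, ?_, by simp⟩
    intro i hi
    obtain rfl : i = 0 := by omega
    simp [h0]
  | succ k ih =>
    obtain ⟨B, L, h1, h2⟩ := ih
    refine ⟨fun i => if i ≤ k then B k ^ D * B i else L * M' k, B k ^ (D * (D + 1)) * L, ?_, ?_⟩
    · intro i hi
      rcases Nat.lt_succ_iff_lt_or_eq.mp hi with h | rfl
      · simp only [if_pos (show i + 1 ≤ k by omega), if_pos (show i ≤ k by omega)]
        have h3 := h1 i h
        rw [mul_pow]
        have h4 : B k ^ D * B (i + 1) * ((B k ^ D) ^ D * B i ^ D) =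
            (B k ^ D * (B k ^ D) ^ D) * (B (i + 1) * B i ^ D) := by ring
        rw [h4, h3]
        ring
      · simp only [if_neg (show ¬ i + 1 ≤ i by omega), le_refl, if_true]
        ring
    · intro b h0 hb hb0
      obtain ⟨f, hf0, hf1, hf2⟩ := h2 b h0 (fun i hi => hb i (by omega)) (fun i hi => hb0 i (by omega))
      refine ⟨f * (f * b k) ^ D, mul_ne_zero hf0 (pow_ne_zero _ (mul_ne_zero hf0 (hb0 k (by omega)))),
        ?_, ?_⟩
      · intro i hi
        by_cases h : i ≤ k
        · simp only [if_pos h, map_mul, map_pow, hf1 k le_rfl, hf1 i h]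
          ring
        · obtain rfl : i = k + 1 := by omega
          simp only [if_neg h, map_mul, hf2]
          rw [mul_assoc, ← hb k (by omega)]
          ring
      · simp only [map_mul, map_pow, hf1 k le_rfl, hf2]
        ring

theorem exists_roots {Ω : Type*} [Field Ω] [IsAlgClosed Ω] (D : ℕ) (hD : 1 ≤ D) (c0 : Ω)
    (hc0 : c0 ≠ 0) (m : ℕ → Ω) (hm : ∀ j, m j ≠ 0) :
    ∃ q : ℕ → Ω, (∀ j, q j ≠ 0) ∧ q 0 ^ (D + 1) = c0 ∧ ∀ j, q j * q (j + 1) ^ D = m j := by
  choose r hr using fun x : Ω => IsAlgClosed.exists_pow_nat_eq x (show 0 < D by omega)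
  obtain ⟨z0, hz0⟩ := IsAlgClosed.exists_pow_nat_eq c0 (show 0 < D + 1 by omega)
  let q : ℕ → Ω := fun n => Nat.rec z0 (fun j prev => r (m j / prev)) n
  have hq0 : q 0 = z0 := rfl
  have hqs : ∀ j, q (j + 1) = r (m j / q j) := fun j => rfl
  have hne : ∀ j, q j ≠ 0 := by
    intro j
    induction j with
    | zero =>
      intro h
      rw [hq0] at h
      rw [h, zero_pow (by omega)] at hz0
      exact hc0 hz0.symm
    | succ j ih =>
      intro h
      have h1 := hr (m j / q j)
      rw [← hqs, h, zero_pow (by omega)] at h1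
      exact div_ne_zero (hm j) ih h1.symm
  refine ⟨q, hne, hz0, ?_⟩
  intro j
  rw [hqs, hr, mul_div_cancel₀ _ (hne j)]

end Pool.Agent.Helper115.Nd
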