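import Pool.Agent.Helper115.Smooth

set_option autoImplicit false

namespace Pool.Agent.Helper115.Nd

open MvPolynomial

theorem small_one : ∃ F : MvPolynomial (Fin (1 + 1)) ℂ, F.IsHomogeneous 1 ∧
    (∀ x : Fin (1 + 1) → ℂ, x ≠ 0 → eval x F = 0 → ∃ i, eval x (pderiv i F) ≠ 0) ∧
    ∃ (m e : ℕ) (g : Fin (1 + 1) → MvPolynomial (Fin (m + 1)) ℂ),
      (∀ i, (g i).IsHomogeneous e) ∧ (∃ i, g i ≠ 0) ∧ aeval g F = 0 ∧
      ∀ (k : ℕ) (h : MvPolynomial (Fin (1 + 1)) ℂ), h.IsHomogeneous k → aeval g h = 0 →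
        ∀ x : Fin (1 + 1) → ℂ, eval x F = 0 → eval x h = 0 := by
  refine ⟨X 0, isHomogeneous_X ℂ 0, ?_, 0, 0, ![0, 1], ?_, ⟨1, by simp⟩, by simp, ?_⟩
  · intro x _ _
    exact ⟨0, by simp⟩
  · intro i
    fin_cases i
    · exact isHomogeneous_zero _ _ _
    · exact isHomogeneous_one _ _
  · intro k h hk h0 x hx
    rw [eval_X] at hx
    have h1 : x = fun i => x 1 * (![0, 1] : Fin 2 → ℂ) i := by
      funext i
      fin_cases i
      · simpa using hx
      · simp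
    have h2 : aeval (fun i => x 1 * (![0, 1] : Fin 2 → ℂ) i) h =
        x 1 ^ k * aeval (![0, 1] : Fin 2 → ℂ) h := aeval_mul_of_isHomogeneous h k hk _ _
    have h3 : aeval (fun i => (aeval (0 : Fin 1 → ℂ)) ((![0, 1] :
        Fin 2 → MvPolynomial (Fin 1) ℂ) i)) h = 0 := by
      rw [← comp_aeval_apply, h0, map_zero]
    have h4 : (fun i => (aeval (0 : Fin 1 → ℂ)) ((![0, 1] :
        Fin 2 → MvPolynomial (Fin 1) ℂ) i)) = (![0, 1] : Fin 2 → ℂ) := by
      funext i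
      fin_cases i <;> simp
    rw [h4] at h3
    rw [h1, ← coe_aeval_eq_eval]
    change aeval _ h = 0
    rw [h2, h3, mul_zero]

theorem small_two : ∃ F : MvPolynomial (Fin (2 + 1)) ℂ, F.IsHomogeneous 2 ∧
    (∀ x : Fin (2 + 1) → ℂ, x ≠ 0 → eval x F = 0 → ∃ i, eval x (pderiv i F) ≠ 0) ∧
    ∃ (m e : ℕ) (g : Fin (2 + 1) → MvPolynomial (Fin (m + 1)) ℂ),
      (∀ i, (g i).IsHomogeneous e) ∧ (∃ i, g i ≠ 0) ∧ aeval g F = 0 ∧
      ∀ (k : ℕ) (h : MvPolynomial (Fin (2 + 1)) ℂ), h.IsHomogeneous k → aeval g h = 0 →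
        ∀ x : Fin (2 + 1) → ℂ, eval x F = 0 → eval x h = 0 := by
  refine ⟨X 0 * X 2 - X 1 ^ 2, ?_, ?_, 1, 2, ![X 0 ^ 2, X 0 * X 1, X 1 ^ 2], ?_, ⟨0, ?_⟩, ?_, ?_⟩
  · refine IsHomogeneous.sub ?_ ?_
    · exact (isHomogeneous_X ℂ 0).mul (isHomogeneous_X ℂ 2)
    · exact (isHomogeneous_X ℂ 1).pow 2
  · intro x hx _
    by_contra hcon
    push Not at hcon
    apply hx
    have h0 := hcon 0
    have h1 := hcon 1
    have h2 := hcon 2
    simp [pderiv_mul, pderiv_pow, pderiv_X, Pi.single_apply] at h0 h1 h2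
    funext i
    fin_cases i
    · simpa using h2
    · simpa using h1
    · simpa using h0
  · intro i
    fin_cases i
    · exact (isHomogeneous_X ℂ 0).pow 2
    · exact (isHomogeneous_X ℂ 0).mul (isHomogeneous_X ℂ 1)
    · exact (isHomogeneous_X ℂ 1).pow 2
  · simp
  · simp
    ring
  · intro k h _ h0 x hx
    have hx' : x 0 * x 2 = x 1 ^ 2 := by
      have : x 0 * x 2 - x 1 ^ 2 = 0 := by simpa using hx
      linear_combination this
    obtain ⟨s, t, hs, hst, ht⟩ : ∃ s t : ℂ, s ^ 2 = x 0 ∧ s * t = x 1 ∧ t ^ 2 = x 2 := by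
      by_cases hx0 : x 0 = 0
      · have hx1 : x 1 = 0 := by
          rw [hx0, zero_mul] at hx'
          exact eq_zero_of_pow_eq_zero hx'.symm
        obtain ⟨t, ht⟩ := IsAlgClosed.exists_pow_nat_eq (x 2) (show 0 < 2 by norm_num)
        exact ⟨0, t, by simp [hx0], by simp [hx1], ht⟩
      · obtain ⟨s, hs⟩ := IsAlgClosed.exists_pow_nat_eq (x 0) (show 0 < 2 by norm_num)
        have hs0 : s ≠ 0 := by
          rintro rfl
          apply hx0
          rw [← hs]; norm_num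
        refine ⟨s, x 1 / s, hs, by field_simp, ?_⟩
        rw [div_pow, hs, ← hx']
        field_simp
    have h1 : aeval (fun i => (aeval (![s, t] : Fin 2 → ℂ)) ((![X 0 ^ 2, X 0 * X 1, X 1 ^ 2] :
        Fin 3 → MvPolynomial (Fin 2) ℂ) i)) h = 0 := by
      rw [← comp_aeval_apply, h0, map_zero]
    have h2 : (fun i => (aeval (![s, t] : Fin 2 → ℂ)) ((![X 0 ^ 2, X 0 * X 1, X 1 ^ 2] :
        Fin 3 → MvPolynomial (Fin 2) ℂ) i)) = x := by
      funext i
      fin_cases i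
      · simpa using hs
      · simpa using hst
      · simpa using ht
    rw [h2] at h1
    exact h1

/-- For every degree `d ≥ 1` there is a smooth unirational hypersurface in `ℙ^d`. -/
theorem upper (d : ℕ) (hd : 1 ≤ d) : ∃ F : MvPolynomial (Fin (d + 1)) ℂ, F.IsHomogeneous d ∧
    (∀ x : Fin (d + 1) → ℂ, x ≠ 0 → eval x F = 0 → ∃ i, eval x (pderiv i F) ≠ 0) ∧
    ∃ (m e : ℕ) (g : Fin (d + 1) → MvPolynomial (Fin (m + 1)) ℂ),
      (∀ i, (g i).IsHomogeneous e) ∧ (∃ i, g i ≠ 0) ∧ aeval g F = 0 ∧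
      ∀ (k : ℕ) (h : MvPolynomial (Fin (d + 1)) ℂ), h.IsHomogeneous k → aeval g h = 0 →
        ∀ x : Fin (d + 1) → ℂ, eval x F = 0 → eval x h = 0 := by
  rcases Nat.lt_or_ge d 3 with h3 | h3
  · interval_cases d
    · exact small_one
    · exact small_two
  · obtain ⟨D, rfl⟩ : ∃ D, d = D + 1 := ⟨d - 1, by omega⟩
    obtain ⟨m, e, g, hg1, hg2, hg3, hg4⟩ := param_forms D (by omega)
    refine ⟨chainF D, chainF_isHomogeneous D, ?_, m, e, g, hg1, hg2, hg3, ?_⟩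
    · intro x hx _
      by_contra hcon
      push Not at hcon
      exact hx (chainF_smooth D (by omega) x hcon)
    · intro k h hk h0 x hx
      obtain ⟨r, hr⟩ := hg4 k h hk h0
      rw [hr, map_mul, hx, zero_mul]

end Pool.Agent.Helper115.Nd
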