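import Pool.Agent.Helper115.Homog

set_option autoImplicit false

namespace Pool.Agent.Helper115.Nd

open MvPolynomial

theorem eval_pderiv_chainF (D : ℕ) (x : Fin (D + 2) → ℂ) (i : Fin (D + 2)) :
    eval x (pderiv i (chainF D)) =
      (if i = 0 then ((D : ℂ) + 1) * x 0 ^ D else 0) +
      ∑ j : Fin (D + 1), ((if j.succ = i then (D : ℂ) * x j.castSucc * x j.succ ^ (D - 1) else 0) +
        (if j.castSucc = i then x j.succ ^ D else 0)) := by
  rw [chainF, map_add, map_sum, map_add, map_sum]
  congr 1
  · rw [pderiv_pow, pderiv_X]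
    simp only [Nat.add_sub_cancel]
    by_cases h : i = 0
    · subst h; simp
    · rw [if_neg h, Pi.single_eq_of_ne' h]; simp
  · refine Finset.sum_congr rfl fun j _ => ?_
    rw [pderiv_mul, pderiv_pow, pderiv_X, pderiv_X, map_add, add_comm (eval x _) (eval x _)]
    congr 1
    · by_cases h : j.succ = i
      · subst h; simp; ring
      · rw [if_neg h, Pi.single_eq_of_ne h]; simp
    · by_cases h : j.castSucc = i
      · subst h; simp
      · rw [if_neg h, Pi.single_eq_of_ne h]; simp

theorem chainF_smooth (D : ℕ) (hD : 2 ≤ D) (x : Fin (D + 2) → ℂ)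
    (hx : ∀ i, eval x (pderiv i (chainF D)) = 0) : x = 0 := by
  simp only [eval_pderiv_chainF] at hx
  -- derivative with respect to x_0
  have h0 : ((D : ℂ) + 1) * x 0 ^ D + x 1 ^ D = 0 := by
    have h := hx 0
    rw [if_pos rfl, Finset.sum_eq_single 0] at h
    · simpa [Fin.succ_ne_zero] using h
    · intro j _ hj
      rw [if_neg (Fin.succ_ne_zero j), if_neg, add_zero]
      intro h1
      exact hj (Fin.castSucc_injective _ (h1.trans (Fin.castSucc_zero).symm))
    · intro h1; exact absurd (Finset.mem_univ _) h1
  -- derivative with respect to middle variables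
  have h1 : ∀ j : Fin D, (D : ℂ) * x j.castSucc.castSucc * x j.castSucc.succ ^ (D - 1) +
      x j.succ.succ ^ D = 0 := by
    intro j
    have h := hx j.castSucc.succ
    rw [if_neg (Fin.succ_ne_zero _), zero_add, Finset.sum_add_distrib,
      Finset.sum_eq_single j.castSucc, Finset.sum_eq_single j.succ] at h
    · rw [if_pos rfl, if_pos (Fin.succ_castSucc j).symm] at h
      exact h
    · intro k _ hk
      rw [if_neg]
      intro h2
      rw [Fin.succ_castSucc] at h2
      exact hk (Fin.castSucc_injective _ h2)
    · intro h2; exact absurd (Finset.mem_univ _) h2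
    · intro k _ hk
      rw [if_neg]
      intro h2
      exact hk (Fin.succ_injective _ h2)
    · intro h2; exact absurd (Finset.mem_univ _) h2
  -- derivative with respect to the last variable
  have h2 : (D : ℂ) * x (Fin.last D).castSucc * x (Fin.last D).succ ^ (D - 1) = 0 := by
    have h := hx (Fin.last D).succ
    rw [if_neg (Fin.succ_ne_zero _), zero_add, Finset.sum_add_distrib,
      Finset.sum_eq_single (Fin.last D), Finset.sum_eq_zero] at h
    · rw [if_pos rfl, add_zero] at h
      exact h
    · intro k _
      rw [if_neg]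
      rw [Fin.succ_last]
      exact (Fin.castSucc_lt_last k).ne
    · intro k _ hk
      rw [if_neg]
      intro h3
      exact hk (Fin.succ_injective _ h3)
    · intro h3; exact absurd (Finset.mem_univ _) h3
  have hDne : (D : ℂ) ≠ 0 := by exact_mod_cast (by omega : D ≠ 0)
  have hD1 : ((D : ℂ) + 1) ≠ 0 := by exact_mod_cast Nat.succ_ne_zero D
  -- key: if `D * x_{j} * x_{j+1}^(D-1) = 0` then `x_{j+1} = 0`
  have key : ∀ j : Fin (D + 1), (D : ℂ) * x j.castSucc * x j.succ ^ (D - 1) = 0 → x j.succ = 0 := by
    intro j hj
    rcases mul_eq_zero.mp hj with h3 | h3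
    · have h4 : x j.castSucc = 0 := (mul_eq_zero.mp h3).resolve_left hDne
      revert h4
      refine Fin.cases ?_ (fun k => ?_) j
      · intro h4
        rw [Fin.castSucc_zero] at h4
        rw [h4, zero_pow (by omega), mul_zero, zero_add] at h0
        exact eq_zero_of_pow_eq_zero h0
      · intro h4
        have h5 := h1 k
        have h6 : x k.castSucc.succ = 0 := h4
        rw [h6, zero_pow (by omega), mul_zero, zero_add] at h5
        exact eq_zero_of_pow_eq_zero h5
    · exact eq_zero_of_pow_eq_zero h3
  have hall : ∀ k : ℕ, ∀ j : Fin (D + 1), (j : ℕ) + k = D → x j.succ = 0 := by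
    intro k
    induction k with
    | zero =>
      intro j hj
      obtain rfl : j = Fin.last D := Fin.ext (by simpa using hj)
      exact key _ h2
    | succ k ih =>
      intro j hj
      have hj' : (j : ℕ) < D := by omega
      have h3 := ih (⟨j, hj'⟩ : Fin D).succ (by simp; omega)
      have h4 := h1 ⟨j, hj'⟩
      rw [h3, zero_pow (by omega), add_zero] at h4
      exact key j h4
  funext i
  refine Fin.cases ?_ (fun j => ?_) i
  · have h3 := hall D 0 (by simp)
    have h4 : x 1 = 0 := h3
    rw [h4, zero_pow (by omega), add_zero] at h0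
    exact eq_zero_of_pow_eq_zero ((mul_eq_zero.mp h0).resolve_left hD1)
  · exact hall (D - j) j (by omega)

end Pool.Agent.Helper115.Nd
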