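import Pool.Agent.Helper115.Param

set_option autoImplicit false

namespace Pool.Agent.Helper115.Nd

open MvPolynomial

/-- A polynomial parametrisation of the chain hypersurface with dense image. -/
theorem param (D : ℕ) (hD : 2 ≤ D) :
    ∃ (N : ℕ) (G : Fin (D + 2) → MvPolynomial (Fin N) ℂ),
      aeval G (chainF D) = 0 ∧ (∃ i, G i ≠ 0) ∧
      ∀ (k : ℕ) (h : MvPolynomial (Fin (D + 2)) ℂ), h.IsHomogeneous k → aeval G h = 0 →
        chainF D ∣ h := by
  obtain ⟨Ω, _, _, _, y, κ, hy0, hind, htd⟩ := exists_generic D hD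
  have hne : ∀ j : Fin (D + 1), κ * mino D 0 D y j ≠ 0 := fun j => hind.ne_zero j
  -- the sum of the minors is nonzero
  have hS : κ * ∑ j : Fin (D + 1), mino D 0 D y j ≠ 0 := by
    intro h0
    have h1 : aeval (fun j : Fin (D + 1) => κ * mino D 0 D y j)
        (∑ j : Fin (D + 1), (X j : MvPolynomial (Fin (D + 1)) ℂ)) = 0 := by
      rw [map_sum]
      simp only [aeval_X]
      rw [← Finset.mul_sum]
      exact h0
    have h2 : (∑ j : Fin (D + 1), (X j : MvPolynomial (Fin (D + 1)) ℂ)) = 0 :=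
      (algebraicIndependent_iff.mp hind) _ h1
    have h3 := congrArg (eval (fun j : Fin (D + 1) => if j = 0 then (1 : ℂ) else 0)) h2
    simp at h3
  have hκ : κ ≠ 0 := left_ne_zero_of_mul hS
  -- the generic point
  let m : ℕ → Ω := fun j => if h : j < D + 1 then κ * mino D 0 D y ⟨j, h⟩ else 1
  have hm : ∀ j, m j ≠ 0 := by
    intro j
    simp only [m]
    split_ifs with h
    · exact hne _
    · exact one_ne_zero
  obtain ⟨q, hq0, hq1, hq2⟩ := exists_roots D (by omega)
    (-(κ * ∑ j : Fin (D + 1), mino D 0 D y j)) (neg_ne_zero.mpr hS) m hm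
  have hq3 : ∀ j : Fin (D + 1), q j * q (j + 1) ^ D = κ * mino D 0 D y j := by
    intro j
    rw [hq2]
    simp only [m, dif_pos j.isLt]
  let qf : Fin (D + 2) → Ω := fun i => q i
  have hqF : aeval qf (chainF D) = 0 := by
    rw [chainF]
    simp only [map_add, map_pow, map_sum, map_mul, aeval_X, qf, Fin.val_zero, Fin.val_castSucc,
      Fin.val_succ]
    rw [hq1, Finset.sum_congr rfl fun j _ => hq3 j, ← Finset.mul_sum]
    ring
  have hqind : AlgebraicIndependent ℂ (fun j : Fin (D + 1) => qf j.castSucc * qf j.succ ^ D) := by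
    have : (fun j : Fin (D + 1) => qf j.castSucc * qf j.succ ^ D) =
        fun j : Fin (D + 1) => κ * mino D 0 D y j := by
      funext j
      exact hq3 j
    rw [this]
    exact hind
  -- the parameter ring
  let N := D + 3
  let A := MvPolynomial (Fin N) ℂ
  let z : A := X ⟨0, by omega⟩
  let lam : A := X ⟨D + 2, by omega⟩
  let yA : ℕ → A := fun j => if h : 1 ≤ j ∧ j ≤ D + 1 then X ⟨j, by omega⟩ else 0
  let θ : Fin N → Ω := fun i => if (i : ℕ) = 0 then q (D + 1) else
    if (i : ℕ) = D + 2 then κ else y i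
  let ev : A →ₐ[ℂ] Ω := aeval θ
  have hevX : ∀ i : Fin N, ev (X i) = θ i := fun i => aeval_X θ i
  have hevz : ev z = q (D + 1) := by
    rw [hevX]; simp [θ]
  have hevl : ev lam = κ := by
    rw [hevX]; simp [θ]
  have hevy : ∀ j, j ≤ D + 1 → ev (yA j) = y j := by
    intro j hj
    simp only [yA]
    split_ifs with h
    · rw [hevX]
      simp only [θ]
      rw [if_neg (by omega), if_neg (by omega)]
    · obtain rfl : j = 0 := by omega
      rw [map_zero, hy0]
  have hyA0 : yA 0 = 0 := by simp [yA]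
  have hevm : ∀ j : Fin (D + 1), ev (mino D 0 D yA j) = mino D 0 D y j := by
    intro j
    have h1 := map_mino (ev : A →+* Ω) D 0 D yA j
    have h2 : ev (mino D 0 D yA j) = (ev : A →+* Ω) (mino D 0 D yA j) := rfl
    rw [h2, h1]
    exact mino_congr D 0 D _ _ hevy j
  have hevt : ev (tdet D 0 D yA) = tdet D 0 D y := by
    have h1 := map_tdet (ev : A →+* Ω) D 0 D yA
    have h2 : ev (tdet D 0 D yA) = (ev : A →+* Ω) (tdet D 0 D yA) := rfl
    rw [h2, h1]
    exact tdet_congr D 0 D _ _ hevy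
  let MA : ℕ → A := fun j => if h : j < D + 1 then mino D 0 D yA ⟨j, h⟩ else 1
  have hMA : ∀ j, ∀ h : j < D + 1, MA j = mino D 0 D yA ⟨j, h⟩ := fun j h => by
    simp only [MA, dif_pos h]
  obtain ⟨B, L, hB1, hB2⟩ := rev_chain D (fun i => MA (D - i)) z lam (ev : A →+* Ω) (D + 1)
  obtain ⟨f, hf0, hf1, hf2⟩ := hB2 (fun i => q (D + 1 - i)) (by simpa using hevz.symm) (by
      intro i hi
      have h1 : D + 1 - (i + 1) = D - i := by omega
      have h2 : D + 1 - i = D - i + 1 := by omega
      simp only [h1, h2]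
      rw [hMA _ (show D - i < D + 1 by omega)]
      have h3 := hq3 ⟨D - i, by omega⟩
      simp only at h3
      rw [h3]
      have h4 : (ev : A →+* Ω) lam = κ := hevl
      have h5 : (ev : A →+* Ω) (mino D 0 D yA ⟨D - i, by omega⟩) = mino D 0 D y ⟨D - i, by omega⟩ :=
        hevm _
      rw [h4, h5]) (fun i _ => hq0 _)
  let Q : ℕ → A := fun j => B (D + 1 - j)
  have hQ : ∀ j : Fin (D + 1), Q j * Q (j + 1) ^ D = L * mino D 0 D yA j := by
    intro j
    have hj := j.isLt
    have h1 := hB1 (D - j) (by omega)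
    have h2 : D - (j : ℕ) + 1 = D + 1 - j := by omega
    have h3 : D + 1 - ((j : ℕ) + 1) = D - j := by omega
    have h4 : D - (D - (j : ℕ)) = j := by omega
    simp only [Q]
    rw [h3, ← h2, h1]
    simp only [h4]
    rw [hMA _ hj]
  have hevQ : ∀ j : ℕ, j ≤ D + 1 → ev (Q j) = f * q j := by
    intro j hj
    have h1 := hf1 (D + 1 - j) (by omega)
    have h2 : D + 1 - (D + 1 - j) = j := by omega
    simp only [h2] at h1
    exact h1
  have hevL : ev L = f ^ (D + 1) * κ := by
    have h1 : (ev : A →+* Ω) lam = κ := hevl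
    rw [h1] at hf2
    exact hf2
  let b := L * tdet D 0 D yA
  let a := -(L * (∑ j : Fin (D + 1), mino D 0 D yA j) + Q 0 ^ (D + 1))
  let G : Fin (D + 2) → A := fun j => (b + a * yA j) * Q j
  have heva : ev a = 0 := by
    simp only [a, map_neg, map_add, map_mul, map_sum, map_pow, hevL, hevm, hevQ 0 (by omega)]
    rw [mul_pow, hq1]
    ring
  have hevb : ev b ≠ 0 := by
    simp only [b, map_mul, hevL, hevt]
    exact mul_ne_zero (mul_ne_zero (pow_ne_zero _ hf0) hκ) htd
  have hevG : ∀ j : Fin (D + 2), ev (G j) = (ev b * f) * qf j := by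
    intro j
    have hj := j.isLt
    simp only [G, map_mul, map_add, heva, hevQ j (by omega), qf]
    ring
  refine ⟨N, G, chain_zero A D yA Q L hyA0 hQ, ⟨0, ?_⟩, ?_⟩
  · intro h0
    have h1 := hevG 0
    rw [h0, map_zero] at h1
    exact mul_ne_zero (mul_ne_zero hevb hf0) (hq0 _) h1.symm
  · intro k h hh h0
    have h1 : aeval (fun j => ev (G j)) h = 0 := by
      rw [← comp_aeval_apply, h0, map_zero]
    have h2 : (fun j => ev (G j)) = fun j => (ev b * f) * qf j := funext hevG
    rw [h2, aeval_mul_of_isHomogeneous h k hh] at h1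
    have h3 := (mul_eq_zero.mp h1).resolve_left (pow_ne_zero _ (mul_ne_zero hevb hf0))
    exact dvd_of_generic D (by omega) qf hqF hqind h h3

end Pool.Agent.Helper115.Nd
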